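import Pool.Agent.Run7.h58.Family

open MeasureTheory Finset
open scoped ENNReal RealInnerProductSpace

namespace Run7.h58

theorem lattice_ball (E : Finset I4) (e : I4) (n : ℕ) :
    #{e' ∈ E | dist e' e ≤ 2 ^ n} ≤ 2 ^ (4 * n + 8) := by
  have hsub : {e' ∈ E | dist e' e ≤ 2 ^ n} ⊆
      Fintype.piFinset (fun i : Fin 4 => Finset.Icc (e i - 2 ^ n) (e i + 2 ^ n)) := by
    intro e' he'
    rw [Finset.mem_filter] at he'
    rw [Fintype.mem_piFinset]
    intro i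
    have h2 := (dist_le_pi_dist e' e i).trans he'.2
    rw [Int.dist_eq] at h2
    have h3 : |e' i - e i| ≤ 2 ^ n := by exact_mod_cast h2
    obtain ⟨a1, a2⟩ := abs_le.1 h3
    rw [Finset.mem_Icc]
    constructor <;> linarith
  refine (Finset.card_le_card hsub).trans ?_
  rw [Fintype.card_piFinset]
  have h1 : ∀ i : Fin 4, #(Finset.Icc (e i - 2 ^ n) (e i + 2 ^ n)) ≤ 2 ^ (n + 2) := by
    intro i
    rw [Int.card_Icc]
    have : e i + 2 ^ n + 1 - (e i - 2 ^ n) = ((2 ^ (n + 1) + 1 : ℕ) : ℤ) := by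
      push_cast; ring
    rw [this, Int.toNat_natCast]
    have h2 : 1 ≤ 2 ^ n := Nat.one_le_two_pow
    rw [pow_add, pow_add]
    omega
  calc ∏ i : Fin 4, #(Finset.Icc (e i - 2 ^ n) (e i + 2 ^ n)) ≤ ∏ _i : Fin 4, 2 ^ (n + 2) :=
        Finset.prod_le_prod' (fun i _ => h1 i)
    _ = 2 ^ (4 * n + 8) := by
        rw [Finset.prod_const, Finset.card_univ, Fintype.card_fin, ← pow_mul]
        congr 1; ring

/-- crude energy bound for small spheres -/
theorem small_energy {Ψ : ℝ → ℝ} (hΨ : Profile Ψ) {y : I4 → V3} {r : I4 → ℝ} (hc : Cfg y r)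
    (k₀ : ℕ) (E : Finset I4) (hE : ∀ e ∈ E, 1 ≤ r e ∧ r e ≤ 16 ^ k₀) (a : I4 → ℝ)
    (ha : ∀ e, |a e| ≤ 1) :
    ∫ x, (∑ e ∈ E, a e * atom Ψ (y e) (r e) x) ^ 2 ≤
      2 ^ 30 * 256 ^ (4 * k₀ + 4) * ∑ e ∈ E, r e ^ 2 := by
  classical
  obtain ⟨f, hf⟩ : ∃ f : I4 → V3 → ℝ, f = fun e x => a e * atom Ψ (y e) (r e) x := ⟨_, rfl⟩
  have hfT : ∀ e, TF (f e) := by intro e; rw [hf]; exact atom_TF hΨ _ _ _
  have hfs : ∀ e x, x ∉ shell (y e) (r e) → f e x = 0 := by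
    intro e x hx
    rw [hf]; simp only
    rw [atom_zero hΨ (y e) (r e) x hx]; ring
  have hfe : ∀ x, ∑ e ∈ E, a e * atom Ψ (y e) (r e) x = ∑ e ∈ E, f e x := by
    intro x; rw [hf]
  simp only [hfe]
  set M : ℝ := 2 ^ (16 * k₀ + 16) with hM
  have e16 : (2 : ℝ) ^ (4 * k₀ + 2) = 4 * 16 ^ k₀ := by
    rw [pow_add, pow_mul]; norm_num; ring
  have h16 : (1 : ℝ) ≤ 16 ^ k₀ := one_le_pow₀ (by norm_num)
  have hpoint : ∀ x, (∑ e ∈ E, f e x) ^ 2 ≤ M * ∑ e ∈ E, f e x ^ 2 := by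
    intro x
    rw [sq, Finset.sum_mul_sum]
    calc ∑ e ∈ E, ∑ e' ∈ E, f e x * f e' x
        ≤ ∑ e ∈ E, ∑ e' ∈ E, (if dist e' e ≤ 2 ^ (4 * k₀ + 2) then
            (f e x ^ 2 + f e' x ^ 2) / 2 else 0) := by
          apply Finset.sum_le_sum
          intro e he
          apply Finset.sum_le_sum
          intro e' he'
          split_ifs with hd
          · nlinarith [sq_nonneg (f e x - f e' x)]
          · apply le_of_eq
            by_cases h1 : x ∈ shell (y e) (r e)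
            · by_cases h2 : x ∈ shell (y e') (r e')
              · exfalso
                apply hd
                have s1 := abs_le.1 (show |‖x - y e‖ - r e| ≤ 1 / 2 from h1)
                have s2 := abs_le.1 (show |‖x - y e'‖ - r e'| ≤ 1 / 2 from h2)
                have b1 := hE e he
                have b2 := hE e' he'
                rw [e16]
                refine (hc.d3 e' e).trans (max_le ?_ ?_)
                · have : y e' - y e = -(x - y e') + (x - y e) := by abel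
                  rw [this]
                  refine (norm_add_le _ _).trans ?_
                  rw [norm_neg]; linarith [s1.2, s2.2]
                · rw [abs_le]; constructor <;> linarith
              · rw [hfs e' x h2]; ring
            · rw [hfs e x h1]; ring
      _ = ∑ e ∈ E, ∑ e' ∈ E, (if dist e' e ≤ 2 ^ (4 * k₀ + 2) then f e x ^ 2 else 0) := by
          have s1 : ∑ e ∈ E, ∑ e' ∈ E, (if dist e' e ≤ 2 ^ (4 * k₀ + 2) then
              (f e x ^ 2 + f e' x ^ 2) / 2 else 0) = (∑ e ∈ E, ∑ e' ∈ E,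
                (if dist e' e ≤ 2 ^ (4 * k₀ + 2) then f e x ^ 2 else 0)) / 2 +
              (∑ e ∈ E, ∑ e' ∈ E,
                (if dist e' e ≤ 2 ^ (4 * k₀ + 2) then f e' x ^ 2 else 0)) / 2 := by
            rw [← add_div, ← Finset.sum_add_distrib, Finset.sum_div]
            apply Finset.sum_congr rfl
            intro e _
            rw [← Finset.sum_add_distrib, Finset.sum_div]
            apply Finset.sum_congr rfl
            intro e' _
            by_cases h : dist e' e ≤ 2 ^ (4 * k₀ + 2)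
            · rw [if_pos h, if_pos h, if_pos h]
            · rw [if_neg h, if_neg h, if_neg h]; simp
          have s2 : ∑ e ∈ E, ∑ e' ∈ E,
              (if dist e' e ≤ 2 ^ (4 * k₀ + 2) then f e' x ^ 2 else 0) =
              ∑ e ∈ E, ∑ e' ∈ E,
              (if dist e' e ≤ 2 ^ (4 * k₀ + 2) then f e x ^ 2 else 0) := by
            rw [Finset.sum_comm]
            apply Finset.sum_congr rfl
            intro e _
            apply Finset.sum_congr rfl
            intro e' _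
            rw [dist_comm]
          rw [s1, s2]; ring
      _ ≤ ∑ e ∈ E, M * f e x ^ 2 := by
          apply Finset.sum_le_sum
          intro e he
          rw [← Finset.sum_filter, Finset.sum_const, nsmul_eq_mul]
          apply mul_le_mul_of_nonneg_right _ (sq_nonneg _)
          have h3 := lattice_ball E e (4 * k₀ + 2)
          have h4 : 4 * (4 * k₀ + 2) + 8 = 16 * k₀ + 16 := by ring
          rw [h4] at h3
          rw [hM]
          exact_mod_cast h3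
      _ = _ := by rw [Finset.mul_sum]
  have hTs : TF (fun x => M * ∑ e ∈ E, f e x ^ 2) :=
    (TF.sum E _ (fun e _ => (hfT e).sq)).const_mul M
  have h1 : ∫ x, (∑ e ∈ E, f e x) ^ 2 ≤ ∫ x, M * ∑ e ∈ E, f e x ^ 2 :=
    integral_mono (TF.sum E _ (fun e _ => hfT e)).sq.int hTs.int hpoint
  refine h1.trans ?_
  rw [integral_const_mul, integral_finsetSum _ (fun e _ => (hfT e).sq.int)]
  have h2 : ∑ e ∈ E, ∫ x, f e x ^ 2 ≤ 96 * ∑ e ∈ E, r e ^ 2 := by
    rw [Finset.mul_sum]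
    apply Finset.sum_le_sum
    intro e he
    rw [hf]
    exact atom_sq hΨ (a e) (ha e) (y e) (r e) (hE e he).1
  have hM0 : 0 < M := by rw [hM]; positivity
  have h3 : M * ∑ e ∈ E, ∫ x, f e x ^ 2 ≤ M * (96 * ∑ e ∈ E, r e ^ 2) :=
    mul_le_mul_of_nonneg_left h2 hM0.le
  refine h3.trans ?_
  have hMle : M ≤ 256 ^ (4 * k₀ + 4) := by
    rw [hM]
    have : (256 : ℝ) ^ (4 * k₀ + 4) = 2 ^ (8 * (4 * k₀ + 4)) := by rw [pow_mul]; norm_num
    rw [this]
    exact pow_le_pow_right₀ (by norm_num) (by omega)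
  have hX0 : 0 ≤ ∑ e ∈ E, r e ^ 2 := Finset.sum_nonneg (fun _ _ => sq_nonneg _)
  have h4 : M * (∑ e ∈ E, r e ^ 2) ≤ 256 ^ (4 * k₀ + 4) * ∑ e ∈ E, r e ^ 2 :=
    mul_le_mul_of_nonneg_right hMle hX0
  have h5 : 0 ≤ M * ∑ e ∈ E, r e ^ 2 := by positivity
  linarith

theorem log_class (t : ℝ) (ht : 1 ≤ t) : (2 : ℝ) ^ (Nat.log 2 ⌊t⌋₊) ≤ t ∧
    t ≤ 2 ^ (Nat.log 2 ⌊t⌋₊ + 1) := by
  have h1 : ⌊t⌋₊ ≠ 0 := by
    have : 1 ≤ ⌊t⌋₊ := Nat.le_floor (by simpa using ht)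
    omega
  have h2 := Nat.pow_log_le_self 2 h1
  have h3 := Nat.lt_pow_succ_log_self (b := 2) (by norm_num) ⌊t⌋₊
  constructor
  · have h4 : ((2 ^ (Nat.log 2 ⌊t⌋₊) : ℕ) : ℝ) ≤ (⌊t⌋₊ : ℝ) := by exact_mod_cast h2
    have h5 := Nat.floor_le (show 0 ≤ t by linarith)
    push_cast at h4
    linarith
  · have h4 : ⌊t⌋₊ + 1 ≤ 2 ^ (Nat.log 2 ⌊t⌋₊ + 1) := h3
    have h5 : ((⌊t⌋₊ + 1 : ℕ) : ℝ) ≤ ((2 ^ (Nat.log 2 ⌊t⌋₊ + 1) : ℕ) : ℝ) := by exact_mod_cast h4
    have h6 := Nat.lt_floor_add_one t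
    push_cast at h5
    linarith

/-- the decomposition for all radii -/
theorem all_GH {Ψ : ℝ → ℝ} (hΨ : Profile Ψ) {y : I4 → V3} {r : I4 → ℝ} (hc : Cfg y r)
    (k₀ : ℕ) (hk₀ : 40 ≤ k₀) (E : Finset I4) (hE : ∀ e ∈ E, 1 ≤ r e) (a : I4 → ℝ)
    (ha : ∀ e, |a e| ≤ 1) :
    ∃ G H : V3 → ℝ, TF G ∧ TF H ∧ (∀ x, ∑ e ∈ E, a e * atom Ψ (y e) (r e) x = G x + H x) ∧
      ∫ x, |H x| ≤ 2 ^ 50 * KB * √(t0 ^ k₀) * ∑ e ∈ E, r e ^ 2 ∧
      ∫ x, G x ^ 2 ≤ 2 ^ 70 * KB * 256 ^ (4 * k₀ + 4) * ∑ e ∈ E, r e ^ 2 := by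
  classical
  obtain ⟨n, hn⟩ : ∃ n : I4 → ℕ, n = fun e => Nat.log 2 ⌊r e⌋₊ := ⟨_, rfl⟩
  have hnE : ∀ e ∈ E, (2 : ℝ) ^ (n e) ≤ r e ∧ r e ≤ 2 ^ (n e + 1) := by
    intro e he
    rw [hn]
    exact log_class (r e) (hE e he)
  obtain ⟨Es, hEs⟩ : ∃ Es : Finset I4, Es = E.filter (fun e => n e < 4 * k₀) := ⟨_, rfl⟩
  obtain ⟨El, hEl⟩ : ∃ El : ℕ → Finset I4, El = fun l =>
    E.filter (fun e => 4 * k₀ ≤ n e ∧ n e % 4 = l) := ⟨_, rfl⟩
  have hsplit : ∀ w : I4 → ℝ, ∑ e ∈ E, w e =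
      (∑ e ∈ Es, w e) + ∑ l ∈ Finset.range 4, ∑ e ∈ El l, w e := by
    intro w
    have h1 : ∑ l ∈ Finset.range 4, ∑ e ∈ El l, w e =
        ∑ e ∈ E.filter (fun e => 4 * k₀ ≤ n e), w e := by
      have h2 : ∀ l, El l = (E.filter (fun e => 4 * k₀ ≤ n e)).filter (fun e => n e % 4 = l) := by
        intro l
        rw [hEl, Finset.filter_filter]
      simp only [h2]
      rw [Finset.sum_fiberwise_of_maps_to]
      intro e _
      rw [Finset.mem_range]
      omega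
    rw [h1, hEs]
    have h3 := Finset.sum_filter_add_sum_filter_not E (fun e => n e < 4 * k₀) w
    rw [← h3]
    congr 1
    apply Finset.sum_congr _ (fun _ _ => rfl)
    ext e
    simp only [Finset.mem_filter, not_lt]
  have hfam : ∀ l, ∃ G H : V3 → ℝ, l < 4 → (TF G ∧ TF H ∧
      (∀ x, ∑ e ∈ El l, a e * atom Ψ (y e) (r e) x = G x + H x) ∧
      ∫ x, |H x| ≤ 2 ^ 50 * KB * √(t0 ^ k₀) * ∑ e ∈ El l, r e ^ 2 ∧
      ∫ x, G x ^ 2 ≤ 2 ^ 67 * KB * 256 ^ (4 * k₀ + 4) * ∑ e ∈ El l, r e ^ 2) := by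
    intro l
    by_cases hl : l < 4
    · obtain ⟨G, H, h⟩ := family_GH hΨ hc l hl k₀ hk₀ (El l) n
        (fun e he => hnE e (by rw [hEl] at he; exact (Finset.mem_filter.1 he).1))
        (fun e he => by rw [hEl] at he; exact (Finset.mem_filter.1 he).2) a ha
      exact ⟨G, H, fun _ => h⟩
    · exact ⟨fun _ => 0, fun _ => 0, fun h => absurd h hl⟩
  choose G0 H0 hGH using hfam
  obtain ⟨G1, hG1⟩ : ∃ G1 : ℕ → V3 → ℝ, G1 = fun l x => if l < 4 then G0 l x else 0 := ⟨_, rfl⟩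
  obtain ⟨H1, hH1⟩ : ∃ H1 : ℕ → V3 → ℝ, H1 = fun l x => if l < 4 then H0 l x else 0 := ⟨_, rfl⟩
  have hG1T : ∀ l, TF (G1 l) := by
    intro l; rw [hG1]
    by_cases h : l < 4
    · simp only [if_pos h]; exact (hGH l h).1
    · simp only [if_neg h]; exact TF.zero
  have hH1T : ∀ l, TF (H1 l) := by
    intro l; rw [hH1]
    by_cases h : l < 4
    · simp only [if_pos h]; exact (hGH l h).2.1
    · simp only [if_neg h]; exact TF.zero
  have hFs := part_TF hΨ y r Es a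
  have hGs : TF (fun x => ∑ l ∈ Finset.range 4, G1 l x) := TF.sum _ _ (fun l _ => hG1T l)
  have hHs : TF (fun x => ∑ l ∈ Finset.range 4, H1 l x) := TF.sum _ _ (fun l _ => hH1T l)
  have hXs := hsplit (fun e => r e ^ 2)
  set Xs : ℝ := ∑ e ∈ Es, r e ^ 2 with hXsd
  set Xl : ℕ → ℝ := fun l => ∑ e ∈ El l, r e ^ 2 with hXl
  have hXs0 : 0 ≤ Xs := Finset.sum_nonneg (fun _ _ => sq_nonneg _)
  have hXl0 : ∀ l, 0 ≤ Xl l := fun l => Finset.sum_nonneg (fun _ _ => sq_nonneg _)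
  have hXL0 : 0 ≤ ∑ l ∈ Finset.range 4, Xl l := Finset.sum_nonneg (fun l _ => hXl0 l)
  set X : ℝ := ∑ e ∈ E, r e ^ 2 with hX
  have hKB := KB_ge
  have ht0 : 0 < t0 ^ k₀ := dl_pos k₀
  have hs0 : 0 < √(t0 ^ k₀) := Real.sqrt_pos.2 ht0
  refine ⟨fun x => (∑ e ∈ Es, a e * atom Ψ (y e) (r e) x) + ∑ l ∈ Finset.range 4, G1 l x,
    fun x => ∑ l ∈ Finset.range 4, H1 l x, hFs.add hGs, hHs, ?_, ?_, ?_⟩
  · intro x
    rw [hsplit (fun e => a e * atom Ψ (y e) (r e) x), add_assoc, ← Finset.sum_add_distrib]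
    congr 1
    apply Finset.sum_congr rfl
    intro l hl
    rw [Finset.mem_range] at hl
    rw [(hGH l hl).2.2.1 x, hG1, hH1]
    simp only [if_pos hl]
  · refine (int_abs_sum _ _ hH1T).trans ?_
    have h1 : ∑ l ∈ Finset.range 4, ∫ x, |H1 l x| ≤
        ∑ l ∈ Finset.range 4, 2 ^ 50 * KB * √(t0 ^ k₀) * Xl l := by
      apply Finset.sum_le_sum
      intro l hl
      rw [Finset.mem_range] at hl
      rw [hH1]
      simp only [if_pos hl]
      exact (hGH l hl).2.2.2.1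
    rw [← Finset.mul_sum] at h1
    refine h1.trans ?_
    apply mul_le_mul_of_nonneg_left _ (by positivity)
    linarith
  · have hpt : ∀ x, ((∑ e ∈ Es, a e * atom Ψ (y e) (r e) x) + ∑ l ∈ Finset.range 4, G1 l x) ^ 2 ≤
        2 * (∑ e ∈ Es, a e * atom Ψ (y e) (r e) x) ^ 2 +
          8 * ∑ l ∈ Finset.range 4, G1 l x ^ 2 := by
      intro x
      have h1 : (∑ l ∈ Finset.range 4, G1 l x) ^ 2 ≤ 4 * ∑ l ∈ Finset.range 4, G1 l x ^ 2 := by
        have := sq_sum_le_card_mul_sum_sq (s := Finset.range 4) (f := fun l => G1 l x)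
        simpa using this
      set A := ∑ e ∈ Es, a e * atom Ψ (y e) (r e) x
      set B := ∑ l ∈ Finset.range 4, G1 l x
      nlinarith [sq_nonneg (A - B)]
    have hT1 : TF (fun x => ∑ l ∈ Finset.range 4, G1 l x ^ 2) :=
      TF.sum _ _ (fun l _ => (hG1T l).sq)
    have h2 := integral_mono (hFs.add hGs).sq.int
      ((hFs.sq.const_mul 2).add (hT1.const_mul 8)).int hpt
    refine h2.trans ?_
    rw [integral_add (hFs.sq.const_mul 2).int (hT1.const_mul 8).int, integral_const_mul,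
      integral_const_mul, integral_finsetSum _ (fun l _ => (hG1T l).sq.int)]
    have h3 := small_energy hΨ hc k₀ Es (by
      intro e he
      rw [hEs, Finset.mem_filter] at he
      refine ⟨hE e he.1, (hnE e he.1).2.trans ?_⟩
      have : (16 : ℝ) ^ k₀ = 2 ^ (4 * k₀) := by rw [pow_mul]; norm_num
      rw [this]
      exact pow_le_pow_right₀ (by norm_num) (by omega)) a ha
    rw [← hXsd] at h3
    have h4 : ∑ l ∈ Finset.range 4, ∫ x, G1 l x ^ 2 ≤
        2 ^ 67 * KB * 256 ^ (4 * k₀ + 4) * ∑ l ∈ Finset.range 4, Xl l := by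
      rw [Finset.mul_sum]
      apply Finset.sum_le_sum
      intro l hl
      rw [Finset.mem_range] at hl
      rw [hG1]
      simp only [if_pos hl]
      exact (hGH l hl).2.2.2.2
    have h256 : (0 : ℝ) < 256 ^ (4 * k₀ + 4) := by positivity
    have h5 : 1 * (256 ^ (4 * k₀ + 4) * Xs) ≤ KB * (256 ^ (4 * k₀ + 4) * Xs) :=
      mul_le_mul_of_nonneg_right hKB (by positivity)
    have h6 : 0 ≤ KB * (256 ^ (4 * k₀ + 4) * Xs) := by positivity
    have h7 : 0 ≤ KB * (256 ^ (4 * k₀ + 4) * ∑ l ∈ Finset.range 4, Xl l) := by positivity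
    have h8 : 2 ^ 70 * KB * 256 ^ (4 * k₀ + 4) * X = 2 ^ 70 * (KB * (256 ^ (4 * k₀ + 4) * Xs)) +
        2 ^ 70 * (KB * (256 ^ (4 * k₀ + 4) * ∑ l ∈ Finset.range 4, Xl l)) := by
      rw [hXs]; ring
    rw [h8]
    linarith

end Run7.h58
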