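import Pool.Agent.Run7.h58.Vol

open MeasureTheory Set
open scoped ENNReal RealInnerProductSpace

namespace Run7.h58

/-- admissible one-dimensional profiles -/
structure Profile (Ψ : ℝ → ℝ) : Prop where
  cont : Continuous Ψ
  bound : ∀ s, |Ψ s| ≤ 1
  supp : ∀ s, 1 / 2 ≤ |s| → Ψ s = 0
  mean : ∫ s in (-(1 / 2) : ℝ)..(1 / 2), Ψ s = 0

/-- spherical atom with centre `y` and radius `r`. -/
noncomputable def atom (Ψ : ℝ → ℝ) (y : V3) (r : ℝ) (x : V3) : ℝ :=
  r * (Ψ (‖x - y‖ - r) / max ‖x - y‖ (1 / 2))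

variable {Ψ : ℝ → ℝ}

theorem atom_cont (hΨ : Profile Ψ) (y : V3) (r : ℝ) : Continuous (atom Ψ y r) := by
  unfold atom
  apply continuous_const.mul
  apply Continuous.div
  · exact hΨ.cont.comp (by fun_prop)
  · fun_prop
  · intro x
    have : (1 / 2 : ℝ) ≤ max ‖x - y‖ (1 / 2) := le_max_right _ _
    have h : (0 : ℝ) < max ‖x - y‖ (1 / 2) := by linarith
    exact h.ne'

theorem atom_zero (hΨ : Profile Ψ) (y : V3) (r : ℝ) (x : V3) (hx : x ∉ shell y r) :
    atom Ψ y r x = 0 := by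
  have : 1 / 2 ≤ |‖x - y‖ - r| := by
    by_contra h
    exact hx (le_of_lt (not_le.1 h))
  unfold atom
  rw [hΨ.supp _ this]
  simp

theorem atom_abs_le (hΨ : Profile Ψ) (y : V3) (r : ℝ) (hr : 1 ≤ r) (x : V3) :
    |atom Ψ y r x| ≤ 2 := by
  by_cases hx : x ∈ shell y r
  · have h1 := abs_le.1 (show |‖x - y‖ - r| ≤ 1 / 2 from hx)
    have h2 : r / 2 ≤ max ‖x - y‖ (1 / 2) := le_trans (by linarith [h1.1]) (le_max_left _ _)
    unfold atom
    rw [abs_mul, abs_div, abs_of_pos (show 0 < r by linarith),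
      abs_of_pos (show 0 < max ‖x - y‖ (1 / 2) by linarith)]
    have h3 : |Ψ (‖x - y‖ - r)| / max ‖x - y‖ (1 / 2) ≤ 1 / (r / 2) := by
      apply div_le_div₀ zero_le_one (hΨ.bound _) (by linarith) h2
    calc r * (|Ψ (‖x - y‖ - r)| / max ‖x - y‖ (1 / 2)) ≤ r * (1 / (r / 2)) := by
          apply mul_le_mul_of_nonneg_left h3; linarith
      _ = 2 := by field_simp
  · rw [atom_zero hΨ y r x hx]; simp

theorem shell_bounded (y : V3) (r : ℝ) : Bornology.IsBounded (shell y r) := by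
  apply (Metric.isBounded_closedBall (x := y) (r := r + 1 / 2)).subset
  intro x hx
  have h1 := abs_le.1 (show |‖x - y‖ - r| ≤ 1 / 2 from hx)
  rw [Metric.mem_closedBall, dist_eq_norm]
  linarith [h1.2]

theorem shell_compact (y : V3) (r : ℝ) : IsCompact (shell y r) :=
  Metric.isCompact_of_isClosed_isBounded (shell_closed y r) (shell_bounded y r)

theorem shell_meas (y : V3) (r : ℝ) : MeasurableSet (shell y r) :=
  (shell_closed y r).measurableSet

theorem atom_hcs (hΨ : Profile Ψ) (y : V3) (r : ℝ) : HasCompactSupport (atom Ψ y r) :=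
  HasCompactSupport.of_support_subset_isCompact (shell_compact y r) (by
    intro x hx
    by_contra h
    exact hx (atom_zero hΨ y r x h))

theorem shell_vol_lt_top (y : V3) (r : ℝ) : volume (shell y r) < ∞ :=
  (shell_compact y r).measure_lt_top

/-- trivial correlation bound -/
theorem corr_trivial (hΨ : Profile Ψ) (y y' : V3) (r r' : ℝ) (hr : 1 ≤ r) (hr' : 1 ≤ r')
    (X : V3 → ℝ) (hX : ∀ x, |X x| ≤ 1) :
    |∫ x, atom Ψ y r x * atom Ψ y' r' x * X x|
      ≤ 4 * (volume (shell y r ∩ shell y' r')).toReal := by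
  have h0 : ∀ x, x ∉ shell y r ∩ shell y' r' → atom Ψ y r x * atom Ψ y' r' x * X x = 0 := by
    intro x hx
    by_cases h : x ∈ shell y r
    · have : x ∉ shell y' r' := fun h' => hx ⟨h, h'⟩
      rw [atom_zero hΨ y' r' x this]; ring
    · rw [atom_zero hΨ y r x h]; ring
  rw [← setIntegral_eq_integral_of_forall_compl_eq_zero h0]
  have hlt : volume (shell y r ∩ shell y' r') < ∞ :=
    lt_of_le_of_lt (measure_mono inter_subset_left) (shell_vol_lt_top y r)
  have h := norm_setIntegral_le_of_norm_le_const (μ := volume) (C := 4)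
    (f := fun x => atom Ψ y r x * atom Ψ y' r' x * X x) hlt (by
      intro x _
      rw [Real.norm_eq_abs, abs_mul, abs_mul]
      have h1 := atom_abs_le hΨ y r hr x
      have h2 := atom_abs_le hΨ y' r' hr' x
      calc |atom Ψ y r x| * |atom Ψ y' r' x| * |X x| ≤ 2 * 2 * 1 := by
            apply mul_le_mul (mul_le_mul h1 h2 (abs_nonneg _) (by norm_num)) (hX x)
              (abs_nonneg _) (by norm_num)
        _ = 4 := by norm_num)
  rwa [Real.norm_eq_abs] at h

theorem corr_near (hΨ : Profile Ψ) (y y' : V3) (r r' : ℝ) (hr : 1 ≤ r) (hr' : 1 ≤ r')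
    (hy : y ≠ y') (X : V3 → ℝ) (hX : ∀ x, |X x| ≤ 1) :
    |∫ x, atom Ψ y r x * atom Ψ y' r' x * X x| ≤ 16 * Real.pi * (r * r' / ‖y' - y‖) := by
  refine (corr_trivial hΨ y y' r r' hr hr' X hX).trans ?_
  have h := vol_inter y y' r r' (by linarith) (by linarith) hy
  have h2 := ENNReal.toReal_mono ENNReal.ofReal_ne_top h
  rw [ENNReal.toReal_ofReal (by positivity)] at h2
  linarith

end Run7.h58
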