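import Pool.Agent.Run7.h58.Atom

open MeasureTheory Set
open scoped ENNReal RealInnerProductSpace

namespace Run7.h58

variable {Ψ : ℝ → ℝ}

/-- one-dimensional cancellation -/
theorem inner1 (hΨ : Profile Ψ) (r' ρ R t1 t2 M : ℝ) (hr' : 1 ≤ r') (hρ : 0 < ρ)
    (hR : 0 < R)
    (ht1 : t1 = (R ^ 2 + ρ ^ 2 - (r' + 1 / 2) ^ 2) / (2 * ρ))
    (ht2 : t2 = (R ^ 2 + ρ ^ 2 - (r' - 1 / 2) ^ 2) / (2 * ρ))
    (hlo : -R < t1) (hhi : t2 < R) (Y : ℝ → ℝ) (hY : Continuous Y)
    (hM : ∀ t ∈ Icc t1 t2, |Y t - Y t1| ≤ M) :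
    |∫ t in Ioo (-R) R, r' * (Ψ (√(R ^ 2 + ρ ^ 2 - 2 * ρ * t) - r') /
      max (√(R ^ 2 + ρ ^ 2 - 2 * ρ * t)) (1 / 2)) * Y t| ≤ 2 * (r' / ρ) * M := by
  set R2 : ℝ → ℝ := fun t => √(R ^ 2 + ρ ^ 2 - 2 * ρ * t) with hR2
  set g : ℝ → ℝ := fun t => r' * (Ψ (R2 t - r') / max (R2 t) (1 / 2)) with hg
  have hdiff : t2 - t1 = r' / ρ := by
    rw [ht1, ht2, ← sub_div, div_eq_div_iff (by positivity) hρ.ne']; ring
  have hrρ : 0 < r' / ρ := by positivity
  have h12 : t1 ≤ t2 := by linarith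
  have hRt1 : R2 t1 = r' + 1 / 2 := by
    have : R ^ 2 + ρ ^ 2 - 2 * ρ * t1 = (r' + 1 / 2) ^ 2 := by
      rw [ht1]; field_simp; ring
    simp only [hR2]
    rw [this, Real.sqrt_sq (by linarith)]
  have hRt2 : R2 t2 = r' - 1 / 2 := by
    have : R ^ 2 + ρ ^ 2 - 2 * ρ * t2 = (r' - 1 / 2) ^ 2 := by
      rw [ht2]; field_simp; ring
    simp only [hR2]
    rw [this, Real.sqrt_sq (by linarith)]
  have hmono : ∀ s t, s ≤ t → R2 t ≤ R2 s := by
    intro s t hst
    apply Real.sqrt_le_sqrt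
    nlinarith
  have hcont : Continuous R2 := by
    apply Real.continuous_sqrt.comp; fun_prop
  have hgc : Continuous g := by
    apply continuous_const.mul
    apply Continuous.div
    · exact hΨ.cont.comp (hcont.sub continuous_const)
    · fun_prop
    · intro x
      have : (1 / 2 : ℝ) ≤ max (R2 x) (1 / 2) := le_max_right _ _
      have h : (0 : ℝ) < max (R2 x) (1 / 2) := by linarith
      exact h.ne'
  have hg0 : ∀ t, t ∉ Icc t1 t2 → g t = 0 := by
    intro t ht
    have : 1 / 2 ≤ |R2 t - r'| := by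
      rw [mem_Icc, not_and_or, not_le, not_le] at ht
      rcases ht with h | h
      · have := hmono t t1 h.le
        rw [hRt1] at this
        exact le_trans (by linarith) (le_abs_self _)
      · have := hmono t2 t h.le
        rw [hRt2] at this
        exact le_trans (by linarith) (neg_le_abs _)
    simp only [hg]
    rw [hΨ.supp _ this]; simp
  have e1 : ∫ t in Ioo (-R) R, g t * Y t = ∫ t in t1..t2, g t * Y t := by
    rw [intervalIntegral.integral_of_le h12, ← integral_Icc_eq_integral_Ioc]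
    rw [setIntegral_eq_integral_of_forall_compl_eq_zero (s := Icc t1 t2)]
    · rw [setIntegral_eq_integral_of_forall_compl_eq_zero (s := Ioo (-R) R)]
      intro t ht
      rw [hg0 t, zero_mul]
      intro h'
      exact ht ⟨by linarith [h'.1], by linarith [h'.2]⟩
    · intro t ht
      rw [hg0 t ht, zero_mul]
  have hgle : ∀ t ∈ Icc t1 t2, |g t| ≤ 2 := by
    intro t ht
    have h1 : r' - 1 / 2 ≤ R2 t := by rw [← hRt2]; exact hmono _ _ ht.2
    have h2 : r' / 2 ≤ max (R2 t) (1 / 2) := le_trans (by linarith) (le_max_left _ _)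
    simp only [hg]
    rw [abs_mul, abs_div, abs_of_pos (show 0 < r' by linarith),
      abs_of_pos (show 0 < max (R2 t) (1 / 2) by linarith)]
    have h3 : |Ψ (R2 t - r')| / max (R2 t) (1 / 2) ≤ 1 / (r' / 2) := by
      apply div_le_div₀ zero_le_one (hΨ.bound _) (by linarith) h2
    calc r' * (|Ψ (R2 t - r')| / max (R2 t) (1 / 2)) ≤ r' * (1 / (r' / 2)) := by
          apply mul_le_mul_of_nonneg_left h3; linarith
      _ = 2 := by field_simp
  have e2 : ∫ t in t1..t2, g t = 0 := by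
    have hder : ∀ t ∈ uIcc t1 t2, HasDerivAt R2 (-(ρ / R2 t)) t := by
      intro t ht
      rw [uIcc_of_le h12] at ht
      have h1 : r' - 1 / 2 ≤ R2 t := by rw [← hRt2]; exact hmono _ _ ht.2
      have h2 : 0 < R2 t := by linarith
      have h3 : R ^ 2 + ρ ^ 2 - 2 * ρ * t ≠ 0 := by
        intro h
        simp only [hR2] at h2
        rw [h, Real.sqrt_zero] at h2
        exact lt_irrefl _ h2
      have h4 : HasDerivAt (fun t : ℝ => R ^ 2 + ρ ^ 2 - 2 * ρ * t) (-(2 * ρ)) t := by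
        have := ((hasDerivAt_id t).const_mul (2 * ρ)).const_sub (R ^ 2 + ρ ^ 2)
        simpa using this
      have h5 := h4.sqrt h3
      have h6 : -(2 * ρ) / (2 * √(R ^ 2 + ρ ^ 2 - 2 * ρ * t)) = -(ρ / R2 t) := by
        simp only [hR2]
        rw [neg_div, mul_div_mul_left _ _ two_ne_zero]
      rw [h6] at h5
      exact h5
    have hcd : ContinuousOn (fun t => -(ρ / R2 t)) (uIcc t1 t2) := by
      apply ContinuousOn.neg
      apply ContinuousOn.div continuousOn_const hcont.continuousOn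
      intro t ht
      rw [uIcc_of_le h12] at ht
      have h1 : r' - 1 / 2 ≤ R2 t := by rw [← hRt2]; exact hmono _ _ ht.2
      have h2 : 0 < R2 t := by linarith
      exact h2.ne'
    have h := intervalIntegral.integral_comp_mul_deriv hder hcd
      (g := fun s => Ψ (s - r')) (hΨ.cont.comp (by fun_prop))
    rw [hRt1, hRt2] at h
    have h' : ∫ s in (r' + 1 / 2)..(r' - 1 / 2), Ψ (s - r') = 0 := by
      rw [intervalIntegral.integral_comp_sub_right (fun s => Ψ s) r',
        intervalIntegral.integral_symm]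
      have a1 : r' - 1 / 2 - r' = -(1 / 2) := by ring
      have a2 : r' + 1 / 2 - r' = 1 / 2 := by ring
      rw [a1, a2, hΨ.mean, neg_zero]
    rw [h'] at h
    have e3 : ∫ t in t1..t2, g t = -(r' / ρ) * ∫ t in t1..t2,
        ((fun s => Ψ (s - r')) ∘ R2) t * -(ρ / R2 t) := by
      rw [← intervalIntegral.integral_const_mul]
      apply intervalIntegral.integral_congr
      intro t ht
      rw [uIcc_of_le h12] at ht
      have h1 : r' - 1 / 2 ≤ R2 t := by rw [← hRt2]; exact hmono _ _ ht.2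
      have h2 : 0 < R2 t := by linarith
      have h3 : max (R2 t) (1 / 2) = R2 t := max_eq_left (by linarith)
      simp only [hg, Function.comp]
      rw [h3]
      field_simp
    rw [e3, h, mul_zero]
  have hc1 : Continuous fun t => g t * (Y t - Y t1) := hgc.mul (hY.sub continuous_const)
  have e4 : ∫ t in t1..t2, g t * Y t = ∫ t in t1..t2, g t * (Y t - Y t1) := by
    have : ∀ t, g t * Y t = g t * (Y t - Y t1) + g t * Y t1 := fun t => by ring
    simp_rw [this]
    have hc2 : Continuous fun t => g t * Y t1 := hgc.mul continuous_const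
    rw [intervalIntegral.integral_add (hc1.intervalIntegrable _ _)
      (hc2.intervalIntegrable _ _)]
    rw [intervalIntegral.integral_mul_const, e2]
    ring
  have e5 : (∫ t in Ioo (-R) R, r' * (Ψ (√(R ^ 2 + ρ ^ 2 - 2 * ρ * t) - r') /
      max (√(R ^ 2 + ρ ^ 2 - 2 * ρ * t)) (1 / 2)) * Y t) = ∫ t in t1..t2, g t * (Y t - Y t1) := by
    rw [← e4, ← e1]
  rw [e5]
  have h := intervalIntegral.norm_integral_le_of_norm_le_const (a := t1) (b := t2) (C := 2 * M)
    (f := fun t => g t * (Y t - Y t1)) (by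
      intro t ht
      rw [uIoc_of_le h12] at ht
      have ht' : t ∈ Icc t1 t2 := ⟨ht.1.le, ht.2⟩
      rw [Real.norm_eq_abs, abs_mul]
      exact mul_le_mul (hgle t ht') (hM t ht') (abs_nonneg _) (by norm_num))
  rw [Real.norm_eq_abs, abs_of_nonneg (by linarith : (0 : ℝ) ≤ t2 - t1), hdiff] at h
  linarith


theorem sph_dist (b : OrthonormalBasis (Fin 3) ℝ V3) (y : V3) (R φ t t1 q0 : ℝ) (hR : 0 < R)
    (hq0 : 0 < q0) (ht : q0 ^ 2 ≤ R ^ 2 - t ^ 2) (ht1 : q0 ^ 2 ≤ R ^ 2 - t1 ^ 2) :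
    ‖sph b y R φ t - sph b y R φ t1‖ ≤ 2 * |t - t1| * (R / q0) := by
  set q := √(R ^ 2 - t ^ 2) with hq
  set p := √(R ^ 2 - t1 ^ 2) with hp
  have hq1 : q0 ≤ q := by
    rw [hq]; apply Real.le_sqrt_of_sq_le; exact ht
  have hp1 : q0 ≤ p := by
    rw [hp]; apply Real.le_sqrt_of_sq_le; exact ht1
  have hqs : q ^ 2 = R ^ 2 - t ^ 2 := Real.sq_sqrt (by nlinarith [sq_nonneg q0])
  have hps : p ^ 2 = R ^ 2 - t1 ^ 2 := Real.sq_sqrt (by nlinarith [sq_nonneg q0])
  have e : sph b y R φ t - sph b y R φ t1 = ((q - p) * Real.cos φ) • b 0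
      + ((q - p) * Real.sin φ) • b 1 + (t - t1) • b 2 := by
    unfold sph
    rw [← hq, ← hp]
    simp only [sub_mul, sub_smul]
    abel
  have hn : ‖sph b y R φ t - sph b y R φ t1‖ ^ 2 = (q - p) ^ 2 + (t - t1) ^ 2 := by
    rw [e, norm_comb]
    have := Real.cos_sq_add_sin_sq φ
    linear_combination (q - p) ^ 2 * this
  have hRt : |t| ≤ R := by
    apply abs_le_of_sq_le_sq _ hR.le; nlinarith [sq_nonneg q0]
  have hRt1 : |t1| ≤ R := by
    apply abs_le_of_sq_le_sq _ hR.le; nlinarith [sq_nonneg q0]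
  have hq0R : q0 ≤ R := by
    apply le_of_sq_le_sq _ hR.le; nlinarith [sq_nonneg t]
  have hqp : |q - p| ≤ |t - t1| * (R / q0) := by
    have h1 : |q - p| * (q + p) = |t - t1| * |t + t1| := by
      rw [← abs_mul, ← abs_of_nonneg (show 0 ≤ q + p by linarith), ← abs_mul]
      have : (q - p) * (q + p) = -((t - t1) * (t + t1)) := by
        linear_combination hqs - hps
      rw [this, abs_neg]
    have h2 : |t + t1| ≤ 2 * R := (abs_add_le t t1).trans (by linarith)
    have h3 : |q - p| * (2 * q0) ≤ |t - t1| * (2 * R) := by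
      calc |q - p| * (2 * q0) ≤ |q - p| * (q + p) := by
            apply mul_le_mul_of_nonneg_left _ (abs_nonneg _); linarith
        _ = |t - t1| * |t + t1| := h1
        _ ≤ _ := mul_le_mul_of_nonneg_left h2 (abs_nonneg _)
    rw [← mul_div_assoc, le_div_iff₀ hq0]
    nlinarith
  have h1R : 1 ≤ R / q0 := by rw [one_le_div hq0]; exact hq0R
  have hab : |t - t1| ≤ |t - t1| * (R / q0) := le_mul_of_one_le_right (abs_nonneg _) h1R
  have h5 : ‖sph b y R φ t - sph b y R φ t1‖ ≤ |q - p| + |t - t1| := by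
    apply le_of_sq_le_sq _ (by positivity)
    rw [hn]
    nlinarith [sq_abs (q - p), sq_abs (t - t1), mul_nonneg (abs_nonneg (q - p)) (abs_nonneg (t - t1))]
  linarith

theorem q_lower (r r' ρ R s Δ : ℝ) (hr : 1 ≤ r) (hr' : 1 ≤ r') (hρ : 0 < ρ) (hΔ : 2 ≤ Δ)
    (h1 : |r - r'| + Δ ≤ ρ) (h2 : ρ ≤ r + r' - Δ) (hR : |R - r| ≤ 1 / 2) (hs : |s - r'| ≤ 1 / 2) :
    4 * ρ ^ 2 * (Δ * R * r' / (16 * ρ)) ≤ (ρ ^ 2 - (R - s) ^ 2) * ((R + s) ^ 2 - ρ ^ 2) := by
  obtain ⟨hR1, hR2⟩ := abs_le.1 hR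
  obtain ⟨hs1, hs2⟩ := abs_le.1 hs
  have e : 4 * ρ ^ 2 * (Δ * R * r' / (16 * ρ)) = Δ * ρ * R * r' / 4 := by
    field_simp; ring
  rw [e]
  have ha1 := le_abs_self (r - r')
  have ha2 := neg_abs_le (r - r')
  have hR0 : 0 < R := by linarith
  have hs0 : 0 < s := by linarith
  have hsr : r' / 2 ≤ s := by linarith
  rcases le_total R s with h | h
  · -- min = R
    have hA : Δ / 2 ≤ ρ - (s - R) := by linarith
    have hB : Δ / 2 ≤ R + s - ρ := by linarith
    have hAB : (ρ - (s - R)) + (R + s - ρ) = 2 * R := by ring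
    have hprod : Δ / 2 * R ≤ (ρ - (s - R)) * (R + s - ρ) := by
      rcases le_total R (R + s - ρ) with h3 | h3
      · exact mul_le_mul hA h3 hR0.le (by linarith)
      · have h4 : R ≤ ρ - (s - R) := by linarith
        rw [mul_comm (Δ / 2)]
        exact mul_le_mul h4 hB (by linarith) (by linarith)
    have hpos : 0 ≤ (ρ - (s - R)) * (R + s - ρ) := le_trans (by positivity) hprod
    have h5 : ρ * s ≤ (ρ + (s - R)) * (R + s + ρ) := by
      apply mul_le_mul <;> linarith
    calc Δ * ρ * R * r' / 4 = (Δ / 2 * R) * (ρ * (r' / 2)) := by ring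
      _ ≤ ((ρ - (s - R)) * (R + s - ρ)) * ((ρ + (s - R)) * (R + s + ρ)) := by
          apply mul_le_mul hprod _ (by positivity) hpos
          refine le_trans ?_ h5
          apply mul_le_mul_of_nonneg_left hsr hρ.le
      _ = _ := by ring
  · have hA : Δ / 2 ≤ ρ - (R - s) := by linarith
    have hB : Δ / 2 ≤ R + s - ρ := by linarith
    have hprod : Δ / 2 * s ≤ (ρ - (R - s)) * (R + s - ρ) := by
      rcases le_total s (R + s - ρ) with h3 | h3
      · exact mul_le_mul hA h3 hs0.le (by linarith)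
      · have h4 : s ≤ ρ - (R - s) := by linarith
        rw [mul_comm (Δ / 2)]
        exact mul_le_mul h4 hB (by linarith) (by linarith)
    have hpos : 0 ≤ (ρ - (R - s)) * (R + s - ρ) := le_trans (by positivity) hprod
    have h5 : ρ * R ≤ (ρ + (R - s)) * (R + s + ρ) := by
      apply mul_le_mul <;> linarith
    calc Δ * ρ * R * r' / 4 = (Δ / 2 * (r' / 2)) * (ρ * R) := by ring
      _ ≤ (Δ / 2 * s) * (ρ * R) := by
          apply mul_le_mul_of_nonneg_right _ (by positivity)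
          apply mul_le_mul_of_nonneg_left hsr (by linarith)
      _ ≤ ((ρ - (R - s)) * (R + s - ρ)) * ((ρ + (R - s)) * (R + s + ρ)) := by
          apply mul_le_mul hprod h5 (by positivity) hpos
      _ = _ := by ring


theorem corr_trans (hΨ : Profile Ψ) (y y' : V3) (r r' Δ L : ℝ) (hr : 1 ≤ r) (hr' : 1 ≤ r')
    (hΔ : 2 ≤ Δ) (h1 : |r - r'| + Δ ≤ ‖y' - y‖) (h2 : ‖y' - y‖ ≤ r + r' - Δ)
    (X : V3 → ℝ) (hX : Continuous X) (hL : 0 ≤ L) (hLip : ∀ x z, |X x - X z| ≤ L * ‖x - z‖) :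
    |∫ x, atom Ψ y r x * atom Ψ y' r' x * X x| ≤
      48 * Real.pi * L * (r * r' / ‖y' - y‖) * √(r * r' / (‖y' - y‖ * Δ)) := by
  set ρ := ‖y' - y‖ with hρd
  have hρ : 0 < ρ := by have := abs_nonneg (r - r'); linarith
  have hpi := Real.pi_pos
  set n : V3 := ρ⁻¹ • (y' - y) with hn
  have hn1 : ‖n‖ = 1 := by
    rw [hn, norm_smul, norm_inv, Real.norm_of_nonneg hρ.le, ← hρd, inv_mul_cancel₀ hρ.ne']
  obtain ⟨b, hb⟩ := exists_basis n hn1
  have hyy : y' - y = ρ • b 2 := by
    rw [hb, hn, smul_smul, mul_inv_cancel₀ hρ.ne', one_smul]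
  have hint : Integrable fun x => atom Ψ y r x * atom Ψ y' r' x * X x := by
    apply Continuous.integrable_of_hasCompactSupport
    · exact ((atom_cont hΨ y r).mul (atom_cont hΨ y' r')).mul hX
    · exact ((atom_hcs hΨ y r).mul_right).mul_right
  have hdist : ∀ R φ t, 0 < R → t ∈ Ioo (-R) R →
      ‖sph b y R φ t - y'‖ = √(R ^ 2 + ρ ^ 2 - 2 * ρ * t) := by
    intro R φ t hR ht
    have e1 := norm_sub_sq_inner (sph b y R φ t) y y'
    have e2 : ‖sph b y R φ t - y‖ = R := by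
      apply sph_norm b y R φ t hR.le
      apply sq_le_sq' <;> linarith [ht.1, ht.2]
    rw [e2, hyy, real_inner_smul_left, sph_inner, norm_smul, b.norm_eq_one,
      Real.norm_of_nonneg hρ.le] at e1
    rw [← Real.sqrt_sq (norm_nonneg (sph b y R φ t - y')), e1]
    congr 1; ring
  rw [int_sph b y _ hint]
  set B : ℝ := 48 * L * (r * r' / ρ) * √(r * r' / (ρ * Δ)) / 2 with hB
  have hB0 : 0 ≤ B := by positivity
  -- bound of the inner integrals
  have key : ∀ R φ, |R - r| ≤ 1 / 2 → |∫ t in Ioo (-R) R,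
      R * (atom Ψ y r (sph b y R φ t) * atom Ψ y' r' (sph b y R φ t) * X (sph b y R φ t))| ≤ B := by
    intro R φ hRr
    obtain ⟨hR1, hR2⟩ := abs_le.1 hRr
    have hR0 : 0 < R := by linarith
    set Y : ℝ → ℝ := fun t => X (sph b y R φ t) with hY
    have hYc : Continuous Y := by
      apply hX.comp
      unfold sph
      fun_prop
    have e1 : (∫ t in Ioo (-R) R,
      R * (atom Ψ y r (sph b y R φ t) * atom Ψ y' r' (sph b y R φ t) * X (sph b y R φ t)))
      = (r * Ψ (R - r)) * ∫ t in Ioo (-R) R, r' * (Ψ (√(R ^ 2 + ρ ^ 2 - 2 * ρ * t) - r') /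
      max (√(R ^ 2 + ρ ^ 2 - 2 * ρ * t)) (1 / 2)) * Y t := by
      rw [← integral_const_mul]
      apply setIntegral_congr_fun measurableSet_Ioo
      intro t ht
      have e2 : ‖sph b y R φ t - y‖ = R := by
        apply sph_norm b y R φ t hR0.le
        apply sq_le_sq' <;> linarith [ht.1, ht.2]
      simp only [atom, hY]
      rw [e2, hdist R φ t hR0 ht, max_eq_left (show (1 / 2 : ℝ) ≤ R by linarith)]
      have : R * (r * (Ψ (R - r) / R)) = r * Ψ (R - r) := by
        field_simp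
      calc _ = (R * (r * (Ψ (R - r) / R))) * (r' * (Ψ (√(R ^ 2 + ρ ^ 2 - 2 * ρ * t) - r') /
            max (√(R ^ 2 + ρ ^ 2 - 2 * ρ * t)) (1 / 2)) * X (sph b y R φ t)) := by ring
        _ = _ := by rw [this]
    rw [e1, abs_mul]
    set t1 := (R ^ 2 + ρ ^ 2 - (r' + 1 / 2) ^ 2) / (2 * ρ) with ht1
    set t2 := (R ^ 2 + ρ ^ 2 - (r' - 1 / 2) ^ 2) / (2 * ρ) with ht2
    set Q : ℝ := Δ * R * r' / (16 * ρ) with hQ
    have hQ0 : 0 < Q := by positivity
    set q0 := √Q with hq0
    have hq00 : 0 < q0 := Real.sqrt_pos.2 hQ0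
    have hq0s : q0 ^ 2 = Q := Real.sq_sqrt hQ0.le
    have hmain : ∀ t ∈ Icc t1 t2, q0 ^ 2 ≤ R ^ 2 - t ^ 2 := by
      intro t ht
      set v := R ^ 2 + ρ ^ 2 - 2 * ρ * t with hv
      have hv1 : (r' - 1 / 2) ^ 2 ≤ v := by
        have := ht.2
        rw [ht2, le_div_iff₀ (by positivity)] at this
        rw [hv]; linarith
      have hv2 : v ≤ (r' + 1 / 2) ^ 2 := by
        have := ht.1
        rw [ht1, div_le_iff₀ (by positivity)] at this
        rw [hv]; linarith
      set s := √v with hs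
      have hv0 : 0 ≤ v := le_trans (sq_nonneg _) hv1
      have hss : s ^ 2 = v := Real.sq_sqrt hv0
      have hs1 : r' - 1 / 2 ≤ s := Real.le_sqrt_of_sq_le hv1
      have hs2 : s ≤ r' + 1 / 2 := by
        rw [hs]; apply Real.sqrt_le_iff.2; exact ⟨by linarith, hv2⟩
      have h3 := q_lower r r' ρ R s Δ hr hr' hρ hΔ h1 h2 hRr
        (abs_le.2 ⟨by linarith, by linarith⟩)
      have h4 : (ρ ^ 2 - (R - s) ^ 2) * ((R + s) ^ 2 - ρ ^ 2) = 4 * ρ ^ 2 * (R ^ 2 - t ^ 2) := by
        have : (ρ ^ 2 - (R - s) ^ 2) * ((R + s) ^ 2 - ρ ^ 2)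
          = 4 * ρ ^ 2 * R ^ 2 - (R ^ 2 + ρ ^ 2 - s ^ 2) ^ 2 := by ring
        rw [this, hss, hv]; ring
      rw [h4] at h3
      rw [hq0s, hQ]
      have h5 : 0 < 4 * ρ ^ 2 := by positivity
      exact le_of_mul_le_mul_left h3 h5
    have hdiff : t2 - t1 = r' / ρ := by
      rw [ht1, ht2, ← sub_div, div_eq_div_iff (by positivity) hρ.ne']; ring
    have hrρ : 0 < r' / ρ := by positivity
    have h12 : t1 ≤ t2 := by linarith
    have hlo : -R < t1 := by
      have h := hmain t1 ⟨le_rfl, h12⟩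
      have h' : t1 ^ 2 < R ^ 2 := by rw [hq0s] at h; linarith
      exact (abs_lt_of_sq_lt_sq' h' hR0.le).1
    have hhi : t2 < R := by
      have h := hmain t2 ⟨h12, le_rfl⟩
      have h' : t2 ^ 2 < R ^ 2 := by rw [hq0s] at h; linarith
      exact (abs_lt_of_sq_lt_sq' h' hR0.le).2
    set M : ℝ := L * (2 * (r' / ρ) * (R / q0)) with hM
    have hYM : ∀ t ∈ Icc t1 t2, |Y t - Y t1| ≤ M := by
      intro t ht
      refine (hLip _ _).trans ?_
      apply mul_le_mul_of_nonneg_left _ hL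
      refine (sph_dist b y R φ t t1 q0 hR0 hq00 (hmain t ht) (hmain t1 ⟨le_rfl, h12⟩)).trans ?_
      apply mul_le_mul_of_nonneg_right _ (by positivity)
      rw [abs_of_nonneg (by linarith [ht.1])]
      linarith [ht.2]
    have h6 := inner1 hΨ r' ρ R t1 t2 M hr' hρ hR0 ht1 ht2 hlo hhi Y hYc hYM
    have h7 : |r * Ψ (R - r)| ≤ r := by
      rw [abs_mul, abs_of_pos (by linarith : 0 < r)]
      calc r * |Ψ (R - r)| ≤ r * 1 := by
            apply mul_le_mul_of_nonneg_left (hΨ.bound _); linarith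
        _ = r := mul_one r
    calc _ ≤ r * (2 * (r' / ρ) * M) := mul_le_mul h7 h6 (abs_nonneg _) (by linarith)
      _ = 4 * L * (r * r' / ρ) * ((r' / ρ) * (R / q0)) := by rw [hM]; ring
      _ ≤ 4 * L * (r * r' / ρ) * (5 * √(r * r' / (ρ * Δ))) := by
          apply mul_le_mul_of_nonneg_left _ (by positivity)
          have h8 : (r' / ρ) * (R / q0) = √(((r' / ρ) * R) ^ 2 / Q) := by
            rw [Real.sqrt_div (sq_nonneg _), Real.sqrt_sq (by positivity)]
            ring
          have h9 : 5 * √(r * r' / (ρ * Δ)) = √(25 * (r * r' / (ρ * Δ))) := by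
            rw [Real.sqrt_mul (by norm_num)]
            congr 1
            rw [show (25 : ℝ) = 5 ^ 2 by norm_num, Real.sqrt_sq (by norm_num)]
          rw [h8, h9]
          apply Real.sqrt_le_sqrt
          have h10 : ((r' / ρ) * R) ^ 2 / Q = 16 * (R * r' / (ρ * Δ)) := by
            rw [hQ]; field_simp
          rw [h10]
          have h11 : R * r' / (ρ * Δ) ≤ (25 / 16 * r) * r' / (ρ * Δ) := by
            apply div_le_div_of_nonneg_right _ (by positivity)
            apply mul_le_mul_of_nonneg_right _ (by linarith)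
            linarith
          calc 16 * (R * r' / (ρ * Δ)) ≤ 16 * ((25 / 16 * r) * r' / (ρ * Δ)) := by linarith
            _ = _ := by ring
      _ ≤ B := by
          rw [hB]
          have : 0 ≤ L * (r * r' / ρ) * √(r * r' / (ρ * Δ)) := by positivity
          nlinarith
  have key2 : ∀ R, 0 < R → ¬ |R - r| ≤ 1 / 2 → ∀ φ, ∫ t in Ioo (-R) R,
      R * (atom Ψ y r (sph b y R φ t) * atom Ψ y' r' (sph b y R φ t) * X (sph b y R φ t)) = 0 := by
    intro R hR0 hRr φ
    rw [setIntegral_congr_fun measurableSet_Ioo (g := fun _ => (0 : ℝ))]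
    · simp
    intro t ht
    have e2 : ‖sph b y R φ t - y‖ = R := by
      apply sph_norm b y R φ t hR0.le
      apply sq_le_sq' <;> linarith [ht.1, ht.2]
    have : atom Ψ y r (sph b y R φ t) = 0 := by
      apply atom_zero hΨ
      intro h
      apply hRr
      have h' : |‖sph b y R φ t - y‖ - r| ≤ 1 / 2 := h
      rwa [e2] at h'
    simp only [this]; ring
  have key3 : ∀ R ∈ Icc (r - 1 / 2) (r + 1 / 2), ‖∫ φ in Ioo (-Real.pi) Real.pi, ∫ t in Ioo (-R) R,
      R * (atom Ψ y r (sph b y R φ t) * atom Ψ y' r' (sph b y R φ t) * X (sph b y R φ t))‖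
      ≤ B * (2 * Real.pi) := by
    intro R hR
    have h := norm_setIntegral_le_of_norm_le_const (μ := volume) (s := Ioo (-Real.pi) Real.pi)
      (C := B) (f := fun φ => ∫ t in Ioo (-R) R,
      R * (atom Ψ y r (sph b y R φ t) * atom Ψ y' r' (sph b y R φ t) * X (sph b y R φ t)))
      (by simp) (fun φ _ => key R φ (abs_le.2 ⟨by linarith [hR.1], by linarith [hR.2]⟩))
    have h2 : (volume : Measure ℝ).real (Ioo (-Real.pi) Real.pi) = 2 * Real.pi := by
      rw [Real.volume_real_Ioo_of_le (by linarith)]; ring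
    rw [h2] at h
    exact h
  have e5 : (∫ R in Ioi (0 : ℝ), ∫ φ in Ioo (-Real.pi) Real.pi, ∫ t in Ioo (-R) R,
      R * (atom Ψ y r (sph b y R φ t) * atom Ψ y' r' (sph b y R φ t) * X (sph b y R φ t)))
      = ∫ R in Icc (r - 1 / 2) (r + 1 / 2), ∫ φ in Ioo (-Real.pi) Real.pi, ∫ t in Ioo (-R) R,
      R * (atom Ψ y r (sph b y R φ t) * atom Ψ y' r' (sph b y R φ t) * X (sph b y R φ t)) := by
    apply setIntegral_eq_of_subset_of_forall_sdiff_eq_zero measurableSet_Ioi
    · intro R hR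
      simp only [mem_Ioi]
      linarith [hR.1]
    · intro R hR
      have h0 : ¬ |R - r| ≤ 1 / 2 := by
        intro h
        obtain ⟨ha, hb⟩ := abs_le.1 h
        exact hR.2 ⟨by linarith, by linarith⟩
      simp only [key2 R hR.1 h0]
      simp
  rw [e5]
  have h := norm_setIntegral_le_of_norm_le_const (μ := volume) (s := Icc (r - 1 / 2) (r + 1 / 2))
      (C := B * (2 * Real.pi)) (f := fun R => ∫ φ in Ioo (-Real.pi) Real.pi, ∫ t in Ioo (-R) R,
      R * (atom Ψ y r (sph b y R φ t) * atom Ψ y' r' (sph b y R φ t) * X (sph b y R φ t)))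
      (by simp) key3
  have h2 : (volume : Measure ℝ).real (Icc (r - 1 / 2) (r + 1 / 2)) = 1 := by
    rw [Real.volume_real_Icc_of_le (by linarith)]; ring
  rw [h2, Real.norm_eq_abs] at h
  refine h.trans (le_of_eq ?_)
  rw [hB]; ring

end Run7.h58
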