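import Pool.Agent.Run7.h58.Energy
import Pool.Agent.Run7.h58.Trans

open MeasureTheory Finset
open scoped ENNReal RealInnerProductSpace

namespace Run7.h58

open Classical in
/-- bad positions of a cell -/
noncomputable def bset (y : I4 → V3) (r : I4 → ℝ) (h : ℝ) (k : ℕ) (α : ℤ) (E E' : Finset I4)
    (P : I4 → I4 → Prop) (thr C : ℝ) (c : I4) : Finset I3 :=
  {n ∈ E.biUnion (fun e => nbox h C (y e)) | thr ≤ #(TS y r h k α E E' P c n)}

open Classical in
theorem mem_bset {y : I4 → V3} {r : I4 → ℝ} {h : ℝ} {k : ℕ} {α : ℤ} {E E' : Finset I4}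
    {P : I4 → I4 → Prop} {thr C : ℝ} {c : I4} {n : I3} :
    n ∈ bset y r h k α E E' P thr C c ↔
      (∃ e ∈ E, n ∈ nbox h C (y e)) ∧ thr ≤ #(TS y r h k α E E' P c n) := by
  unfold bset; rw [Finset.mem_filter, Finset.mem_biUnion]

/-- bad cells -/
def isBad (y : I4 → V3) (r : I4 → ℝ) (h : ℝ) (k : ℕ) (α : ℤ) (E E' : Finset I4)
    (P : I4 → I4 → Prop) (thr C T : ℝ) (c : I4) : Prop :=
  ∃ ν : Fin 4 → I3, (∀ i, ν i ∈ bset y r h k α E E' P thr C c) ∧ trans4 h T ν

open Classical in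
/-- the cutoff of a cell -/
noncomputable def bcut (y : I4 → V3) (r : I4 → ℝ) (h : ℝ) (k : ℕ) (α : ℤ) (E E' : Finset I4)
    (P : I4 → I4 → Prop) (thr C T : ℝ) (c : I4) (x : V3) : ℝ :=
  if isBad y r h k α E E' P thr C T c then 0 else cut h (bset y r h k α E E' P thr C c) x

section
variable {y : I4 → V3} {r : I4 → ℝ} {h : ℝ} {k : ℕ} {α : ℤ} {E E' : Finset I4}
    {P : I4 → I4 → Prop} {thr C T : ℝ} {c : I4}

theorem bcut_nonneg (x : V3) : 0 ≤ bcut y r h k α E E' P thr C T c x := by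
  unfold bcut; split_ifs
  · exact le_rfl
  · exact cut_nonneg _ _ _

theorem bcut_le_one (x : V3) : bcut y r h k α E E' P thr C T c x ≤ 1 := by
  unfold bcut; split_ifs
  · norm_num
  · exact cut_le_one _ _ _

theorem bcut_lip (hh : 0 < h) (x z : V3) :
    |bcut y r h k α E E' P thr C T c x - bcut y r h k α E E' P thr C T c z| ≤ h⁻¹ * ‖x - z‖ := by
  unfold bcut; split_ifs
  · simp only [sub_self, abs_zero]; positivity
  · exact cut_lip h hh _ x z

theorem cont_of_lip (f : V3 → ℝ) (L : ℝ) (hf : ∀ x z, |f x - f z| ≤ L * ‖x - z‖) :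
    Continuous f := by
  have : LipschitzWith (Real.toNNReal (max L 0)) f := by
    apply LipschitzWith.of_dist_le_mul
    intro x z
    rw [Real.dist_eq, dist_eq_norm, Real.coe_toNNReal _ (le_max_right _ _)]
    exact (hf x z).trans (mul_le_mul_of_nonneg_right (le_max_left _ _) (norm_nonneg _))
  exact this.continuous

theorem bcut_cont (hh : 0 < h) : Continuous (bcut y r h k α E E' P thr C T c) :=
  cont_of_lip _ _ (bcut_lip hh)

theorem bcut_good (hh : 0 < h) (e : I4) (he : e ∈ E) (hC : r e + 1 / 2 + h ≤ C) (x : V3)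
    (hx : x ∈ shell (y e) (r e)) (hne : bcut y r h k α E E' P thr C T c x ≠ 0) (n : I3)
    (hn : ‖x - ctr h n‖ ≤ h) : (#(TS y r h k α E E' P c n) : ℝ) < thr := by
  by_contra hcon
  rw [not_lt] at hcon
  apply hne
  unfold bcut
  split_ifs
  · rfl
  · apply cut_zero h hh _ x n _ hn
    rw [mem_bset]
    refine ⟨⟨e, he, ?_⟩, hcon⟩
    apply mem_nbox h C hh
    have h1 := abs_le.1 (show |‖x - y e‖ - r e| ≤ 1 / 2 from hx)
    have h2 : ctr h n - y e = (ctr h n - x) + (x - y e) := by abel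
    rw [h2]
    refine (norm_add_le _ _).trans ?_
    rw [norm_sub_rev (ctr h n) x]
    linarith [h1.2]

variable {Ψ : ℝ → ℝ}

theorem bcut_loss (hΨ : Profile Ψ) (hh : 0 < h) (hT : 0 < T)
    (hb : ¬ isBad y r h k α E E' P thr C T c) (z : V3) (q : ℝ) (hq : 1 ≤ q) :
    ∫ x, |(1 - bcut y r h k α E E' P thr C T c x) * atom Ψ z q x|
      ≤ 8 * Real.pi * q * (T + 2 * h) := by
  set S := bset y r h k α E E' P thr C c with hS
  have hχ : ∀ x, |1 - bcut y r h k α E E' P thr C T c x| ≤ 1 := by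
    intro x
    rw [abs_le]
    constructor <;> linarith [bcut_nonneg (y := y) (r := r) (h := h) (k := k) (α := α) (E := E)
      (E' := E') (P := P) (thr := thr) (C := C) (T := T) (c := c) x,
      bcut_le_one (y := y) (r := r) (h := h) (k := k) (α := α) (E := E)
      (E' := E') (P := P) (thr := thr) (C := C) (T := T) (c := c) x]
  have hbc : ∀ x, bcut y r h k α E E' P thr C T c x = cut h S x := by
    intro x
    unfold bcut; rw [if_neg hb]
  rcases S.eq_empty_or_nonempty with h0 | ⟨i0, hi0⟩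
  · have : ∀ x, |(1 - bcut y r h k α E E' P thr C T c x) * atom Ψ z q x| = 0 := by
      intro x
      rw [hbc, h0]
      simp [cut]
    simp only [this]
    rw [integral_zero]
    have := Real.pi_pos
    positivity
  · obtain ⟨u, hu, hslab⟩ := slab_lemma S (ctr h) i0 hi0 T hT (by
      intro i hi j hj l hl
      by_contra hcon
      rw [not_lt] at hcon
      apply hb
      refine ⟨![i0, i, j, l], ?_, ?_⟩
      · intro w
        fin_cases w
        · exact hi0
        · exact hi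
        · exact hj
        · exact hl
      · exact hcon)
    apply atom_loss hΨ z q hq _ hχ u (ctr h i0) hu (T + 2 * h) (by positivity)
    intro x hx
    rw [hbc] at hx
    have hx' : cut h S x ≠ 1 := fun h' => hx (by rw [h']; ring)
    obtain ⟨n, hn, hnx⟩ := cut_ne_one h hh S x hx'
    have h1 : x - ctr h i0 = (x - ctr h n) + (ctr h n - ctr h i0) := by abel
    rw [h1, inner_add_right]
    refine (abs_add_le _ _).trans ?_
    have h2 := abs_real_inner_le_norm u (x - ctr h n)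
    rw [hu, one_mul] at h2
    linarith [hslab n hn]

end

/-- the slowly decaying parameters -/
noncomputable def t0 : ℝ := 999 / 1000
noncomputable def dl (k : ℕ) : ℝ := t0 ^ k
noncomputable def bt (k : ℕ) : ℝ := dl k ^ 3 / 8192
noncomputable def thrs (u : ℝ) (k : ℕ) : ℝ := (19 / 20) ^ k * bt k ^ 3 * u * 16 ^ k

theorem dl_pos (k : ℕ) : 0 < dl k := by unfold dl t0; positivity
theorem dl_le (k : ℕ) : dl k ≤ 1 := by unfold dl t0; exact pow_le_one₀ (by norm_num) (by norm_num)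
theorem bt_pos (k : ℕ) : 0 < bt k := by have := dl_pos k; unfold bt; positivity
theorem bt_le_dl (k : ℕ) : bt k ≤ dl k / 8192 := by
  unfold bt
  have h1 := dl_pos k
  have h2 := dl_le k
  have : dl k ^ 3 ≤ dl k := by
    calc dl k ^ 3 = dl k ^ 2 * dl k := by ring
      _ ≤ 1 * dl k := mul_le_mul_of_nonneg_right (pow_le_one₀ h1.le h2) h1.le
      _ = dl k := one_mul _
  linarith
theorem bt_le (k : ℕ) : bt k ≤ 1 / 8192 := (bt_le_dl k).trans (by linarith [dl_le k])

theorem num1 (k : ℕ) (hk : 40 ≤ k) : 2 ^ 10 ≤ bt k ^ 2 * 2 ^ k := by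
  have e : bt k ^ 2 * 2 ^ k = (2 * t0 ^ 6) ^ k / 2 ^ 26 := by
    unfold bt dl
    rw [mul_pow, ← pow_mul, ← pow_mul]
    rw [div_pow, ← pow_mul, mul_comm 6 k]
    have : (t0 ^ (k * 3 * 2)) = t0 ^ (k * 6) := by congr 1; ring
    rw [this]
    norm_num
    ring
  rw [e, le_div_iff₀ (by positivity)]
  have h1 : (1 : ℝ) ≤ 2 * t0 ^ 6 := by unfold t0; norm_num
  calc (2 : ℝ) ^ 10 * 2 ^ 26 ≤ (2 * t0 ^ 6) ^ 40 := by unfold t0; norm_num
    _ ≤ (2 * t0 ^ 6) ^ k := pow_le_pow_right₀ h1 hk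

theorem num2 (k : ℕ) (hk : 40 ≤ k) : 32 * (8 ^ k / dl k ^ 3) ≤ 16 ^ k := by
  have h0 := dl_pos k
  rw [← mul_div_assoc, div_le_iff₀ (by positivity)]
  have e : (16 : ℝ) ^ k * dl k ^ 3 = 8 ^ k * (2 * t0 ^ 3) ^ k := by
    unfold dl
    rw [mul_pow, ← pow_mul, ← pow_mul, mul_comm 3 k, ← mul_assoc, ← mul_pow]
    norm_num
  rw [e, mul_comm (32 : ℝ)]
  apply mul_le_mul_of_nonneg_left _ (by positivity)
  have h1 : (1 : ℝ) ≤ 2 * t0 ^ 3 := by unfold t0; norm_num
  calc (32 : ℝ) ≤ (2 * t0 ^ 3) ^ 40 := by unfold t0; norm_num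
    _ ≤ (2 * t0 ^ 3) ^ k := pow_le_pow_right₀ h1 hk

/-- range relation -/
def Prng (k : ℕ) (e e' : I4) : Prop := (16 : ℝ) ^ k ≤ dist e e' ∧ dist e e' < 16 ^ (k + 1)

theorem near_sep {y : I4 → V3} {r : I4 → ℝ} (hc : Cfg y r) (k : ℕ) (hk : 1 ≤ k) (e e' : I4)
    (he : 0 ≤ r e) (he' : 0 ≤ r e') (hd : (16 : ℝ) ^ k ≤ dist e e') (s σ : ℝ)
    (hs : s = 1 ∨ s = -1) (hσ : σ = 1 ∨ σ = -1)
    (ht : |s * ‖y e - y e'‖ + r e - σ * r e'| ≤ 8 ^ k) : 16 ^ k / 2 ≤ ‖y e - y e'‖ := by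
  have h1 := hd.trans (hc.d3 e e')
  have h816 : (8 : ℝ) ^ k ≤ 16 ^ k / 2 := by
    have : (16 : ℝ) ^ k = 8 ^ k * 2 ^ k := by rw [← mul_pow]; norm_num
    rw [this]
    have h2 : (2 : ℝ) ^ 1 ≤ 2 ^ k := pow_le_pow_right₀ (by norm_num) hk
    have h3 : (0 : ℝ) < 8 ^ k := by positivity
    nlinarith
  have h16 : (0 : ℝ) < 16 ^ k := by positivity
  rcases le_total ‖y e - y e'‖ |r e - r e'| with h | h
  · rw [max_eq_right h] at h1
    have hn := norm_nonneg (y e - y e')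
    obtain ⟨a1, a2⟩ := abs_le.1 ht
    rcases hs with rfl | rfl <;> rcases hσ with rfl | rfl <;>
      rcases abs_cases (r e - r e') with ⟨b1, _⟩ | ⟨b1, _⟩ <;> linarith
  · rw [max_eq_left h] at h1
    linarith

end Run7.h58
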