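import Mathlib

open Finset

namespace Run7.h58

abbrev I4 := Fin 4 → ℤ

/-- cell of level `m` of the grid shifted by `α`. -/
def cell (α : ℤ) (m : ℕ) (e : I4) : I4 := fun i => (e i + α) / 4 ^ m

/-- interior points -/
def inte (α : ℤ) (m : ℕ) (e : I4) : Prop :=
  ∀ i, 2 ^ m ≤ (e i + α) % 4 ^ m ∧ (e i + α) % 4 ^ m < 4 ^ m - 2 ^ m

instance (α : ℤ) (m : ℕ) (e : I4) : Decidable (inte α m e) := by
  unfold inte; infer_instance

theorem cell_nest (α : ℤ) (m : ℕ) (e e' : I4) (h : cell α m e = cell α m e') :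
    cell α (m + 1) e = cell α (m + 1) e' := by
  ext i
  have h1 := congrFun h i
  simp only [cell] at h1 ⊢
  rw [pow_succ, ← Int.ediv_ediv_of_nonneg (by positivity), ← Int.ediv_ediv_of_nonneg (by positivity), h1]

theorem cell_nest_le (α : ℤ) {m m' : ℕ} (hm : m ≤ m') (e e' : I4)
    (h : cell α m e = cell α m e') : cell α m' e = cell α m' e' := by
  induction hm with
  | refl => exact h
  | step _ ih => exact cell_nest α _ e e' ih

theorem cell_close (α : ℤ) (m : ℕ) (e e' : I4) (h : cell α m e = cell α m e') :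
    dist e e' ≤ 4 ^ m := by
  rw [dist_pi_le_iff (by positivity)]
  intro i
  have h1 := congrFun h i
  simp only [cell] at h1
  have h4 : (0 : ℤ) < 4 ^ m := by positivity
  have a1 := Int.emod_add_mul_ediv (e i + α) (4 ^ m)
  have a2 := Int.emod_add_mul_ediv (e' i + α) (4 ^ m)
  have b1 := Int.emod_nonneg (e i + α) h4.ne'
  have b2 := Int.emod_lt_of_pos (e i + α) h4
  have b3 := Int.emod_nonneg (e' i + α) h4.ne'
  have b4 := Int.emod_lt_of_pos (e' i + α) h4
  rw [h1] at a1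
  have h5 : |e i - e' i| ≤ 4 ^ m := by
    rw [abs_le]; constructor <;> linarith
  rw [Int.dist_eq]
  have h6 : ((|e i - e' i| : ℤ) : ℝ) ≤ ((4 ^ m : ℤ) : ℝ) := Int.cast_le.2 h5
  push_cast at h6
  exact h6

theorem cell_far (α : ℤ) (m : ℕ) (e e' : I4) (he : inte α m e)
    (h : cell α m e ≠ cell α m e') : 2 ^ m ≤ dist e e' := by
  obtain ⟨i, hi⟩ := Function.ne_iff.1 h
  refine le_trans ?_ (dist_le_pi_dist e e' i)
  simp only [cell] at hi
  have h4 : (0 : ℤ) < 4 ^ m := by positivity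
  have a1 := Int.emod_add_mul_ediv (e i + α) (4 ^ m)
  have a2 := Int.emod_add_mul_ediv (e' i + α) (4 ^ m)
  have b3 := Int.emod_nonneg (e' i + α) h4.ne'
  have b4 := Int.emod_lt_of_pos (e' i + α) h4
  obtain ⟨c1, c2⟩ := he i
  have h5 : 2 ^ m ≤ |e i - e' i| := by
    rcases lt_or_gt_of_ne hi with h | h
    · -- quotient of e smaller
      have h6 : (e i + α) / 4 ^ m + 1 ≤ (e' i + α) / 4 ^ m := h
      have h7 : 4 ^ m * ((e i + α) / 4 ^ m) + 4 ^ m ≤ 4 ^ m * ((e' i + α) / 4 ^ m) := by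
        nlinarith
      rw [abs_sub_comm]
      refine le_trans ?_ (le_abs_self _)
      linarith
    · have h6 : (e' i + α) / 4 ^ m + 1 ≤ (e i + α) / 4 ^ m := h
      have h7 : 4 ^ m * ((e' i + α) / 4 ^ m) + 4 ^ m ≤ 4 ^ m * ((e i + α) / 4 ^ m) := by
        nlinarith
      refine le_trans ?_ (le_abs_self _)
      linarith
  rw [Int.dist_eq]
  have h6 : ((2 ^ m : ℤ) : ℝ) ≤ ((|e i - e' i| : ℤ) : ℝ) := Int.cast_le.2 h5
  push_cast at h6
  exact h6

theorem cell_card (α : ℤ) (m : ℕ) (E : Finset I4) (c : I4) :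
    #{e ∈ E | cell α m e = c} ≤ 256 ^ m := by
  have hsub : {e ∈ E | cell α m e = c} ⊆
      Fintype.piFinset (fun i : Fin 4 => Finset.Ico (4 ^ m * c i - α) (4 ^ m * c i - α + 4 ^ m)) := by
    intro e he
    rw [Fintype.mem_piFinset]
    intro i
    have h1 := congrFun (Finset.mem_filter.1 he).2 i
    simp only [cell] at h1
    have h4 : (0 : ℤ) < 4 ^ m := by positivity
    have a1 := Int.emod_add_mul_ediv (e i + α) (4 ^ m)
    have b1 := Int.emod_nonneg (e i + α) h4.ne'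
    have b2 := Int.emod_lt_of_pos (e i + α) h4
    rw [h1] at a1
    rw [Finset.mem_Ico]
    constructor <;> linarith
  refine (Finset.card_le_card hsub).trans ?_
  rw [Fintype.card_piFinset]
  simp only [Int.card_Ico, add_sub_cancel_left, Finset.prod_const, Finset.card_univ, Fintype.card_fin]
  have : (4 ^ m : ℤ).toNat = 4 ^ m := by
    have : (4 ^ m : ℤ) = ((4 ^ m : ℕ) : ℤ) := by push_cast; rfl
    rw [this, Int.toNat_natCast]
  rw [this, ← pow_mul, mul_comm m 4, pow_mul]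
  norm_num

theorem count_res (x : ℤ) (m M : ℕ) (hm : m ≤ M) (v : ℤ) :
    #{α ∈ Finset.Ico (0 : ℤ) (4 ^ M) | (x + α) % 4 ^ m = v} ≤ 4 ^ (M - m) := by
  have h4 : (0 : ℤ) < 4 ^ m := by positivity
  -- the map α ↦ α / 4^m is injective into [0, 4^(M-m))
  have hcard : #(Finset.Ico (0 : ℤ) (4 ^ (M - m))) = 4 ^ (M - m) := by
    rw [Int.card_Ico, sub_zero]
    have : (4 ^ (M - m) : ℤ) = ((4 ^ (M - m) : ℕ) : ℤ) := by push_cast; rfl
    rw [this, Int.toNat_natCast]
  rw [← hcard]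
  apply Finset.card_le_card_of_injOn (fun α => α / 4 ^ m)
  · intro α hα
    simp only [Finset.coe_filter, Finset.mem_Ico, Set.mem_ofPred_eq] at hα
    simp only [Finset.coe_Ico, Set.mem_Ico]
    constructor
    · exact Int.ediv_nonneg hα.1.1 h4.le
    · rw [Int.ediv_lt_iff_lt_mul h4, ← pow_add, Nat.sub_add_cancel hm]
      exact hα.1.2
  · intro α hα β hβ hαβ
    simp only [Finset.coe_filter, Finset.mem_Ico, Set.mem_ofPred_eq] at hα hβ
    simp only at hαβ
    have a1 := Int.emod_add_mul_ediv α (4 ^ m)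
    have a2 := Int.emod_add_mul_ediv β (4 ^ m)
    have h1 : (x + α) % 4 ^ m = (x + β) % 4 ^ m := by rw [hα.2, hβ.2]
    have h2 : α % 4 ^ m = β % 4 ^ m := by
      have h3 : (x + α) ≡ (x + β) [ZMOD 4 ^ m] := h1
      exact Int.ModEq.add_left_cancel' x h3
    rw [h2, hαβ] at a1
    linarith

theorem count_bad (x : ℤ) (m M : ℕ) (hm : m ≤ M) :
    #{α ∈ Finset.Ico (0 : ℤ) (4 ^ M) | ¬ (2 ^ m ≤ (x + α) % 4 ^ m ∧
      (x + α) % 4 ^ m < 4 ^ m - 2 ^ m)} ≤ 2 * 2 ^ m * 4 ^ (M - m) := by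
  have h4 : (0 : ℤ) < 4 ^ m := by positivity
  set B : Finset ℤ := Finset.Ico (0 : ℤ) (2 ^ m) ∪ Finset.Ico (4 ^ m - 2 ^ m : ℤ) (4 ^ m) with hB
  have hBc : #B ≤ 2 * 2 ^ m := by
    refine (Finset.card_union_le _ _).trans ?_
    rw [Int.card_Ico, Int.card_Ico]
    have : (2 ^ m : ℤ) = ((2 ^ m : ℕ) : ℤ) := by push_cast; rfl
    have e1 : ((2 ^ m : ℤ) - 0).toNat = 2 ^ m := by rw [sub_zero, this, Int.toNat_natCast]
    have e2 : ((4 ^ m : ℤ) - (4 ^ m - 2 ^ m)).toNat = 2 ^ m := by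
      rw [sub_sub_cancel, this, Int.toNat_natCast]
    rw [e1, e2]; linarith
  have hsub : {α ∈ Finset.Ico (0 : ℤ) (4 ^ M) | ¬ (2 ^ m ≤ (x + α) % 4 ^ m ∧
      (x + α) % 4 ^ m < 4 ^ m - 2 ^ m)} ⊆ B.biUnion (fun v =>
      {α ∈ Finset.Ico (0 : ℤ) (4 ^ M) | (x + α) % 4 ^ m = v}) := by
    intro α hα
    rw [Finset.mem_filter] at hα
    rw [Finset.mem_biUnion]
    refine ⟨(x + α) % 4 ^ m, ?_, ?_⟩
    · have b1 := Int.emod_nonneg (x + α) h4.ne'
      have b2 := Int.emod_lt_of_pos (x + α) h4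
      rw [hB, Finset.mem_union, Finset.mem_Ico, Finset.mem_Ico]
      by_cases hc : 2 ^ m ≤ (x + α) % 4 ^ m
      · right
        refine ⟨?_, b2⟩
        by_contra h'
        exact hα.2 ⟨hc, not_le.1 h'⟩
      · left
        exact ⟨b1, not_le.1 hc⟩
    · rw [Finset.mem_filter]; exact ⟨hα.1, rfl⟩
  refine (Finset.card_le_card hsub).trans ?_
  refine (Finset.card_biUnion_le).trans ?_
  calc ∑ v ∈ B, #{α ∈ Finset.Ico (0 : ℤ) (4 ^ M) | (x + α) % 4 ^ m = v}
      ≤ ∑ v ∈ B, 4 ^ (M - m) := Finset.sum_le_sum (fun v _ => count_res x m M hm v)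
    _ = #B * 4 ^ (M - m) := by rw [Finset.sum_const, smul_eq_mul]
    _ ≤ _ := Nat.mul_le_mul_right _ hBc

theorem exists_shift (E : Finset I4) (m₁ M : ℕ) :
    ∃ α : ℤ, (#{e ∈ E | ∃ m ∈ Finset.Icc m₁ M, ¬ inte α m e} : ℝ) ≤ 16 / 2 ^ m₁ * #E := by
  have hne : (Finset.Ico (0 : ℤ) (4 ^ M)).Nonempty := by
    rw [Finset.nonempty_Ico]; positivity
  have hcard : (#(Finset.Ico (0 : ℤ) (4 ^ M)) : ℝ) = 4 ^ M := by
    rw [Int.card_Ico, sub_zero]
    have : (4 ^ M : ℤ) = ((4 ^ M : ℕ) : ℤ) := by push_cast; rfl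
    rw [this, Int.toNat_natCast]; push_cast; rfl
  obtain ⟨α, -, hα⟩ := Finset.exists_le_of_sum_le (s := Finset.Ico (0 : ℤ) (4 ^ M))
    (f := fun α => (#{e ∈ E | ∃ m ∈ Finset.Icc m₁ M, ¬ inte α m e} : ℝ))
    (g := fun _ => 16 / 2 ^ m₁ * (#E : ℝ)) hne (by
      have h1 : ∀ α : ℤ, (#{e ∈ E | ∃ m ∈ Finset.Icc m₁ M, ¬ inte α m e} : ℝ) ≤
          ∑ e ∈ E, ∑ m ∈ Finset.Icc m₁ M, ∑ i : Fin 4,
            (if ¬ (2 ^ m ≤ (e i + α) % 4 ^ m ∧ (e i + α) % 4 ^ m < 4 ^ m - 2 ^ m) then (1 : ℝ)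
              else 0) := by
        intro α
        rw [Finset.card_filter]
        push_cast
        apply Finset.sum_le_sum
        intro e _
        have hnn : ∀ m ∈ Finset.Icc m₁ M, (0 : ℝ) ≤ ∑ i : Fin 4,
            (if ¬ (2 ^ m ≤ (e i + α) % 4 ^ m ∧ (e i + α) % 4 ^ m < 4 ^ m - 2 ^ m) then (1 : ℝ)
              else 0) := by
          intro m _
          apply Finset.sum_nonneg
          intro i _
          split_ifs <;> norm_num
        split_ifs with hc
        · obtain ⟨m, hm, hbad⟩ := hc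
          refine le_trans ?_ (Finset.single_le_sum hnn hm)
          unfold inte at hbad
          push Not at hbad
          obtain ⟨i, hi⟩ := hbad
          refine le_trans ?_ (Finset.single_le_sum (f := fun i : Fin 4 =>
            (if ¬ (2 ^ m ≤ (e i + α) % 4 ^ m ∧ (e i + α) % 4 ^ m < 4 ^ m - 2 ^ m) then (1 : ℝ)
              else 0)) (fun i _ => by split_ifs <;> norm_num) (Finset.mem_univ i))
          rw [if_pos]
          rintro ⟨h1, h2⟩
          have := hi h1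
          linarith
        · exact Finset.sum_nonneg hnn
      calc ∑ α ∈ Finset.Ico (0 : ℤ) (4 ^ M), (#{e ∈ E | ∃ m ∈ Finset.Icc m₁ M, ¬ inte α m e} : ℝ)
          ≤ ∑ α ∈ Finset.Ico (0 : ℤ) (4 ^ M), ∑ e ∈ E, ∑ m ∈ Finset.Icc m₁ M, ∑ i : Fin 4,
            (if ¬ (2 ^ m ≤ (e i + α) % 4 ^ m ∧ (e i + α) % 4 ^ m < 4 ^ m - 2 ^ m) then (1 : ℝ)
              else 0) := Finset.sum_le_sum (fun α _ => h1 α)
        _ = ∑ e ∈ E, ∑ m ∈ Finset.Icc m₁ M, ∑ i : Fin 4, ∑ α ∈ Finset.Ico (0 : ℤ) (4 ^ M),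
            (if ¬ (2 ^ m ≤ (e i + α) % 4 ^ m ∧ (e i + α) % 4 ^ m < 4 ^ m - 2 ^ m) then (1 : ℝ)
              else 0) := by
            rw [Finset.sum_comm]
            apply Finset.sum_congr rfl
            intro e _
            rw [Finset.sum_comm]
            apply Finset.sum_congr rfl
            intro m _
            rw [Finset.sum_comm]
        _ ≤ ∑ e ∈ E, ∑ m ∈ Finset.Icc m₁ M, 8 * 4 ^ M * (1 / 2) ^ m := by
            apply Finset.sum_le_sum
            intro e _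
            apply Finset.sum_le_sum
            intro m hm
            rw [Finset.mem_Icc] at hm
            have h2 : ∀ i : Fin 4, ∑ α ∈ Finset.Ico (0 : ℤ) (4 ^ M),
              (if ¬ (2 ^ m ≤ (e i + α) % 4 ^ m ∧ (e i + α) % 4 ^ m < 4 ^ m - 2 ^ m) then (1 : ℝ)
              else 0) ≤ 2 * 4 ^ M * (1 / 2) ^ m := by
              intro i
              have h3 := count_bad (e i) m M hm.2
              have h4 : ((#{α ∈ Finset.Ico (0 : ℤ) (4 ^ M) | ¬ (2 ^ m ≤ (e i + α) % 4 ^ m ∧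
                (e i + α) % 4 ^ m < 4 ^ m - 2 ^ m)} : ℕ) : ℝ) ≤
                ((2 * 2 ^ m * 4 ^ (M - m) : ℕ) : ℝ) := Nat.cast_le.2 h3
              rw [Finset.card_filter] at h4
              push_cast at h4
              refine h4.trans (le_of_eq ?_)
              have h5 : (4 : ℝ) ^ M = 4 ^ (M - m) * 4 ^ m := by
                rw [← pow_add, Nat.sub_add_cancel hm.2]
              have h6 : (4 : ℝ) ^ m * (1 / 2) ^ m = 2 ^ m := by
                rw [← mul_pow]; norm_num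
              rw [h5]
              linear_combination (-(2 * 4 ^ (M - m) : ℝ)) * h6
            refine (Finset.sum_le_sum (fun i _ => h2 i)).trans ?_
            rw [Finset.sum_const, Finset.card_univ, Fintype.card_fin, nsmul_eq_mul]
            push_cast
            linarith
        _ ≤ ∑ e ∈ E, 16 / 2 ^ m₁ * 4 ^ M := by
            apply Finset.sum_le_sum
            intro e _
            rw [← Finset.mul_sum]
            have h7 : ∑ m ∈ Finset.Icc m₁ M, ((1 : ℝ) / 2) ^ m ≤ 2 * (1 / 2) ^ m₁ := by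
              rcases le_or_gt m₁ (M + 1) with h | h
              · have e1 : Finset.Icc m₁ M = Finset.Ico m₁ (M + 1) := by
                  ext x; simp only [Finset.mem_Icc, Finset.mem_Ico]; omega
                rw [e1, geom_sum_Ico (by norm_num) h]
                have : (0 : ℝ) ≤ (1 / 2) ^ (M + 1) := by positivity
                rw [div_le_iff_of_neg (by norm_num)]
                linarith
              · have e1 : Finset.Icc m₁ M = ∅ := by
                  rw [Finset.Icc_eq_empty]; omega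
                rw [e1, Finset.sum_empty]; positivity
            calc 8 * 4 ^ M * ∑ m ∈ Finset.Icc m₁ M, ((1 : ℝ) / 2) ^ m
                ≤ 8 * 4 ^ M * (2 * (1 / 2) ^ m₁) := mul_le_mul_of_nonneg_left h7 (by positivity)
              _ = 16 / 2 ^ m₁ * 4 ^ M := by
                  rw [one_div, inv_pow]; ring
        _ = ∑ α ∈ Finset.Ico (0 : ℤ) (4 ^ M), 16 / 2 ^ m₁ * (#E : ℝ) := by
            rw [Finset.sum_const, Finset.sum_const, nsmul_eq_mul, nsmul_eq_mul, hcard]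
            ring)
  exact ⟨α, hα⟩

end Run7.h58
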