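import Pool.Agent.Run7.h58.Same4

open MeasureTheory Finset
open scoped ENNReal RealInnerProductSpace

namespace Run7.h58

/-- density threshold -/
noncomputable def lam (k₀ : ℕ) : ℝ := 256 ^ (4 * k₀ + 4) * (t0 ^ k₀)⁻¹

theorem lam_pos (k₀ : ℕ) : 0 < lam k₀ := by
  have : 0 < t0 ^ k₀ := dl_pos k₀
  unfold lam; positivity

theorem lam_ge (k₀ : ℕ) : 1 ≤ lam k₀ := by
  have h1 : 0 < t0 ^ k₀ := dl_pos k₀
  have h2 : t0 ^ k₀ ≤ 1 := dl_le k₀
  have h3 : (1 : ℝ) ≤ 256 ^ (4 * k₀ + 4) := one_le_pow₀ (by norm_num)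
  have h4 : 1 ≤ (t0 ^ k₀)⁻¹ := by rw [one_le_inv₀ h1]; exact h2
  unfold lam
  calc (1 : ℝ) = 1 * 1 := by norm_num
    _ ≤ _ := mul_le_mul h3 h4 (by norm_num) (by positivity)

theorem lam_t0 (k₀ : ℕ) : lam k₀ * t0 ^ k₀ = 256 ^ (4 * k₀ + 4) := by
  have h1 : 0 < t0 ^ k₀ := dl_pos k₀
  unfold lam; field_simp

/-- Cauchy–Schwarz on a set of finite volume -/
theorem cs_set {G : V3 → ℝ} (hG : TF G) (S : Set V3) (hSm : MeasurableSet S) (V : ℝ) (hV : 0 ≤ V)
    (hS : volume S ≤ ENNReal.ofReal V) (h0 : ∀ x, G x ≠ 0 → x ∈ S) (Q : ℝ)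
    (hQ : ∫ x, G x ^ 2 ≤ Q) : ∫ x, |G x| ≤ √(V * Q) := by
  have hGsq : TF (fun x => G x ^ 2) := by
    have := hG.mul_left hG.ct
    simpa [sq] using this
  have hQ0 : 0 ≤ Q := le_trans (integral_nonneg (fun x => sq_nonneg _)) hQ
  have hSlt : volume S < ∞ := lt_of_le_of_lt hS ENNReal.ofReal_lt_top
  have hSr : (volume S).toReal ≤ V := by
    have := ENNReal.toReal_mono ENNReal.ofReal_ne_top hS
    rwa [ENNReal.toReal_ofReal hV] at this
  set I := ∫ x, |G x| with hI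
  have hI0 : 0 ≤ I := integral_nonneg (fun x => abs_nonneg _)
  -- for all t > 0 : I ≤ (t V + Q / t) / 2
  have hSi : Integrable (S.indicator (fun _ => (1 : ℝ))) := by
    rw [integrable_indicator_iff hSm]
    exact integrableOn_const hSlt.ne
  have key : ∀ t : ℝ, 0 < t → I ≤ (t * V + Q / t) / 2 := by
    intro t ht
    have h1 : ∀ x, |G x| ≤ t / 2 * S.indicator (fun _ => (1 : ℝ)) x + (1 / (2 * t)) * G x ^ 2 := by
      intro x
      by_cases hx : x ∈ S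
      · rw [Set.indicator_of_mem hx]
        have h2 : 0 ≤ (|G x| - t) ^ 2 := sq_nonneg _
        have h3 : |G x| ^ 2 = G x ^ 2 := sq_abs _
        have h4 : t / 2 * 1 + 1 / (2 * t) * G x ^ 2 - |G x| = (|G x| - t) ^ 2 / (2 * t) := by
          rw [← h3]; field_simp; ring
        have h5 : 0 ≤ (|G x| - t) ^ 2 / (2 * t) := by positivity
        linarith
      · have h2 : G x = 0 := by
          by_contra h; exact hx (h0 x h)
        rw [Set.indicator_of_notMem hx, h2]; simp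
    have h2 : I ≤ ∫ x, (t / 2 * S.indicator (fun _ => (1 : ℝ)) x + (1 / (2 * t)) * G x ^ 2) :=
      integral_mono hG.abs.int ((hSi.const_mul _).add (hGsq.int.const_mul _)) h1
    rw [integral_add (hSi.const_mul _) (hGsq.int.const_mul _), integral_const_mul,
      integral_const_mul, integral_indicator hSm, setIntegral_const] at h2
    simp only [smul_eq_mul, mul_one] at h2
    have h3 : t / 2 * volume.real S ≤ t / 2 * V := mul_le_mul_of_nonneg_left hSr (by positivity)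
    have h4 : 1 / (2 * t) * ∫ x, G x ^ 2 ≤ 1 / (2 * t) * Q :=
      mul_le_mul_of_nonneg_left hQ (by positivity)
    have h5 : t / 2 * V + 1 / (2 * t) * Q = (t * V + Q / t) / 2 := by field_simp
    linarith
  apply Real.le_sqrt_of_sq_le
  rcases hV.eq_or_lt with h | hVp
  · -- V = 0
    rw [← h, zero_mul]
    by_contra hc
    have hIp : 0 < I := by
      rcases hI0.eq_or_lt with h' | h'
      · rw [← h'] at hc; norm_num at hc
      · exact h'
    have h1 := key ((Q + 1) / I) (by positivity)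
    rw [← h, mul_zero, zero_add] at h1
    have h2 : Q / ((Q + 1) / I) / 2 < I := by
      rw [div_div_eq_mul_div, div_div, div_lt_iff₀ (by positivity)]
      nlinarith
    linarith
  · rcases hI0.eq_or_lt with h' | hIp
    · rw [← h']; norm_num; positivity
    · have h1 := key (I / V) (by positivity)
      have h2 : I / V * V = I := by field_simp
      rw [h2] at h1
      have h3 : I ≤ Q / (I / V) := by linarith
      have h4 : Q / (I / V) = V * Q / I := by field_simp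
      rw [h4, le_div_iff₀ hIp] at h3
      nlinarith

/-- a dense ball has a small L¹ norm. -/
theorem dense_ball {Ψ : ℝ → ℝ} (hΨ : Profile Ψ) {y : I4 → V3} {r : I4 → ℝ} (hc : Cfg y r)
    (R u : ℝ) (hR : 1 ≤ R) (Q : Finset I4)
    (hE : ∀ e ∈ Q, R ≤ r e ∧ r e ≤ 2 * R) (hD : Dens R Q u) (k₀ : ℕ) (hk₀ : 40 ≤ k₀)
    (hu : lam k₀ ≤ u) (z : I4) (hz : z ∈ Q) (j : ℕ) (hj : (2 : ℝ) ^ j ≤ 2 ^ 14 * R)
    (hQ : ∀ e ∈ Q, dist e z ≤ 2 ^ j) (hcard : u * 2 ^ j ≤ #Q)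
    (a : I4 → ℝ) (ha : ∀ e, |a e| ≤ 1) :
    ∫ x, |∑ e ∈ Q, a e * atom Ψ (y e) (r e) x| ≤ 2 ^ 50 * KB * √(t0 ^ k₀) * (#Q * R ^ 2) := by
  have hu1 : 1 ≤ u := (lam_ge k₀).trans hu
  have hu0 : 0 < u := by linarith
  have hR0 : 0 < R := by linarith
  obtain ⟨G, H, hG, hH, hsum, hHb, hGb, hsupp⟩ := propA hΨ hc R u hR hu1 Q hE hD k₀ hk₀ a ha
  have ht0 : 0 < t0 ^ k₀ := dl_pos k₀
  have ht1 : t0 ^ k₀ ≤ 1 := dl_le k₀
  have hKB := KB_ge
  obtain ⟨hz1, hz2⟩ := hE z hz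
  have h2j : (1 : ℝ) ≤ 2 ^ j := one_le_pow₀ (by norm_num)
  -- the annulus
  set w : ℝ := 4 * 2 ^ j with hw
  set S : Set V3 := {x : V3 | |‖x - y z‖ - r z| ≤ w} with hS
  have hSm : MeasurableSet S := (isClosed_le (by fun_prop) (by fun_prop)).measurableSet
  have hvol := vol_annulus (y z) (r z) w (by linarith) (by positivity)
  have hpi := Real.pi_lt_four
  have hpi0 := Real.pi_pos
  have hV : 8 * Real.pi * w * (r z + w) ^ 2 ≤ 2 ^ 42 * 2 ^ j * R ^ 2 := by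
    have h1 : r z + w ≤ 2 ^ 17 * R := by rw [hw]; linarith
    have h2 : (r z + w) ^ 2 ≤ (2 ^ 17 * R) ^ 2 :=
      pow_le_pow_left₀ (by have h' : 0 ≤ r z := by linarith
                           positivity) h1 2
    calc 8 * Real.pi * w * (r z + w) ^ 2 ≤ 8 * 4 * w * (2 ^ 17 * R) ^ 2 := by
          apply mul_le_mul _ h2 (by positivity) (by positivity)
          apply mul_le_mul_of_nonneg_right (by linarith) (by positivity)
      _ = 2 ^ 41 * 2 ^ j * R ^ 2 := by rw [hw]; ring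
      _ ≤ _ := by
          have : 0 ≤ 2 ^ j * R ^ 2 := by positivity
          nlinarith
  have hS' : volume S ≤ ENNReal.ofReal (2 ^ 42 * 2 ^ j * R ^ 2) :=
    hvol.trans (ENNReal.ofReal_le_ofReal hV)
  have h0 : ∀ x, G x ≠ 0 → x ∈ S := by
    intro x hx
    obtain ⟨e, he, hxe⟩ := hsupp x hx
    have h1 := abs_le.1 (show |‖x - y e‖ - r e| ≤ 1 / 2 from hxe)
    have h2 := hQ e he
    have h3 := hc.d1 e z
    have h4 := abs_le.1 (hc.d2 e z)
    have h5 : |‖x - y z‖ - ‖x - y e‖| ≤ ‖y e - y z‖ := by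
      refine (abs_norm_sub_norm_le _ _).trans ?_
      have : x - y z - (x - y e) = y e - y z := by abel
      rw [this]
    have h6 := abs_le.1 h5
    show |‖x - y z‖ - r z| ≤ w
    rw [abs_le, hw]
    constructor <;> linarith [h1.1, h1.2, h4.1, h4.2, h6.1, h6.2]
  have hGb' : ∫ x, G x ^ 2 ≤ 2 ^ 41 * (u * t0 ^ k₀) * (#Q * R ^ 2) := by
    refine hGb.trans ?_
    have h1 : (256 : ℝ) ^ (4 * k₀ + 4) ≤ u * t0 ^ k₀ := by
      rw [← lam_t0]; exact mul_le_mul_of_nonneg_right hu ht0.le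
    have h2 : (0 : ℝ) ≤ #Q * R ^ 2 := by positivity
    have h3 : 2 ^ 40 * (256 ^ (4 * k₀ + 4) + u * t0 ^ k₀) ≤ 2 ^ 41 * (u * t0 ^ k₀) := by linarith
    exact mul_le_mul_of_nonneg_right h3 h2
  have hcs := cs_set hG S hSm _ (by positivity) hS' h0 _ hGb'
  have hsq : √(2 ^ 42 * 2 ^ j * R ^ 2 * (2 ^ 41 * (u * t0 ^ k₀) * (#Q * R ^ 2)))
      ≤ 2 ^ 42 * √(t0 ^ k₀) * (#Q * R ^ 2) := by
    rw [Real.sqrt_le_left (by positivity)]
    have e1 : (2 ^ 42 * √(t0 ^ k₀) * (#Q * R ^ 2)) ^ 2 = 2 ^ 84 * t0 ^ k₀ * (#Q * R ^ 2) ^ 2 := by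
      rw [mul_pow, mul_pow, Real.sq_sqrt ht0.le]; norm_num
    rw [e1]
    have hZ : 0 ≤ t0 ^ k₀ * R ^ 2 * (#Q * R ^ 2) := by positivity
    have e2 : 2 ^ 42 * 2 ^ j * R ^ 2 * (2 ^ 41 * (u * t0 ^ k₀) * (#Q * R ^ 2))
        = 2 ^ 83 * ((t0 ^ k₀ * R ^ 2 * (#Q * R ^ 2)) * (u * 2 ^ j)) := by ring
    rw [e2]
    have h1 : (t0 ^ k₀ * R ^ 2 * (#Q * R ^ 2)) * (u * 2 ^ j) ≤
        (t0 ^ k₀ * R ^ 2 * (#Q * R ^ 2)) * #Q := mul_le_mul_of_nonneg_left hcard hZ
    have h2 : 0 ≤ t0 ^ k₀ * (#Q * R ^ 2) ^ 2 := by positivity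
    have e3 : (t0 ^ k₀ * R ^ 2 * (#Q * R ^ 2)) * #Q = t0 ^ k₀ * (#Q * R ^ 2) ^ 2 := by ring
    rw [e3] at h1
    linarith
  have htot : ∫ x, |∑ e ∈ Q, a e * atom Ψ (y e) (r e) x| ≤ (∫ x, |G x|) + ∫ x, |H x| := by
    simp only [hsum]
    rw [← integral_add hG.abs.int hH.abs.int]
    apply integral_mono (hG.add hH).abs.int (hG.abs.add hH.abs).int
    intro x
    exact abs_add_le _ _
  have hst : t0 ^ k₀ ≤ √(t0 ^ k₀) := by
    apply Real.le_sqrt_of_sq_le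
    nlinarith
  have hs0 : 0 < √(t0 ^ k₀) := Real.sqrt_pos.2 ht0
  have hX : (0 : ℝ) ≤ #Q * R ^ 2 := by positivity
  have h7 : 2 ^ 21 * KB * t0 ^ k₀ * (#Q * R ^ 2) ≤ 2 ^ 21 * KB * √(t0 ^ k₀) * (#Q * R ^ 2) := by
    apply mul_le_mul_of_nonneg_right _ hX
    exact mul_le_mul_of_nonneg_left hst (by positivity)
  have h8 : 1 * (√(t0 ^ k₀) * (#Q * R ^ 2)) ≤ KB * (√(t0 ^ k₀) * (#Q * R ^ 2)) :=
    mul_le_mul_of_nonneg_right hKB (by positivity)
  have h9 : 0 ≤ KB * (√(t0 ^ k₀) * (#Q * R ^ 2)) := by positivity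
  linarith

theorem part_TF {Ψ : ℝ → ℝ} (hΨ : Profile Ψ) (y : I4 → V3) (r : I4 → ℝ) (S : Finset I4)
    (a : I4 → ℝ) : TF (fun x => ∑ e ∈ S, a e * atom Ψ (y e) (r e) x) :=
  TF.sum S _ (fun e _ => atom_TF hΨ (a e) (y e) (r e))

/-- density decomposition -/
theorem dens_decomp {Ψ : ℝ → ℝ} (hΨ : Profile Ψ) {y : I4 → V3} {r : I4 → ℝ} (hc : Cfg y r)
    (R : ℝ) (hR : 1 ≤ R) (k₀ : ℕ) (hk₀ : 40 ≤ k₀) (a : I4 → ℝ) (ha : ∀ e, |a e| ≤ 1)
    (N : ℕ) : ∀ E : Finset I4, #E = N → (∀ e ∈ E, R ≤ r e ∧ r e ≤ 2 * R) →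
    ∃ E₁ ⊆ E, Dens R E₁ (lam k₀) ∧
      ∫ x, |∑ e ∈ E \ E₁, a e * atom Ψ (y e) (r e) x|
        ≤ 2 ^ 50 * KB * √(t0 ^ k₀) * (#(E \ E₁) * R ^ 2) := by
  induction N using Nat.strong_induction_on with
  | _ N ih =>
    intro E hN hE
    by_cases hD : Dens R E (lam k₀)
    · refine ⟨E, Finset.Subset.refl _, hD, ?_⟩
      simp
    · -- the maximal density
      classical
      obtain ⟨J, hJ⟩ := pow_unbounded_of_one_lt (2 ^ 14 * R) (by norm_num : (1 : ℝ) < 2)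
      set Pairs : Finset (I4 × ℕ) := (E ×ˢ Finset.range J).filter
        (fun p => (2 : ℝ) ^ p.2 ≤ 2 ^ 14 * R) with hPairs
      have hmem : ∀ z ∈ E, ∀ j : ℕ, (2 : ℝ) ^ j ≤ 2 ^ 14 * R → (z, j) ∈ Pairs := by
        intro z hz j hj
        rw [hPairs, Finset.mem_filter, Finset.mem_product, Finset.mem_range]
        refine ⟨⟨hz, ?_⟩, hj⟩
        exact (pow_lt_pow_iff_right₀ (by norm_num : (1 : ℝ) < 2)).1 (lt_of_le_of_lt hj hJ)
      set dfun : I4 × ℕ → ℝ := fun p => (#{e ∈ E | dist e p.1 ≤ 2 ^ p.2} : ℝ) / 2 ^ p.2 with hdf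
      have hne : Pairs.Nonempty := by
        by_contra hem
        rw [Finset.not_nonempty_iff_eq_empty] at hem
        apply hD
        intro z hz j hj
        have := hmem z hz j hj
        rw [hem] at this
        exact absurd this (Finset.notMem_empty _)
      obtain ⟨⟨z, j⟩, hzj, hmax⟩ := Pairs.exists_max_image dfun hne
      have hzE : z ∈ E := by
        rw [hPairs, Finset.mem_filter, Finset.mem_product] at hzj; exact hzj.1.1
      have hj : (2 : ℝ) ^ j ≤ 2 ^ 14 * R := by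
        rw [hPairs, Finset.mem_filter] at hzj; exact hzj.2
      set u := dfun (z, j) with hu
      have hDu : Dens R E u := by
        intro z' hz' j' hj'
        have h1 := hmax (z', j') (hmem z' hz' j' hj')
        simp only [hdf] at h1
        rw [div_le_iff₀ (by positivity)] at h1
        convert h1
      have hul : lam k₀ ≤ u := by
        by_contra hlt
        rw [not_le] at hlt
        apply hD
        intro z' hz' j' hj'
        refine (hDu z' hz' j' hj').trans ?_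
        exact mul_le_mul_of_nonneg_right hlt.le (by positivity)
      set Q : Finset I4 := {e ∈ E | dist e z ≤ 2 ^ j} with hQ
      have hQE : Q ⊆ E := Finset.filter_subset _ _
      have hzQ : z ∈ Q := by
        rw [hQ, Finset.mem_filter]; exact ⟨hzE, by rw [dist_self]; positivity⟩
      have hcard : u * 2 ^ j ≤ #Q := by
        have : u * 2 ^ j = #Q := by
          rw [hu]; simp only [hdf]; rw [div_mul_cancel₀ _ (by positivity)]
        rw [this]
      have hdb := dense_ball hΨ hc R u hR Q (fun e he => hE e (hQE he)) (hDu.mono hQE) k₀ hk₀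
        hul z hzQ j hj (fun e he => (Finset.mem_filter.1 he).2) hcard a ha
      -- induction on the rest
      set E' := E \ Q with hE'
      have hlt : #E' < N := by
        rw [← hN, hE']
        apply Finset.card_lt_card
        rw [Finset.ssubset_iff_of_subset Finset.sdiff_subset]
        exact ⟨z, hzE, by simp [hzQ]⟩
      obtain ⟨E₁, hE₁, hD₁, hb₁⟩ := ih (#E') hlt E' rfl
        (fun e he => hE e (Finset.sdiff_subset he))
      refine ⟨E₁, hE₁.trans Finset.sdiff_subset, hD₁, ?_⟩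
      have hdis : Disjoint Q (E' \ E₁) := by
        rw [Finset.disjoint_left]
        intro e he he'
        rw [Finset.mem_sdiff, hE', Finset.mem_sdiff] at he'
        exact he'.1.2 he
      have hun : E \ E₁ = Q ∪ (E' \ E₁) := by
        ext e
        simp only [Finset.mem_sdiff, Finset.mem_union, hE']
        constructor
        · rintro ⟨h1, h2⟩
          by_cases h3 : e ∈ Q
          · left; exact h3
          · right; exact ⟨⟨h1, h3⟩, h2⟩
        · rintro (h1 | ⟨⟨h1, h3⟩, h2⟩)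
          · refine ⟨hQE h1, fun h2 => ?_⟩
            have := hE₁ h2
            rw [hE', Finset.mem_sdiff] at this
            exact this.2 h1
          · exact ⟨h1, h2⟩
      rw [hun, Finset.card_union_of_disjoint hdis]
      have hT1 := part_TF hΨ y r Q a
      have hT2 := part_TF hΨ y r (E' \ E₁) a
      have h1 : ∫ x, |∑ e ∈ Q ∪ (E' \ E₁), a e * atom Ψ (y e) (r e) x| ≤
          (∫ x, |∑ e ∈ Q, a e * atom Ψ (y e) (r e) x|) +
          ∫ x, |∑ e ∈ E' \ E₁, a e * atom Ψ (y e) (r e) x| := by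
        rw [← integral_add hT1.abs.int hT2.abs.int]
        have h2 : ∀ x, ∑ e ∈ Q ∪ (E' \ E₁), a e * atom Ψ (y e) (r e) x =
            ∑ e ∈ Q, a e * atom Ψ (y e) (r e) x + ∑ e ∈ E' \ E₁, a e * atom Ψ (y e) (r e) x :=
          fun x => Finset.sum_union hdis
        simp only [h2]
        apply integral_mono (hT1.add hT2).abs.int (hT1.abs.add hT2.abs).int
        intro x
        exact abs_add_le _ _
      refine h1.trans ((add_le_add hdb hb₁).trans (le_of_eq ?_))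
      push_cast
      ring

/-- the full decomposition for one dyadic class of radii -/
theorem class_GH {Ψ : ℝ → ℝ} (hΨ : Profile Ψ) {y : I4 → V3} {r : I4 → ℝ} (hc : Cfg y r) (R : ℝ)
    (hR : 1 ≤ R) (E : Finset I4) (hE : ∀ e ∈ E, R ≤ r e ∧ r e ≤ 2 * R) (k₀ : ℕ) (hk₀ : 40 ≤ k₀)
    (a : I4 → ℝ) (ha : ∀ e, |a e| ≤ 1) :
    ∃ G H : V3 → ℝ, TF G ∧ TF H ∧ (∀ x, ∑ e ∈ E, a e * atom Ψ (y e) (r e) x = G x + H x) ∧
      ∫ x, |H x| ≤ 2 ^ 51 * KB * √(t0 ^ k₀) * (#E * R ^ 2) ∧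
      ∫ x, G x ^ 2 ≤ 2 ^ 41 * 256 ^ (4 * k₀ + 4) * (#E * R ^ 2) := by
  obtain ⟨E₁, hsub, hD, hb⟩ := dens_decomp hΨ hc R hR k₀ hk₀ a ha (#E) E rfl hE
  obtain ⟨G, H, hG, hH, hsum, hHb, hGb, -⟩ := propA hΨ hc R (lam k₀) hR (lam_ge k₀) E₁
    (fun e he => hE e (hsub he)) hD k₀ hk₀ a ha
  have hT := part_TF hΨ y r (E \ E₁) a
  have hR0 : 0 < R := by linarith
  have ht0 : 0 < t0 ^ k₀ := dl_pos k₀
  have ht1 : t0 ^ k₀ ≤ 1 := dl_le k₀
  have hKB := KB_ge
  have hst : t0 ^ k₀ ≤ √(t0 ^ k₀) := by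
    apply Real.le_sqrt_of_sq_le
    nlinarith
  have hs0 : 0 < √(t0 ^ k₀) := Real.sqrt_pos.2 ht0
  have hc1 : (#(E \ E₁) : ℝ) + #E₁ = #E := by
    exact_mod_cast Finset.card_sdiff_add_card_eq_card hsub
  have hE1 : (#E₁ : ℝ) ≤ #E := by exact_mod_cast Finset.card_le_card hsub
  refine ⟨G, fun x => H x + ∑ e ∈ E \ E₁, a e * atom Ψ (y e) (r e) x, hG, hH.add hT, ?_, ?_, ?_⟩
  · intro x
    rw [← Finset.sum_sdiff hsub, hsum x]; ring
  · have h1 : ∫ x, |H x + ∑ e ∈ E \ E₁, a e * atom Ψ (y e) (r e) x| ≤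
        (∫ x, |H x|) + ∫ x, |∑ e ∈ E \ E₁, a e * atom Ψ (y e) (r e) x| := by
      rw [← integral_add hH.abs.int hT.abs.int]
      apply integral_mono (hH.add hT).abs.int (hH.abs.add hT.abs).int
      intro x
      exact abs_add_le _ _
    refine h1.trans ?_
    have h2 : 2 ^ 21 * KB * t0 ^ k₀ * (#E₁ * R ^ 2) ≤ 2 ^ 50 * KB * √(t0 ^ k₀) * (#E₁ * R ^ 2) := by
      apply mul_le_mul_of_nonneg_right _ (by positivity)
      have h3 : KB * t0 ^ k₀ ≤ KB * √(t0 ^ k₀) := mul_le_mul_of_nonneg_left hst (by linarith)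
      have h4 : 0 ≤ KB * √(t0 ^ k₀) := by positivity
      linarith
    have h5 : 2 ^ 50 * KB * √(t0 ^ k₀) * (#E₁ * R ^ 2) +
        2 ^ 50 * KB * √(t0 ^ k₀) * (#(E \ E₁) * R ^ 2) = 2 ^ 50 * KB * √(t0 ^ k₀) *
          (#E * R ^ 2) := by
      rw [← hc1]; ring
    have h6 : 0 ≤ KB * √(t0 ^ k₀) * (#E * R ^ 2) := by positivity
    linarith
  · refine hGb.trans ?_
    rw [lam_t0]
    have h1 : (#E₁ : ℝ) * R ^ 2 ≤ #E * R ^ 2 := mul_le_mul_of_nonneg_right hE1 (by positivity)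
    have h2 : (0 : ℝ) < 256 ^ (4 * k₀ + 4) := by positivity
    have h3 : (256 : ℝ) ^ (4 * k₀ + 4) * (#E₁ * R ^ 2) ≤ 256 ^ (4 * k₀ + 4) * (#E * R ^ 2) :=
      mul_le_mul_of_nonneg_left h1 h2.le
    linarith

end Run7.h58
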