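import Pool.Agent.Run7.h58.Interp

open MeasureTheory Finset
open scoped ENNReal

namespace Run7.h58

/-- lattice centre -/
noncomputable def yv (a : V3) (e : I4) : V3 :=
  WithLp.toLp 2 (fun i : Fin 3 => a i + (e i.castSucc : ℝ))

/-- lattice radius -/
noncomputable def rv (b : ℝ) (e : I4) : ℝ := b + (e (Fin.last 3) : ℝ)

theorem yv_apply (a : V3) (e : I4) (i : Fin 3) : yv a e i = a i + (e i.castSucc : ℝ) := rfl

theorem cfg_lattice (a : V3) (b : ℝ) : Cfg (yv a) (rv b) := by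
  have hd : ∀ (e e' : I4) (i : Fin 4), |(e i : ℝ) - (e' i : ℝ)| ≤ dist e e' := by
    intro e e' i
    have := dist_le_pi_dist e e' i
    rwa [Int.dist_eq] at this
  have hy : ∀ (e e' : I4) (i : Fin 3), (yv a e - yv a e') i
      = (e i.castSucc : ℝ) - (e' i.castSucc : ℝ) := by
    intro e e' i
    rw [PiLp.sub_apply, yv_apply, yv_apply]; ring
  refine ⟨?_, ?_, ?_⟩
  · intro e e'
    have hd0 : 0 ≤ dist e e' := dist_nonneg
    apply le_of_sq_le_sq _ (by positivity)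
    rw [norm3, hy, hy, hy]
    have key : ∀ i : Fin 4, ((e i : ℝ) - (e' i : ℝ)) ^ 2 ≤ dist e e' ^ 2 := by
      intro i
      rw [← sq_abs]
      exact pow_le_pow_left₀ (abs_nonneg _) (hd e e' i) 2
    nlinarith [key (0 : Fin 3).castSucc, key (1 : Fin 3).castSucc, key (2 : Fin 3).castSucc]
  · intro e e'
    have : rv b e - rv b e' = (e (Fin.last 3) : ℝ) - (e' (Fin.last 3) : ℝ) := by
      unfold rv; ring
    rw [this]
    exact hd e e' _
  · intro e e'
    rw [dist_pi_le_iff (le_trans (norm_nonneg _) (le_max_left _ _))]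
    intro i
    rw [Int.dist_eq]
    refine Fin.lastCases ?_ ?_ i
    · refine le_trans (le_of_eq ?_) (le_max_right _ _)
      congr 1
      unfold rv; ring
    · intro j
      refine le_trans ?_ (le_max_left _ _)
      have := abs_coord_le (yv a e - yv a e') j
      rwa [hy] at this

/-- the decay rate -/
noncomputable def tht : ℝ := 199999 / 200000

theorem tht_t0 : t0 ≤ tht ^ 200 := by unfold t0 tht; norm_num

/-- conversion of the two parameter decomposition into the height parametrised one -/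
theorem conv_rate (j : ℕ) : √(t0 ^ (40 + j / 100)) ≤ 2 * tht ^ j ∧
    (256 : ℝ) ^ (4 * (40 + j / 100) + 4) ≤ 256 ^ 164 * (5 / 4) ^ j := by
  set n := j / 100 with hn
  have h1 : 100 * n ≤ j := Nat.mul_div_le j 100
  have h2 : j < 100 * n + 100 := by omega
  have ht : 0 < tht := by unfold tht; norm_num
  have ht1 : tht ≤ 1 := by unfold tht; norm_num
  constructor
  · rw [Real.sqrt_le_left (by positivity)]
    have h3 : t0 ^ (40 + n) ≤ (tht ^ 200) ^ (40 + n) :=
      pow_le_pow_left₀ (by unfold t0; norm_num) tht_t0 _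
    refine h3.trans ?_
    have h4 : (tht ^ 200) ^ (40 + n) = (tht ^ (100 * (40 + n))) ^ 2 := by
      rw [← pow_mul, ← pow_mul]; congr 1; ring
    rw [h4]
    apply pow_le_pow_left₀ (by positivity)
    have h5 : tht ^ (100 * (40 + n)) ≤ tht ^ j :=
      pow_le_pow_of_le_one ht.le ht1 (by omega)
    have h6 : 0 < tht ^ j := by positivity
    linarith
  · have h3 : (256 : ℝ) ^ (4 * (40 + n) + 4) = 256 ^ 164 * (256 ^ 4) ^ n := by
      rw [← pow_mul, ← pow_add]; congr 1; ring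
    rw [h3]
    apply mul_le_mul_of_nonneg_left _ (pow_nonneg (by norm_num) _)
    calc ((256 : ℝ) ^ 4) ^ n ≤ ((5 / 4) ^ 100) ^ n := by
          apply pow_le_pow_left₀ (by norm_num); norm_num
      _ = (5 / 4) ^ (100 * n) := by rw [← pow_mul]
      _ ≤ (5 / 4) ^ j := pow_le_pow_right₀ (by norm_num) h1

theorem ofReal_rpow_add (a b : ℝ≥0∞) (p : ℝ) (hp : 1 ≤ p) :
    (a + b) ^ p ≤ 2 ^ p * (a ^ p + b ^ p) := by
  have hp0 : 0 ≤ p := by linarith
  rcases le_total a b with h | h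
  · calc (a + b) ^ p ≤ (2 * b) ^ p := by
          apply ENNReal.rpow_le_rpow _ hp0
          rw [two_mul]; exact add_le_add h le_rfl
      _ = 2 ^ p * b ^ p := by rw [ENNReal.mul_rpow_of_nonneg _ _ hp0]
      _ ≤ _ := by
          apply mul_le_mul_right
          exact le_add_self
  · calc (a + b) ^ p ≤ (2 * a) ^ p := by
          apply ENNReal.rpow_le_rpow _ hp0
          rw [two_mul]; exact add_le_add le_rfl h
      _ = 2 ^ p * a ^ p := by rw [ENNReal.mul_rpow_of_nonneg _ _ hp0]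
      _ ≤ _ := by
          apply mul_le_mul_right
          exact le_self_add

/-- passage from real to complex coefficients -/
theorem complexify (φ : I4 → V3 → ℝ) (hφ : ∀ e, TF (φ e)) (w : I4 → ℝ) (hw : ∀ e, 0 ≤ w e)
    (p : ℝ) (hp : 1 ≤ p) (C : ℝ) (hC : 0 ≤ C) (E : Finset I4)
    (h : ∀ c : I4 → ℝ, ∫⁻ x, ‖∑ e ∈ E, c e * φ e x‖ₑ ^ p ≤
      ENNReal.ofReal (C * ∑ e ∈ E, |c e| ^ p * w e)) (c : I4 → ℂ) :
    ∫⁻ x, ‖∑ e ∈ E, c e * (φ e x : ℂ)‖ₑ ^ p ≤
      ENNReal.ofReal ((2 ^ p * 2 * C) * ∑ e ∈ E, ‖c e‖ ^ p * w e) := by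
  have hp0 : 0 ≤ p := by linarith
  have h1 : ∀ x, ‖∑ e ∈ E, c e * (φ e x : ℂ)‖ₑ ^ p ≤
      2 ^ p * (‖∑ e ∈ E, (c e).re * φ e x‖ₑ ^ p + ‖∑ e ∈ E, (c e).im * φ e x‖ₑ ^ p) := by
    intro x
    refine le_trans ?_ (ofReal_rpow_add _ _ p hp)
    apply ENNReal.rpow_le_rpow _ hp0
    have e1 : ∑ e ∈ E, c e * (φ e x : ℂ) = ((∑ e ∈ E, (c e).re * φ e x : ℝ) : ℂ)
        + ((∑ e ∈ E, (c e).im * φ e x : ℝ) : ℂ) * Complex.I := by
      push_cast
      rw [Finset.sum_mul, ← Finset.sum_add_distrib]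
      apply Finset.sum_congr rfl
      intro e _
      conv_lhs => rw [← Complex.re_add_im (c e)]
      ring
    rw [e1]
    refine (enorm_add_le _ _).trans ?_
    apply add_le_add
    · rw [← ofReal_norm, ← ofReal_norm, Complex.norm_real]
    · rw [← ofReal_norm, ← ofReal_norm, norm_mul, Complex.norm_I, mul_one, Complex.norm_real]
  have hm : ∀ d : I4 → ℝ, Measurable (fun x => ‖∑ e ∈ E, d e * φ e x‖ₑ ^ p) := by
    intro d
    have hc : Continuous (fun x => ∑ e ∈ E, d e * φ e x) :=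
      (TF.sum E _ (fun e _ => (hφ e).const_mul (d e))).ct
    exact hc.measurable.enorm.pow_const p
  have hsum0 : ∀ d : I4 → ℝ, 0 ≤ ∑ e ∈ E, |d e| ^ p * w e := by
    intro d
    apply Finset.sum_nonneg
    intro e _
    have := hw e
    positivity
  have hcmp : ∀ d : I4 → ℝ, (∀ e, |d e| ≤ ‖c e‖) →
      ENNReal.ofReal (C * ∑ e ∈ E, |d e| ^ p * w e) ≤
      ENNReal.ofReal (C * ∑ e ∈ E, ‖c e‖ ^ p * w e) := by
    intro d hd
    apply ENNReal.ofReal_le_ofReal
    apply mul_le_mul_of_nonneg_left _ hC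
    apply Finset.sum_le_sum
    intro e _
    apply mul_le_mul_of_nonneg_right _ (hw e)
    exact Real.rpow_le_rpow (abs_nonneg _) (hd e) hp0
  calc ∫⁻ x, ‖∑ e ∈ E, c e * (φ e x : ℂ)‖ₑ ^ p
      ≤ ∫⁻ x, 2 ^ p * (‖∑ e ∈ E, (c e).re * φ e x‖ₑ ^ p + ‖∑ e ∈ E, (c e).im * φ e x‖ₑ ^ p) :=
        lintegral_mono h1
    _ = 2 ^ p * ((∫⁻ x, ‖∑ e ∈ E, (c e).re * φ e x‖ₑ ^ p)
        + ∫⁻ x, ‖∑ e ∈ E, (c e).im * φ e x‖ₑ ^ p) := by
        rw [← lintegral_add_left (hm (fun e => (c e).re))]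
        have hm2 : Measurable (fun x => ‖∑ e ∈ E, (c e).re * φ e x‖ₑ ^ p +
            ‖∑ e ∈ E, (c e).im * φ e x‖ₑ ^ p) :=
          (hm (fun e => (c e).re)).add (hm (fun e => (c e).im))
        exact lintegral_const_mul _ hm2
    _ ≤ 2 ^ p * (ENNReal.ofReal (C * ∑ e ∈ E, ‖c e‖ ^ p * w e)
        + ENNReal.ofReal (C * ∑ e ∈ E, ‖c e‖ ^ p * w e)) := by
        apply mul_le_mul_right
        apply add_le_add
        · exact (h _).trans (hcmp _ (fun e => Complex.abs_re_le_norm _))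
        · exact (h _).trans (hcmp _ (fun e => Complex.abs_im_le_norm _))
    _ = _ := by
        have hS : 0 ≤ C * ∑ e ∈ E, ‖c e‖ ^ p * w e := by
          apply mul_nonneg hC
          apply Finset.sum_nonneg
          intro e _
          have := hw e
          positivity
        rw [← ENNReal.ofReal_add hS hS]
        have h2 : (2 : ℝ≥0∞) ^ p = ENNReal.ofReal (2 ^ p) := by
          rw [← ENNReal.ofReal_rpow_of_nonneg (by norm_num) hp0]
          norm_num
        rw [h2, ← ENNReal.ofReal_mul (by positivity)]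
        congr 1
        ring

/-- discrete inequality for one dyadic class -/
theorem disc_class (p : ℝ) (hp : 1 < p) (hpϑ : (2 : ℝ) ^ p * tht < 2)
    (hp2 : (2 : ℝ) ^ p ≤ 5 / 2) : ∃ C : ℝ, 0 ≤ C ∧ ∀ (Ψ : ℝ → ℝ), Profile Ψ → ∀ (R : ℝ), 1 ≤ R →
      ∀ (a : V3) (b : ℝ) (E : Finset I4), (∀ e ∈ E, R ≤ rv b e ∧ rv b e ≤ 2 * R) →
      ∀ c : I4 → ℂ, ∫⁻ x, ‖∑ e ∈ E, c e * (atom Ψ (yv a e) (rv b e) x : ℂ)‖ₑ ^ p ≤
        ENNReal.ofReal (C * ∑ e ∈ E, ‖c e‖ ^ p * rv b e ^ 2) := by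
  obtain ⟨Q0, hQ0⟩ : ∃ Q0 : ℝ, Q0 = 256 ^ 164 := ⟨_, rfl⟩
  have hQ01 : 1 ≤ Q0 := by rw [hQ0]; exact one_le_pow₀ (by norm_num)
  have hKB := KB_ge
  set A : ℝ := 2 ^ 52 * KB * Q0 with hA
  have hA0 : 0 ≤ A := by positivity
  have hA48 : 48 ≤ A := by
    have : 1 * 1 ≤ KB * Q0 := mul_le_mul hKB hQ01 (by norm_num) (by linarith)
    rw [hA]; nlinarith
  set C0 : ℝ := ∑' j, kap A ((2 : ℝ) ^ p) tht j with hC0
  have ht : 0 < tht := by unfold tht; norm_num
  have hC0nn : 0 ≤ C0 := tsum_nonneg (kap_nonneg A _ tht hA0 (by positivity) ht.le)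
  refine ⟨2 ^ p * 2 * C0, by positivity, ?_⟩
  intro Ψ hΨ R hR a b E hE c
  have hcfg := cfg_lattice a b
  have hR0 : 0 < R := by linarith
  refine complexify (fun e => atom Ψ (yv a e) (rv b e))
    (fun e => ⟨atom_cont hΨ _ _, atom_hcs hΨ _ _⟩) (fun e => rv b e ^ 2) (fun e => sq_nonneg _)
    p hp.le C0 hC0nn E ?_ c
  refine interp (fun e => atom Ψ (yv a e) (rv b e))
    (fun e => ⟨atom_cont hΨ _ _, atom_hcs hΨ _ _⟩) (fun e => rv b e ^ 2) (fun e => sq_nonneg _)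
    {e | R ≤ rv b e ∧ rv b e ≤ 2 * R} A tht hA0 ht ?_ ?_ p hp hpϑ hp2 E hE
  · intro e he
    have h1 := atom_l1 hΨ (yv a e) (rv b e) (by linarith [he.1]) (fun _ => 1) (fun _ => by simp)
    simp only [one_mul] at h1
    refine h1.trans ?_
    apply mul_le_mul_of_nonneg_right _ (sq_nonneg _)
    have := Real.pi_lt_four
    linarith
  · intro j E' hE' av hav
    obtain ⟨G, H, hG, hH, hsum, hHb, hGb⟩ := class_GH hΨ hcfg R hR E' hE' (40 + j / 100)
      (by omega) av hav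
    obtain ⟨hr1, hr2⟩ := conv_rate j
    have hX : (#E' : ℝ) * R ^ 2 ≤ ∑ e ∈ E', rv b e ^ 2 := by
      rw [← nsmul_eq_mul, ← Finset.sum_const]
      apply Finset.sum_le_sum
      intro e he
      exact pow_le_pow_left₀ hR0.le (hE' e he).1 2
    have hX0 : 0 ≤ (#E' : ℝ) * R ^ 2 := by positivity
    refine ⟨G, H, hG, hH, hsum, ?_, ?_⟩
    · refine hHb.trans ?_
      have hj : 0 < tht ^ j := by positivity
      calc 2 ^ 51 * KB * √(t0 ^ (40 + j / 100)) * (#E' * R ^ 2)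
          ≤ 2 ^ 51 * KB * (2 * tht ^ j) * (∑ e ∈ E', rv b e ^ 2) := by
            apply mul_le_mul _ hX hX0 (by positivity)
            exact mul_le_mul_of_nonneg_left hr1 (by positivity)
        _ ≤ A * tht ^ j * ∑ e ∈ E', rv b e ^ 2 := by
            apply mul_le_mul_of_nonneg_right _ (hX0.trans hX)
            rw [hA]
            have : 0 ≤ KB * tht ^ j := by positivity
            nlinarith
    · refine hGb.trans ?_
      have hj : (0 : ℝ) < (5 / 4) ^ j := by positivity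
      rw [← hQ0] at hr2
      calc 2 ^ 41 * 256 ^ (4 * (40 + j / 100) + 4) * (#E' * R ^ 2)
          ≤ 2 ^ 41 * (Q0 * (5 / 4) ^ j) * (∑ e ∈ E', rv b e ^ 2) := by
            apply mul_le_mul _ hX hX0 (by positivity)
            exact mul_le_mul_of_nonneg_left hr2 (by positivity)
        _ ≤ A * (5 / 4) ^ j * ∑ e ∈ E', rv b e ^ 2 := by
            apply mul_le_mul_of_nonneg_right _ (hX0.trans hX)
            rw [hA]
            have : 0 ≤ Q0 * (5 / 4) ^ j := by positivity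
            nlinarith

end Run7.h58
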