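import Pool.Agent.Run7.h58.CrossClass
import Pool.Agent.Run7.h58.Disc

open MeasureTheory Finset
open scoped ENNReal RealInnerProductSpace

namespace Run7.h58

open Classical in
/-- the output for one class of radii -/
structure ClassOut (Ψ : ℝ → ℝ) (y : I4 → V3) (r : I4 → ℝ) (R u : ℝ) (E Ep : Finset I4)
    (k₀ κ : ℕ) (a : I4 → ℝ) (E' : Finset I4) (χ : I4 → V3 → ℝ) : Prop where
  sub : E' ⊆ E
  nn : ∀ e x, 0 ≤ χ e x
  le1 : ∀ e x, χ e x ≤ 1
  lip : ∀ e x z, |χ e x - χ e z| ≤ Lc κ * ‖x - z‖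
  loss : ∫ x, |(∑ e ∈ E, a e * atom Ψ (y e) (r e) x) -
    ∑ e ∈ E', χ e x * (a e * atom Ψ (y e) (r e) x)| ≤ 2 ^ 21 * KB * t0 ^ k₀ * (#E * R ^ 2)
  energy : ∫ x, (∑ e ∈ E', χ e x * (a e * atom Ψ (y e) (r e) x)) ^ 2 ≤
    2 ^ 40 * (256 ^ (4 * k₀ + 4) + u * t0 ^ k₀) * (#E * R ^ 2)
  ntc : (∑ e ∈ E', (#{e' ∈ Ep | NTC y r κ (χ e) e e'} : ℝ)) * R ≤
    2 ^ 42 * KB * u * (19 / 20) ^ κ * ∑ e' ∈ Ep, r e' ^ 2
  ct : (∑ e ∈ E', (#{e' ∈ Ep | CT y r e e'} : ℝ)) * R ≤ 2 ^ 30 * u * ∑ e' ∈ Ep, r e' ^ 2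

theorem ClassOut.cont {Ψ : ℝ → ℝ} {y : I4 → V3} {r : I4 → ℝ} {R u : ℝ} {E Ep : Finset I4}
    {k₀ κ : ℕ} {a : I4 → ℝ} {E' : Finset I4} {χ : I4 → V3 → ℝ}
    (h : ClassOut Ψ y r R u E Ep k₀ κ a E' χ) (e : I4) : Continuous (χ e) :=
  cont_of_lip _ _ (h.lip e)

theorem classX {Ψ : ℝ → ℝ} (hΨ : Profile Ψ) {y : I4 → V3} {r : I4 → ℝ} (hc : Cfg y r) (R u : ℝ)
    (κ k₀ : ℕ) (hκR : (16 : ℝ) ^ κ ≤ R) (hRκ : R ≤ 16 ^ (κ + 1)) (hk₀ : 40 ≤ k₀) (hκ : k₀ ≤ κ)
    (hu : 1 ≤ u) (E : Finset I4) (hE : ∀ e ∈ E, R ≤ r e ∧ r e ≤ 2 * R) (hD : Dens R E u)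
    (Ep : Finset I4) (hEp : ∀ e ∈ Ep, 8 * R ≤ r e) (a : I4 → ℝ) (ha : ∀ e, |a e| ≤ 1) :
    ∃ (E' : Finset I4) (χ : I4 → V3 → ℝ), ClassOut Ψ y r R u E Ep k₀ κ a E' χ := by
  classical
  obtain ⟨α, M, E', hM, hMκ, hsub, hint, hsame, hcard⟩ := select2 E k₀ κ
  have h16 : (1 : ℝ) ≤ 16 ^ κ := one_le_pow₀ (by norm_num)
  have hR : 1 ≤ R := h16.trans hκR
  have hR0 : 0 < R := by linarith
  have hu0 : 0 < u := by linarith
  have hκ40 : 40 ≤ κ := hk₀.trans hκ
  have hE' : ∀ e ∈ E', R ≤ r e ∧ r e ≤ 2 * R := fun e he => hE e (hsub he)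
  have hD' := hD.mono hsub
  set ψ : ℕ → I4 → V3 → ℝ := spx y r R u E' Ep α k₀ κ with hψd
  have hψ : CutFam ψ := spx_cutfam hR0
  have hL : ∀ k c x z, |ψ k c x - ψ k c z| ≤ 2 * (bt k * R)⁻¹ * ‖x - z‖ :=
    fun k c x z => spx_lip hR0 k c x z
  have hdom : ∀ k c x, ψ k c x ≠ 0 → sps y r R u E' α k₀ k c x ≠ 0 := by
    intro k c x h
    rw [hψd] at h
    unfold spx at h
    exact left_ne_zero_of_mul h
  refine ⟨E', fun e => chi ψ α M e, ?_⟩
  have hTH1 : TF (fun x => ∑ e ∈ E', (1 - chi ψ α M e x) * (a e * atom Ψ (y e) (r e) x)) :=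
    sum_TF hΨ E' a (fun e x => 1 - chi ψ α M e x)
      (fun e => continuous_const.sub (chi_cont hψ α M e))
  have hTH2 : TF (fun x => ∑ e ∈ E \ E', 1 * (a e * atom Ψ (y e) (r e) x)) :=
    sum_TF hΨ (E \ E') a (fun e x => 1) (fun e => continuous_const)
  have h5 : (#E' : ℝ) ≤ #E := by exact_mod_cast Finset.card_le_card hsub
  have hKB := KB_ge
  have ht0 : 0 < t0 ^ k₀ := dl_pos k₀
  have hX : (#E' : ℝ) * R ^ 2 ≤ #E * R ^ 2 := mul_le_mul_of_nonneg_right h5 (by positivity)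
  constructor
  · exact hsub
  · intro e x; exact chi_nonneg hψ α M e x
  · intro e x; exact chi_le_one hψ α M e x
  · intro e x z; exact chi_spx_lip hκ40 hκR hRκ M e x z
  · -- loss
    have e1 : ∀ x, (∑ e ∈ E, a e * atom Ψ (y e) (r e) x) -
        ∑ e ∈ E', chi ψ α M e x * (a e * atom Ψ (y e) (r e) x) =
        (∑ e ∈ E', (1 - chi ψ α M e x) * (a e * atom Ψ (y e) (r e) x)) +
          ∑ e ∈ E \ E', 1 * (a e * atom Ψ (y e) (r e) x) := by
      intro x
      rw [← Finset.sum_sdiff hsub]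
      simp only [sub_mul, one_mul, Finset.sum_sub_distrib]
      ring
    simp only [e1]
    refine (int_abs_add hTH1 hTH2).trans ?_
    have h2 : ∫ x, |∑ e ∈ E', (1 - chi ψ α M e x) * (a e * atom Ψ (y e) (r e) x)| ≤
        2 ^ 20 * KB * t0 ^ k₀ * (#E' * R ^ 2) + 320 * t0 ^ κ * (#E' * R ^ 2) := by
      refine (int_abs_sum E' (fun e x => (1 - chi ψ α M e x) * (a e * atom Ψ (y e) (r e) x))
        (fun e => (atom_TF hΨ (a e) (y e) (r e)).mul_left
        (continuous_const.sub (chi_cont hψ α M e)))).trans ?_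
      refine (Finset.sum_le_sum (fun e _ => chi_loss hΨ hψ α M e (a e) (ha e) (y e) (r e))).trans ?_
      have h6 : ∀ e ∈ E', ∑ k ∈ Finset.range (M + 1),
          ∫ x, |(1 - ψ k (cell α k e) x) * atom Ψ (y e) (r e) x| ≤
          (∑ k ∈ Finset.range (M + 1), ∫ x, |(1 - sps y r R u E' α k₀ k (cell α k e) x) *
            atom Ψ (y e) (r e) x|) + ∫ x, |(1 - psx y r R u E' Ep α κ (cell α κ e) x) *
            atom Ψ (y e) (r e) x| := by
        intro e _
        have hκm : κ ∈ Finset.range (M + 1) := Finset.mem_range.2 (by omega)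
        have h7 : ∫ x, |(1 - psx y r R u E' Ep α κ (cell α κ e) x) *
            atom Ψ (y e) (r e) x| = ∑ k ∈ Finset.range (M + 1), if k = κ then
            ∫ x, |(1 - psx y r R u E' Ep α κ (cell α κ e) x) * atom Ψ (y e) (r e) x| else 0 := by
          rw [Finset.sum_ite_eq' (Finset.range (M + 1)) κ, if_pos hκm]
        rw [h7, ← Finset.sum_add_distrib]
        apply Finset.sum_le_sum
        intro k _
        have hTa : TF (fun x => (1 - sps y r R u E' α k₀ k (cell α k e) x) *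
            atom Ψ (y e) (r e) x) := by
          have := (atom_TF hΨ 1 (y e) (r e)).mul_left
            (g := fun x => 1 - sps y r R u E' α k₀ k (cell α k e) x)
            (continuous_const.sub (sps_cont hR0 _ _))
          simpa using this
        have hTb : TF (fun x => (1 - psx y r R u E' Ep α κ (cell α κ e) x) *
            atom Ψ (y e) (r e) x) := by
          have := (atom_TF hΨ 1 (y e) (r e)).mul_left
            (g := fun x => 1 - psx y r R u E' Ep α κ (cell α κ e) x)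
            (continuous_const.sub (psx_cont hR0 _))
          simpa using this
        have hTc : TF (fun x => (1 - ψ k (cell α k e) x) * atom Ψ (y e) (r e) x) := by
          have := (atom_TF hΨ 1 (y e) (r e)).mul_left
            (g := fun x => 1 - ψ k (cell α k e) x) (continuous_const.sub (hψ.ct _ _))
          simpa using this
        split_ifs with hk
        · rw [← integral_add hTa.abs.int hTb.abs.int]
          apply integral_mono hTc.abs.int (hTa.abs.add hTb.abs).int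
          intro x
          simp only
          rw [abs_mul, abs_mul, abs_mul, ← add_mul]
          apply mul_le_mul_of_nonneg_right _ (abs_nonneg _)
          rw [hψd]
          unfold spx
          rw [if_pos hk, hk]
          set p := sps y r R u E' α k₀ κ (cell α κ e) x with hp
          set q := psx y r R u E' Ep α κ (cell α κ e) x with hq
          have p0 : 0 ≤ p := sps_nonneg _ _ _
          have p1 : p ≤ 1 := sps_le_one _ _ _
          have q0 : 0 ≤ q := psx_nonneg _ _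
          have q1 : q ≤ 1 := psx_le_one _ _
          rw [abs_of_nonneg (by linarith : 0 ≤ 1 - p), abs_of_nonneg (by linarith : 0 ≤ 1 - q),
            abs_of_nonneg (by nlinarith : 0 ≤ 1 - p * q)]
          nlinarith [mul_nonneg (by linarith : 0 ≤ 1 - p) (by linarith : 0 ≤ 1 - q)]
        · rw [add_zero]
          apply le_of_eq
          congr 1
          ext x
          rw [hψd]
          unfold spx
          rw [if_neg hk, mul_one]
      refine (Finset.sum_le_sum h6).trans ?_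
      rw [Finset.sum_add_distrib]
      apply add_le_add
      · rw [Finset.sum_comm]
        exact loss_total hΨ hc hR hu hE' hD' hk₀ (M + 1)
      · exact loss_cross hΨ hc hu0 hκ40 hκR hRκ hE' hD' hEp
    have h3 : ∫ x, |∑ e ∈ E \ E', 1 * (a e * atom Ψ (y e) (r e) x)| ≤
        t0 ^ k₀ * #E * (192 * R ^ 2) := by
      refine (int_abs_sum (E \ E') (fun e x => 1 * (a e * atom Ψ (y e) (r e) x))
        (fun e => (atom_TF hΨ (a e) (y e) (r e)).mul_left continuous_const)).trans ?_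
      have h4 : ∀ e ∈ E \ E', ∫ x, |1 * (a e * atom Ψ (y e) (r e) x)| ≤ 192 * R ^ 2 := by
        intro e he
        rw [Finset.mem_sdiff] at he
        obtain ⟨he1, he2⟩ := hE e he.1
        have h5 := atom_l1 hΨ (y e) (r e) (by linarith) (fun _ => a e) (fun _ => ha e)
        simp only [one_mul]
        refine h5.trans ?_
        have h6 : r e ^ 2 ≤ (2 * R) ^ 2 := pow_le_pow_left₀ (by linarith) he2 2
        have hpi := Real.pi_lt_four
        have : 12 * Real.pi * r e ^ 2 ≤ 12 * 4 * (2 * R) ^ 2 :=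
          mul_le_mul (by linarith) h6 (by positivity) (by norm_num)
        linarith
      refine (Finset.sum_le_sum h4).trans ?_
      rw [Finset.sum_const, nsmul_eq_mul]
      exact mul_le_mul_of_nonneg_right hcard (by positivity)
    have hκt : t0 ^ κ ≤ t0 ^ k₀ :=
      pow_le_pow_of_le_one (by unfold t0; norm_num) (by unfold t0; norm_num) hκ
    set Y : ℝ := #E * R ^ 2 with hY
    set Y' : ℝ := #E' * R ^ 2 with hY'
    have hY0 : 0 ≤ Y' := by positivity
    have h6 : 2 ^ 20 * KB * t0 ^ k₀ * Y' ≤ 2 ^ 20 * KB * t0 ^ k₀ * Y :=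
      mul_le_mul_of_nonneg_left hX (by positivity)
    have h8 : 320 * t0 ^ κ * Y' ≤ 320 * t0 ^ k₀ * Y := by
      apply mul_le_mul (by linarith) hX hY0 (by positivity)
    have h7 : 1 * (t0 ^ k₀ * Y) ≤ KB * (t0 ^ k₀ * Y) :=
      mul_le_mul_of_nonneg_right hKB (by positivity)
    have h9 : t0 ^ k₀ * #E * (192 * R ^ 2) = 192 * (t0 ^ k₀ * Y) := by rw [hY]; ring
    rw [h9] at h3
    have hYY : 0 ≤ t0 ^ k₀ * Y := by positivity
    linarith
  · -- energy
    have h1 := energy_same hΨ hc hR hu hE' hD' hk₀ M hM hint hsame hψ hL hdom a ha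
    refine h1.trans ?_
    apply mul_le_mul_of_nonneg_left hX (by positivity)
  · exact sum_ntc hc hu0.le hκR hRκ hE' hD' hEp (fun e => chi ψ α M e) (by
      intro e _ x hx
      have h1 := chi_ne_zero hx κ hMκ
      rw [hψd] at h1
      unfold spx at h1
      have h2 := right_ne_zero_of_mul h1
      rwa [if_pos rfl] at h2)
  · exact sum_ct hc hu0.le hκR hRκ hE' hD' hEp

end Run7.h58
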