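import Mathlib

open MeasureTheory Set
open scoped ENNReal

namespace Run7.h58

abbrev V3 := EuclideanSpace ℝ (Fin 3)

/-- cartesian coordinates in an orthonormal frame, third coordinate first. -/
theorem lint_frame (b : OrthonormalBasis (Fin 3) ℝ V3) (y : V3) (h : V3 → ℝ≥0∞)
    (hh : Measurable h) :
    ∫⁻ x, h x = ∫⁻ t : ℝ, ∫⁻ p : ℝ × ℝ, h (y + p.1 • b 0 + p.2 • b 1 + t • b 2) := by
  have e1 : ∫⁻ x, h x = ∫⁻ x, h (y + x) := (lintegral_add_left_eq_self h y).symm
  have hm1 : Measurable fun x : V3 => h (y + x) := hh.comp (measurable_const_add y)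
  have e2 : ∫⁻ x, h (y + x) = ∫⁻ z : EuclideanSpace ℝ (Fin 3), h (y + b.repr.symm z) :=
    (b.measurePreserving_repr_symm.lintegral_comp hm1).symm
  have hm2 : Measurable fun z : EuclideanSpace ℝ (Fin 3) => h (y + b.repr.symm z) :=
    hm1.comp b.repr.symm.continuous.measurable
  have e3 : ∫⁻ z : EuclideanSpace ℝ (Fin 3), h (y + b.repr.symm z)
      = ∫⁻ z : Fin 3 → ℝ, h (y + b.repr.symm (WithLp.toLp 2 z)) :=
    ((PiLp.volume_preserving_toLp (Fin 3)).lintegral_comp hm2).symm
  have hm3 : Measurable fun z : Fin 3 → ℝ => h (y + b.repr.symm (WithLp.toLp 2 z)) :=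
    hm2.comp (PiLp.continuous_toLp 2 _).measurable
  have e4 : ∫⁻ z : Fin 3 → ℝ, h (y + b.repr.symm (WithLp.toLp 2 z))
      = ∫⁻ w : ℝ × (Fin 2 → ℝ), h (y + b.repr.symm (WithLp.toLp 2
          ((MeasurableEquiv.piFinSuccAbove (fun _ : Fin 3 => ℝ) 2).symm w))) :=
    ((volume_preserving_piFinSuccAbove (fun _ : Fin 3 => ℝ) 2).symm.lintegral_comp hm3).symm
  have hm4 : Measurable fun w : ℝ × (Fin 2 → ℝ) => h (y + b.repr.symm (WithLp.toLp 2
          ((MeasurableEquiv.piFinSuccAbove (fun _ : Fin 3 => ℝ) 2).symm w))) :=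
    hm3.comp (MeasurableEquiv.measurable _)
  rw [e1, e2, e3, e4, Measure.volume_eq_prod, lintegral_prod _ hm4.aemeasurable]
  congr 1
  ext t
  have hm5 : Measurable fun w : Fin 2 → ℝ => h (y + b.repr.symm (WithLp.toLp 2
          ((MeasurableEquiv.piFinSuccAbove (fun _ : Fin 3 => ℝ) 2).symm (t, w)))) :=
    hm4.comp measurable_prodMk_left
  rw [← (volume_preserving_finTwoArrow ℝ).symm.lintegral_comp hm5]
  congr 1
  ext p
  congr 1
  have : b.repr.symm (WithLp.toLp 2 ((MeasurableEquiv.piFinSuccAbove (fun _ : Fin 3 => ℝ) 2).symm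
      (t, MeasurableEquiv.finTwoArrow.symm p))) = p.1 • b 0 + p.2 • b 1 + t • b 2 := by
    rw [← b.sum_repr (b.repr.symm _), Fin.sum_univ_three]
    simp only [LinearIsometryEquiv.apply_symm_apply]
    congr 2
  rw [this]
  simp only [add_assoc]

/-- spherical-cylindrical point -/
noncomputable def sph (b : OrthonormalBasis (Fin 3) ℝ V3) (y : V3) (R φ t : ℝ) : V3 :=
  y + (√(R ^ 2 - t ^ 2) * Real.cos φ) • b 0 + (√(R ^ 2 - t ^ 2) * Real.sin φ) • b 1 + t • b 2

theorem sph_measurable (b : OrthonormalBasis (Fin 3) ℝ V3) (y : V3) :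
    Measurable fun w : ℝ × ℝ × ℝ => sph b y w.1 w.2.1 w.2.2 := by
  unfold sph
  fun_prop

theorem subst_q (t : ℝ) (G : ℝ → ℝ≥0∞) :
    ∫⁻ q in Ioi (0 : ℝ), ENNReal.ofReal q * G q
      = ∫⁻ R in Ioi |t|, ENNReal.ofReal R * G (√(R ^ 2 - t ^ 2)) := by
  have himg : (fun R : ℝ => √(R ^ 2 - t ^ 2)) '' Ioi |t| = Ioi 0 := by
    ext q
    simp only [mem_image, mem_Ioi]
    constructor
    · rintro ⟨R, hR, rfl⟩
      apply Real.sqrt_pos.2
      have := sq_lt_sq' (by linarith [abs_nonneg t]) hR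
      rw [sq_abs] at this
      linarith
    · intro hq
      refine ⟨√(q ^ 2 + t ^ 2), ?_, ?_⟩
      · rw [← Real.sqrt_sq_eq_abs]
        apply Real.sqrt_lt_sqrt (sq_nonneg _)
        nlinarith
      · rw [Real.sq_sqrt (by positivity)]
        rw [add_sub_cancel_right, Real.sqrt_sq hq.le]
  have hinj : InjOn (fun R : ℝ => √(R ^ 2 - t ^ 2)) (Ioi |t|) := by
    intro R hR S hS hRS
    simp only [mem_Ioi] at hR hS
    have h0 := abs_nonneg t
    have h1 : 0 ≤ R ^ 2 - t ^ 2 := by
      have := sq_le_sq' (by linarith) hR.le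
      rw [sq_abs] at this; linarith
    have h2 : 0 ≤ S ^ 2 - t ^ 2 := by
      have := sq_le_sq' (by linarith) hS.le
      rw [sq_abs] at this; linarith
    have h3 := (Real.sqrt_inj h1 h2).1 hRS
    have h4 : R ^ 2 = S ^ 2 := by linarith
    have h5 : 0 ≤ R := by linarith
    have h6 : 0 ≤ S := by linarith
    exact (sq_eq_sq₀ h5 h6).1 h4
  have hder : ∀ R ∈ Ioi |t|, HasDerivWithinAt (fun R : ℝ => √(R ^ 2 - t ^ 2))
      (R / √(R ^ 2 - t ^ 2)) (Ioi |t|) R := by
    intro R hR
    simp only [mem_Ioi] at hR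
    have h1 : 0 < R ^ 2 - t ^ 2 := by
      have := sq_lt_sq' (by linarith [abs_nonneg t]) hR
      rw [sq_abs] at this; linarith
    have h2 : HasDerivAt (fun R : ℝ => R ^ 2 - t ^ 2) (2 * R) R := by
      have := (hasDerivAt_pow 2 R).sub_const (t ^ 2)
      simpa using this
    have h3 := h2.sqrt h1.ne'
    have h4 : 2 * R / (2 * √(R ^ 2 - t ^ 2)) = R / √(R ^ 2 - t ^ 2) := by
      rw [mul_div_mul_left _ _ two_ne_zero]
    rw [h4] at h3
    exact h3.hasDerivWithinAt
  rw [← himg, lintegral_image_eq_lintegral_abs_deriv_mul measurableSet_Ioi hder hinj]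
  apply setLIntegral_congr_fun measurableSet_Ioi
  intro R hR
  simp only [mem_Ioi] at hR
  have h1 : 0 < R ^ 2 - t ^ 2 := by
    have := sq_lt_sq' (by linarith [abs_nonneg t]) hR
    rw [sq_abs] at this; linarith
  have h5 : 0 < R := lt_of_le_of_lt (abs_nonneg t) hR
  have h6 : 0 < √(R ^ 2 - t ^ 2) := Real.sqrt_pos.2 h1
  simp only
  rw [← mul_assoc, ← ENNReal.ofReal_mul (abs_nonneg _), abs_of_pos (by positivity),
    div_mul_cancel₀ _ h6.ne']

theorem lint_sph (b : OrthonormalBasis (Fin 3) ℝ V3) (y : V3) (h : V3 → ℝ≥0∞)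
    (hh : Measurable h) :
    ∫⁻ x, h x = ∫⁻ R in Ioi (0 : ℝ), ∫⁻ φ in Ioo (-Real.pi) Real.pi, ∫⁻ t in Ioo (-R) R,
      ENNReal.ofReal R * h (sph b y R φ t) := by
  rw [lint_frame b y h hh]
  have key : ∀ t : ℝ, ∫⁻ p : ℝ × ℝ, h (y + p.1 • b 0 + p.2 • b 1 + t • b 2)
      = ∫⁻ R in Ioi |t|, ∫⁻ φ in Ioo (-Real.pi) Real.pi, ENNReal.ofReal R * h (sph b y R φ t) := by
    intro t
    rw [← lintegral_comp_polarCoord_symm]
    have hm : Measurable fun p : ℝ × ℝ => ENNReal.ofReal p.1 •
        h (y + (polarCoord.symm p).1 • b 0 + (polarCoord.symm p).2 • b 1 + t • b 2) := by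
      have : Measurable fun p : ℝ × ℝ =>
        (y + (polarCoord.symm p).1 • b 0 + (polarCoord.symm p).2 • b 1 + t • b 2) := by
        simp only [polarCoord_symm_apply]
        fun_prop
      exact (ENNReal.measurable_ofReal.comp measurable_fst).smul (hh.comp this)
    rw [polarCoord_target, Measure.volume_eq_prod, ← Measure.prod_restrict,
      lintegral_prod _ hm.aemeasurable]
    simp only [polarCoord_symm_apply, smul_eq_mul]
    have hmφ : ∀ q : ℝ, Measurable fun φ : ℝ => h (y + (q * Real.cos φ) • b 0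
        + (q * Real.sin φ) • b 1 + t • b 2) := by
      intro q
      exact hh.comp (by fun_prop)
    have e1 : ∀ q : ℝ, ∫⁻ φ in Ioo (-Real.pi) Real.pi, ENNReal.ofReal q *
        h (y + (q * Real.cos φ) • b 0 + (q * Real.sin φ) • b 1 + t • b 2)
        = ENNReal.ofReal q * ∫⁻ φ in Ioo (-Real.pi) Real.pi,
        h (y + (q * Real.cos φ) • b 0 + (q * Real.sin φ) • b 1 + t • b 2) := by
      intro q
      rw [lintegral_const_mul _ (hmφ q)]
    simp only [e1]
    rw [subst_q t (fun q => ∫⁻ φ in Ioo (-Real.pi) Real.pi,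
        h (y + (q * Real.cos φ) • b 0 + (q * Real.sin φ) • b 1 + t • b 2))]
    apply lintegral_congr
    intro R
    rw [← lintegral_const_mul _ (hmφ _)]
    rfl
  simp only [key]
  -- swap
  have hmK : Measurable fun w : ℝ × ℝ × ℝ => ENNReal.ofReal w.1 * h (sph b y w.1 w.2.1 w.2.2) :=
    (ENNReal.measurable_ofReal.comp measurable_fst).mul (hh.comp (sph_measurable b y))
  -- indicator version
  have e2 : ∀ t : ℝ, ∫⁻ R in Ioi |t|, ∫⁻ φ in Ioo (-Real.pi) Real.pi,
      ENNReal.ofReal R * h (sph b y R φ t)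
      = ∫⁻ R : ℝ, (if |t| < R then ∫⁻ φ in Ioo (-Real.pi) Real.pi,
        ENNReal.ofReal R * h (sph b y R φ t) else 0) := by
    intro t
    rw [← lintegral_indicator measurableSet_Ioi]
    apply lintegral_congr
    intro R
    simp only [indicator_apply, mem_Ioi]
  simp only [e2]
  rw [lintegral_lintegral_swap]
  · rw [← lintegral_indicator measurableSet_Ioi]
    apply lintegral_congr
    intro R
    by_cases hR : 0 < R
    · rw [indicator_of_mem (by exact hR)]
      rw [lintegral_lintegral_swap]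
      · rw [← lintegral_indicator measurableSet_Ioo]
        apply lintegral_congr
        intro t
        simp only [indicator_apply, mem_Ioo, abs_lt]
      · apply Measurable.aemeasurable
        exact hmK.comp (by fun_prop : Measurable fun w : ℝ × ℝ => ((R, w.1, w.2) : ℝ × ℝ × ℝ))
    · rw [indicator_of_notMem (by exact hR)]
      rw [lintegral_eq_zero_iff']
      · filter_upwards with t
        have : ¬ |t| < R := fun h' => hR (lt_of_le_of_lt (abs_nonneg t) h')
        simp [this]
      · have : (fun t : ℝ => if |t| < R then ∫⁻ φ in Ioo (-Real.pi) Real.pi,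
          ENNReal.ofReal R * h (sph b y R φ t) else 0) = fun _ => 0 := by
          ext t
          have : ¬ |t| < R := fun h' => hR (lt_of_le_of_lt (abs_nonneg t) h')
          simp [this]
        rw [this]
        exact aemeasurable_const
  · apply Measurable.aemeasurable
    apply Measurable.ite
    · exact measurableSet_lt (by fun_prop) (by fun_prop)
    · have : Measurable fun w : (ℝ × ℝ) × ℝ => ENNReal.ofReal w.1.2 * h (sph b y w.1.2 w.2 w.1.1) :=
        hmK.comp (by fun_prop : Measurable fun w : (ℝ × ℝ) × ℝ => ((w.1.2, w.2, w.1.1) : ℝ × ℝ × ℝ))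
      exact this.lintegral_prod_right'
    · exact measurable_const


/-- the density of the coordinates -/
noncomputable def dens (w : ℝ × ℝ × ℝ) : ℝ≥0∞ := if |w.2.2| < w.1 then ENNReal.ofReal w.1 else 0

noncomputable def mu0 : Measure (ℝ × ℝ × ℝ) :=
  (volume.restrict (Ioi (0 : ℝ))).prod
    ((volume.restrict (Ioo (-Real.pi) Real.pi)).prod (volume : Measure ℝ))

theorem dens_measurable : Measurable dens := by
  unfold dens
  apply Measurable.ite
  · exact measurableSet_lt (by fun_prop) (by fun_prop)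
  · fun_prop
  · exact measurable_const

theorem map_sph (b : OrthonormalBasis (Fin 3) ℝ V3) (y : V3) :
    Measure.map (fun w : ℝ × ℝ × ℝ => sph b y w.1 w.2.1 w.2.2) (mu0.withDensity dens)
      = (volume : Measure V3) := by
  ext s hs
  rw [Measure.map_apply (sph_measurable b y) hs, withDensity_apply _ (sph_measurable b y hs)]
  have h1 : (volume : Measure V3) s = ∫⁻ x, s.indicator 1 x := by
    rw [lintegral_indicator_one hs]
  have hm : Measurable (s.indicator (1 : V3 → ℝ≥0∞)) := measurable_one.indicator hs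
  rw [h1, lint_sph b y _ hm, ← lintegral_indicator (sph_measurable b y hs)]
  have hmD : Measurable fun w : ℝ × ℝ × ℝ =>
      dens w * (s.indicator (1 : V3 → ℝ≥0∞)) (sph b y w.1 w.2.1 w.2.2) :=
    dens_measurable.mul (hm.comp (sph_measurable b y))
  have e0 : ((fun w : ℝ × ℝ × ℝ => sph b y w.1 w.2.1 w.2.2) ⁻¹' s).indicator dens
      = fun w : ℝ × ℝ × ℝ => dens w * (s.indicator (1 : V3 → ℝ≥0∞)) (sph b y w.1 w.2.1 w.2.2) := by
    ext w
    by_cases hw : sph b y w.1 w.2.1 w.2.2 ∈ s
    · simp [indicator, hw]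
    · simp [indicator, hw]
  rw [e0, mu0, lintegral_prod _ hmD.aemeasurable]
  apply lintegral_congr
  intro R
  have hmD2 : Measurable fun w : ℝ × ℝ =>
      dens (R, w) * (s.indicator (1 : V3 → ℝ≥0∞)) (sph b y R w.1 w.2) :=
    hmD.comp measurable_prodMk_left
  rw [lintegral_prod _ hmD2.aemeasurable]
  apply lintegral_congr
  intro φ
  rw [← lintegral_indicator measurableSet_Ioo]
  apply lintegral_congr
  intro t
  simp only [dens, indicator_apply, mem_Ioo, abs_lt]
  split_ifs <;> simp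

theorem int_sph (b : OrthonormalBasis (Fin 3) ℝ V3) (y : V3) (F : V3 → ℝ)
    (hF : Integrable F) :
    ∫ x, F x = ∫ R in Ioi (0 : ℝ), ∫ φ in Ioo (-Real.pi) Real.pi, ∫ t in Ioo (-R) R,
      R * F (sph b y R φ t) := by
  have hF' : Integrable F (Measure.map (fun w : ℝ × ℝ × ℝ => sph b y w.1 w.2.1 w.2.2)
      (mu0.withDensity dens)) := by rw [map_sph]; exact hF
  have h1 : ∫ x, F x = ∫ x, F x ∂(Measure.map (fun w : ℝ × ℝ × ℝ => sph b y w.1 w.2.1 w.2.2)
      (mu0.withDensity dens)) := by rw [map_sph]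
  have hI : Integrable (fun w : ℝ × ℝ × ℝ => F (sph b y w.1 w.2.1 w.2.2))
      (mu0.withDensity dens) := hF'.comp_measurable (sph_measurable b y)
  rw [h1, integral_map (sph_measurable b y).aemeasurable hF'.1]
  have hlt : ∀ᵐ w ∂mu0, dens w < ∞ := by
    filter_upwards with w
    unfold dens
    split_ifs <;> simp
  rw [integral_withDensity_eq_integral_toReal_smul dens_measurable hlt]
  rw [integrable_withDensity_iff_integrable_smul' dens_measurable hlt] at hI
  rw [mu0, integral_prod _ hI]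
  have hI2 := hI.prod_right_ae
  apply integral_congr_ae
  filter_upwards [hI2, ae_restrict_mem measurableSet_Ioi] with R hR hRpos
  rw [integral_prod _ hR]
  apply integral_congr_ae
  filter_upwards with φ
  rw [← integral_indicator measurableSet_Ioo]
  apply integral_congr_ae
  filter_upwards with t
  simp only [mem_Ioi] at hRpos
  simp only [dens, indicator_apply, mem_Ioo, abs_lt]
  split_ifs
  · rw [ENNReal.toReal_ofReal hRpos.le, smul_eq_mul]
  · simp

end Run7.h58
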