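import Pool.Agent.Run7.h58.Cutoff
import Pool.Agent.Run7.h58.Cells

open MeasureTheory Finset
open scoped ENNReal RealInnerProductSpace

namespace Run7.h58

/-- a lattice configuration -/
structure Cfg (y : I4 → V3) (r : I4 → ℝ) : Prop where
  d1 : ∀ e e', ‖y e - y e'‖ ≤ 2 * dist e e'
  d2 : ∀ e e', |r e - r e'| ≤ dist e e'
  d3 : ∀ e e', dist e e' ≤ max ‖y e - y e'‖ |r e - r e'|

open Classical in
/-- density bound -/
def Dens (R : ℝ) (E : Finset I4) (u : ℝ) : Prop :=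
  ∀ z ∈ E, ∀ j : ℕ, (2 : ℝ) ^ j ≤ 2 ^ 14 * R → (#{e ∈ E | dist e z ≤ 2 ^ j} : ℝ) ≤ u * 2 ^ j

theorem Dens.mono {R : ℝ} {E E' : Finset I4} {u : ℝ} (h : Dens R E u) (hE : E' ⊆ E) :
    Dens R E' u := by
  intro z hz j hj
  refine le_trans ?_ (h z (hE hz) j hj)
  exact_mod_cast Finset.card_le_card (Finset.filter_subset_filter _ hE)

theorem Dens.ball {R : ℝ} {E : Finset I4} {u : ℝ} (h : Dens R E u) (hu : 0 ≤ u)
    (D : ℝ) (hD : 1 ≤ D) (hDR : 2 * D ≤ 2 ^ 14 * R) (S : Finset I4) (hS : S ⊆ E)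
    (hd : ∀ e ∈ S, ∀ z ∈ S, dist e z ≤ D) : (#S : ℝ) ≤ 2 * u * D := by
  classical
  rcases S.eq_empty_or_nonempty with h0 | ⟨z, hz⟩
  · rw [h0]; simp only [card_empty, Nat.cast_zero]; positivity
  · obtain ⟨n, hn1, hn2⟩ := exists_nat_pow_near hD (by norm_num : (1 : ℝ) < 2)
    have h2 : (2 : ℝ) ^ (n + 1) ≤ 2 * D := by rw [pow_succ]; linarith
    have h3 := h z (hS hz) (n + 1) (h2.trans hDR)
    have h4 : S ⊆ {e ∈ E | dist e z ≤ 2 ^ (n + 1)} := by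
      intro e he
      rw [Finset.mem_filter]
      exact ⟨hS he, (hd e he z hz).trans hn2.le⟩
    have h5 : (#S : ℝ) ≤ (#{e ∈ E | dist e z ≤ 2 ^ (n + 1)} : ℝ) := by
      exact_mod_cast Finset.card_le_card h4
    refine h5.trans (h3.trans ?_)
    nlinarith

/-- transversality of four positions -/
def trans4 (h T : ℝ) (ν : Fin 4 → I3) : Prop :=
  T ^ 3 ≤ |det3 (ctr h (ν 1) - ctr h (ν 0)) (ctr h (ν 2) - ctr h (ν 0))
    (ctr h (ν 3) - ctr h (ν 0))|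

theorem rigid_dist {y : I4 → V3} {r : I4 → ℝ} (hc : Cfg y r) (k : ℕ) (δ β R : ℝ) (hδ : 0 < δ)
    (hδ1 : δ ≤ 1) (hβ : β = δ ^ 3 / 8192) (hR : 1 ≤ R) (e z : I4) (he : R ≤ r e)
    (he2 : r e ≤ 2 * R) (q : Fin 4 → I4) (ν : Fin 4 → I3) (s σ : Fin 4 → ℝ)
    (hs : ∀ i, s i = 1 ∨ s i = -1) (hσ : ∀ i, σ i = 1 ∨ σ i = -1)
    (hν : trans4 (β * R) (δ * R) ν)
    (h : ∀ i, NT (s i) (σ i) (2 * 8 ^ k) (8 * β) (y e) (r e) (y (q i)) (r (q i))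
      (ctr (β * R) (ν i)))
    (h' : ∀ i, NT (s i) (σ i) (2 * 8 ^ k) (8 * β) (y z) (r z) (y (q i)) (r (q i))
      (ctr (β * R) (ν i))) : dist e z ≤ 2 ^ 13 * 8 ^ k / δ ^ 3 := by
  have hδ3 : 0 < δ ^ 3 := by positivity
  have hδ3' : δ ^ 3 ≤ 1 := pow_le_one₀ hδ.le hδ1
  obtain ⟨k1, k2⟩ := nt_rigid s σ (2 * 8 ^ k) (8 * β) δ R hs hσ hδ hδ1 (by rw [hβ]; positivity)
    (by rw [hβ]; linarith) (by linarith) (y e) (r e) he he2 (y z) (r z) (fun i => y (q i))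
    (fun i => r (q i)) (fun i => ctr (β * R) (ν i)) hν h h'
  have h8 : (0 : ℝ) < 8 ^ k := by positivity
  have h9 : (8 : ℝ) ^ k ≤ 8 ^ k / δ ^ 3 := by
    rw [le_div_iff₀ hδ3]; nlinarith
  have e1 : 1536 * (2 * 8 ^ k) / δ ^ 3 = 3072 * (8 ^ k / δ ^ 3) := by ring
  have e2 : (2 : ℝ) ^ 13 * 8 ^ k / δ ^ 3 = 8192 * (8 ^ k / δ ^ 3) := by ring
  rw [e1] at k1
  rw [e2]
  refine (hc.d3 e z).trans (max_le ?_ ?_)
  · rw [norm_sub_rev]; linarith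
  · rw [abs_sub_comm]; linarith

open Classical in
theorem rigid_card {y : I4 → V3} {r : I4 → ℝ} (hc : Cfg y r) (k : ℕ) (δ β R u : ℝ) (hδ : 0 < δ)
    (hδ1 : δ ≤ 1) (hβ : β = δ ^ 3 / 8192) (hR : 1 ≤ R) (hu : 0 ≤ u) (E : Finset I4)
    (hE : ∀ e ∈ E, R ≤ r e ∧ r e ≤ 2 * R) (hD : Dens R E u)
    (hkR : 2 * (2 ^ 13 * 8 ^ k / δ ^ 3) ≤ 2 ^ 14 * R)
    (q : Fin 4 → I4) (ν : Fin 4 → I3) (s σ : Fin 4 → ℝ)
    (hs : ∀ i, s i = 1 ∨ s i = -1) (hσ : ∀ i, σ i = 1 ∨ σ i = -1)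
    (hν : trans4 (β * R) (δ * R) ν) :
    (#{e ∈ E | ∀ i, NT (s i) (σ i) (2 * 8 ^ k) (8 * β) (y e) (r e) (y (q i)) (r (q i))
      (ctr (β * R) (ν i))} : ℝ) ≤ 2 * u * (2 ^ 13 * 8 ^ k / δ ^ 3) := by
  apply hD.ball hu _ _ hkR
  · exact Finset.filter_subset _ _
  · intro e he z hz
    rw [Finset.mem_filter] at he hz
    exact rigid_dist hc k δ β R hδ hδ1 hβ hR e z (hE e he.1).1 (hE e he.1).2 q ν s σ hs hσ hν
      he.2 hz.2
  · have h1 : (1 : ℝ) ≤ 8 ^ k := one_le_pow₀ (by norm_num)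
    have hδ3' : δ ^ 3 ≤ 1 := pow_le_one₀ hδ.le hδ1
    rw [le_div_iff₀ (by positivity)]
    nlinarith

/-- sign of a boolean -/
def sgn (b : Bool) : ℝ := if b then 1 else -1

theorem sgn_cases (b : Bool) : sgn b = 1 ∨ sgn b = -1 := by
  unfold sgn; split_ifs <;> simp

theorem sgn_surj (s : ℝ) (hs : s = 1 ∨ s = -1) : ∃ b, sgn b = s := by
  rcases hs with rfl | rfl
  · exact ⟨true, by simp [sgn]⟩
  · exact ⟨false, by simp [sgn]⟩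

open Classical in
theorem rigid_union {y : I4 → V3} {r : I4 → ℝ} (hc : Cfg y r) (k : ℕ) (δ β R u : ℝ) (hδ : 0 < δ)
    (hδ1 : δ ≤ 1) (hβ : β = δ ^ 3 / 8192) (hR : 1 ≤ R) (hu : 0 ≤ u) (E : Finset I4)
    (hE : ∀ e ∈ E, R ≤ r e ∧ r e ≤ 2 * R) (hD : Dens R E u)
    (hkR : 2 * (2 ^ 13 * 8 ^ k / δ ^ 3) ≤ 2 ^ 14 * R)
    (q : Fin 4 → I4) (W : Finset I3) :
    (#{e ∈ E | ∃ ν : Fin 4 → I3, (∀ i, ν i ∈ W) ∧ trans4 (β * R) (δ * R) ν ∧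
      ∀ i, ∃ s σ : ℝ, (s = 1 ∨ s = -1) ∧ (σ = 1 ∨ σ = -1) ∧
      NT s σ (2 * 8 ^ k) (8 * β) (y e) (r e) (y (q i)) (r (q i)) (ctr (β * R) (ν i))} : ℝ)
      ≤ (#W : ℝ) ^ 4 * 256 * (2 * u * (2 ^ 13 * 8 ^ k / δ ^ 3)) := by
  set K : ℝ := 2 * u * (2 ^ 13 * 8 ^ k / δ ^ 3) with hK
  have hK0 : 0 ≤ K := by positivity
  set I : Finset ((Fin 4 → I3) × (Fin 4 → Bool) × (Fin 4 → Bool)) :=
    Fintype.piFinset (fun _ => W) ×ˢ Finset.univ with hI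
  set A : (Fin 4 → I3) × (Fin 4 → Bool) × (Fin 4 → Bool) → Finset I4 := fun w =>
    if trans4 (β * R) (δ * R) w.1 then
    {e ∈ E | ∀ i, NT (sgn (w.2.1 i)) (sgn (w.2.2 i)) (2 * 8 ^ k) (8 * β) (y e) (r e) (y (q i))
      (r (q i)) (ctr (β * R) (w.1 i))} else ∅ with hA
  have hsub : {e ∈ E | ∃ ν : Fin 4 → I3, (∀ i, ν i ∈ W) ∧ trans4 (β * R) (δ * R) ν ∧
      ∀ i, ∃ s σ : ℝ, (s = 1 ∨ s = -1) ∧ (σ = 1 ∨ σ = -1) ∧
      NT s σ (2 * 8 ^ k) (8 * β) (y e) (r e) (y (q i)) (r (q i)) (ctr (β * R) (ν i))}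
      ⊆ I.biUnion A := by
    intro e he
    rw [Finset.mem_filter] at he
    obtain ⟨heE, ν, hν, htr, hall⟩ := he
    choose s σ hs hσ hnt using hall
    choose bs hbs using fun i => sgn_surj (s i) (hs i)
    choose bσ hbσ using fun i => sgn_surj (σ i) (hσ i)
    rw [Finset.mem_biUnion]
    refine ⟨(ν, bs, bσ), ?_, ?_⟩
    · rw [hI, Finset.mem_product]
      exact ⟨Fintype.mem_piFinset.2 hν, Finset.mem_univ _⟩
    · simp only [hA]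
      rw [if_pos htr, Finset.mem_filter]
      refine ⟨heE, fun i => ?_⟩
      rw [hbs i, hbσ i]
      exact hnt i
  have hAc : ∀ w ∈ I, (#(A w) : ℝ) ≤ K := by
    intro w _
    simp only [hA]
    split_ifs with ht
    · exact rigid_card hc k δ β R u hδ hδ1 hβ hR hu E hE hD hkR q w.1 _ _
        (fun i => sgn_cases _) (fun i => sgn_cases _) ht
    · simpa using hK0
  calc _ ≤ (#(I.biUnion A) : ℝ) := by exact_mod_cast Finset.card_le_card hsub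
    _ ≤ ∑ w ∈ I, (#(A w) : ℝ) := by exact_mod_cast Finset.card_biUnion_le
    _ ≤ ∑ w ∈ I, K := Finset.sum_le_sum hAc
    _ = (#I : ℝ) * K := by rw [Finset.sum_const, nsmul_eq_mul]
    _ = _ := by
        rw [hI, Finset.card_product, Fintype.card_piFinset, Finset.card_univ]
        simp only [Finset.prod_const, Finset.card_univ, Fintype.card_fin, Fintype.card_prod,
          Fintype.card_fun, Fintype.card_bool]
        push_cast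
        norm_num

open Classical in
theorem double_count (Eb : Finset I4) (T : I4 → Fin 4 → Finset I4) (thr : ℝ) (hthr : 0 ≤ thr)
    (Quad : Finset (Fin 4 → I4)) (K : ℝ)
    (hT : ∀ e ∈ Eb, ∀ i, thr ≤ #(T e i))
    (hQ : ∀ e ∈ Eb, ∀ q : Fin 4 → I4, (∀ i, q i ∈ T e i) → q ∈ Quad)
    (hK : ∀ q ∈ Quad, (#{e ∈ Eb | ∀ i, q i ∈ T e i} : ℝ) ≤ K) :
    (#Eb : ℝ) * thr ^ 4 ≤ #Quad * K := by
  have h1 : ∀ e ∈ Eb, thr ^ 4 ≤ (#{q ∈ Quad | ∀ i, q i ∈ T e i} : ℝ) := by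
    intro e he
    have h2 : {q ∈ Quad | ∀ i, q i ∈ T e i} = Fintype.piFinset (T e) := by
      ext q
      rw [Finset.mem_filter, Fintype.mem_piFinset]
      exact ⟨fun h => h.2, fun h => ⟨hQ e he q h, h⟩⟩
    rw [h2, Fintype.card_piFinset]
    push_cast
    calc thr ^ 4 = ∏ _i : Fin 4, thr := by rw [Finset.prod_const]; simp
      _ ≤ ∏ i : Fin 4, (#(T e i) : ℝ) :=
        Finset.prod_le_prod (fun _ _ => hthr) (fun i _ => hT e he i)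
  calc (#Eb : ℝ) * thr ^ 4 = ∑ e ∈ Eb, thr ^ 4 := by rw [Finset.sum_const, nsmul_eq_mul]
    _ ≤ ∑ e ∈ Eb, (#{q ∈ Quad | ∀ i, q i ∈ T e i} : ℝ) := Finset.sum_le_sum h1
    _ = ∑ q ∈ Quad, (#{e ∈ Eb | ∀ i, q i ∈ T e i} : ℝ) := by
        simp only [Finset.card_filter]
        push_cast
        rw [Finset.sum_comm]
    _ ≤ ∑ q ∈ Quad, K := Finset.sum_le_sum hK
    _ = _ := by rw [Finset.sum_const, nsmul_eq_mul]

open Classical in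
theorem quad_card (E : Finset I4) (R u : ℝ) (hD : Dens R E u) (j : ℕ)
    (hj : (2 : ℝ) ^ j ≤ 2 ^ 14 * R) :
    (#{q ∈ Fintype.piFinset (fun _ : Fin 4 => E) | ∀ i, dist (q i) (q 0) ≤ 2 ^ j} : ℝ)
      ≤ #E * (u * 2 ^ j) ^ 3 := by
  set A : I4 → Finset (Fin 4 → I4) := fun z => Fintype.piFinset (fun i : Fin 4 =>
    if i = 0 then {z} else {e ∈ E | dist e z ≤ 2 ^ j}) with hA
  have hsub : {q ∈ Fintype.piFinset (fun _ : Fin 4 => E) | ∀ i, dist (q i) (q 0) ≤ 2 ^ j}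
      ⊆ E.biUnion A := by
    intro q hq
    rw [Finset.mem_filter, Fintype.mem_piFinset] at hq
    rw [Finset.mem_biUnion]
    refine ⟨q 0, hq.1 0, ?_⟩
    simp only [hA]
    rw [Fintype.mem_piFinset]
    intro i
    split_ifs with hi
    · rw [hi]; simp
    · rw [Finset.mem_filter]; exact ⟨hq.1 i, hq.2 i⟩
  have hAc : ∀ z ∈ E, (#(A z) : ℝ) ≤ (u * 2 ^ j) ^ 3 := by
    intro z hz
    simp only [hA]
    rw [Fintype.card_piFinset, Fin.prod_univ_four]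
    simp only [if_true, Finset.card_singleton, one_mul, Fin.isValue, one_ne_zero, if_false,
      show (2 : Fin 4) ≠ 0 from by decide, show (3 : Fin 4) ≠ 0 from by decide]
    push_cast
    have h := hD z hz j hj
    have h0 : (0 : ℝ) ≤ (#{e ∈ E | dist e z ≤ 2 ^ j} : ℝ) := by positivity
    calc _ = (#{e ∈ E | dist e z ≤ 2 ^ j} : ℝ) ^ 3 := by ring
      _ ≤ _ := pow_le_pow_left₀ h0 h 3
  calc _ ≤ (#(E.biUnion A) : ℝ) := by exact_mod_cast Finset.card_le_card hsub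
    _ ≤ ∑ w ∈ E, (#(A w) : ℝ) := by exact_mod_cast Finset.card_biUnion_le
    _ ≤ ∑ w ∈ E, (u * 2 ^ j) ^ 3 := Finset.sum_le_sum hAc
    _ = _ := by rw [Finset.sum_const, nsmul_eq_mul]

/-- near tangency of the two shells at the position `n` -/
def Tch (y : I4 → V3) (r : I4 → ℝ) (h : ℝ) (k : ℕ) (e e' : I4) (n : I3) : Prop :=
  ∃ s σ : ℝ, (s = 1 ∨ s = -1) ∧ (σ = 1 ∨ σ = -1) ∧ |s * ‖y e - y e'‖ + r e - σ * r e'| ≤ 8 ^ k ∧
    ∃ x, x ∈ shell (y e) (r e) ∧ x ∈ shell (y e') (r e') ∧ ‖x - ctr h n‖ ≤ h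

open Classical in
/-- partners of the cell `c` touching at position `n`. -/
noncomputable def TS (y : I4 → V3) (r : I4 → ℝ) (h : ℝ) (k : ℕ) (α : ℤ) (E E' : Finset I4)
    (P : I4 → I4 → Prop) (c : I4) (n : I3) : Finset I4 :=
  {e' ∈ E' | ∃ e ∈ E, cell α k e = c ∧ P e e' ∧ Tch y r h k e e' n}

open Classical in
theorem mem_TS {y : I4 → V3} {r : I4 → ℝ} {h : ℝ} {k : ℕ} {α : ℤ} {E E' : Finset I4}
    {P : I4 → I4 → Prop} {c : I4} {n : I3} {e' : I4} :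
    e' ∈ TS y r h k α E E' P c n ↔
      e' ∈ E' ∧ ∃ e ∈ E, cell α k e = c ∧ P e e' ∧ Tch y r h k e e' n := by
  unfold TS; rw [Finset.mem_filter]

open Classical in
/-- abstract bad cell count -/
theorem bad_count {y : I4 → V3} {r : I4 → ℝ} (hc : Cfg y r) (k : ℕ) (δ β R u : ℝ) (hδ : 0 < δ)
    (hδ1 : δ ≤ 1) (hβ : β = δ ^ 3 / 8192) (hk : 2 ^ 10 ≤ β ^ 2 * 2 ^ k) (hR : 1 ≤ R)
    (hS : (16 : ℝ) ^ k ≤ 32 * R) (hu : 0 ≤ u) (E E' : Finset I4)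
    (hE : ∀ e ∈ E, R ≤ r e ∧ r e ≤ 2 * R) (hE' : ∀ e ∈ E', R ≤ r e) (hD : Dens R E u)
    (hkR : 2 * (2 ^ 13 * 8 ^ k / δ ^ 3) ≤ 2 ^ 14 * R) (α : ℤ) (P : I4 → I4 → Prop)
    (hP : ∀ e ∈ E, ∀ e' ∈ E', P e e' → ∀ s σ : ℝ, (s = 1 ∨ s = -1) → (σ = 1 ∨ σ = -1) →
      |s * ‖y e - y e'‖ + r e - σ * r e'| ≤ 8 ^ k → 16 ^ k / 2 ≤ ‖y e - y e'‖)
    (thr : ℝ) (hthr : 0 ≤ thr) (Eb : Finset I4) (hEb : Eb ⊆ E)
    (hbad : ∀ e ∈ Eb, ∃ ν : Fin 4 → I3, trans4 (β * R) (δ * R) ν ∧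
      ∀ i, thr ≤ #(TS y r (β * R) k α E E' P (cell α k e) (ν i)))
    (Quad : Finset (Fin 4 → I4)) (W : (Fin 4 → I4) → Finset I3) (w : ℝ)
    (hQ : ∀ e ∈ E, ∀ q : Fin 4 → I4, (∀ i, ∃ n, q i ∈ TS y r (β * R) k α E E' P (cell α k e) n) →
      q ∈ Quad)
    (hW : ∀ q ∈ Quad, ∀ e ∈ E, ∀ n, ∀ i, q i ∈ TS y r (β * R) k α E E' P (cell α k e) n →
      (∀ i, ∃ n, q i ∈ TS y r (β * R) k α E E' P (cell α k e) n) → n ∈ W q)
    (hw : ∀ q ∈ Quad, (#(W q) : ℝ) ≤ w) :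
    (#Eb : ℝ) * thr ^ 4 ≤ #Quad * (w ^ 4 * 256 * (2 * u * (2 ^ 13 * 8 ^ k / δ ^ 3))) := by
  have hβ0 : 0 < β := by rw [hβ]; positivity
  have hβ1 : β ≤ 1 := by
    rw [hβ]
    have : δ ^ 3 ≤ 1 := pow_le_one₀ hδ.le hδ1
    linarith
  have hch : ∀ e : I4, ∃ ν : Fin 4 → I3, e ∈ Eb → trans4 (β * R) (δ * R) ν ∧
      ∀ i, thr ≤ #(TS y r (β * R) k α E E' P (cell α k e) (ν i)) := by
    intro e
    by_cases he : e ∈ Eb
    · obtain ⟨ν, hν⟩ := hbad e he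
      exact ⟨ν, fun _ => hν⟩
    · exact ⟨fun _ => 0, fun h => absurd h he⟩
  choose ν hν using hch
  refine double_count Eb (fun e i => TS y r (β * R) k α E E' P (cell α k e) (ν e i)) thr hthr
    Quad _ (fun e he i => (hν e he).2 i) ?_ ?_
  · intro e he q hq
    exact hQ e (hEb he) q (fun i => ⟨_, hq i⟩)
  · intro q hq
    have h1 := rigid_union hc k δ β R u hδ hδ1 hβ hR hu E hE hD hkR q (W q)
    refine le_trans ?_ (h1.trans ?_)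
    · have hsub : {e ∈ Eb | ∀ i, q i ∈ TS y r (β * R) k α E E' P (cell α k e) (ν e i)} ⊆
        {e ∈ E | ∃ ν : Fin 4 → I3, (∀ i, ν i ∈ W q) ∧ trans4 (β * R) (δ * R) ν ∧
          ∀ i, ∃ s σ : ℝ, (s = 1 ∨ s = -1) ∧ (σ = 1 ∨ σ = -1) ∧
          NT s σ (2 * 8 ^ k) (8 * β) (y e) (r e) (y (q i)) (r (q i)) (ctr (β * R) (ν i))} := by
        intro e he
        rw [Finset.mem_filter] at he ⊢
        obtain ⟨heb, hq'⟩ := he
        have heE := hEb heb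
        refine ⟨heE, ν e, ?_, (hν e heb).1, ?_⟩
        · intro i
          exact hW q hq e heE _ i (hq' i) (fun j => ⟨_, hq' j⟩)
        · intro i
          obtain ⟨hqE', e1, he1, hcell, hPe, s, σ, hs, hσ, htan, x, hx1, hx2, hx3⟩ :=
            mem_TS.1 (hq' i)
          refine ⟨s, σ, hs, hσ, ?_⟩
          have hdist : dist e e1 ≤ 4 ^ k := cell_close α k e e1 hcell.symm
          apply nt_of_tch k β R hβ0 hβ1 hk hR hS s σ hs hσ (y e1) (r e1) (y e) (r e) (y (q i))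
            (r (q i)) (hE e1 he1).1 (hE e heE).1 (hE' _ hqE') _ _ _ htan x _ hx1 hx2 hx3
          · refine (hc.d1 e e1).trans ?_; linarith
          · exact (hc.d2 e e1).trans hdist
          · exact hP e1 he1 _ hqE' hPe s σ hs hσ htan
      exact_mod_cast Finset.card_le_card hsub
    · apply mul_le_mul_of_nonneg_right _ (by positivity)
      apply mul_le_mul_of_nonneg_right _ (by positivity)
      exact pow_le_pow_left₀ (by positivity) (hw q hq) 4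

end Run7.h58
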