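import Pool.Agent.Run7.h58.CrossLoss

open MeasureTheory Finset
open scoped ENNReal RealInnerProductSpace

namespace Run7.h58

section
variable {y : I4 → V3} {r : I4 → ℝ} {R u : ℝ} {E Ep : Finset I4} {α : ℤ} {κ k₀ : ℕ} {Ψ : ℝ → ℝ}

open Classical in
theorem card_EQ (hu : 0 ≤ u) (hκR : (16 : ℝ) ^ κ ≤ R) (hD : Dens R E u) (Q : I4) :
    (#(EQ E α κ Q) : ℝ) ≤ 32 * u * 16 ^ κ := by
  have h16 : (1 : ℝ) ≤ 16 ^ κ := one_le_pow₀ (by norm_num)
  have e16 : (16 : ℝ) ^ (κ + 1) = 16 * 16 ^ κ := by rw [pow_succ]; ring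
  have e4m : (4 : ℝ) ^ (κ + (κ + 2)) = 16 ^ (κ + 1) := by
    have : κ + (κ + 2) = 2 * (κ + 1) := by ring
    rw [this, pow_mul]; norm_num
  have h := hD.ball hu (16 ^ (κ + 1)) (one_le_pow₀ (by norm_num)) (by rw [e16]; linarith)
    (EQ E α κ Q) (by unfold EQ; exact Finset.filter_subset _ _) (by
      intro e he z hz
      have := cell_close α (κ + (κ + 2)) e z (by rw [(mem_EQ.1 he).2, (mem_EQ.1 hz).2])
      rwa [e4m] at this)
  rw [e16] at h
  linarith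

open Classical in
theorem sum_ct (hc : Cfg y r) (hu : 0 ≤ u) (hκR : (16 : ℝ) ^ κ ≤ R) (hRκ : R ≤ 16 ^ (κ + 1))
    (hE : ∀ e ∈ E, R ≤ r e ∧ r e ≤ 2 * R) (hD : Dens R E u) (hE' : ∀ e ∈ Ep, 8 * R ≤ r e) :
    (∑ e ∈ E, (#{e' ∈ Ep | CT y r e e'} : ℝ)) * R ≤ 2 ^ 30 * u * ∑ e' ∈ Ep, r e' ^ 2 := by
  have h16 : (1 : ℝ) ≤ 16 ^ κ := one_le_pow₀ (by norm_num)
  have hR : 1 ≤ R := h16.trans hκR
  have hR0 : 0 < R := by linarith
  have hN := sum_NQ (E := E) (E' := Ep) (α := 0) (κ := κ) hc hκR hRκ hE hE'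
  have h1 : ∑ e ∈ E, (#{e' ∈ Ep | CT y r e e'} : ℝ) ≤
      32 * u * 16 ^ κ * ∑ Q ∈ E.image (cell 0 (κ + (κ + 2))), (#(NQ y r R E Ep 0 κ Q) : ℝ) := by
    rw [sum_Q E 0 κ, Finset.mul_sum]
    apply Finset.sum_le_sum
    intro Q _
    have h2 : ∀ e ∈ EQ E 0 κ Q, (#{e' ∈ Ep | CT y r e e'} : ℝ) ≤ #(NQ y r R E Ep 0 κ Q) := by
      intro e he
      exact_mod_cast Finset.card_le_card (ct_sub hR hE Q e he)
    refine (Finset.sum_le_sum h2).trans ?_
    rw [Finset.sum_const, nsmul_eq_mul]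
    exact mul_le_mul_of_nonneg_right (card_EQ hu hκR hD Q) (by positivity)
  set Z := ∑ Q ∈ E.image (cell 0 (κ + (κ + 2))), (#(NQ y r R E Ep 0 κ Q) : ℝ) with hZ
  have hZ0 : 0 ≤ Z := Finset.sum_nonneg (fun _ _ => by positivity)
  calc (∑ e ∈ E, (#{e' ∈ Ep | CT y r e e'} : ℝ)) * R ≤ (32 * u * 16 ^ κ * Z) * R :=
        mul_le_mul_of_nonneg_right h1 hR0.le
    _ ≤ (32 * u * R * Z) * R := by
        apply mul_le_mul_of_nonneg_right _ hR0.le
        apply mul_le_mul_of_nonneg_right _ hZ0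
        exact mul_le_mul_of_nonneg_left hκR (by positivity)
    _ = 32 * u * (Z * R ^ 2) := by ring
    _ ≤ 32 * u * (2 ^ 25 * ∑ e' ∈ Ep, r e' ^ 2) := mul_le_mul_of_nonneg_left hN (by positivity)
    _ = _ := by ring

open Classical in
theorem sum_ntc (hc : Cfg y r) (hu : 0 ≤ u) (hκR : (16 : ℝ) ^ κ ≤ R) (hRκ : R ≤ 16 ^ (κ + 1))
    (hE : ∀ e ∈ E, R ≤ r e ∧ r e ≤ 2 * R) (hD : Dens R E u) (hE' : ∀ e ∈ Ep, 8 * R ≤ r e)
    (χ : I4 → V3 → ℝ)
    (hχ : ∀ e ∈ E, ∀ x, χ e x ≠ 0 → psx y r R u E Ep α κ (cell α κ e) x ≠ 0) :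
    (∑ e ∈ E, (#{e' ∈ Ep | NTC y r κ (χ e) e e'} : ℝ)) * R ≤
      2 ^ 42 * KB * u * (19 / 20) ^ κ * ∑ e' ∈ Ep, r e' ^ 2 := by
  have h16 : (1 : ℝ) ≤ 16 ^ κ := one_le_pow₀ (by norm_num)
  have hR : 1 ≤ R := h16.trans hκR
  have hR0 : 0 < R := by linarith
  have hKB := KB_ge
  have hN := sum_NQ (E := E) (E' := Ep) (α := α) (κ := κ) hc hκR hRκ hE hE'
  have hg : (0 : ℝ) < (19 / 20) ^ κ := by positivity
  have h1 : ∑ e ∈ E, (#{e' ∈ Ep | NTC y r κ (χ e) e e'} : ℝ) ≤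
      2 ^ 17 * KB * u * 16 ^ κ * (19 / 20) ^ κ *
        ∑ Q ∈ E.image (cell α (κ + (κ + 2))), (#(NQ y r R E Ep α κ Q) : ℝ) := by
    rw [sum_Q E α κ, Finset.mul_sum]
    apply Finset.sum_le_sum
    intro Q _
    have hcE := card_EQ (E := E) (α := α) (κ := κ) hu hκR hD Q
    set n : ℝ := ((#(EQ E α κ Q) : ℕ) : ℝ) with hn
    set N : ℝ := ((#(NQ y r R E Ep α κ Q) : ℕ) : ℝ) with hNd
    have hN0 : 0 ≤ N := by positivity
    by_cases hQ : nst u κ ≤ n
    · have h2 : ∀ e ∈ EQ E α κ Q, (#{e' ∈ Ep | NTC y r κ (χ e) e e'} : ℝ) ≤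
          2 ^ 12 * (19 / 20) ^ κ * N := by
        intro e he
        exact ntc_count hκR hE Q e he hQ (χ e) (hχ e (mem_EQ.1 he).1)
      refine (Finset.sum_le_sum h2).trans ?_
      rw [Finset.sum_const, nsmul_eq_mul, ← hn]
      calc n * (2 ^ 12 * (19 / 20) ^ κ * N) ≤ (32 * u * 16 ^ κ) * (2 ^ 12 * (19 / 20) ^ κ * N) :=
            mul_le_mul_of_nonneg_right hcE (by positivity)
        _ = 1 * (2 ^ 17 * (u * 16 ^ κ * (19 / 20) ^ κ * N)) := by ring
        _ ≤ KB * (2 ^ 17 * (u * 16 ^ κ * (19 / 20) ^ κ * N)) :=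
            mul_le_mul_of_nonneg_right hKB (by positivity)
        _ = _ := by ring
    · rw [not_le] at hQ
      have h2 : ∀ e ∈ EQ E α κ Q, (#{e' ∈ Ep | NTC y r κ (χ e) e e'} : ℝ) ≤ N := by
        intro e he
        have h3 : {e' ∈ Ep | NTC y r κ (χ e) e e'} ⊆ {e' ∈ Ep | CT y r e e'} := by
          intro e' he'
          rw [Finset.mem_filter] at he' ⊢
          obtain ⟨h1, s, σ, hs, hσ, ht, x, hx0, hx1, hx2⟩ := he'
          exact ⟨h1, x, hx1, hx2⟩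
        rw [hNd]
        exact_mod_cast Finset.card_le_card (h3.trans (ct_sub hR hE Q e he))
      refine (Finset.sum_le_sum h2).trans ?_
      rw [Finset.sum_const, nsmul_eq_mul, ← hn]
      have ht0 : 0 < t0 ^ κ := dl_pos κ
      have h4 : nst u κ ≤ KB * u * 16 ^ κ * (19 / 20) ^ κ := by
        have h5 : ((67 : ℝ) / 100) ^ κ / t0 ^ κ ≤ (19 / 20) ^ κ := by
          rw [← div_pow]
          apply pow_le_pow_left₀ (by unfold t0; norm_num)
          unfold t0; norm_num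
        have h6 : nst u κ = KB * u * 16 ^ κ * (((67 : ℝ) / 100) ^ κ / t0 ^ κ) := by
          unfold nst; ring
        rw [h6]
        exact mul_le_mul_of_nonneg_left h5 (by positivity)
      have h7 : 0 ≤ KB * u * 16 ^ κ * (19 / 20) ^ κ * N := by positivity
      calc n * N ≤ (KB * u * 16 ^ κ * (19 / 20) ^ κ) * N :=
            mul_le_mul_of_nonneg_right (hQ.le.trans h4) hN0
        _ ≤ 2 ^ 17 * (KB * u * 16 ^ κ * (19 / 20) ^ κ * N) := by linarith
        _ = _ := by ring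
  set Z := ∑ Q ∈ E.image (cell α (κ + (κ + 2))), (#(NQ y r R E Ep α κ Q) : ℝ) with hZ
  have hZ0 : 0 ≤ Z := Finset.sum_nonneg (fun _ _ => by positivity)
  calc (∑ e ∈ E, (#{e' ∈ Ep | NTC y r κ (χ e) e e'} : ℝ)) * R
      ≤ (2 ^ 17 * KB * u * 16 ^ κ * (19 / 20) ^ κ * Z) * R :=
        mul_le_mul_of_nonneg_right h1 hR0.le
    _ = (2 ^ 17 * KB * u * (19 / 20) ^ κ * Z * R) * 16 ^ κ := by ring
    _ ≤ (2 ^ 17 * KB * u * (19 / 20) ^ κ * Z * R) * R :=
        mul_le_mul_of_nonneg_left hκR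
          (mul_nonneg (mul_nonneg (by positivity) hZ0) hR0.le)
    _ = 2 ^ 17 * KB * u * (19 / 20) ^ κ * (Z * R ^ 2) := by ring
    _ ≤ 2 ^ 17 * KB * u * (19 / 20) ^ κ * (2 ^ 25 * ∑ e' ∈ Ep, r e' ^ 2) :=
        mul_le_mul_of_nonneg_left hN (by positivity)
    _ = _ := by ring

open Classical in
/-- combined cutoffs -/
noncomputable def spx (y : I4 → V3) (r : I4 → ℝ) (R u : ℝ) (E Ep : Finset I4) (α : ℤ) (k₀ κ : ℕ)
    (k : ℕ) (c : I4) (x : V3) : ℝ :=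
  sps y r R u E α k₀ k c x * (if k = κ then psx y r R u E Ep α κ c x else 1)

theorem spx_cutfam (hR : 0 < R) : CutFam (spx y r R u E Ep α k₀ κ) := by
  constructor
  · intro m c x
    unfold spx
    apply mul_nonneg (sps_nonneg m c x)
    split_ifs
    · exact psx_nonneg c x
    · norm_num
  · intro m c x
    unfold spx
    have h1 := sps_le_one (y := y) (r := r) (R := R) (u := u) (E := E) (α := α) (k₀ := k₀) m c x
    have h2 := sps_nonneg (y := y) (r := r) (R := R) (u := u) (E := E) (α := α) (k₀ := k₀) m c x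
    split_ifs
    · have h3 := psx_le_one (y := y) (r := r) (R := R) (u := u) (E := E) (E' := Ep) (α := α)
        (κ := κ) c x
      have h4 := psx_nonneg (y := y) (r := r) (R := R) (u := u) (E := E) (E' := Ep) (α := α)
        (κ := κ) c x
      exact mul_le_one₀ h1 h4 h3
    · rw [mul_one]; exact h1
  · intro m c
    unfold spx
    apply (sps_cont hR m c).mul
    by_cases h : m = κ
    · simp only [if_pos h]; exact psx_cont hR c
    · simp only [if_neg h]; exact continuous_const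

theorem spx_lip (hR : 0 < R) (k : ℕ) (c : I4) (x z : V3) :
    |spx y r R u E Ep α k₀ κ k c x - spx y r R u E Ep α k₀ κ k c z| ≤
      2 * (bt k * R)⁻¹ * ‖x - z‖ := by
  have hb := bt_pos k
  have h0 : 0 ≤ (bt k * R)⁻¹ * ‖x - z‖ := by positivity
  have h1 := sps_lip (y := y) (r := r) (u := u) (E := E) (α := α) (k₀ := k₀) hR k c x z
  unfold spx
  split_ifs with h
  · have h2 := psx_lip (y := y) (r := r) (u := u) (E := E) (E' := Ep) (α := α) (κ := κ) hR c x z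
    rw [← h] at h2
    rw [← h]
    set a := sps y r R u E α k₀ k c x
    set a' := sps y r R u E α k₀ k c z
    set b := psx y r R u E Ep α k c x
    set b' := psx y r R u E Ep α k c z
    have e1 : a * b - a' * b' = (a - a') * b + a' * (b - b') := by ring
    rw [e1]
    refine (abs_add_le _ _).trans ?_
    rw [abs_mul, abs_mul]
    have c1 : |b| ≤ 1 := by
      rw [abs_of_nonneg (psx_nonneg c x)]; exact psx_le_one c x
    have c2 : |a'| ≤ 1 := by
      rw [abs_of_nonneg (sps_nonneg k c z)]; exact sps_le_one k c z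
    have d1 : |a - a'| * |b| ≤ |a - a'| * 1 := mul_le_mul_of_nonneg_left c1 (abs_nonneg _)
    have d2 : |a'| * |b - b'| ≤ 1 * |b - b'| := mul_le_mul_of_nonneg_right c2 (abs_nonneg _)
    linarith
  · rw [mul_one, mul_one]; linarith

theorem spx_one (hRκ : R ≤ 16 ^ (κ + 1)) (k : ℕ) (hk : κ + 3 ≤ k) (c : I4) (x : V3) :
    spx y r R u E Ep α k₀ κ k c x = 1 := by
  have h1 : ¬ act k₀ R k := by
    rintro ⟨_, h⟩
    have h2 : (16 : ℝ) ^ (κ + 3) ≤ 16 ^ k := pow_le_pow_right₀ (by norm_num) hk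
    have h3 : (16 : ℝ) ^ (κ + 3) = 256 * 16 ^ (κ + 1) := by
      rw [show κ + 3 = (κ + 1) + 2 by ring, pow_add]; norm_num; ring
    have h4 : (0 : ℝ) < 16 ^ (κ + 1) := by positivity
    linarith
  unfold spx sps
  rw [if_neg h1, if_neg (by omega)]; norm_num

/-- Lipschitz constant of the accumulated cutoffs of a class -/
noncomputable def Lc (κ : ℕ) : ℝ := 2 ^ 15 * (1 / 7) ^ κ

theorem Lc_anti {κ κ' : ℕ} (h : κ ≤ κ') : Lc κ' ≤ Lc κ := by
  unfold Lc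
  apply mul_le_mul_of_nonneg_left _ (by norm_num)
  exact pow_le_pow_of_le_one (by norm_num) (by norm_num) h

theorem chi_spx_lip (hκ : 40 ≤ κ) (hκR : (16 : ℝ) ^ κ ≤ R) (hRκ : R ≤ 16 ^ (κ + 1)) (M : ℕ)
    (e : I4) (x z : V3) :
    |chi (spx y r R u E Ep α k₀ κ) α M e x - chi (spx y r R u E Ep α k₀ κ) α M e z| ≤
      Lc κ * ‖x - z‖ := by
  have h16 : (0 : ℝ) < 16 ^ κ := by positivity
  have hR0 : 0 < R := by linarith
  have hψ : CutFam (spx y r R u E Ep α k₀ κ) := spx_cutfam hR0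
  have ht : 0 < t0 := by unfold t0; norm_num
  unfold chi
  refine (prod_lip _ _ _ (fun j _ => ⟨hψ.nn _ _ _, hψ.le1 _ _ _⟩)
    (fun j _ => ⟨hψ.nn _ _ _, hψ.le1 _ _ _⟩)).trans ?_
  set B : ℝ := 2 ^ 15 * ((t0 ^ 12)⁻¹) ^ κ / R * ‖x - z‖ with hB
  have hB0 : 0 ≤ B := by positivity
  have h1 : ∀ j ∈ Finset.range (M + 1), |spx y r R u E Ep α k₀ κ j (cell α j e) x -
      spx y r R u E Ep α k₀ κ j (cell α j e) z| ≤ if j < κ + 3 then B else 0 := by
    intro j _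
    split_ifs with h
    · refine (spx_lip hR0 _ _ _ _).trans ?_
      rw [hB]
      apply mul_le_mul_of_nonneg_right _ (norm_nonneg _)
      have h2 := bt_inv κ j (by omega)
      rw [mul_inv]
      calc 2 * ((bt j)⁻¹ * R⁻¹) ≤ 2 * ((2 ^ 14 * ((t0 ^ 12)⁻¹) ^ κ) * R⁻¹) := by
            apply mul_le_mul_of_nonneg_left _ (by norm_num)
            exact mul_le_mul_of_nonneg_right h2 (by positivity)
        _ = _ := by ring
    · rw [spx_one hRκ j (by omega), spx_one hRκ j (by omega)]; simp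
  refine (Finset.sum_le_sum h1).trans ?_
  rw [← Finset.sum_filter, Finset.sum_const, nsmul_eq_mul]
  have h2 : #{j ∈ Finset.range (M + 1) | j < κ + 3} ≤ κ + 3 := by
    have : {j ∈ Finset.range (M + 1) | j < κ + 3} ⊆ Finset.range (κ + 3) := by
      intro j hj
      rw [Finset.mem_filter] at hj
      exact Finset.mem_range.2 hj.2
    simpa using Finset.card_le_card this
  have h3 : (#{j ∈ Finset.range (M + 1) | j < κ + 3} : ℝ) ≤ 2 ^ κ := by
    refine le_trans ?_ (four_k κ hκ)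
    exact_mod_cast (by omega : #{j ∈ Finset.range (M + 1) | j < κ + 3} ≤ 4 * κ + 5)
  refine (mul_le_mul_of_nonneg_right h3 hB0).trans ?_
  have h4 : 2 ^ κ * B = (2 ^ 15 * ((2 * (t0 ^ 12)⁻¹) ^ κ / R)) * ‖x - z‖ := by
    rw [hB, mul_pow]; ring
  rw [h4, Lc]
  apply mul_le_mul_of_nonneg_right _ (norm_nonneg _)
  apply mul_le_mul_of_nonneg_left _ (by norm_num)
  rw [div_le_iff₀ hR0]
  have h5 : (2 * (t0 ^ 12)⁻¹) ^ κ ≤ ((1 : ℝ) / 7) ^ κ * 16 ^ κ := by
    rw [← mul_pow]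
    apply pow_le_pow_left₀ (by positivity)
    unfold t0; norm_num
  refine h5.trans ?_
  exact mul_le_mul_of_nonneg_left hκR (by positivity)

end

/-- selection of a good shift, with a large top level -/
theorem select2 (E : Finset I4) (k₀ M₀ : ℕ) : ∃ (α : ℤ) (M : ℕ) (E' : Finset I4),
    4 * k₀ + 4 ≤ M ∧ M₀ ≤ M ∧ E' ⊆ E ∧ (∀ e ∈ E', ∀ m, 4 * k₀ + 4 ≤ m → m ≤ M → inte α m e) ∧
    (∀ e ∈ E', ∀ e' ∈ E', cell α M e = cell α M e') ∧ (#(E \ E') : ℝ) ≤ t0 ^ k₀ * #E := by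
  -- diameter
  obtain ⟨D, hD⟩ : ∃ D : ℝ, ∀ e ∈ E, ∀ e' ∈ E, dist e e' ≤ D := by
    refine ⟨∑ e ∈ E, ∑ e' ∈ E, dist e e', ?_⟩
    intro e he e' he'
    refine le_trans ?_ (Finset.single_le_sum (f := fun e => ∑ e' ∈ E, dist e e')
      (fun i _ => Finset.sum_nonneg (fun _ _ => dist_nonneg)) he)
    exact Finset.single_le_sum (f := fun e' => dist e e') (fun _ _ => dist_nonneg) he'
  obtain ⟨N, hN⟩ := pow_unbounded_of_one_lt D (by norm_num : (1 : ℝ) < 2)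
  set M := max N (max M₀ (4 * k₀ + 4)) with hM
  obtain ⟨α, hα⟩ := exists_shift E (4 * k₀ + 4) M
  have hM1 : 4 * k₀ + 4 ≤ M := (le_max_right _ _).trans (le_max_right _ _)
  have hM2 : M₀ ≤ M := (le_max_left _ _).trans (le_max_right _ _)
  classical
  obtain ⟨P, hP⟩ : ∃ P : I4 → Prop, P = fun e => ∃ m ∈ Finset.Icc (4 * k₀ + 4) M, ¬ inte α m e :=
    ⟨_, rfl⟩
  have hα' : (#(E.filter P) : ℝ) ≤ 16 / 2 ^ (4 * k₀ + 4) * #E := by
    subst hP
    convert hα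
  refine ⟨α, M, E.filter (fun e => ¬ P e), hM1, hM2, Finset.filter_subset _ _, ?_, ?_, ?_⟩
  · intro e he m h1 h2
    rw [Finset.mem_filter] at he
    by_contra hc
    apply he.2
    rw [hP]
    exact ⟨m, Finset.mem_Icc.2 ⟨h1, h2⟩, hc⟩
  · intro e he e' he'
    by_contra hne
    rw [Finset.mem_filter] at he he'
    have hi : inte α M e := by
      by_contra hc
      apply he.2
      rw [hP]
      exact ⟨M, Finset.mem_Icc.2 ⟨hM1, le_rfl⟩, hc⟩
    have h1 := cell_far α M e e' hi hne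
    have h2 := hD e he.1 e' he'.1
    have h3 : (2 : ℝ) ^ N ≤ 2 ^ M := pow_le_pow_right₀ (by norm_num) (le_max_left _ _)
    linarith
  · have h1 : E \ E.filter (fun e => ¬ P e) = E.filter P := by
      ext e
      simp only [Finset.mem_sdiff, Finset.mem_filter]
      tauto
    rw [h1]
    refine hα'.trans ?_
    apply mul_le_mul_of_nonneg_right _ (by positivity)
    have h2 : (2 : ℝ) ^ (4 * k₀ + 4) = 16 ^ k₀ * 16 := by
      rw [pow_add, pow_mul]; norm_num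
    rw [h2]
    have h3 : (16 : ℝ) / (16 ^ k₀ * 16) = (1 / 16) ^ k₀ := by
      rw [one_div, inv_pow]; field_simp
    rw [h3]
    exact pow_le_pow_left₀ (by norm_num) (by unfold t0; norm_num) k₀

end Run7.h58
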