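import Pool.Agent.Run7.h58.Pack

open MeasureTheory Finset
open scoped ENNReal RealInnerProductSpace

namespace Run7.h58

open Classical in
/-- spheres in a big cell -/
noncomputable def EQ (E : Finset I4) (α : ℤ) (κ : ℕ) (Q : I4) : Finset I4 :=
  {e ∈ E | cell α (κ + (κ + 2)) e = Q}

open Classical in
theorem mem_EQ {E : Finset I4} {α : ℤ} {κ : ℕ} {Q e : I4} :
    e ∈ EQ E α κ Q ↔ e ∈ E ∧ cell α (κ + (κ + 2)) e = Q := by
  unfold EQ; rw [Finset.mem_filter]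

open Classical in
/-- larger spheres near a big cell -/
noncomputable def NQ (y : I4 → V3) (r : I4 → ℝ) (R : ℝ) (E E' : Finset I4) (α : ℤ) (κ : ℕ)
    (Q : I4) : Finset I4 :=
  {e' ∈ E' | ∃ e ∈ EQ E α κ Q, |‖y e - y e'‖ - r e'| ≤ 4 * R}

open Classical in
theorem mem_NQ {y : I4 → V3} {r : I4 → ℝ} {R : ℝ} {E E' : Finset I4} {α : ℤ} {κ : ℕ} {Q e' : I4} :
    e' ∈ NQ y r R E E' α κ Q ↔ e' ∈ E' ∧ ∃ e ∈ EQ E α κ Q, |‖y e - y e'‖ - r e'| ≤ 4 * R := by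
  unfold NQ; rw [Finset.mem_filter]

noncomputable def thX (κ : ℕ) : ℝ := (19 / 20) ^ κ * bt κ ^ 3

theorem thX_pos (κ : ℕ) : 0 < thX κ := by
  have := bt_pos κ
  unfold thX; positivity

noncomputable def nst (u : ℝ) (κ : ℕ) : ℝ := KB * u * (16 ^ κ * (67 / 100) ^ κ) / t0 ^ κ

/-- activity of a big cell -/
def actX (y : I4 → V3) (r : I4 → ℝ) (R u : ℝ) (E E' : Finset I4) (α : ℤ) (κ : ℕ) (Q : I4) : Prop :=
  nst u κ ≤ #(EQ E α κ Q) ∧ (NQ y r R E E' α κ Q).Nonempty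

open Classical in
/-- the cross scale cutoff -/
noncomputable def psx (y : I4 → V3) (r : I4 → ℝ) (R u : ℝ) (E E' : Finset I4) (α : ℤ) (κ : ℕ)
    (c : I4) (x : V3) : ℝ :=
  if actX y r R u E E' α κ (upc (κ + 2) c) then
    bcut y r (bt κ * R) κ α (EQ E α κ (upc (κ + 2) c)) E' (fun _ _ => True)
      (thX κ * #(NQ y r R E E' α κ (upc (κ + 2) c))) (4 * R) (dl κ * R) c x
  else 1

section
variable {y : I4 → V3} {r : I4 → ℝ} {R u : ℝ} {E E' : Finset I4} {α : ℤ} {κ : ℕ}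

theorem psx_nonneg (c : I4) (x : V3) : 0 ≤ psx y r R u E E' α κ c x := by
  unfold psx; split_ifs
  · exact bcut_nonneg x
  · norm_num

theorem psx_le_one (c : I4) (x : V3) : psx y r R u E E' α κ c x ≤ 1 := by
  unfold psx; split_ifs
  · exact bcut_le_one x
  · norm_num

theorem psx_lip (hR : 0 < R) (c : I4) (x z : V3) :
    |psx y r R u E E' α κ c x - psx y r R u E E' α κ c z| ≤ (bt κ * R)⁻¹ * ‖x - z‖ := by
  have hb := bt_pos κ
  unfold psx; split_ifs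
  · exact bcut_lip (by positivity) x z
  · simp only [sub_self, abs_zero]; positivity

theorem psx_cont (hR : 0 < R) (c : I4) : Continuous (psx y r R u E E' α κ c) :=
  cont_of_lip _ _ (psx_lip hR c)

/-- contact of shells implies nearness -/
theorem near_of_contact (e e' : I4) (hR : 1 ≤ R) (he : r e ≤ 2 * R) (x : V3)
    (h1 : x ∈ shell (y e) (r e)) (h2 : x ∈ shell (y e') (r e')) :
    |‖y e - y e'‖ - r e'| ≤ 4 * R := by
  have s1 := abs_le.1 (show |‖x - y e‖ - r e| ≤ 1 / 2 from h1)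
  have s2 := abs_le.1 (show |‖x - y e'‖ - r e'| ≤ 1 / 2 from h2)
  have h3 : |‖y e - y e'‖ - ‖x - y e'‖| ≤ ‖x - y e‖ := by
    refine (abs_norm_sub_norm_le _ _).trans ?_
    have : y e - y e' - (x - y e') = -(x - y e) := by abel
    rw [this, norm_neg]
  have h4 := abs_le.1 h3
  rw [abs_le]
  constructor <;> linarith [s1.1, s1.2, s2.1, s2.2, h4.1, h4.2]

theorem far_of_near (hR : 1 ≤ R) (hκ : 1 ≤ κ) (hκR : (16 : ℝ) ^ κ ≤ R) (e e' : I4)
    (he2 : r e ≤ 2 * R) (he0 : 0 ≤ r e) (he' : 8 * R ≤ r e') (s σ : ℝ) (hs : s = 1 ∨ s = -1)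
    (hσ : σ = 1 ∨ σ = -1) (ht : |s * ‖y e - y e'‖ + r e - σ * r e'| ≤ 8 ^ κ) :
    16 ^ κ / 2 ≤ ‖y e - y e'‖ := by
  have h816 : (8 : ℝ) ^ κ ≤ 16 ^ κ := pow_le_pow_left₀ (by norm_num) (by norm_num) κ
  have h16 : (0 : ℝ) < 16 ^ κ := by positivity
  have hn := norm_nonneg (y e - y e')
  obtain ⟨a1, a2⟩ := abs_le.1 ht
  rcases hs with rfl | rfl <;> rcases hσ with rfl | rfl <;> linarith

theorem numX (u : ℝ) (hu : 0 < u) (κ : ℕ) :
    ((2 ^ 13 / bt κ) ^ 3) ^ 4 * 256 * (2 * u * (2 ^ 13 * 8 ^ κ / dl κ ^ 3)) ≤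
      (KB * u * (16 ^ κ * (67 / 100) ^ κ)) * thX κ ^ 4 := by
  have h := num3 κ u 1 hu zero_le_one
  rw [← KB_eq] at h
  have hb := bt_pos κ
  have hd := dl_pos κ
  have hKB := KB_ge
  have hth := thX_pos κ
  have e2 : (2 : ℝ) ^ (4 * κ + 6) = 64 * 16 ^ κ := by
    rw [pow_add, pow_mul]; norm_num; ring
  have h16 : (0 : ℝ) < 16 ^ κ := by positivity
  set Z : ℝ := ((2 ^ 13 / bt κ) ^ 3) ^ 4 * 256 * (2 * u * (2 ^ 13 * 8 ^ κ / dl κ ^ 3)) with hZ
  set P : ℝ := (u * 16 ^ κ) ^ 3 with hP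
  have hP0 : 0 < P := by positivity
  have e3 : (1 * (u * 2 ^ (4 * κ + 6)) ^ 3) * Z = 2 ^ 18 * (P * Z) := by
    rw [e2, hP]; ring
  have e4 : (KB * (67 / 100) ^ κ * 1) * thrs u κ ^ 4 =
      P * ((KB * u * (16 ^ κ * (67 / 100) ^ κ)) * thX κ ^ 4) := by
    rw [hP, thrs, thX]; ring
  rw [e3, e4] at h
  have hZ0 : 0 ≤ P * Z := by positivity
  have h5 : P * Z ≤ P * ((KB * u * (16 ^ κ * (67 / 100) ^ κ)) * thX κ ^ 4) := by linarith
  exact le_of_mul_le_mul_left h5 hP0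

open Classical in
/-- few bad cells in an active big cell -/
theorem bad_cross (hc : Cfg y r) (hu : 0 < u) (hκ : 40 ≤ κ) (hκR : (16 : ℝ) ^ κ ≤ R)
    (hRκ : R ≤ 16 ^ (κ + 1))
    (hE : ∀ e ∈ E, R ≤ r e ∧ r e ≤ 2 * R) (hD : Dens R E u) (hE' : ∀ e ∈ E', 8 * R ≤ r e)
    (Q : I4) (hQ : actX y r R u E E' α κ Q) :
    (#{e ∈ EQ E α κ Q | isBad y r (bt κ * R) κ α (EQ E α κ Q) E' (fun _ _ => True)
      (thX κ * #(NQ y r R E E' α κ Q)) (4 * R) (dl κ * R) (cell α κ e)} : ℝ)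
      ≤ t0 ^ κ * #(EQ E α κ Q) := by
  have hb := bt_pos κ
  have hd := dl_pos κ
  have hb1 := bt_le κ
  have h16 : (1 : ℝ) ≤ 16 ^ κ := one_le_pow₀ (by norm_num)
  have hR : 1 ≤ R := h16.trans hκR
  have hR0 : 0 < R := by linarith
  have hh : 0 < bt κ * R := by positivity
  have hth := thX_pos κ
  set N : Finset I4 := NQ y r R E E' α κ Q with hN
  have hN0 : (0 : ℝ) < #N := by exact_mod_cast hQ.2.card_pos
  have hthr : 0 < thX κ * #N := by positivity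
  set F := EQ E α κ Q with hF
  have hFE : F ⊆ E := by rw [hF]; unfold EQ; exact Finset.filter_subset _ _
  have hnst : 0 < nst u κ := by
    have := KB_ge
    have : 0 < t0 ^ κ := dl_pos κ
    unfold nst; positivity
  have hFne : F.Nonempty := by
    rw [← Finset.card_pos]
    have : (0 : ℝ) < #F := lt_of_lt_of_le hnst hQ.1
    exact_mod_cast this
  obtain ⟨e₀, he₀⟩ := hFne
  have h4 : (4 : ℝ) ^ κ ≤ 16 ^ κ := pow_le_pow_left₀ (by norm_num) (by norm_num) κ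
  have e16 : (16 : ℝ) ^ (κ + 1) = 16 * 16 ^ κ := by rw [pow_succ]; ring
  have e4m : (4 : ℝ) ^ (κ + (κ + 2)) = 16 ^ (κ + 1) := by
    have : κ + (κ + 2) = 2 * (κ + 1) := by ring
    rw [this, pow_mul]; norm_num
  have hkR : 2 * (2 ^ 13 * 8 ^ κ / dl κ ^ 3) ≤ 2 ^ 14 * R := by
    have h := num2 κ hκ
    have h2 : 8 ^ κ / dl κ ^ 3 ≤ R := by
      have : 0 ≤ 8 ^ κ / dl κ ^ 3 := by positivity
      linarith
    calc 2 * (2 ^ 13 * 8 ^ κ / dl κ ^ 3) = 2 ^ 14 * (8 ^ κ / dl κ ^ 3) := by ring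
      _ ≤ _ := by linarith
  have hfd : ∀ e ∈ F, dist e e₀ ≤ 16 * R := by
    intro e he
    have h1 := cell_close α (κ + (κ + 2)) e e₀ (by rw [(mem_EQ.1 he).2, (mem_EQ.1 he₀).2])
    rw [e4m, e16] at h1
    linarith
  have hTS : ∀ e ∈ F, ∀ n q', q' ∈ TS y r (bt κ * R) κ α F E' (fun _ _ => True) (cell α κ e) n →
      q' ∈ N := by
    intro e he n q' hq
    obtain ⟨h1, e1, he1, hcell, -, s, σ, hs, hσ, -, x, hx1, hx2, hx3⟩ := mem_TS.1 hq
    rw [hN, mem_NQ]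
    exact ⟨h1, e1, he1, near_of_contact e1 q' hR (hE e1 (hFE he1)).2 x hx1 hx2⟩
  set Eb : Finset I4 := {e ∈ F | isBad y r (bt κ * R) κ α F E' (fun _ _ => True)
      (thX κ * #N) (4 * R) (dl κ * R) (cell α κ e)} with hEb
  have hbc := bad_count hc κ (dl κ) (bt κ) R u hd (dl_le κ) rfl (num1 κ hκ) hR (by linarith) hu.le
    F E' (fun e he => hE e (hFE he)) (fun e he => by linarith [hE' e he]) (hD.mono hFE) hkR α
    (fun _ _ => True)
    (fun e he e' he' _ s σ hs hσ ht => far_of_near hR (by omega) hκR e e' (hE e (hFE he)).2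
      (by linarith [(hE e (hFE he)).1]) (hE' e' he') s σ hs hσ ht)
    (thX κ * #N) hthr.le Eb (Finset.filter_subset _ _)
    (by
      intro e he
      rw [hEb, Finset.mem_filter] at he
      obtain ⟨ν, hν, htr⟩ := he.2
      exact ⟨ν, htr, fun i => (mem_bset.1 (hν i)).2⟩)
    (Fintype.piFinset (fun _ : Fin 4 => N)) (fun _ => nbox (bt κ * R) (2 ^ 11 * R) (y e₀))
    ((2 ^ 13 / bt κ) ^ 3)
    (by
      intro e he q hq
      rw [Fintype.mem_piFinset]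
      intro i
      obtain ⟨n, hn⟩ := hq i
      exact hTS e he n _ hn)
    (by
      intro q _ e he n i hq _
      obtain ⟨h1, e1, he1, hcell, -, s, σ, hs, hσ, -, x, hx1, hx2, hx3⟩ := mem_TS.1 hq
      apply mem_nbox _ _ hh
      have h4' := abs_le.1 (show |‖x - y e1‖ - r e1| ≤ 1 / 2 from hx1)
      have h5 : ctr (bt κ * R) n - y e₀ = -(x - ctr (bt κ * R) n) + (x - y e1)
        + (y e1 - y e₀) := by abel
      rw [h5]
      refine (norm_add₃_le).trans ?_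
      rw [norm_neg]
      have h6 := hc.d1 e1 e₀
      have h7 := hfd e1 he1
      have h8 := (hE e1 (hFE he1)).2
      have h9 : bt κ * R ≤ 1 * R := mul_le_mul_of_nonneg_right (by linarith) hR0.le
      linarith [h4'.2])
    (by
      intro q _
      refine (card_nbox _ _ hh (by positivity) _).trans ?_
      apply pow_le_pow_left₀ (by positivity)
      have h1 : 2 * (2 ^ 11 * R) / (bt κ * R) = 2 ^ 12 / bt κ := by field_simp
      rw [h1]
      have h2 : 1 ≤ 1 / bt κ := by rw [one_le_div hb]; linarith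
      have h3 : (2 : ℝ) ^ 13 / bt κ = 2 ^ 12 / bt κ + 4096 * (1 / bt κ) := by ring
      rw [h3]; linarith)
  have hQc : (#(Fintype.piFinset (fun _ : Fin 4 => N)) : ℝ) = (#N : ℝ) ^ 4 := by
    rw [Fintype.card_piFinset]; simp
  rw [hQc, mul_pow] at hbc
  have h5 := numX u hu κ
  have hN4 : (0 : ℝ) < (#N : ℝ) ^ 4 := by positivity
  have hth4 : 0 < thX κ ^ 4 := by positivity
  have h6 : (#Eb : ℝ) * (thX κ ^ 4 * (#N : ℝ) ^ 4) ≤
      (KB * u * (16 ^ κ * (67 / 100) ^ κ)) * (thX κ ^ 4 * (#N : ℝ) ^ 4) := by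
    refine hbc.trans ?_
    calc (#N : ℝ) ^ 4 * (((2 ^ 13 / bt κ) ^ 3) ^ 4 * 256 * (2 * u * (2 ^ 13 * 8 ^ κ / dl κ ^ 3)))
        ≤ (#N : ℝ) ^ 4 * ((KB * u * (16 ^ κ * (67 / 100) ^ κ)) * thX κ ^ 4) :=
          mul_le_mul_of_nonneg_left h5 hN4.le
      _ = _ := by ring
  have h7 : (#Eb : ℝ) ≤ KB * u * (16 ^ κ * (67 / 100) ^ κ) :=
    le_of_mul_le_mul_right h6 (by positivity)
  have ht0 : 0 < t0 ^ κ := dl_pos κ
  have h8 : KB * u * (16 ^ κ * (67 / 100) ^ κ) = t0 ^ κ * nst u κ := by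
    unfold nst; field_simp
  rw [h8] at h7
  exact h7.trans (mul_le_mul_of_nonneg_left hQ.1 ht0.le)

end

end Run7.h58
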