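import Pool.Agent.Run7.h58.CrossCut

open MeasureTheory Finset
open scoped ENNReal RealInnerProductSpace

namespace Run7.h58

section
variable {y : I4 → V3} {r : I4 → ℝ} {R u : ℝ} {E E' : Finset I4} {α : ℤ} {κ : ℕ} {Ψ : ℝ → ℝ}

theorem upc_cell (e : I4) : upc (κ + 2) (cell α κ e) = cell α (κ + (κ + 2)) e :=
  (cell_up α κ (κ + 2) e).symm

open Classical in
theorem sum_Q (E : Finset I4) (α : ℤ) (κ : ℕ) (f : I4 → ℝ) :
    ∑ e ∈ E, f e = ∑ Q ∈ E.image (cell α (κ + (κ + 2))), ∑ e ∈ EQ E α κ Q, f e := by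
  unfold EQ
  rw [Finset.sum_fiberwise_of_maps_to]
  intro e he
  exact Finset.mem_image_of_mem _ he

open Classical in
theorem card_Q (E : Finset I4) (α : ℤ) (κ : ℕ) :
    (#E : ℝ) = ∑ Q ∈ E.image (cell α (κ + (κ + 2))), (#(EQ E α κ Q) : ℝ) := by
  have h := sum_Q E α κ (fun _ => (1 : ℝ))
  simp only [Finset.sum_const, nsmul_eq_mul, mul_one] at h
  exact h

open Classical in
/-- loss of the cross scale cutoffs -/
theorem loss_cross (hΨ : Profile Ψ) (hc : Cfg y r) (hu : 0 < u) (hκ : 40 ≤ κ)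
    (hκR : (16 : ℝ) ^ κ ≤ R) (hRκ : R ≤ 16 ^ (κ + 1))
    (hE : ∀ e ∈ E, R ≤ r e ∧ r e ≤ 2 * R) (hD : Dens R E u) (hE' : ∀ e ∈ E', 8 * R ≤ r e) :
    ∑ e ∈ E, ∫ x, |(1 - psx y r R u E E' α κ (cell α κ e) x) * atom Ψ (y e) (r e) x|
      ≤ 320 * t0 ^ κ * (#E * R ^ 2) := by
  have hb := bt_pos κ
  have hd := dl_pos κ
  have h16 : (1 : ℝ) ≤ 16 ^ κ := one_le_pow₀ (by norm_num)
  have hR : 1 ≤ R := h16.trans hκR
  have hR0 : 0 < R := by linarith
  have hh : 0 < bt κ * R := by positivity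
  have hpi := Real.pi_lt_four
  have hpi0 := Real.pi_pos
  rw [sum_Q E α κ, card_Q E α κ, Finset.sum_mul, Finset.mul_sum]
  apply Finset.sum_le_sum
  intro Q _
  set F := EQ E α κ Q with hF
  have hFE : F ⊆ E := by rw [hF]; unfold EQ; exact Finset.filter_subset _ _
  have hup : ∀ e ∈ F, upc (κ + 2) (cell α κ e) = Q := by
    intro e he
    rw [upc_cell]; exact (mem_EQ.1 he).2
  have ht0 : 0 < t0 ^ κ := hd
  by_cases ha : actX y r R u E E' α κ Q
  · have hbad := bad_cross hc hu hκ hκR hRκ hE hD hE' Q ha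
    rw [← hF] at hbad
    set N := NQ y r R E E' α κ Q with hN
    set Eb : Finset I4 := {e ∈ F | isBad y r (bt κ * R) κ α F E' (fun _ _ => True)
      (thX κ * #N) (4 * R) (dl κ * R) (cell α κ e)} with hEb
    have h1 : ∀ e ∈ F, ∫ x, |(1 - psx y r R u E E' α κ (cell α κ e) x) * atom Ψ (y e) (r e) x|
        ≤ 128 * dl κ * R ^ 2 + (if isBad y r (bt κ * R) κ α F E' (fun _ _ => True)
      (thX κ * #N) (4 * R) (dl κ * R) (cell α κ e) then 192 * R ^ 2 else 0) := by
      intro e he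
      obtain ⟨he1, he2⟩ := hE e (hFE he)
      have hps : ∀ x, psx y r R u E E' α κ (cell α κ e) x = bcut y r (bt κ * R) κ α F E'
          (fun _ _ => True) (thX κ * #N) (4 * R) (dl κ * R) (cell α κ e) x := by
        intro x
        unfold psx
        rw [hup e he, if_pos ha]
      split_ifs with hbd
      · have h2 := atom_l1 hΨ (y e) (r e) (by linarith) (fun x => 1 - psx y r R u E E' α κ
          (cell α κ e) x) (by
            intro x
            have c1 := psx_nonneg (y := y) (r := r) (R := R) (u := u) (E := E) (E' := E')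
              (α := α) (κ := κ) (cell α κ e) x
            have c2 := psx_le_one (y := y) (r := r) (R := R) (u := u) (E := E) (E' := E')
              (α := α) (κ := κ) (cell α κ e) x
            rw [abs_le]; constructor <;> linarith)
        refine h2.trans ?_
        have h3 : r e ^ 2 ≤ (2 * R) ^ 2 := pow_le_pow_left₀ (by linarith) he2 2
        have h4 : 12 * Real.pi * r e ^ 2 ≤ 12 * 4 * (2 * R) ^ 2 := by
          apply mul_le_mul (by linarith) h3 (by positivity) (by norm_num)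
        have h5 : 0 ≤ dl κ * R ^ 2 := by positivity
        linarith
      · simp only [hps]
        have h2 := bcut_loss (c := cell α κ e) hΨ hh (by positivity) hbd (y e) (r e)
          (by linarith)
        refine h2.trans ?_
        have h3 : dl κ * R + 2 * (bt κ * R) ≤ 2 * (dl κ * R) := by
          have := bt_le_dl κ
          have : bt κ * R ≤ (dl κ / 8192) * R := mul_le_mul_of_nonneg_right this hR0.le
          have : 0 ≤ dl κ * R := by positivity
          linarith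
        have h4 : 8 * Real.pi * r e * (dl κ * R + 2 * (bt κ * R)) ≤
            8 * 4 * (2 * R) * (2 * (dl κ * R)) := by
          apply mul_le_mul _ h3 (by positivity) (by positivity)
          apply mul_le_mul (by linarith) he2 (by linarith) (by norm_num)
        linarith
    refine (Finset.sum_le_sum h1).trans ?_
    rw [Finset.sum_add_distrib, Finset.sum_const, nsmul_eq_mul, ← Finset.sum_filter, ← hEb,
      Finset.sum_const, nsmul_eq_mul]
    have h6 : dl κ = t0 ^ κ := rfl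
    have h8 : (#Eb : ℝ) * (192 * R ^ 2) ≤ t0 ^ κ * #F * (192 * R ^ 2) :=
      mul_le_mul_of_nonneg_right hbad (by positivity)
    rw [h6]
    linarith
  · have hs : ∀ e ∈ F, ∀ x, psx y r R u E E' α κ (cell α κ e) x = 1 := by
      intro e he x
      unfold psx
      rw [hup e he, if_neg ha]
    have : ∀ e ∈ F, ∫ x, |(1 - psx y r R u E E' α κ (cell α κ e) x) * atom Ψ (y e) (r e) x| = 0 := by
      intro e he
      simp only [hs e he, sub_self, zero_mul, abs_zero, integral_zero]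
    rw [Finset.sum_congr rfl this, Finset.sum_const_zero]
    positivity

/-- near tangent contact of shells where `χ` does not vanish -/
def NTC (y : I4 → V3) (r : I4 → ℝ) (κ : ℕ) (χ : V3 → ℝ) (e e' : I4) : Prop :=
  ∃ s σ : ℝ, (s = 1 ∨ s = -1) ∧ (σ = 1 ∨ σ = -1) ∧ |s * ‖y e - y e'‖ + r e - σ * r e'| ≤ 8 ^ κ ∧
    ∃ x, χ x ≠ 0 ∧ x ∈ shell (y e) (r e) ∧ x ∈ shell (y e') (r e')

/-- contact of shells -/
def CT (y : I4 → V3) (r : I4 → ℝ) (e e' : I4) : Prop :=
  ∃ x, x ∈ shell (y e) (r e) ∧ x ∈ shell (y e') (r e')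

open Classical in
theorem ct_sub (hR : 1 ≤ R) (hE : ∀ e ∈ E, R ≤ r e ∧ r e ≤ 2 * R) (Q e : I4)
    (he : e ∈ EQ E α κ Q) : {e' ∈ E' | CT y r e e'} ⊆ NQ y r R E E' α κ Q := by
  intro e' he'
  rw [Finset.mem_filter] at he'
  obtain ⟨h1, x, hx1, hx2⟩ := he'
  rw [mem_NQ]
  exact ⟨h1, e, he, near_of_contact e e' hR (hE e (mem_EQ.1 he).1).2 x hx1 hx2⟩

open Classical in
/-- number of near tangent contacts after the cutoff -/
theorem ntc_count (hκR : (16 : ℝ) ^ κ ≤ R)
    (hE : ∀ e ∈ E, R ≤ r e ∧ r e ≤ 2 * R) (Q e : I4) (he : e ∈ EQ E α κ Q)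
    (hQ : nst u κ ≤ #(EQ E α κ Q)) (χ : V3 → ℝ)
    (hχ : ∀ x, χ x ≠ 0 → psx y r R u E E' α κ (cell α κ e) x ≠ 0) :
    (#{e' ∈ E' | NTC y r κ χ e e'} : ℝ) ≤ 2 ^ 12 * (19 / 20) ^ κ * #(NQ y r R E E' α κ Q) := by
  have h16 : (1 : ℝ) ≤ 16 ^ κ := one_le_pow₀ (by norm_num)
  have hR : 1 ≤ R := h16.trans hκR
  have hR0 : 0 < R := by linarith
  have hb := bt_pos κ
  have hb1 := bt_le κ
  have hh : 0 < bt κ * R := by positivity
  have hth := thX_pos κ
  have hsub0 : {e' ∈ E' | NTC y r κ χ e e'} ⊆ {e' ∈ E' | CT y r e e'} := by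
    intro e' he'
    rw [Finset.mem_filter] at he' ⊢
    obtain ⟨h1, s, σ, hs, hσ, ht, x, hx0, hx1, hx2⟩ := he'
    exact ⟨h1, x, hx1, hx2⟩
  set N := NQ y r R E E' α κ Q with hN
  rcases N.eq_empty_or_nonempty with h0 | hne
  · have h1 : {e' ∈ E' | NTC y r κ χ e e'} ⊆ (∅ : Finset I4) := by
      rw [← h0]
      exact hsub0.trans (ct_sub hR hE Q e he)
    rw [Finset.subset_empty] at h1
    rw [h1]
    simp only [Finset.card_empty, Nat.cast_zero]
    positivity
  · have hact : actX y r R u E E' α κ Q := ⟨hQ, hne⟩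
    have hN0 : (0 : ℝ) < #N := by exact_mod_cast hne.card_pos
    set F := EQ E α κ Q with hF
    have heE := (mem_EQ.1 he).1
    set thr := thX κ * #N with hthr
    have hthr0 : 0 < thr := by positivity
    set A : I3 → Finset I4 := fun n =>
      if (#(TS y r (bt κ * R) κ α F E' (fun _ _ => True) (cell α κ e) n) : ℝ) < thr then
      TS y r (bt κ * R) κ α F E' (fun _ _ => True) (cell α κ e) n else ∅ with hA
    have hsub : {e' ∈ E' | NTC y r κ χ e e'} ⊆
        (nbox (bt κ * R) (4 * R) (y e)).biUnion A := by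
      intro e' he'
      rw [Finset.mem_filter] at he'
      obtain ⟨h1, s, σ, hs, hσ, ht, x, hx0, hx1, hx2⟩ := he'
      obtain ⟨n, hn⟩ := ctr_cover (bt κ * R) hh x
      have s1 := abs_le.1 (show |‖x - y e‖ - r e| ≤ 1 / 2 from hx1)
      have he2 := (hE e heE).2
      have h9 : bt κ * R ≤ 1 * R := mul_le_mul_of_nonneg_right (by linarith) hR0.le
      rw [Finset.mem_biUnion]
      refine ⟨n, ?_, ?_⟩
      · apply mem_nbox _ _ hh
        have h2 : ctr (bt κ * R) n - y e = -(x - ctr (bt κ * R) n) + (x - y e) := by abel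
        rw [h2]
        refine (norm_add_le _ _).trans ?_
        rw [norm_neg]
        linarith [s1.2]
      · have h3 := hχ x hx0
        unfold psx at h3
        rw [upc_cell, (mem_EQ.1 he).2, if_pos hact] at h3
        have h4 := bcut_good hh e he (by linarith) x hx1 h3 n hn
        simp only [hA]
        rw [if_pos h4, mem_TS]
        exact ⟨h1, e, he, rfl, trivial, s, σ, hs, hσ, ht, x, hx1, hx2, hn⟩
    have hAc : ∀ n ∈ nbox (bt κ * R) (4 * R) (y e), (#(A n) : ℝ) ≤ thr := by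
      intro n _
      simp only [hA]
      split_ifs with h
      · exact h.le
      · simpa using hthr0.le
    calc (#{e' ∈ E' | NTC y r κ χ e e'} : ℝ)
        ≤ (#((nbox (bt κ * R) (4 * R) (y e)).biUnion A) : ℝ) := by
          exact_mod_cast Finset.card_le_card hsub
      _ ≤ ∑ n ∈ nbox (bt κ * R) (4 * R) (y e), (#(A n) : ℝ) := by
          exact_mod_cast Finset.card_biUnion_le
      _ ≤ ∑ n ∈ nbox (bt κ * R) (4 * R) (y e), thr := Finset.sum_le_sum hAc
      _ = (#(nbox (bt κ * R) (4 * R) (y e)) : ℝ) * thr := by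
          rw [Finset.sum_const, nsmul_eq_mul]
      _ ≤ (16 / bt κ) ^ 3 * thr := by
          apply mul_le_mul_of_nonneg_right _ hthr0.le
          refine (card_nbox _ _ hh (by positivity) _).trans ?_
          apply pow_le_pow_left₀ (by positivity)
          have h1 : 2 * (4 * R) / (bt κ * R) = 8 * (1 / bt κ) := by field_simp; ring
          rw [h1]
          have h2 : 1 ≤ 1 / bt κ := by rw [one_le_div hb]; linarith
          have h3 : (16 : ℝ) / bt κ = 16 * (1 / bt κ) := by ring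
          rw [h3]; linarith
      _ = _ := by
          rw [hthr, thX]
          field_simp
          ring

open Classical in
/-- few big cells are near a given large sphere -/
theorem near_cells (hc : Cfg y r) (hκR : (16 : ℝ) ^ κ ≤ R) (hRκ : R ≤ 16 ^ (κ + 1))
    (hE : ∀ e ∈ E, R ≤ r e ∧ r e ≤ 2 * R) (e' : I4) (he' : e' ∈ E') (hr' : 8 * R ≤ r e') :
    (#{Q ∈ E.image (cell α (κ + (κ + 2))) | e' ∈ NQ y r R E E' α κ Q} : ℝ) * R ^ 2
      ≤ 2 ^ 25 * r e' ^ 2 := by
  have h16 : (1 : ℝ) ≤ 16 ^ κ := one_le_pow₀ (by norm_num)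
  have hR : 1 ≤ R := h16.trans hκR
  have hR0 : 0 < R := by linarith
  have e16 : (16 : ℝ) ^ (κ + 1) = 16 * 16 ^ κ := by rw [pow_succ]; ring
  have e4m : (4 : ℝ) ^ (κ + (κ + 2)) = 16 ^ (κ + 1) := by
    have : κ + (κ + 2) = 2 * (κ + 1) := by ring
    rw [this, pow_mul]; norm_num
  set QS : Finset I4 := {Q ∈ E.image (cell α (κ + (κ + 2))) | e' ∈ NQ y r R E E' α κ Q} with hQS
  have hrep : ∀ Q : I4, ∃ e : I4, Q ∈ QS → e ∈ E ∧ cell α (κ + (κ + 2)) e = Q := by
    intro Q
    by_cases hQ : Q ∈ QS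
    · rw [hQS, Finset.mem_filter, Finset.mem_image] at hQ
      obtain ⟨⟨e, he, heq⟩, _⟩ := hQ
      exact ⟨e, fun _ => ⟨he, heq⟩⟩
    · exact ⟨0, fun h => absurd h hQ⟩
  choose rep hrep using hrep
  set S := QS.image rep with hS
  have hinj : Set.InjOn rep QS := by
    intro Q hQ Q' hQ' h
    rw [← (hrep Q hQ).2, ← (hrep Q' hQ').2, h]
  have hcard : #S = #QS := Finset.card_image_of_injOn hinj
  have hSprop : ∀ e ∈ S, e ∈ E ∧ |‖y e - y e'‖ - r e'| ≤ 36 * R := by
    intro e he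
    rw [hS, Finset.mem_image] at he
    obtain ⟨Q, hQ, rfl⟩ := he
    obtain ⟨h1, h2⟩ := hrep Q hQ
    refine ⟨h1, ?_⟩
    rw [hQS, Finset.mem_filter] at hQ
    obtain ⟨_, e1, he1, hn⟩ := mem_NQ.1 hQ.2
    have h3 := cell_close α (κ + (κ + 2)) (rep Q) e1 (by rw [h2, (mem_EQ.1 he1).2])
    rw [e4m, e16] at h3
    have h4 := hc.d1 (rep Q) e1
    have h5 : |‖y (rep Q) - y e'‖ - ‖y e1 - y e'‖| ≤ ‖y (rep Q) - y e1‖ := by
      refine (abs_norm_sub_norm_le _ _).trans ?_
      have : y (rep Q) - y e' - (y e1 - y e') = y (rep Q) - y e1 := by abel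
      rw [this]
    obtain ⟨a1, a2⟩ := abs_le.1 hn
    obtain ⟨b1, b2⟩ := abs_le.1 h5
    rw [abs_le]
    constructor <;> linarith
  have hSinj : ∀ e ∈ S, ∀ e2 ∈ S, cell α (κ + (κ + 2)) e = cell α (κ + (κ + 2)) e2 → e = e2 := by
    intro e he e2 he2 h
    rw [hS, Finset.mem_image] at he he2
    obtain ⟨Q, hQ, rfl⟩ := he
    obtain ⟨Q2, hQ2, rfl⟩ := he2
    rw [(hrep Q hQ).2, (hrep Q2 hQ2).2] at h
    rw [h]
  have hn : ∀ x : V3, #{e ∈ S | ‖x - y e‖ ≤ R} ≤ 625 := by
    intro x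
    apply rep_card α (κ + (κ + 2))
    · intro e he e2 he2 h
      exact hSinj e (Finset.mem_filter.1 he).1 e2 (Finset.mem_filter.1 he2).1 h
    · intro e he e2 he2
      rw [Finset.mem_filter] at he he2
      refine (hc.d3 e e2).trans (max_le ?_ ?_)
      · have : y e - y e2 = -(x - y e) + (x - y e2) := by abel
        rw [this]
        refine (norm_add_le _ _).trans ?_
        rw [norm_neg, e4m]
        linarith [he.2, he2.2]
      · obtain ⟨a1, a2⟩ := hE e (hSprop e he.1).1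
        obtain ⟨b1, b2⟩ := hE e2 (hSprop e2 he2.1).1
        rw [e4m, abs_le]
        constructor <;> linarith
  have hp := pack y S 625 R hR0 hn (y e') (r e') (36 * R) (by linarith) (by positivity)
    (fun e he => (hSprop e he).2)
  rw [hcard] at hp
  have hpi := Real.pi_lt_four
  have hpi0 := Real.pi_pos
  have h1 : (r e' + (36 * R + R)) ^ 2 ≤ (6 * r e') ^ 2 :=
    pow_le_pow_left₀ (by linarith) (by linarith) 2
  have h2 : ((625 : ℕ) : ℝ) * (8 * Real.pi * (36 * R + R) * (r e' + (36 * R + R)) ^ 2) ≤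
      625 * (8 * 4 * (36 * R + R) * (6 * r e') ^ 2) := by
    push_cast
    apply mul_le_mul_of_nonneg_left _ (by norm_num)
    apply mul_le_mul _ h1 (by positivity) (by positivity)
    apply mul_le_mul_of_nonneg_right (by linarith) (by positivity)
  have h3 : (#QS : ℝ) * R ^ 2 * R ≤ 2 ^ 25 * r e' ^ 2 * R := by
    have h4 : 0 ≤ r e' ^ 2 * R := by positivity
    calc (#QS : ℝ) * R ^ 2 * R = #QS * R ^ 3 := by ring
      _ ≤ 625 * (8 * 4 * (36 * R + R) * (6 * r e') ^ 2) := hp.trans h2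
      _ = 26640000 * (r e' ^ 2 * R) := by ring
      _ ≤ 2 ^ 25 * (r e' ^ 2 * R) := by
          apply mul_le_mul_of_nonneg_right _ h4; norm_num
      _ = _ := by ring
  exact le_of_mul_le_mul_right h3 hR0

open Classical in
theorem sum_NQ (hc : Cfg y r) (hκR : (16 : ℝ) ^ κ ≤ R) (hRκ : R ≤ 16 ^ (κ + 1))
    (hE : ∀ e ∈ E, R ≤ r e ∧ r e ≤ 2 * R) (hE' : ∀ e ∈ E', 8 * R ≤ r e) :
    (∑ Q ∈ E.image (cell α (κ + (κ + 2))), (#(NQ y r R E E' α κ Q) : ℝ)) * R ^ 2
      ≤ 2 ^ 25 * ∑ e' ∈ E', r e' ^ 2 := by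
  have h1 : ∀ Q, (#(NQ y r R E E' α κ Q) : ℝ) =
      ∑ e' ∈ E', if e' ∈ NQ y r R E E' α κ Q then (1 : ℝ) else 0 := by
    intro Q
    rw [← Finset.sum_filter, Finset.sum_const, nsmul_eq_mul, mul_one]
    congr 2
    ext e'
    rw [Finset.mem_filter]
    constructor
    · intro h; exact ⟨(mem_NQ.1 h).1, h⟩
    · intro h; exact h.2
  simp only [h1]
  rw [Finset.sum_comm, Finset.sum_mul, Finset.mul_sum]
  apply Finset.sum_le_sum
  intro e' he'
  have h2 := near_cells (E := E) (E' := E') (α := α) (κ := κ) hc hκR hRκ hE e' he' (hE' e' he')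
  rw [← Finset.sum_filter, Finset.sum_const, nsmul_eq_mul, mul_one]
  exact h2

end

end Run7.h58
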