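import Pool.Agent.Run7.h58.ClassX

open MeasureTheory Finset
open scoped ENNReal RealInnerProductSpace

namespace Run7.h58

theorem Lc_nonneg (κ : ℕ) : 0 ≤ Lc κ := by unfold Lc; positivity

open Classical in
/-- pair bound between different classes -/
theorem cross_pair {Ψ : ℝ → ℝ} (hΨ : Profile Ψ) {y : I4 → V3} {r : I4 → ℝ} (R : ℝ)
    (κ : ℕ) (hκ : 40 ≤ κ) (hκR : (16 : ℝ) ^ κ ≤ R) (hRκ : R ≤ 16 ^ (κ + 1)) (e e' : I4)
    (he1 : R ≤ r e) (he2 : r e ≤ 2 * R) (he' : 8 * R ≤ r e') (χ χ' : V3 → ℝ)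
    (h0 : ∀ x, 0 ≤ χ x) (h1 : ∀ x, χ x ≤ 1) (h0' : ∀ x, 0 ≤ χ' x) (h1' : ∀ x, χ' x ≤ 1)
    (hL : ∀ x z, |χ x - χ z| ≤ Lc κ * ‖x - z‖) (hL' : ∀ x z, |χ' x - χ' z| ≤ Lc κ * ‖x - z‖)
    (a a' : ℝ) (ha : |a| ≤ 1) (ha' : |a'| ≤ 1) :
    |∫ x, (χ x * (a * atom Ψ (y e) (r e) x)) * (χ' x * (a' * atom Ψ (y e') (r e') x))| ≤
      (if NTC y r κ χ e e' then 2 ^ 8 * R else 0) +
        (if CT y r e e' then 2 ^ 29 * R * (19 / 20) ^ κ else 0) := by
  have h16 : (1 : ℝ) ≤ 16 ^ κ := one_le_pow₀ (by norm_num)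
  have hR : 1 ≤ R := h16.trans hκR
  have hR0 : 0 < R := by linarith
  have hr1 : 1 ≤ r e := hR.trans he1
  have hr1' : 1 ≤ r e' := by linarith
  by_cases hx : ∃ x, χ x ≠ 0 ∧ x ∈ shell (y e) (r e) ∧ x ∈ shell (y e') (r e')
  swap
  · push Not at hx
    have hz : ∀ x, (χ x * (a * atom Ψ (y e) (r e) x)) *
        (χ' x * (a' * atom Ψ (y e') (r e') x)) = 0 := by
      intro x
      by_cases c1 : χ x = 0
      · rw [c1]; ring
      · by_cases c2 : x ∈ shell (y e) (r e)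
        · rw [atom_zero hΨ (y e') (r e') x (hx x c1 c2)]; ring
        · rw [atom_zero hΨ (y e) (r e) x c2]; ring
    simp only [hz, integral_zero, abs_zero]
    exact add_nonneg (by split_ifs <;> positivity) (by split_ifs <;> positivity)
  obtain ⟨x, hx0, hx1, hx2⟩ := hx
  have hCT : CT y r e e' := ⟨x, hx1, hx2⟩
  have s1 := abs_le.1 (show |‖x - y e‖ - r e| ≤ 1 / 2 from hx1)
  have s2 := abs_le.1 (show |‖x - y e'‖ - r e'| ≤ 1 / 2 from hx2)
  set ρ := ‖y e - y e'‖ with hρ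
  have tri1 : ρ ≤ r e + r e' + 1 := by
    have : y e - y e' = -(x - y e) + (x - y e') := by abel
    rw [hρ, this]
    refine (norm_add_le _ _).trans ?_
    rw [norm_neg]; linarith [s1.2, s2.2]
  have tri2 : |r e - r e'| ≤ ρ + 1 := by
    have h1 : ‖x - y e‖ ≤ ‖x - y e'‖ + ρ := by
      have : x - y e = (x - y e') - (y e - y e') := by abel
      rw [this]; exact norm_sub_le _ _
    have h2 : ‖x - y e'‖ ≤ ‖x - y e‖ + ρ := by
      have : x - y e' = (x - y e) + (y e - y e') := by abel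
      rw [this]; exact norm_add_le _ _
    rw [abs_le]; constructor <;> linarith [s1.1, s1.2, s2.1, s2.2]
  have hρ2 : r e' / 2 ≤ ρ := by
    have := (abs_le.1 tri2).1
    linarith
  have hρ0 : 0 < ρ := by linarith
  have hne : y e ≠ y e' := by
    intro h
    rw [hρ, h, sub_self, norm_zero] at hρ0
    exact lt_irrefl _ hρ0
  have hq : r e * r e' / ρ ≤ 4 * R := by
    rw [div_le_iff₀ hρ0]
    have c1 : r e * r e' ≤ (2 * R) * r e' := mul_le_mul_of_nonneg_right he2 (by linarith)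
    have c2 : (2 * R) * r e' ≤ 4 * R * ρ := by
      have := mul_le_mul_of_nonneg_left hρ2 (show 0 ≤ 4 * R by linarith)
      linarith
    linarith
  have hq0 : 0 ≤ r e * r e' / ρ := by positivity
  have hpi := Real.pi_lt_four
  have hpi0 := Real.pi_pos
  set X : V3 → ℝ := fun x => (a * a') * (χ x * χ' x) with hX
  have hint' : (∫ x, (χ x * (a * atom Ψ (y e) (r e) x)) * (χ' x * (a' * atom Ψ (y e') (r e') x)))
      = ∫ x, atom Ψ (y e) (r e) x * atom Ψ (y e') (r e') x * X x := by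
    congr 1; ext x; simp only [hX]; ring
  rw [hint']
  have haa : |a * a'| ≤ 1 := by
    rw [abs_mul]
    calc |a| * |a'| ≤ 1 * 1 := mul_le_mul ha ha' (abs_nonneg _) (by norm_num)
      _ = 1 := by norm_num
  have hXb : ∀ x, |X x| ≤ 1 := by
    intro x
    simp only [hX]
    rw [abs_mul, abs_of_nonneg (mul_nonneg (h0 x) (h0' x))]
    calc |a * a'| * (χ x * χ' x) ≤ 1 * (1 * 1) :=
          mul_le_mul haa (mul_le_mul (h1 x) (h1' x) (h0' x) (by norm_num))
            (mul_nonneg (h0 x) (h0' x)) (by norm_num)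
      _ = 1 := by norm_num
  rw [if_pos hCT]
  by_cases hnear : ∃ s σ : ℝ, (s = 1 ∨ s = -1) ∧ (σ = 1 ∨ σ = -1) ∧
      |s * ρ + r e - σ * r e'| ≤ 8 ^ κ
  · obtain ⟨s, σ, hs, hσ, hst⟩ := hnear
    have hNTC : NTC y r κ χ e e' := ⟨s, σ, hs, hσ, hst, x, hx0, hx1, hx2⟩
    rw [if_pos hNTC]
    have h5 := corr_near hΨ (y e) (y e') (r e) (r e') hr1 hr1' hne X hXb
    rw [norm_sub_rev (y e') (y e), ← hρ] at h5
    have h6 : 16 * Real.pi * (r e * r e' / ρ) ≤ 16 * 4 * (4 * R) :=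
      mul_le_mul (by linarith) hq hq0 (by norm_num)
    have h7 : 0 ≤ 2 ^ 29 * R * (19 / 20 : ℝ) ^ κ := by positivity
    linarith
  · have h8k : (1 : ℝ) ≤ 8 ^ κ := one_le_pow₀ (by norm_num)
    have h8k2 : (2 : ℝ) ≤ 8 ^ κ := by
      calc (2 : ℝ) ≤ 8 ^ 1 := by norm_num
        _ ≤ 8 ^ κ := pow_le_pow_right₀ (by norm_num) (by omega)
    obtain ⟨t1, t2⟩ := trans_of_not_near ρ (r e) (r e') (8 ^ κ) h8k tri1 tri2 hnear
    have hLn := Lc_nonneg κ
    have hc1 : Continuous χ := cont_of_lip _ _ hL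
    have hc1' : Continuous χ' := cont_of_lip _ _ hL'
    have hXc : Continuous X := continuous_const.mul (hc1.mul hc1')
    have hXL : ∀ x z, |X x - X z| ≤ (2 * Lc κ) * ‖x - z‖ := by
      intro x z
      simp only [hX]
      rw [← mul_sub, abs_mul]
      have e1 : χ x * χ' x - χ z * χ' z = χ x * (χ' x - χ' z) + (χ x - χ z) * χ' z := by ring
      rw [e1]
      have d3 : |χ x * (χ' x - χ' z) + (χ x - χ z) * χ' z| ≤ 2 * Lc κ * ‖x - z‖ := by
        refine (abs_add_le _ _).trans ?_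
        rw [abs_mul, abs_mul, abs_of_nonneg (h0 x), abs_of_nonneg (h0' z)]
        have f1 : χ x * |χ' x - χ' z| ≤ 1 * |χ' x - χ' z| :=
          mul_le_mul_of_nonneg_right (h1 x) (abs_nonneg _)
        have f2 : |χ x - χ z| * χ' z ≤ |χ x - χ z| * 1 :=
          mul_le_mul_of_nonneg_left (h1' z) (abs_nonneg _)
        linarith [hL x z, hL' x z]
      calc |a * a'| * |χ x * (χ' x - χ' z) + (χ x - χ z) * χ' z|
          ≤ 1 * (2 * Lc κ * ‖x - z‖) := mul_le_mul haa d3 (abs_nonneg _) (by norm_num)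
        _ = _ := one_mul _
    have h5 := corr_trans hΨ (y e) (y e') (r e) (r e') (8 ^ κ) (2 * Lc κ) hr1 hr1' h8k2
      (by rw [norm_sub_rev]; exact t1) (by rw [norm_sub_rev]; exact t2) X hXc (by linarith) hXL
    rw [norm_sub_rev (y e') (y e), ← hρ] at h5
    have h8 : (0 : ℝ) < 8 ^ κ := by positivity
    have h6 : √(r e * r e' / (ρ * 8 ^ κ)) ≤ 8 * 2 ^ κ := by
      rw [Real.sqrt_le_left (by positivity)]
      have c1 : r e * r e' / (ρ * 8 ^ κ) = (r e * r e' / ρ) / 8 ^ κ := by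
        field_simp
      rw [c1, div_le_iff₀ h8]
      have c2 : (8 * (2 : ℝ) ^ κ) ^ 2 * 8 ^ κ = 64 * (16 ^ κ * 2 ^ κ) := by
        rw [mul_pow, sq ((2 : ℝ) ^ κ), ← mul_pow, mul_assoc, ← mul_pow, ← mul_pow]
        norm_num
      rw [c2]
      have c3 : (1 : ℝ) ≤ 2 ^ κ := one_le_pow₀ (by norm_num)
      have c4 : R ≤ 16 * 16 ^ κ := by rw [pow_succ] at hRκ; linarith
      have c5 : (16 : ℝ) ^ κ ≤ 16 ^ κ * 2 ^ κ := le_mul_of_one_le_right (by positivity) c3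
      linarith
    have h7 : 48 * Real.pi * (2 * Lc κ) * (r e * r e' / ρ) * √(r e * r e' / (ρ * 8 ^ κ)) ≤
        48 * 4 * (2 * Lc κ) * (4 * R) * (8 * 2 ^ κ) := by
      apply mul_le_mul _ h6 (Real.sqrt_nonneg _) (by positivity)
      apply mul_le_mul _ hq hq0 (by positivity)
      apply mul_le_mul_of_nonneg_right (by linarith) (by positivity)
    have h9 : 48 * 4 * (2 * Lc κ) * (4 * R) * (8 * 2 ^ κ) ≤ 2 ^ 29 * R * (19 / 20) ^ κ := by
      have c1 : 48 * 4 * (2 * Lc κ) * (4 * R) * (8 * 2 ^ κ) =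
          (402653184 * R) * ((1 / 7) ^ κ * 2 ^ κ) := by
        unfold Lc; ring
      rw [c1]
      have c2 : ((1 : ℝ) / 7) ^ κ * 2 ^ κ ≤ (19 / 20) ^ κ := by
        rw [← mul_pow]
        apply pow_le_pow_left₀ (by norm_num)
        norm_num
      have c3 : (402653184 * R) * ((1 / 7) ^ κ * 2 ^ κ) ≤ (402653184 * R) * (19 / 20) ^ κ :=
        mul_le_mul_of_nonneg_left c2 (by positivity)
      have c4 : 0 ≤ R * (19 / 20 : ℝ) ^ κ := by positivity
      linarith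
    exact (h5.trans (h7.trans h9)).trans (le_add_of_nonneg_left (by split_ifs <;> positivity))

/-- expansion of a square over classes -/
theorem sq_classes (g : ℕ → V3 → ℝ) (hg : ∀ κ, TF (g κ)) (m N : ℕ) (hmN : m ≤ N) :
    ∫ x, (∑ κ ∈ Finset.Ico m N, g κ x) ^ 2 ≤ (∑ κ ∈ Finset.Ico m N, ∫ x, g κ x ^ 2) +
      2 * ∑ κ ∈ Finset.Ico m N, ∑ κ' ∈ Finset.Ico (κ + 1) N, |∫ x, g κ x * g κ' x| := by
  induction N, hmN using Nat.le_induction with
  | base => simp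
  | succ N hN ih =>
    have hS : TF (fun x => ∑ κ ∈ Finset.Ico m N, g κ x) := TF.sum _ _ (fun κ _ => hg κ)
    have hmul : ∀ κ κ', TF (fun x => g κ x * g κ' x) := fun κ κ' => (hg κ').mul_left (hg κ).ct
    have e1 : ∀ x, (∑ κ ∈ Finset.Ico m (N + 1), g κ x) ^ 2 =
        (∑ κ ∈ Finset.Ico m N, g κ x) ^ 2 + (g N x ^ 2 +
          2 * ∑ κ ∈ Finset.Ico m N, g κ x * g N x) := by
      intro x
      rw [Finset.sum_Ico_succ_top hN, ← Finset.sum_mul]; ring
    have hT2 : TF (fun x => ∑ κ ∈ Finset.Ico m N, g κ x * g N x) :=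
      TF.sum _ _ (fun κ _ => hmul κ N)
    simp only [e1]
    rw [integral_add hS.sq.int ((hg N).sq.add (hT2.const_mul 2)).int,
      integral_add (hg N).sq.int (hT2.const_mul 2).int, integral_const_mul,
      integral_finsetSum _ (fun κ _ => (hmul κ N).int), Finset.sum_Ico_succ_top hN]
    have e2 : ∑ κ ∈ Finset.Ico m (N + 1), ∑ κ' ∈ Finset.Ico (κ + 1) (N + 1),
        |∫ x, g κ x * g κ' x| = (∑ κ ∈ Finset.Ico m N, ∑ κ' ∈ Finset.Ico (κ + 1) N,
        |∫ x, g κ x * g κ' x|) + ∑ κ ∈ Finset.Ico m N, |∫ x, g κ x * g N x| := by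
      rw [Finset.sum_Ico_succ_top hN]
      simp only [Finset.Ico_self, Finset.sum_empty, add_zero]
      rw [← Finset.sum_add_distrib]
      apply Finset.sum_congr rfl
      intro κ hκ
      rw [Finset.mem_Ico] at hκ
      rw [Finset.sum_Ico_succ_top (by omega)]
    rw [e2]
    have e3 : ∑ κ ∈ Finset.Ico m N, ∫ x, g κ x * g N x ≤
        ∑ κ ∈ Finset.Ico m N, |∫ x, g κ x * g N x| :=
      Finset.sum_le_sum (fun κ _ => le_abs_self _)
    linarith

end Run7.h58
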