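import Pool.Agent.Run7.h58.Vol

open MeasureTheory Set
open scoped ENNReal RealInnerProductSpace

namespace Run7.h58

/-- the 3 by 3 determinant -/
noncomputable def det3 (a b c : V3) : ℝ :=
  a 0 * (b 1 * c 2 - b 2 * c 1) - a 1 * (b 0 * c 2 - b 2 * c 0) + a 2 * (b 0 * c 1 - b 1 * c 0)

/-- the cross product -/
noncomputable def cr (a b : V3) : V3 :=
  !₂[a 1 * b 2 - a 2 * b 1, a 2 * b 0 - a 0 * b 2, a 0 * b 1 - a 1 * b 0]

@[simp] theorem cr_0 (a b : V3) : cr a b 0 = a 1 * b 2 - a 2 * b 1 := rfl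
@[simp] theorem cr_1 (a b : V3) : cr a b 1 = a 2 * b 0 - a 0 * b 2 := rfl
@[simp] theorem cr_2 (a b : V3) : cr a b 2 = a 0 * b 1 - a 1 * b 0 := rfl

theorem inner3 (a b : V3) : ⟪a, b⟫ = a 0 * b 0 + a 1 * b 1 + a 2 * b 2 := by
  rw [PiLp.inner_apply, Fin.sum_univ_three]
  simp only [RCLike.inner_apply, conj_trivial]
  ring

theorem norm3 (a : V3) : ‖a‖ ^ 2 = a 0 ^ 2 + a 1 ^ 2 + a 2 ^ 2 := by
  rw [← real_inner_self_eq_norm_sq, inner3]; ring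

theorem inner_cr (a b c : V3) : ⟪cr a b, c⟫ = det3 a b c := by
  rw [inner3, det3]; simp only [cr_0, cr_1, cr_2]; ring

theorem norm_cr_sq (a b : V3) : ‖cr a b‖ ^ 2 = ‖a‖ ^ 2 * ‖b‖ ^ 2 - ⟪a, b⟫ ^ 2 := by
  rw [norm3, norm3, norm3, inner3]; simp only [cr_0, cr_1, cr_2]; ring

theorem norm_cr_le (a b : V3) : ‖cr a b‖ ≤ ‖a‖ * ‖b‖ := by
  apply le_of_sq_le_sq _ (by positivity)
  rw [norm_cr_sq, mul_pow]
  nlinarith [sq_nonneg ⟪a, b⟫]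

theorem abs_det3_le (a b c : V3) : |det3 a b c| ≤ ‖a‖ * ‖b‖ * ‖c‖ := by
  rw [← inner_cr]
  refine (abs_real_inner_le_norm _ _).trans ?_
  exact mul_le_mul_of_nonneg_right (norm_cr_le a b) (norm_nonneg _)

theorem det3_cramer (a b c z : V3) :
    det3 a b c • z = ⟪a, z⟫ • cr b c + ⟪b, z⟫ • cr c a + ⟪c, z⟫ • cr a b := by
  ext i
  fin_cases i
  · simp only [PiLp.add_apply, PiLp.smul_apply, smul_eq_mul, inner3, det3, Fin.zero_eta, cr_0]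
    ring
  · simp only [PiLp.add_apply, PiLp.smul_apply, smul_eq_mul, inner3, det3, Fin.mk_one, cr_1]
    ring
  · have e : (⟨2, by decide⟩ : Fin 3) = 2 := rfl
    simp only [PiLp.add_apply, PiLp.smul_apply, smul_eq_mul, inner3, det3, e, cr_2]
    ring

theorem det3_bound (a b c z : V3) :
    |det3 a b c| * ‖z‖ ≤ |⟪a, z⟫| * (‖b‖ * ‖c‖) + |⟪b, z⟫| * (‖c‖ * ‖a‖)
      + |⟪c, z⟫| * (‖a‖ * ‖b‖) := by
  have h := congrArg norm (det3_cramer a b c z)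
  rw [norm_smul, Real.norm_eq_abs] at h
  rw [h]
  refine (norm_add₃_le).trans ?_
  rw [norm_smul, norm_smul, norm_smul, Real.norm_eq_abs, Real.norm_eq_abs, Real.norm_eq_abs]
  gcongr
  · exact norm_cr_le _ _
  · exact norm_cr_le _ _
  · exact norm_cr_le _ _

theorem det3_tele (a b c a' b' c' : V3) :
    det3 a b c - det3 a' b' c' = det3 (a - a') b c + det3 a' (b - b') c + det3 a' b' (c - c') := by
  simp only [det3, PiLp.sub_apply]; ring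

theorem det3_smul (t : ℝ) (a b c : V3) : det3 (t • a) (t • b) (t • c) = t ^ 3 * det3 a b c := by
  simp only [det3, PiLp.smul_apply, smul_eq_mul]; ring

theorem rigid_lin (v : Fin 4 → V3) (hv : ∀ i, ‖v i‖ ≤ 1) (D : ℝ)
    (hD : D ≤ |det3 (v 1 - v 0) (v 2 - v 0) (v 3 - v 0)|) (z : V3) (τ A : ℝ)
    (h : ∀ i, |⟪v i, z⟫ + τ| ≤ A) : D * ‖z‖ ≤ 24 * A ∧ |τ| ≤ A + ‖z‖ := by
  have hA : 0 ≤ A := (abs_nonneg _).trans (h 0)
  have hd : ∀ i, |⟪v i - v 0, z⟫| ≤ 2 * A := by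
    intro i
    have : ⟪v i - v 0, z⟫ = (⟪v i, z⟫ + τ) - (⟪v 0, z⟫ + τ) := by
      rw [inner_sub_left]; ring
    rw [this]
    refine (abs_sub _ _).trans ?_
    linarith [h i, h 0]
  have hn : ∀ i, ‖v i - v 0‖ ≤ 2 := by
    intro i
    refine (norm_sub_le _ _).trans ?_
    linarith [hv i, hv 0]
  constructor
  · have h1 := det3_bound (v 1 - v 0) (v 2 - v 0) (v 3 - v 0) z
    have hp : ∀ i j, ‖v i - v 0‖ * ‖v j - v 0‖ ≤ 4 := by
      intro i j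
      calc ‖v i - v 0‖ * ‖v j - v 0‖ ≤ 2 * 2 :=
            mul_le_mul (hn i) (hn j) (norm_nonneg _) (by norm_num)
        _ = 4 := by norm_num
    have hq : ∀ i j l, |⟪v i - v 0, z⟫| * (‖v j - v 0‖ * ‖v l - v 0‖) ≤ 8 * A := by
      intro i j l
      calc _ ≤ (2 * A) * 4 := mul_le_mul (hd i) (hp j l) (by positivity) (by linarith)
        _ = _ := by ring
    have h2 : D * ‖z‖ ≤ |det3 (v 1 - v 0) (v 2 - v 0) (v 3 - v 0)| * ‖z‖ :=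
      mul_le_mul_of_nonneg_right hD (norm_nonneg _)
    linarith [hq 1 2 3, hq 2 3 1, hq 3 1 2]
  · have h1 : τ = (⟪v 0, z⟫ + τ) - ⟪v 0, z⟫ := by ring
    rw [h1]
    refine (abs_sub _ _).trans ?_
    have h2 := abs_real_inner_le_norm (v 0) z
    have h3 : ‖v 0‖ * ‖z‖ ≤ 1 * ‖z‖ := mul_le_mul_of_nonneg_right (hv 0) (norm_nonneg _)
    linarith [h 0]

/-- normalised vector -/
noncomputable def nrm (P : V3) : V3 := ‖P‖⁻¹ • P

theorem norm_nrm_le (P : V3) : ‖nrm P‖ ≤ 1 := by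
  unfold nrm
  rw [norm_smul, norm_inv, norm_norm]
  by_cases h : ‖P‖ = 0
  · rw [h]; simp
  · rw [inv_mul_cancel₀ h]

theorem norm_nrm (P : V3) (hP : P ≠ 0) : ‖nrm P‖ = 1 := by
  unfold nrm
  rw [norm_smul, norm_inv, norm_norm, inv_mul_cancel₀ (norm_ne_zero_iff.2 hP)]

theorem nrm_smul (P : V3) : ‖P‖ • nrm P = P := by
  unfold nrm
  by_cases hP : P = 0
  · rw [hP]; simp
  · rw [smul_smul, mul_inv_cancel₀ (norm_ne_zero_iff.2 hP), one_smul]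

theorem inner_nrm (P : V3) : ⟪nrm P, P⟫ = ‖P‖ := by
  unfold nrm
  rw [real_inner_smul_left, real_inner_self_eq_norm_sq]
  by_cases h : ‖P‖ = 0
  · rw [h]; simp
  · field_simp

/-- convexity of the norm -/
theorem norm_convex (P Q : V3) : ⟪nrm P, Q - P⟫ ≤ ‖Q‖ - ‖P‖ ∧ ‖Q‖ - ‖P‖ ≤ ⟪nrm Q, Q - P⟫ := by
  have h1 : ⟪nrm P, Q⟫ ≤ ‖Q‖ := by
    refine (real_inner_le_norm _ _).trans ?_
    calc ‖nrm P‖ * ‖Q‖ ≤ 1 * ‖Q‖ := mul_le_mul_of_nonneg_right (norm_nrm_le P) (norm_nonneg _)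
      _ = ‖Q‖ := one_mul _
  have h2 : ⟪nrm Q, P⟫ ≤ ‖P‖ := by
    refine (real_inner_le_norm _ _).trans ?_
    calc ‖nrm Q‖ * ‖P‖ ≤ 1 * ‖P‖ := mul_le_mul_of_nonneg_right (norm_nrm_le Q) (norm_nonneg _)
      _ = ‖P‖ := one_mul _
  rw [inner_sub_right, inner_sub_right, inner_nrm, inner_nrm]
  exact ⟨by linarith, by linarith⟩

theorem nrm_diff (P Q : V3) (hP : P ≠ 0) : ‖nrm P - nrm Q‖ ≤ 2 * ‖P - Q‖ / ‖P‖ := by
  have hP0 : 0 < ‖P‖ := norm_pos_iff.2 hP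
  rw [le_div_iff₀ hP0]
  have h : ‖P‖ • (nrm P - nrm Q) = (P - Q) + (‖Q‖ - ‖P‖) • nrm Q := by
    rw [smul_sub, nrm_smul, sub_smul, nrm_smul]; abel
  have h2 : ‖nrm P - nrm Q‖ * ‖P‖ = ‖(P - Q) + (‖Q‖ - ‖P‖) • nrm Q‖ := by
    rw [← h, norm_smul, norm_norm, mul_comm]
  rw [h2]
  refine (norm_add_le _ _).trans ?_
  rw [norm_smul, Real.norm_eq_abs]
  have h3 : |‖Q‖ - ‖P‖| ≤ ‖P - Q‖ := by rw [norm_sub_rev]; exact abs_norm_sub_norm_le Q P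
  have h4 := norm_nrm_le Q
  have h5 : |‖Q‖ - ‖P‖| * ‖nrm Q‖ ≤ ‖P - Q‖ * 1 :=
    mul_le_mul h3 h4 (norm_nonneg _) (norm_nonneg _)
  linarith

/-- near-degenerate triangles: signed version. -/
theorem collin1 (a b : V3) (s σ : ℝ) (hs : s = 1 ∨ s = -1) (hσ : σ = 1 ∨ σ = -1) :
    ‖a‖ * ‖b‖ * ‖s • nrm a - nrm b‖ ^ 2 ≤
      |s * ‖a‖ + ‖b‖ - σ * ‖a + b‖| * (2 * (‖a‖ + ‖b‖)) := by
  have hs2 : s ^ 2 = 1 := by rcases hs with h | h <;> rw [h] <;> norm_num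
  have hσ2 : σ ^ 2 = 1 := by rcases hσ with h | h <;> rw [h] <;> norm_num
  have hs1 : |s| = 1 := by rcases hs with h | h <;> rw [h] <;> norm_num
  have hσ1 : |σ| = 1 := by rcases hσ with h | h <;> rw [h] <;> norm_num
  by_cases ha : a = 0
  · rw [ha]; simp only [norm_zero, zero_mul]; positivity
  by_cases hb : b = 0
  · rw [hb]; simp only [norm_zero, mul_zero, zero_mul]; positivity
  have e1 : ‖a‖ * ‖b‖ * ‖s • nrm a - nrm b‖ ^ 2 = 2 * ‖a‖ * ‖b‖ - 2 * s * ⟪a, b⟫ := by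
    rw [norm_sub_sq_real, norm_smul, norm_nrm a ha, norm_nrm b hb, Real.norm_eq_abs, hs1,
      real_inner_smul_left]
    have : ‖a‖ * ‖b‖ * ⟪nrm a, nrm b⟫ = ⟪a, b⟫ := by
      conv_rhs => rw [← nrm_smul a, ← nrm_smul b]
      rw [real_inner_smul_left, real_inner_smul_right]; ring
    linear_combination -2 * s * this
  have e2 : 2 * ‖a‖ * ‖b‖ - 2 * s * ⟪a, b⟫ =
      s * ((s * ‖a‖ + ‖b‖ - σ * ‖a + b‖) * (s * ‖a‖ + ‖b‖ + σ * ‖a + b‖)) := by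
    have h := norm_add_sq_real a b
    linear_combination (s * σ ^ 2) * h + (2 * s * ⟪a, b⟫ + (‖a‖ ^ 2 + ‖b‖ ^ 2) * s) * hσ2
      + (-(s * ‖a‖ ^ 2) - 2 * ‖a‖ * ‖b‖) * hs2
  rw [e1, e2]
  refine (le_abs_self _).trans ?_
  rw [abs_mul, hs1, one_mul, abs_mul]
  apply mul_le_mul_of_nonneg_left _ (abs_nonneg _)
  have h1 : |s * ‖a‖ + ‖b‖ + σ * ‖a + b‖| ≤ |s * ‖a‖| + |‖b‖| + |σ * ‖a + b‖| :=
    (abs_add_three _ _ _)
  rw [abs_mul, abs_mul, hs1, hσ1, abs_norm, abs_norm, abs_norm] at h1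
  have h2 := norm_add_le a b
  linarith

theorem collin2 (a b : V3) (s σ : ℝ) (hs : s = 1 ∨ s = -1) (hσ : σ = 1 ∨ σ = -1) :
    ‖b‖ * ‖a + b‖ * ‖nrm b - σ • nrm (a + b)‖ ^ 2 ≤
      |s * ‖a‖ + ‖b‖ - σ * ‖a + b‖| * (2 * (‖b‖ + ‖a + b‖)) := by
  have hσs : σ⁻¹ = σ := by rcases hσ with h | h <;> rw [h] <;> norm_num
  have hσ1 : |σ| = 1 := by rcases hσ with h | h <;> rw [h] <;> norm_num
  have hσ2 : σ * σ = 1 := by rcases hσ with h | h <;> rw [h] <;> norm_num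
  have hss : (-s) = 1 ∨ (-s) = -1 := by rcases hs with h | h <;> rw [h] <;> norm_num
  -- apply collin1 to c = a + b, -b with signs -σ
  have h := collin1 (a + b) (-b) (-σ) (-s) (by rcases hσ with h | h <;> rw [h] <;> norm_num) hss
  have e1 : a + b + -b = a := by abel
  rw [e1, norm_neg] at h
  have e2 : nrm (-b) = - nrm b := by
    unfold nrm; rw [norm_neg, smul_neg]
  rw [e2] at h
  have e3 : -σ • nrm (a + b) - -nrm b = nrm b - σ • nrm (a + b) := by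
    rw [neg_smul]; abel
  rw [e3] at h
  have e4 : -σ * ‖a + b‖ + ‖b‖ - -s * ‖a‖ = s * ‖a‖ + ‖b‖ - σ * ‖a + b‖ := by ring
  rw [e4] at h
  calc ‖b‖ * ‖a + b‖ * ‖nrm b - σ • nrm (a + b)‖ ^ 2
      = ‖a + b‖ * ‖b‖ * ‖nrm b - σ • nrm (a + b)‖ ^ 2 := by ring
    _ ≤ _ := h
    _ = _ := by ring


/-- the (fuzzy) near tangency relation between the spheres `(y, r)` and `(y', r')` near `X`. -/
structure NT (s σ F ε : ℝ) (y : V3) (r : ℝ) (y' : V3) (r' : ℝ) (X : V3) : Prop where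
  tan : |s * ‖y - y'‖ + r - σ * r'| ≤ F
  dir1 : ‖s • nrm (y - y') - σ • nrm (X - y')‖ ≤ ε
  dir2 : ‖r⁻¹ • (X - y) - σ • nrm (X - y')‖ ≤ ε

theorem nt_pair (s σ F ε : ℝ) (hs : s = 1 ∨ s = -1) (y : V3) (r : ℝ) (z : V3) (q : ℝ)
    (y' : V3) (r' : ℝ) (X : V3) (h : NT s σ F ε y r y' r' X) (h' : NT s σ F ε z q y' r' X) :
    |⟪σ • nrm (X - y'), z - y⟫ + (q - r)| ≤ 2 * F + ε * ‖z - y‖ := by
  obtain ⟨c1, c2⟩ := norm_convex (y - y') (z - y')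
  have e : z - y' - (y - y') = z - y := by abel
  rw [e] at c1 c2
  set v := σ • nrm (X - y')
  have b1 : |⟪s • nrm (y - y') - v, z - y⟫| ≤ ε * ‖z - y‖ :=
    (abs_real_inner_le_norm _ _).trans (mul_le_mul_of_nonneg_right h.dir1 (norm_nonneg _))
  have b2 : |⟪s • nrm (z - y') - v, z - y⟫| ≤ ε * ‖z - y‖ :=
    (abs_real_inner_le_norm _ _).trans (mul_le_mul_of_nonneg_right h'.dir1 (norm_nonneg _))
  rw [inner_sub_left, real_inner_smul_left] at b1 b2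
  have t1 := abs_le.1 h.tan
  have t2 := abs_le.1 h'.tan
  have u1 := abs_le.1 b1
  have u2 := abs_le.1 b2
  rw [abs_le]
  rcases hs with rfl | rfl
  · constructor <;> linarith [t1.1, t1.2, t2.1, t2.2, u1.1, u1.2, u2.1, u2.2]
  · constructor <;> linarith [t1.1, t1.2, t2.1, t2.2, u1.1, u1.2, u2.1, u2.2]

theorem nt_rigid (s σ : Fin 4 → ℝ) (F ε δ R : ℝ) (hs : ∀ i, s i = 1 ∨ s i = -1)
    (hσ : ∀ i, σ i = 1 ∨ σ i = -1) (hδ : 0 < δ) (hδ1 : δ ≤ 1) (hε : 0 ≤ ε) (hεδ : ε ≤ δ ^ 3 / 896)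
    (hR : 0 < R) (y : V3) (r : ℝ) (hr : R ≤ r) (hr2 : r ≤ 2 * R) (z : V3) (q : ℝ)
    (y' : Fin 4 → V3) (r' : Fin 4 → ℝ) (X : Fin 4 → V3)
    (hX : (δ * R) ^ 3 ≤ |det3 (X 1 - X 0) (X 2 - X 0) (X 3 - X 0)|)
    (h : ∀ i, NT (s i) (σ i) F ε y r (y' i) (r' i) (X i))
    (h' : ∀ i, NT (s i) (σ i) F ε z q (y' i) (r' i) (X i)) :
    ‖z - y‖ ≤ 1536 * F / δ ^ 3 ∧ |q - r| ≤ 2 * F + 2 * ‖z - y‖ := by
  have hr0 : 0 < r := by linarith
  set v : Fin 4 → V3 := fun i => σ i • nrm (X i - y' i) with hv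
  set ω : Fin 4 → V3 := fun i => r⁻¹ • (X i - y) with hω
  have hσ1 : ∀ i, |σ i| = 1 := by
    intro i; rcases hσ i with h | h <;> rw [h] <;> norm_num
  have hv1 : ∀ i, ‖v i‖ ≤ 1 := by
    intro i
    simp only [hv]
    rw [norm_smul, Real.norm_eq_abs, hσ1, one_mul]
    exact norm_nrm_le _
  have hωv : ∀ i, ‖ω i - v i‖ ≤ ε := fun i => (h i).dir2
  have hδ3 : δ ^ 3 ≤ 1 := pow_le_one₀ hδ.le hδ1
  have hε1 : ε ≤ 1 := by linarith
  have hω2 : ∀ i, ‖ω i‖ ≤ 2 := by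
    intro i
    have : ω i = (ω i - v i) + v i := by abel
    rw [this]
    refine (norm_add_le _ _).trans ?_
    linarith [hωv i, hv1 i]
  -- determinant
  have hdω : δ ^ 3 / 8 ≤ |det3 (ω 1 - ω 0) (ω 2 - ω 0) (ω 3 - ω 0)| := by
    have e : ∀ i, ω i - ω 0 = r⁻¹ • (X i - X 0) := by
      intro i
      simp only [hω]
      rw [← smul_sub]
      congr 1; abel
    rw [e, e, e, det3_smul, abs_mul, abs_of_pos (by positivity), inv_pow, inv_mul_eq_div,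
      le_div_iff₀ (by positivity)]
    refine le_trans ?_ hX
    have h1 : r ^ 3 ≤ (2 * R) ^ 3 := pow_le_pow_left₀ hr0.le hr2 3
    calc δ ^ 3 / 8 * r ^ 3 ≤ δ ^ 3 / 8 * (2 * R) ^ 3 := by
          apply mul_le_mul_of_nonneg_left h1; positivity
      _ = _ := by ring
  have hdv : δ ^ 3 / 16 ≤ |det3 (v 1 - v 0) (v 2 - v 0) (v 3 - v 0)| := by
    have t := det3_tele (ω 1 - ω 0) (ω 2 - ω 0) (ω 3 - ω 0) (v 1 - v 0) (v 2 - v 0) (v 3 - v 0)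
    have hd : ∀ i, ‖(ω i - ω 0) - (v i - v 0)‖ ≤ 2 * ε := by
      intro i
      have : (ω i - ω 0) - (v i - v 0) = (ω i - v i) - (ω 0 - v 0) := by abel
      rw [this]
      refine (norm_sub_le _ _).trans ?_
      linarith [hωv i, hωv 0]
    have hv2 : ∀ i, ‖v i - v 0‖ ≤ 2 := fun i => (norm_sub_le _ _).trans (by linarith [hv1 i, hv1 0])
    have hω4 : ∀ i, ‖ω i - ω 0‖ ≤ 4 := fun i => (norm_sub_le _ _).trans
      (by linarith [hω2 i, hω2 0])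
    have m1 : |det3 ((ω 1 - ω 0) - (v 1 - v 0)) (ω 2 - ω 0) (ω 3 - ω 0)| ≤ (2 * ε) * 4 * 4 :=
      (abs_det3_le _ _ _).trans (by
        apply mul_le_mul (mul_le_mul (hd 1) (hω4 2) (norm_nonneg _) (by linarith)) (hω4 3)
          (norm_nonneg _) (by linarith))
    have m2 : |det3 (v 1 - v 0) ((ω 2 - ω 0) - (v 2 - v 0)) (ω 3 - ω 0)| ≤ 2 * (2 * ε) * 4 :=
      (abs_det3_le _ _ _).trans (by
        apply mul_le_mul (mul_le_mul (hv2 1) (hd 2) (norm_nonneg _) (by linarith)) (hω4 3)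
          (norm_nonneg _) (by linarith))
    have m3 : |det3 (v 1 - v 0) (v 2 - v 0) ((ω 3 - ω 0) - (v 3 - v 0))| ≤ 2 * 2 * (2 * ε) :=
      (abs_det3_le _ _ _).trans (by
        apply mul_le_mul (mul_le_mul (hv2 1) (hv2 2) (norm_nonneg _) (by linarith)) (hd 3)
          (norm_nonneg _) (by linarith))
    have m : |det3 (ω 1 - ω 0) (ω 2 - ω 0) (ω 3 - ω 0) - det3 (v 1 - v 0) (v 2 - v 0) (v 3 - v 0)|
        ≤ 56 * ε := by
      rw [t]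
      refine (abs_add_three _ _ _).trans ?_
      linarith
    have m' := abs_sub_abs_le_abs_sub (det3 (ω 1 - ω 0) (ω 2 - ω 0) (ω 3 - ω 0))
      (det3 (v 1 - v 0) (v 2 - v 0) (v 3 - v 0))
    linarith
  have hA : ∀ i, |⟪v i, z - y⟫ + (q - r)| ≤ 2 * F + ε * ‖z - y‖ := fun i =>
    nt_pair (s i) (σ i) F ε (hs i) y r z q (y' i) (r' i) (X i) (h i) (h' i)
  obtain ⟨k1, k2⟩ := rigid_lin v hv1 _ hdv (z - y) (q - r) _ hA
  have hz := norm_nonneg (z - y)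
  constructor
  · rw [le_div_iff₀ (by positivity)]
    have : ε * ‖z - y‖ ≤ δ ^ 3 / 896 * ‖z - y‖ := mul_le_mul_of_nonneg_right hεδ hz
    have h3 : 0 ≤ δ ^ 3 * ‖z - y‖ := by positivity
    nlinarith
  · have : ε * ‖z - y‖ ≤ 1 * ‖z - y‖ := mul_le_mul_of_nonneg_right hε1 hz
    linarith

theorem perp_bound (a c n : V3) (h0 : ⟪n, a⟫ = 0) (hn : ‖n‖ = 1) (t : ℝ) (ht : 0 < t)
    (hat : t < ‖a‖) (h2 : ‖cr a c‖ ≤ t ^ 2) : |⟪n, c⟫| ≤ t := by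
  have ha0 : 0 < ‖a‖ := ht.trans hat
  obtain ⟨α, hα⟩ : ∃ α, α = ⟪a, c⟫ / ‖a‖ ^ 2 := ⟨_, rfl⟩
  have h3 : ⟪n, c⟫ = ⟪n, c - α • a⟫ := by
    rw [inner_sub_right, real_inner_smul_right, h0]; ring
  rw [h3]
  refine (abs_real_inner_le_norm _ _).trans ?_
  rw [hn, one_mul]
  have h4 : (‖a‖ * ‖c - α • a‖) ^ 2 = ‖cr a c‖ ^ 2 := by
    rw [norm_cr_sq, mul_pow, norm_sub_sq_real, norm_smul, real_inner_smul_right,
      real_inner_comm a c, mul_pow, Real.norm_eq_abs, sq_abs, hα]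
    field_simp
    ring
  have h5 : ‖a‖ * ‖c - α • a‖ = ‖cr a c‖ :=
    (sq_eq_sq₀ (by positivity) (norm_nonneg _)).1 h4
  have h6 : t * ‖c - α • a‖ ≤ t * t := by
    calc t * ‖c - α • a‖ ≤ ‖a‖ * ‖c - α • a‖ :=
          mul_le_mul_of_nonneg_right hat.le (norm_nonneg _)
      _ = ‖cr a c‖ := h5
      _ ≤ t ^ 2 := h2
      _ = t * t := by ring
  exact le_of_mul_le_mul_left h6 ht

/-- slab lemma -/
theorem slab_lemma {ι : Type*} (S : Finset ι) (X : ι → V3) (i0 : ι) (hi0 : i0 ∈ S) (t : ℝ)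
    (ht : 0 < t) (h : ∀ i ∈ S, ∀ j ∈ S, ∀ k ∈ S,
      |det3 (X i - X i0) (X j - X i0) (X k - X i0)| < t ^ 3) :
    ∃ n : V3, ‖n‖ = 1 ∧ ∀ i ∈ S, |⟪n, X i - X i0⟫| ≤ t := by
  classical
  obtain ⟨p, hp, hmax⟩ := (S ×ˢ S).exists_max_image
    (fun p => ‖cr (X p.1 - X i0) (X p.2 - X i0)‖) ⟨(i0, i0), Finset.mk_mem_product hi0 hi0⟩
  obtain ⟨hp1, hp2⟩ := Finset.mem_product.1 hp
  set w := cr (X p.1 - X i0) (X p.2 - X i0) with hw
  by_cases hA : t ^ 2 < ‖w‖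
  · have hw0 : w ≠ 0 := by
      intro h0; rw [h0, norm_zero] at hA; nlinarith
    refine ⟨nrm w, norm_nrm w hw0, ?_⟩
    intro i hi
    have h1 := h p.1 hp1 p.2 hp2 i hi
    rw [← inner_cr, ← hw] at h1
    unfold nrm
    rw [real_inner_smul_left, abs_mul, abs_of_pos (inv_pos.2 (norm_pos_iff.2 hw0)),
      inv_mul_eq_div, div_le_iff₀ (norm_pos_iff.2 hw0)]
    nlinarith
  · rw [not_lt] at hA
    obtain ⟨j, hj, hjmax⟩ := S.exists_max_image (fun i => ‖X i - X i0‖) ⟨i0, hi0⟩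
    set a := X j - X i0 with ha
    by_cases hat : ‖a‖ ≤ t
    · obtain ⟨b⟩ : Nonempty (OrthonormalBasis (Fin 3) ℝ V3) :=
        ⟨EuclideanSpace.basisFun (Fin 3) ℝ⟩
      refine ⟨b 0, b.norm_eq_one 0, ?_⟩
      intro i hi
      refine (abs_real_inner_le_norm _ _).trans ?_
      rw [b.norm_eq_one, one_mul]
      exact (hjmax i hi).trans hat
    · rw [not_le] at hat
      have ha0 : 0 < ‖a‖ := ht.trans hat
      have hane : a ≠ 0 := norm_pos_iff.1 ha0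
      obtain ⟨b, hb⟩ := exists_basis (nrm a) (norm_nrm a hane)
      refine ⟨b 0, b.norm_eq_one 0, ?_⟩
      intro i hi
      set c := X i - X i0 with hc
      have h0 : ⟪b 0, a⟫ = 0 := by
        have h1 : ⟪b 0, b 2⟫ = 0 := b.inner_eq_zero (by decide)
        rw [hb] at h1
        rw [← nrm_smul a, real_inner_smul_right, h1, mul_zero]
      have h2 : ‖cr a c‖ ≤ t ^ 2 := (hmax (j, i) (Finset.mk_mem_product hj hi)).trans hA
      exact perp_bound a c (b 0) h0 (b.norm_eq_one 0) t ht hat h2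

end Run7.h58
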