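import Pool.Agent.Run7.h58.Atom
import Pool.Agent.Run7.h58.Geom

open MeasureTheory Set
open scoped ENNReal RealInnerProductSpace

namespace Run7.h58

abbrev I3 := Fin 3 → ℤ

/-- lattice centre with spacing `h` -/
noncomputable def ctr (h : ℝ) (n : I3) : V3 := WithLp.toLp 2 (fun i => h * (n i : ℝ))

theorem ctr_apply (h : ℝ) (n : I3) (i : Fin 3) : ctr h n i = h * (n i : ℝ) := rfl

theorem ctr_cover (h : ℝ) (hh : 0 < h) (x : V3) : ∃ n, ‖x - ctr h n‖ ≤ h := by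
  refine ⟨fun i => round (x i / h), ?_⟩
  apply le_of_sq_le_sq _ hh.le
  rw [norm3]
  have key : ∀ i : Fin 3, (x - ctr h fun i => round (x i / h)) i ^ 2 ≤ h ^ 2 / 4 := by
    intro i
    rw [PiLp.sub_apply, ctr_apply]
    have h1 := abs_sub_round (x i / h)
    have h2 : x i - h * (round (x i / h) : ℝ) = h * (x i / h - (round (x i / h) : ℝ)) := by
      field_simp
    rw [h2, mul_pow, ← sq_abs (x i / h - _)]
    have h3 : |x i / h - (round (x i / h) : ℝ)| ^ 2 ≤ (1 / 2) ^ 2 :=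
      pow_le_pow_left₀ (abs_nonneg _) h1 2
    nlinarith [sq_nonneg h]
  nlinarith [key 0, key 1, key 2, sq_nonneg h]

/-- the box of positions near `y` -/
noncomputable def nbox (h C : ℝ) (y : V3) : Finset I3 :=
  Fintype.piFinset (fun i => Finset.Icc ⌈(y i - C) / h⌉ ⌊(y i + C) / h⌋)

theorem abs_coord_le (x : V3) (i : Fin 3) : |x i| ≤ ‖x‖ := by
  have := PiLp.norm_apply_le x i
  rwa [Real.norm_eq_abs] at this

theorem mem_nbox (h C : ℝ) (hh : 0 < h) (y : V3) (n : I3) (hn : ‖ctr h n - y‖ ≤ C) :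
    n ∈ nbox h C y := by
  rw [nbox, Fintype.mem_piFinset]
  intro i
  have h1 := (abs_coord_le (ctr h n - y) i).trans hn
  rw [PiLp.sub_apply, ctr_apply, abs_le] at h1
  rw [Finset.mem_Icc, Int.ceil_le, Int.le_floor, div_le_iff₀ hh, le_div_iff₀ hh]
  constructor <;> linarith [h1.1, h1.2]

theorem card_nbox (h C : ℝ) (hh : 0 < h) (hC : 0 ≤ C) (y : V3) :
    ((nbox h C y).card : ℝ) ≤ (2 * C / h + 1) ^ 3 := by
  rw [nbox, Fintype.card_piFinset]
  push_cast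
  have key : ∀ i : Fin 3, ((Finset.Icc ⌈(y i - C) / h⌉ ⌊(y i + C) / h⌋).card : ℝ)
      ≤ 2 * C / h + 1 := by
    intro i
    rw [Int.card_Icc]
    have h1 : ((⌊(y i + C) / h⌋ : ℤ) : ℝ) ≤ (y i + C) / h := Int.floor_le _
    have h2 : (y i - C) / h ≤ ((⌈(y i - C) / h⌉ : ℤ) : ℝ) := Int.le_ceil _
    rcases le_total 0 (⌊(y i + C) / h⌋ + 1 - ⌈(y i - C) / h⌉) with h3 | h3
    · have h4 : ((⌊(y i + C) / h⌋ + 1 - ⌈(y i - C) / h⌉).toNat : ℝ)
        = ((⌊(y i + C) / h⌋ + 1 - ⌈(y i - C) / h⌉ : ℤ) : ℝ) := by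
        have := Int.toNat_of_nonneg h3
        exact_mod_cast this
      rw [h4]
      push_cast
      have h5 : (y i + C) / h - (y i - C) / h = 2 * C / h := by ring
      linarith
    · rw [Int.toNat_of_nonpos h3]
      push_cast
      positivity
  calc ∏ i : Fin 3, ((Finset.Icc ⌈(y i - C) / h⌉ ⌊(y i + C) / h⌋).card : ℝ)
      ≤ ∏ i : Fin 3, (2 * C / h + 1) :=
        Finset.prod_le_prod (fun i _ => by positivity) (fun i _ => key i)
    _ = _ := by rw [Finset.prod_const]; simp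

/-- the cutoff function vanishing near the lattice centres in `S`. -/
noncomputable def cut (h : ℝ) (S : Finset I3) (x : V3) : ℝ := by
  classical
  exact if S = ∅ then 1 else
    max 0 (min 1 (Metric.infDist x (ctr h '' (S : Set I3)) / h - 1))

theorem cut_nonneg (h : ℝ) (S : Finset I3) (x : V3) : 0 ≤ cut h S x := by
  unfold cut; split_ifs
  · norm_num
  · exact le_max_left _ _

theorem cut_le_one (h : ℝ) (S : Finset I3) (x : V3) : cut h S x ≤ 1 := by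
  unfold cut; split_ifs
  · norm_num
  · exact max_le (by norm_num) (min_le_left _ _)

theorem clamp_lip (a b : ℝ) : |max 0 (min 1 a) - max 0 (min 1 b)| ≤ |a - b| := by
  refine (abs_max_sub_max_le_max _ _ _ _).trans (max_le (by simp) ?_)
  exact (abs_min_sub_min_le_max _ _ _ _).trans (max_le (by simp) le_rfl)

theorem cut_lip (h : ℝ) (hh : 0 < h) (S : Finset I3) (x z : V3) :
    |cut h S x - cut h S z| ≤ h⁻¹ * ‖x - z‖ := by
  unfold cut; split_ifs
  · simp only [sub_self, abs_zero]; positivity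
  · refine (clamp_lip _ _).trans ?_
    have h1 : Metric.infDist x (ctr h '' (S : Set I3)) / h - 1
        - (Metric.infDist z (ctr h '' (S : Set I3)) / h - 1)
        = h⁻¹ * (Metric.infDist x (ctr h '' (S : Set I3))
          - Metric.infDist z (ctr h '' (S : Set I3))) := by ring
    rw [h1, abs_mul, abs_of_pos (inv_pos.2 hh)]
    apply mul_le_mul_of_nonneg_left _ (by positivity)
    have h2 := (Metric.lipschitz_infDist_pt (ctr h '' (S : Set I3))).dist_le_mul x z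
    rw [Real.dist_eq, dist_eq_norm] at h2
    simpa using h2

theorem cut_zero (h : ℝ) (hh : 0 < h) (S : Finset I3) (x : V3) (n : I3) (hn : n ∈ S)
    (hx : ‖x - ctr h n‖ ≤ h) : cut h S x = 0 := by
  unfold cut
  rw [if_neg (Finset.ne_empty_of_mem hn)]
  apply max_eq_left
  refine (min_le_right _ _).trans ?_
  have h1 : Metric.infDist x (ctr h '' (S : Set I3)) ≤ dist x (ctr h n) :=
    Metric.infDist_le_dist_of_mem ⟨n, hn, rfl⟩
  rw [dist_eq_norm] at h1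
  have h2 : Metric.infDist x (ctr h '' (S : Set I3)) / h ≤ 1 := by
    rw [div_le_one hh]; exact h1.trans hx
  linarith

theorem cut_ne_one (h : ℝ) (hh : 0 < h) (S : Finset I3) (x : V3) (hx : cut h S x ≠ 1) :
    ∃ n ∈ S, ‖x - ctr h n‖ ≤ 2 * h := by
  by_contra hc
  push Not at hc
  apply hx
  unfold cut
  split_ifs with hS
  · rfl
  · have hne : (ctr h '' (S : Set I3)).Nonempty := by
      obtain ⟨n, hn⟩ := Finset.nonempty_of_ne_empty hS
      exact ⟨_, n, hn, rfl⟩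
    have h1 : 2 * h ≤ Metric.infDist x (ctr h '' (S : Set I3)) := by
      rw [Metric.le_infDist hne]
      rintro y ⟨n, hn, rfl⟩
      rw [dist_eq_norm]
      exact (hc n hn).le
    have h2 : 2 ≤ Metric.infDist x (ctr h '' (S : Set I3)) / h := by
      rw [le_div_iff₀ hh]; exact h1
    rw [min_eq_left (by linarith)]
    norm_num

theorem int_abs_le (f : V3 → ℝ) (S : Set V3) (hS : volume S < ∞) (M : ℝ)
    (hM : ∀ x, |f x| ≤ M) (h0 : ∀ x, x ∉ S → f x = 0) :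
    ∫ x, |f x| ≤ M * (volume S).toReal := by
  rw [← setIntegral_eq_integral_of_forall_compl_eq_zero (s := S) (by
    intro x hx; rw [h0 x hx, abs_zero])]
  have h := norm_setIntegral_le_of_norm_le_const (μ := volume) (C := M)
    (f := fun x => |f x|) hS (by
      intro x _
      rw [Real.norm_eq_abs, abs_abs]
      exact hM x)
  exact (le_abs_self _).trans h

variable {Ψ : ℝ → ℝ}

theorem atom_l1 (hΨ : Profile Ψ) (y : V3) (r : ℝ) (hr : 1 ≤ r) (χ : V3 → ℝ)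
    (hχ : ∀ x, |χ x| ≤ 1) : ∫ x, |χ x * atom Ψ y r x| ≤ 12 * Real.pi * r ^ 2 := by
  have h := int_abs_le (fun x => χ x * atom Ψ y r x) (shell y r) (shell_vol_lt_top y r) 2
    (by
      intro x
      rw [abs_mul]
      calc |χ x| * |atom Ψ y r x| ≤ 1 * 2 :=
            mul_le_mul (hχ x) (atom_abs_le hΨ y r hr x) (abs_nonneg _) (by norm_num)
        _ = 2 := by norm_num)
    (by intro x hx; rw [atom_zero hΨ y r x hx, mul_zero])
  have h2 := ENNReal.toReal_mono ENNReal.ofReal_ne_top (vol_shell y r hr)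
  rw [ENNReal.toReal_ofReal (by positivity)] at h2
  linarith

theorem atom_loss (hΨ : Profile Ψ) (y : V3) (r : ℝ) (hr : 1 ≤ r) (χ : V3 → ℝ)
    (hχ : ∀ x, |χ x| ≤ 1) (u p : V3) (hu : ‖u‖ = 1) (T : ℝ) (hT : 0 ≤ T)
    (hχT : ∀ x, χ x ≠ 0 → |⟪u, x - p⟫| ≤ T) :
    ∫ x, |χ x * atom Ψ y r x| ≤ 8 * Real.pi * r * T := by
  set S : Set V3 := shell y r ∩ {x : V3 | ⟪u, p - y⟫ - T ≤ ⟪u, x - y⟫ ∧
    ⟪u, x - y⟫ ≤ ⟪u, p - y⟫ + T} with hS
  have hlt : volume S < ∞ := lt_of_le_of_lt (measure_mono inter_subset_left)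
    (shell_vol_lt_top y r)
  have h := int_abs_le (fun x => χ x * atom Ψ y r x) S hlt 2
    (by
      intro x
      rw [abs_mul]
      calc |χ x| * |atom Ψ y r x| ≤ 1 * 2 :=
            mul_le_mul (hχ x) (atom_abs_le hΨ y r hr x) (abs_nonneg _) (by norm_num)
        _ = 2 := by norm_num)
    (by
      intro x hx
      by_contra hne
      apply hx
      refine ⟨?_, ?_⟩
      · by_contra h'
        exact hne (by rw [atom_zero hΨ y r x h', mul_zero])
      · have h1 := abs_le.1 (hχT x (left_ne_zero_of_mul hne))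
        have h2 : ⟪u, x - p⟫ = ⟪u, x - y⟫ - ⟪u, p - y⟫ := by
          rw [← inner_sub_right]; congr 1; abel
        rw [h2] at h1
        exact ⟨by linarith [h1.1], by linarith [h1.2]⟩)
  have h1 := vol_slab y u hu r (⟪u, p - y⟫ - T) (⟪u, p - y⟫ + T) (by linarith) (by linarith)
  have h2 := ENNReal.toReal_mono ENNReal.ofReal_ne_top h1
  rw [ENNReal.toReal_ofReal (by
    have : 0 ≤ ⟪u, p - y⟫ + T - (⟪u, p - y⟫ - T) := by linarith
    have : 0 ≤ r := by linarith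
    positivity)] at h2
  refine h.trans ?_
  calc 2 * (volume S).toReal ≤ 2 * (2 * Real.pi * r * (⟪u, p - y⟫ + T - (⟪u, p - y⟫ - T))) := by
        linarith
    _ = _ := by ring

theorem dir_gen (A B N E q β : ℝ) (hq : 0 < q) (hβ : 0 < β) (hqβ2 : 1024 ≤ β ^ 2 * q)
    (hA : q ^ 4 / 64 ≤ A) (hB : q ^ 4 / 64 ≤ B) (hE : E ≤ 2 * q ^ 3)
    (h : A * B * N ^ 2 ≤ E * (2 * (A + B))) : N ≤ β := by
  have hq4 : 0 < q ^ 4 := by positivity
  have hq3 : 0 < q ^ 3 := by positivity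
  have hA0 : 0 < A := by linarith
  have hB0 : 0 < B := by linarith
  have num : ∀ C : ℝ, q ^ 4 / 64 ≤ C → 4 * q ^ 3 ≤ C * β ^ 2 / 2 := by
    intro C hC
    have h5 : q ^ 4 / 64 * β ^ 2 ≤ C * β ^ 2 := mul_le_mul_of_nonneg_right hC (sq_nonneg _)
    have h6 : q ^ 3 * 1024 ≤ q ^ 3 * (β ^ 2 * q) := mul_le_mul_of_nonneg_left hqβ2 hq3.le
    have h7 : q ^ 4 / 64 * β ^ 2 = q ^ 3 * (β ^ 2 * q) / 64 := by ring
    linarith
  apply le_of_sq_le_sq _ hβ.le
  have h2 : E * (2 * (A + B)) ≤ 2 * q ^ 3 * (2 * (A + B)) :=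
    mul_le_mul_of_nonneg_right hE (by positivity)
  have h3 : 4 * q ^ 3 * B ≤ (A * β ^ 2 / 2) * B := mul_le_mul_of_nonneg_right (num A hA) hB0.le
  have h4 : 4 * q ^ 3 * A ≤ (B * β ^ 2 / 2) * A := mul_le_mul_of_nonneg_right (num B hB) hA0.le
  have h1 : A * B * N ^ 2 ≤ A * B * β ^ 2 := by linarith
  exact le_of_mul_le_mul_left h1 (by positivity)

theorem num_q (q β : ℝ) (hβ : 0 < β) (hβ1 : β ≤ 1) (hq : 0 < q) (hqβ2 : 1024 ≤ β ^ 2 * q) :
    1024 ≤ q ∧ q ^ 2 * 1024 ≤ β * q ^ 4 := by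
  have hβ2 : β ^ 2 ≤ β := by nlinarith
  have hqβ : 1024 ≤ β * q := hqβ2.trans (mul_le_mul_of_nonneg_right hβ2 hq.le)
  have hq1 : 1024 ≤ q := hqβ.trans (by nlinarith)
  refine ⟨hq1, ?_⟩
  have h3 : q ^ 2 * 1024 ≤ q ^ 2 * (β * q) := mul_le_mul_of_nonneg_left hqβ (by positivity)
  have h4 : q ^ 2 * (β * q) ≤ q ^ 3 * (β * q) := by
    apply mul_le_mul_of_nonneg_right _ (by positivity)
    exact pow_le_pow_right₀ (by linarith) (by norm_num)
  calc q ^ 2 * 1024 ≤ q ^ 3 * (β * q) := h3.trans h4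
    _ = β * q ^ 4 := by ring

/-- transfer of the near tangency relation inside a cell -/
theorem nt_of_tch (k : ℕ) (β R : ℝ) (hβ : 0 < β) (hβ1 : β ≤ 1) (hk : 2 ^ 10 ≤ β ^ 2 * 2 ^ k)
    (hR : 1 ≤ R) (hS : (16 : ℝ) ^ k ≤ 32 * R) (s σ : ℝ) (hs : s = 1 ∨ s = -1)
    (hσ : σ = 1 ∨ σ = -1) (y1 : V3) (r1 : ℝ) (y : V3) (r : ℝ) (y' : V3) (r' : ℝ)
    (hr1 : R ≤ r1) (hr : R ≤ r) (hr' : R ≤ r')
    (hy : ‖y - y1‖ ≤ 2 * 4 ^ k) (hrr : |r - r1| ≤ 4 ^ k) (hsep : 16 ^ k / 2 ≤ ‖y1 - y'‖)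
    (htan : |s * ‖y1 - y'‖ + r1 - σ * r'| ≤ 8 ^ k) (x X : V3) (hx : x ∈ shell y1 r1)
    (hx' : x ∈ shell y' r') (hX : ‖x - X‖ ≤ β * R) :
    NT s σ (2 * 8 ^ k) (8 * β) y r y' r' X := by
  have hx1 := abs_le.1 (show |‖x - y1‖ - r1| ≤ 1 / 2 from hx)
  have hx2 := abs_le.1 (show |‖x - y'‖ - r'| ≤ 1 / 2 from hx')
  have hs1 : |s| = 1 := by rcases hs with h | h <;> rw [h] <;> norm_num
  have hσ1 : |σ| = 1 := by rcases hσ with h | h <;> rw [h] <;> norm_num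
  have hR0 : 0 < R := by linarith
  -- powers
  have p2 : (0 : ℝ) < 2 ^ k := by positivity
  have p4 : (4 : ℝ) ^ k = 2 ^ k * 2 ^ k := by rw [← mul_pow]; norm_num
  have p8 : (8 : ℝ) ^ k = 2 ^ k * 2 ^ k * 2 ^ k := by rw [← mul_pow, ← mul_pow]; norm_num
  have p16 : (16 : ℝ) ^ k = 2 ^ k * 2 ^ k * 2 ^ k * 2 ^ k := by
    rw [← mul_pow, ← mul_pow, ← mul_pow]; norm_num
  set q : ℝ := 2 ^ k with hq
  have hqβ2 : 1024 ≤ β ^ 2 * q := by linarith [hk]
  obtain ⟨hq1024, hq24⟩ := num_q q β hβ hβ1 p2 hqβ2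
  set a := y1 - y' with ha
  set b := x - y1 with hb
  have hab : a + b = x - y' := by rw [ha, hb]; abel
  have hbn : ‖b‖ = ‖x - y1‖ := rfl
  have hcn : ‖a + b‖ = ‖x - y'‖ := by rw [hab]
  have la : q ^ 4 / 2 ≤ ‖a‖ := by rw [p16] at hsep; linarith [hsep]
  have lR : q ^ 4 ≤ 32 * R := by rw [p16] at hS; linarith [hS]
  have lb : R / 2 ≤ ‖b‖ := by rw [hbn]; linarith
  have lc : R / 2 ≤ ‖a + b‖ := by rw [hcn]; linarith
  have hq4 : 0 < q ^ 4 := by positivity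
  have hE : |s * ‖a‖ + ‖b‖ - σ * ‖a + b‖| ≤ 2 * q ^ 3 := by
    have e : s * ‖a‖ + ‖b‖ - σ * ‖a + b‖ = (s * ‖a‖ + r1 - σ * r') + (‖b‖ - r1)
        - σ * (‖a + b‖ - r') := by ring
    rw [e]
    have h1 : |σ * (‖a + b‖ - r')| ≤ 1 / 2 := by
      rw [abs_mul, hσ1, one_mul, hcn, abs_le]; exact ⟨by linarith [hx2.1], by linarith [hx2.2]⟩
    have h2 : |‖b‖ - r1| ≤ 1 / 2 := by
      rw [hbn, abs_le]; exact ⟨by linarith [hx1.1], by linarith [hx1.2]⟩
    have h3 : |(s * ‖a‖ + r1 - σ * r') + (‖b‖ - r1) - σ * (‖a + b‖ - r')| ≤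
        |s * ‖a‖ + r1 - σ * r'| + |‖b‖ - r1| + |σ * (‖a + b‖ - r')| := by
      refine (abs_sub _ _).trans ?_
      have := abs_add_le (s * ‖a‖ + r1 - σ * r') (‖b‖ - r1)
      linarith
    rw [p8] at htan
    have h4 : (1 : ℝ) ≤ q ^ 3 := one_le_pow₀ (by linarith)
    linarith
  have ha0 : 0 < ‖a‖ := by linarith
  have hb0 : 0 < ‖b‖ := by linarith
  have hc0 : 0 < ‖a + b‖ := by linarith
  have c1 := collin1 a b s σ hs hσ
  have c2 := collin2 a b s σ hs hσ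
  have d1 : ‖s • nrm a - nrm b‖ ≤ β :=
    dir_gen ‖a‖ ‖b‖ _ _ q β p2 hβ hqβ2 (by linarith) (by linarith) hE c1
  have d2 : ‖nrm b - σ • nrm (a + b)‖ ≤ β :=
    dir_gen ‖b‖ ‖a + b‖ _ _ q β p2 hβ hqβ2 (by linarith) (by linarith) hE c2
  have d3 : ‖nrm (x - y') - nrm (X - y')‖ ≤ 4 * β := by
    have hne : x - y' ≠ 0 := by rw [← hab]; exact norm_pos_iff.1 hc0
    refine (nrm_diff (x - y') (X - y') hne).trans ?_
    have e : x - y' - (X - y') = x - X := by abel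
    rw [e, ← hab, div_le_iff₀ hc0]
    have : 4 * β * (R / 2) ≤ 4 * β * ‖a + b‖ := mul_le_mul_of_nonneg_left lc (by positivity)
    linarith
  have d4 : ‖nrm (y - y') - nrm a‖ ≤ β := by
    rw [norm_sub_rev]
    refine (nrm_diff a (y - y') (norm_pos_iff.1 ha0)).trans ?_
    have e : a - (y - y') = -(y - y1) := by rw [ha]; abel
    rw [e, norm_neg, div_le_iff₀ ha0]
    rw [p4] at hy
    have h5 : β * (q ^ 4 / 2) ≤ β * ‖a‖ := mul_le_mul_of_nonneg_left la hβ.le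
    have h6 : 0 ≤ q ^ 2 := by positivity
    linarith
  have d5 : ‖r⁻¹ • (X - y) - nrm b‖ ≤ 2 * β := by
    have hr0 : 0 < r := by linarith
    have e : r⁻¹ • (X - y) - nrm b = r⁻¹ • ((X - x) + (y1 - y)) + (r⁻¹ * (‖b‖ - r)) • nrm b := by
      have e1 : X - y = ((X - x) + (y1 - y)) + b := by rw [hb]; abel
      have e2 : r⁻¹ • b = (r⁻¹ * ‖b‖) • nrm b := by
        rw [← smul_smul, nrm_smul]
      rw [e1, smul_add, e2, mul_sub, inv_mul_cancel₀ hr0.ne', sub_smul, one_smul]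
      abel
    rw [e]
    refine (norm_add_le _ _).trans ?_
    rw [norm_smul, norm_smul, Real.norm_eq_abs, Real.norm_eq_abs, abs_mul,
      abs_of_pos (inv_pos.2 hr0)]
    have h1 : ‖(X - x) + (y1 - y)‖ ≤ β * R + 2 * q ^ 2 := by
      refine (norm_add_le _ _).trans ?_
      rw [norm_sub_rev X x, norm_sub_rev y1 y]
      rw [p4] at hy
      linarith
    have h2 : |‖b‖ - r| ≤ q ^ 2 + 1 / 2 := by
      have e3 : ‖b‖ - r = (‖b‖ - r1) - (r - r1) := by ring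
      rw [e3]
      refine (abs_sub _ _).trans ?_
      have h3 : |‖b‖ - r1| ≤ 1 / 2 := by
        rw [hbn, abs_le]; exact ⟨by linarith [hx1.1], by linarith [hx1.2]⟩
      rw [p4] at hrr
      linarith
    have h3 := norm_nrm_le b
    have hri : r⁻¹ ≤ R⁻¹ := inv_anti₀ hR0 hr
    have h4 : r⁻¹ * ‖(X - x) + (y1 - y)‖ ≤ R⁻¹ * (β * R + 2 * q ^ 2) :=
      mul_le_mul hri h1 (norm_nonneg _) (by positivity)
    have h5 : r⁻¹ * |‖b‖ - r| * ‖nrm b‖ ≤ R⁻¹ * (q ^ 2 + 1 / 2) * 1 :=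
      mul_le_mul (mul_le_mul hri h2 (abs_nonneg _) (by positivity)) h3 (norm_nonneg _)
        (by positivity)
    refine (add_le_add h4 h5).trans ?_
    have h6 : R⁻¹ * (β * R + 2 * q ^ 2) + R⁻¹ * (q ^ 2 + 1 / 2) * 1
        = β + (3 * q ^ 2 + 1 / 2) / R := by field_simp; ring
    rw [h6]
    have h7 : (3 * q ^ 2 + 1 / 2) / R ≤ β := by
      rw [div_le_iff₀ hR0]
      have h9 : β * (q ^ 4) ≤ β * (32 * R) := mul_le_mul_of_nonneg_left lR hβ.le
      have h10 : (1 : ℝ) ≤ q ^ 2 := one_le_pow₀ (by linarith)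
      linarith
    linarith
  refine ⟨?_, ?_, ?_⟩
  · have e : s * ‖y - y'‖ + r - σ * r' = (s * ‖a‖ + r1 - σ * r') + s * (‖y - y'‖ - ‖a‖)
        + (r - r1) := by ring
    rw [e]
    have h1 : |s * (‖y - y'‖ - ‖a‖)| ≤ 2 * 4 ^ k := by
      rw [abs_mul, hs1, one_mul]
      refine (abs_norm_sub_norm_le _ _).trans ?_
      have : y - y' - a = y - y1 := by rw [ha]; abel
      rw [this]; exact hy
    have h2 : |(s * ‖a‖ + r1 - σ * r') + s * (‖y - y'‖ - ‖a‖) + (r - r1)| ≤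
        |s * ‖a‖ + r1 - σ * r'| + |s * (‖y - y'‖ - ‖a‖)| + |r - r1| := abs_add_three _ _ _
    have h3 : (3 : ℝ) * 4 ^ k ≤ 8 ^ k := by
      rw [p4, p8]
      have : q * q * 3 ≤ q * q * q := mul_le_mul_of_nonneg_left (by linarith) (by positivity)
      linarith
    linarith
  · have e : s • nrm (y - y') - σ • nrm (X - y') = s • (nrm (y - y') - nrm a)
        + (s • nrm a - nrm b) + (nrm b - σ • nrm (a + b))
        + σ • (nrm (x - y') - nrm (X - y')) := by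
      rw [hab, smul_sub, smul_sub]; abel
    rw [e]
    have n1 : ‖s • (nrm (y - y') - nrm a)‖ ≤ β := by
      rw [norm_smul, Real.norm_eq_abs, hs1, one_mul]; exact d4
    have n2 : ‖σ • (nrm (x - y') - nrm (X - y'))‖ ≤ 4 * β := by
      rw [norm_smul, Real.norm_eq_abs, hσ1, one_mul]; exact d3
    refine (norm_add_le _ _).trans ?_
    have n3 := norm_add₃_le (a := s • (nrm (y - y') - nrm a)) (b := s • nrm a - nrm b)
      (c := nrm b - σ • nrm (a + b))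
    linarith
  · have e : r⁻¹ • (X - y) - σ • nrm (X - y') = (r⁻¹ • (X - y) - nrm b)
        + (nrm b - σ • nrm (a + b)) + σ • (nrm (x - y') - nrm (X - y')) := by
      rw [hab, smul_sub σ]; abel
    rw [e]
    have n2 : ‖σ • (nrm (x - y') - nrm (X - y'))‖ ≤ 4 * β := by
      rw [norm_smul, Real.norm_eq_abs, hσ1, one_mul]; exact d3
    have n3 := norm_add₃_le (a := r⁻¹ • (X - y) - nrm b) (b := nrm b - σ • nrm (a + b))
      (c := σ • (nrm (x - y') - nrm (X - y')))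
    linarith

end Run7.h58
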