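import Pool.Agent.Run7.h58.Count

open MeasureTheory Finset
open scoped ENNReal RealInnerProductSpace

namespace Run7.h58

open Classical in
theorem group_sq (E : Finset I4) (c : I4 → I4) (a : I4 → ℝ) :
    ∑ e ∈ E, ∑ e' ∈ E, (if c e = c e' then a e * a e' else 0)
      = ∑ b ∈ E.image c, (∑ e ∈ E with c e = b, a e) ^ 2 := by
  have h1 : ∀ b ∈ E.image c, (∑ e ∈ E with c e = b, a e) ^ 2
      = ∑ e ∈ E with c e = b, ∑ e' ∈ E, (if c e = c e' then a e * a e' else 0) := by
    intro b _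
    rw [sq, Finset.sum_mul]
    apply Finset.sum_congr rfl
    intro e he
    rw [Finset.mem_filter] at he
    rw [Finset.mul_sum, Finset.sum_filter]
    apply Finset.sum_congr rfl
    intro e' _
    rw [he.2]
    by_cases h : c e' = b
    · rw [if_pos h, if_pos h.symm]
    · rw [if_neg h, if_neg (fun h' => h h'.symm)]
  rw [Finset.sum_congr rfl h1]
  rw [Finset.sum_fiberwise_of_maps_to]
  intro e he
  exact Finset.mem_image_of_mem c he

/-- accumulated cutoffs -/
noncomputable def chi (ψ : ℕ → I4 → V3 → ℝ) (α : ℤ) (m : ℕ) (e : I4) (x : V3) : ℝ :=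
  ∏ j ∈ Finset.range (m + 1), ψ j (cell α j e) x

theorem chi_succ (ψ : ℕ → I4 → V3 → ℝ) (α : ℤ) (m : ℕ) (e : I4) (x : V3) :
    chi ψ α (m + 1) e x = chi ψ α m e x * ψ (m + 1) (cell α (m + 1) e) x := by
  unfold chi; rw [Finset.prod_range_succ _ (m + 1)]

/-- admissible cutoff families -/
structure CutFam (ψ : ℕ → I4 → V3 → ℝ) : Prop where
  nn : ∀ m c x, 0 ≤ ψ m c x
  le1 : ∀ m c x, ψ m c x ≤ 1
  ct : ∀ m c, Continuous (ψ m c)

variable {ψ : ℕ → I4 → V3 → ℝ}

theorem chi_nonneg (hψ : CutFam ψ) (α : ℤ) (m : ℕ) (e : I4) (x : V3) : 0 ≤ chi ψ α m e x :=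
  Finset.prod_nonneg (fun _ _ => hψ.nn _ _ _)

theorem chi_le_one (hψ : CutFam ψ) (α : ℤ) (m : ℕ) (e : I4) (x : V3) : chi ψ α m e x ≤ 1 :=
  Finset.prod_le_one (fun _ _ => hψ.nn _ _ _) (fun _ _ => hψ.le1 _ _ _)

theorem chi_cont (hψ : CutFam ψ) (α : ℤ) (m : ℕ) (e : I4) : Continuous (chi ψ α m e) := by
  unfold chi
  exact continuous_finsetProd _ (fun j _ => hψ.ct _ _)

theorem chi_ne_zero {α : ℤ} {m : ℕ} {e : I4} {x : V3} (h : chi ψ α m e x ≠ 0) (j : ℕ)
    (hj : j ≤ m) : ψ j (cell α j e) x ≠ 0 := by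
  unfold chi at h
  rw [Finset.prod_ne_zero_iff] at h
  exact h j (Finset.mem_range.2 (by omega))

theorem prod_lip {ι : Type*} (s : Finset ι) (a b : ι → ℝ) (ha : ∀ i ∈ s, 0 ≤ a i ∧ a i ≤ 1)
    (hb : ∀ i ∈ s, 0 ≤ b i ∧ b i ≤ 1) :
    |∏ i ∈ s, a i - ∏ i ∈ s, b i| ≤ ∑ i ∈ s, |a i - b i| := by
  classical
  induction s using Finset.induction_on with
  | empty => simp
  | insert i s hi ih =>
    rw [Finset.prod_insert hi, Finset.prod_insert hi, Finset.sum_insert hi]
    have h1 := ih (fun j hj => ha j (Finset.mem_insert_of_mem hj))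
      (fun j hj => hb j (Finset.mem_insert_of_mem hj))
    have e1 : a i * ∏ i ∈ s, a i - b i * ∏ i ∈ s, b i = (a i - b i) * ∏ i ∈ s, a i
      + b i * (∏ i ∈ s, a i - ∏ i ∈ s, b i) := by ring
    rw [e1]
    refine (abs_add_le _ _).trans ?_
    rw [abs_mul, abs_mul]
    have h2 : 0 ≤ ∏ i ∈ s, a i := Finset.prod_nonneg
      (fun j hj => (ha j (Finset.mem_insert_of_mem hj)).1)
    have h3 : ∏ i ∈ s, a i ≤ 1 := Finset.prod_le_one
      (fun j hj => (ha j (Finset.mem_insert_of_mem hj)).1)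
      (fun j hj => (ha j (Finset.mem_insert_of_mem hj)).2)
    have h4 := hb i (Finset.mem_insert_self _ _)
    have h5 : |a i - b i| * |∏ i ∈ s, a i| ≤ |a i - b i| * 1 := by
      apply mul_le_mul_of_nonneg_left _ (abs_nonneg _)
      rw [abs_of_nonneg h2]; exact h3
    have h6 : |b i| * |∏ i ∈ s, a i - ∏ i ∈ s, b i| ≤ 1 * ∑ i ∈ s, |a i - b i| := by
      apply mul_le_mul _ h1 (abs_nonneg _) zero_le_one
      rw [abs_of_nonneg h4.1]; exact h4.2
    linarith

theorem one_sub_prod {ι : Type*} (s : Finset ι) (a : ι → ℝ) (ha : ∀ i ∈ s, 0 ≤ a i ∧ a i ≤ 1) :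
    |1 - ∏ i ∈ s, a i| ≤ ∑ i ∈ s, |1 - a i| := by
  have h := prod_lip s (fun _ => (1 : ℝ)) a (fun i _ => ⟨by norm_num, le_rfl⟩) ha
  simpa using h

open Classical in
/-- pointwise energy -/
noncomputable def wen (ψ : ℕ → I4 → V3 → ℝ) (α : ℤ) (E : Finset I4) (f : I4 → V3 → ℝ) (m : ℕ)
    (x : V3) : ℝ :=
  ∑ e ∈ E, ∑ e' ∈ E, (if cell α m e = cell α m e' then
    (chi ψ α m e x * f e x) * (chi ψ α m e' x * f e' x) else 0)

open Classical in
/-- pairs merging at level `m+1` -/
def Mg (α : ℤ) (m : ℕ) (e e' : I4) : Prop :=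
  cell α m e ≠ cell α m e' ∧ cell α (m + 1) e = cell α (m + 1) e'

open Classical in
theorem wen_step (hψ : CutFam ψ) (α : ℤ) (E : Finset I4) (f : I4 → V3 → ℝ) (m : ℕ) (x : V3) :
    wen ψ α E f (m + 1) x ≤ wen ψ α E f m x +
      ∑ e ∈ E, ∑ e' ∈ E, (if Mg α m e e' then
        (chi ψ α (m + 1) e x * f e x) * (chi ψ α (m + 1) e' x * f e' x) else 0) := by
  have h1 : wen ψ α E f (m + 1) x = ∑ e ∈ E, ∑ e' ∈ E, (if cell α m e = cell α m e' then
    (chi ψ α (m + 1) e x * f e x) * (chi ψ α (m + 1) e' x * f e' x) else 0) +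
      ∑ e ∈ E, ∑ e' ∈ E, (if Mg α m e e' then
        (chi ψ α (m + 1) e x * f e x) * (chi ψ α (m + 1) e' x * f e' x) else 0) := by
    unfold wen
    rw [← Finset.sum_add_distrib]
    apply Finset.sum_congr rfl
    intro e _
    rw [← Finset.sum_add_distrib]
    apply Finset.sum_congr rfl
    intro e' _
    unfold Mg
    by_cases h : cell α m e = cell α m e'
    · have h' := cell_nest α m e e' h
      rw [if_pos h, if_pos h', if_neg (by simp [h])]; ring
    · by_cases h' : cell α (m + 1) e = cell α (m + 1) e'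
      · rw [if_pos h', if_neg h, if_pos ⟨h, h'⟩]; ring
      · rw [if_neg h', if_neg h, if_neg (fun hh => h' hh.2)]; ring
  rw [h1]
  apply add_le_add _ le_rfl
  unfold wen
  rw [group_sq E (cell α m) (fun e => chi ψ α (m + 1) e x * f e x),
    group_sq E (cell α m) (fun e => chi ψ α m e x * f e x)]
  apply Finset.sum_le_sum
  intro b hb
  obtain ⟨e0, he0, rfl⟩ := Finset.mem_image.1 hb
  have h2 : ∑ e ∈ E with cell α m e = cell α m e0, chi ψ α (m + 1) e x * f e x
      = ψ (m + 1) (cell α (m + 1) e0) x *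
        ∑ e ∈ E with cell α m e = cell α m e0, chi ψ α m e x * f e x := by
    rw [Finset.mul_sum]
    apply Finset.sum_congr rfl
    intro e he
    rw [Finset.mem_filter] at he
    rw [chi_succ, cell_nest α m e e0 he.2]
    ring
  rw [h2, mul_pow]
  have h3 : ψ (m + 1) (cell α (m + 1) e0) x ^ 2 ≤ 1 :=
    pow_le_one₀ (hψ.nn _ _ _) (hψ.le1 _ _ _)
  nlinarith [sq_nonneg (∑ e ∈ E with cell α m e = cell α m e0, chi ψ α m e x * f e x)]

/-- good test functions -/
structure TF (f : V3 → ℝ) : Prop where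
  ct : Continuous f
  cs : HasCompactSupport f

theorem TF.int {f : V3 → ℝ} (h : TF f) : Integrable f := h.ct.integrable_of_hasCompactSupport h.cs

theorem TF.mul_left {f g : V3 → ℝ} (h : TF f) (hg : Continuous g) : TF (fun x => g x * f x) :=
  ⟨hg.mul h.ct, h.cs.mul_left⟩

theorem TF.add {f g : V3 → ℝ} (h : TF f) (h' : TF g) : TF (fun x => f x + g x) :=
  ⟨h.ct.add h'.ct, h.cs.add h'.cs⟩

theorem TF.zero : TF (fun _ => (0 : ℝ)) := ⟨continuous_const, HasCompactSupport.zero⟩

theorem TF.sum {ι : Type*} (s : Finset ι) (f : ι → V3 → ℝ) (h : ∀ i ∈ s, TF (f i)) :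
    TF (fun x => ∑ i ∈ s, f i x) := by
  classical
  induction s using Finset.induction_on with
  | empty => simpa using TF.zero
  | insert i s hi ih =>
    simp only [Finset.sum_insert hi]
    exact (h i (Finset.mem_insert_self _ _)).add
      (ih (fun j hj => h j (Finset.mem_insert_of_mem hj)))

theorem TF.abs {f : V3 → ℝ} (h : TF f) : TF (fun x => |f x|) :=
  ⟨h.ct.abs, h.cs.comp_left (g := fun t : ℝ => |t|) (by simp)⟩

theorem TF.ite {p : Prop} [Decidable p] {f : V3 → ℝ} (h : TF f) :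
    TF (fun x => if p then f x else 0) := by
  by_cases hp : p
  · simpa [hp] using h
  · simpa [hp] using TF.zero

theorem chi_f_TF (hψ : CutFam ψ) (α : ℤ) (m : ℕ) (e : I4) {f : V3 → ℝ} (hf : TF f) :
    TF (fun x => chi ψ α m e x * f x) := hf.mul_left (chi_cont hψ α m e)

theorem pair_TF (hψ : CutFam ψ) (α : ℤ) (m : ℕ) (e e' : I4) {f g : V3 → ℝ} (hf : TF f)
    (hg : TF g) : TF (fun x => (chi ψ α m e x * f x) * (chi ψ α m e' x * g x)) :=
  (chi_f_TF hψ α m e' hg).mul_left ((chi_f_TF hψ α m e hf).ct)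

open Classical in
theorem wen_TF (hψ : CutFam ψ) (α : ℤ) (E : Finset I4) (f : I4 → V3 → ℝ) (hf : ∀ e, TF (f e))
    (m : ℕ) : TF (wen ψ α E f m) := by
  unfold wen
  apply TF.sum
  intro e _
  apply TF.sum
  intro e' _
  exact (pair_TF hψ α m e e' (hf e) (hf e')).ite

open Classical in
theorem wen_int_step (hψ : CutFam ψ) (α : ℤ) (E : Finset I4) (f : I4 → V3 → ℝ)
    (hf : ∀ e, TF (f e)) (m : ℕ) :
    ∫ x, wen ψ α E f (m + 1) x ≤ (∫ x, wen ψ α E f m x) +
      ∑ e ∈ E, ∑ e' ∈ E, (if Mg α m e e' then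
        |∫ x, (chi ψ α (m + 1) e x * f e x) * (chi ψ α (m + 1) e' x * f e' x)| else 0) := by
  have hT : ∀ e e', TF (fun x => if Mg α m e e' then
        (chi ψ α (m + 1) e x * f e x) * (chi ψ α (m + 1) e' x * f e' x) else 0) :=
    fun e e' => (pair_TF hψ α (m + 1) e e' (hf e) (hf e')).ite
  have hT2 : ∀ e, TF (fun x => ∑ e' ∈ E, if Mg α m e e' then
        (chi ψ α (m + 1) e x * f e x) * (chi ψ α (m + 1) e' x * f e' x) else 0) :=
    fun e => TF.sum _ _ (fun e' _ => hT e e')
  have hT3 : TF (fun x => ∑ e ∈ E, ∑ e' ∈ E, if Mg α m e e' then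
        (chi ψ α (m + 1) e x * f e x) * (chi ψ α (m + 1) e' x * f e' x) else 0) :=
    TF.sum _ _ (fun e _ => hT2 e)
  have h1 : ∫ x, wen ψ α E f (m + 1) x ≤ ∫ x, (wen ψ α E f m x +
      ∑ e ∈ E, ∑ e' ∈ E, (if Mg α m e e' then
        (chi ψ α (m + 1) e x * f e x) * (chi ψ α (m + 1) e' x * f e' x) else 0)) := by
    apply integral_mono (wen_TF hψ α E f hf _).int
    · exact ((wen_TF hψ α E f hf m).add hT3).int
    · intro x
      exact wen_step hψ α E f m x
  refine h1.trans ?_
  rw [integral_add (wen_TF hψ α E f hf m).int hT3.int]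
  apply add_le_add le_rfl
  rw [integral_finsetSum _ (fun e _ => (hT2 e).int)]
  apply Finset.sum_le_sum
  intro e _
  rw [integral_finsetSum _ (fun e' _ => (hT e e').int)]
  apply Finset.sum_le_sum
  intro e' _
  split_ifs
  · exact le_abs_self _
  · simp

open Classical in
theorem wen_iter (hψ : CutFam ψ) (α : ℤ) (E : Finset I4) (f : I4 → V3 → ℝ)
    (hf : ∀ e, TF (f e)) (m₁ M : ℕ) (hM : m₁ ≤ M) :
    ∫ x, wen ψ α E f M x ≤ (∫ x, wen ψ α E f m₁ x) +
      ∑ m ∈ Finset.Ico m₁ M, ∑ e ∈ E, ∑ e' ∈ E, (if Mg α m e e' then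
        |∫ x, (chi ψ α (m + 1) e x * f e x) * (chi ψ α (m + 1) e' x * f e' x)| else 0) := by
  induction M, hM using Nat.le_induction with
  | base => simp
  | succ M hM ih =>
    rw [Finset.sum_Ico_succ_top hM]
    have := wen_int_step hψ α E f hf M
    linarith

open Classical in
theorem merge_once (α : ℤ) (m₁ M : ℕ) (e e' : I4) (B : ℝ) (hB : 0 ≤ B) :
    ∑ m ∈ Finset.Ico m₁ M, (if Mg α m e e' then B else 0) ≤ B := by
  by_cases h : ∃ m ∈ Finset.Ico m₁ M, Mg α m e e'
  · obtain ⟨m, hm, hMg⟩ := h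
    have h1 : ∀ j ∈ Finset.Ico m₁ M, j ≠ m → (if Mg α j e e' then B else 0) = 0 := by
      intro j _ hj
      rw [if_neg]
      rintro ⟨h1, h2⟩
      rcases lt_or_gt_of_ne hj with hlt | hlt
      · exact hMg.1 (cell_nest_le α (by omega) e e' h2)
      · exact h1 (cell_nest_le α (by omega) e e' hMg.2)
    rw [Finset.sum_eq_single m h1 (fun h => absurd hm h), if_pos hMg]
  · push Not at h
    rw [Finset.sum_eq_zero (fun m hm => if_neg (h m hm))]
    exact hB

open Classical in
theorem energy (hψ : CutFam ψ) (α : ℤ) (E : Finset I4) (f : I4 → V3 → ℝ)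
    (hf : ∀ e, TF (f e)) (m₁ M : ℕ) (hM : m₁ ≤ M) (hsame : ∀ e ∈ E, ∀ e' ∈ E,
      cell α M e = cell α M e') (b : I4 → I4 → ℝ) (hb0 : ∀ e e', 0 ≤ b e e')
    (hb : ∀ m, m₁ ≤ m → ∀ e ∈ E, ∀ e' ∈ E, Mg α m e e' →
      |∫ x, (chi ψ α (m + 1) e x * f e x) * (chi ψ α (m + 1) e' x * f e' x)| ≤ b e e') :
    ∫ x, (∑ e ∈ E, chi ψ α M e x * f e x) ^ 2 ≤ 256 ^ m₁ * (∑ e ∈ E, ∫ x, f e x ^ 2) +
      ∑ e ∈ E, ∑ e' ∈ E, b e e' := by
  have h1 : ∀ x, wen ψ α E f M x = (∑ e ∈ E, chi ψ α M e x * f e x) ^ 2 := by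
    intro x
    unfold wen
    rw [sq, Finset.sum_mul_sum]
    apply Finset.sum_congr rfl
    intro e he
    apply Finset.sum_congr rfl
    intro e' he'
    rw [if_pos (hsame e he e' he')]
  have h2 := wen_iter hψ α E f hf m₁ M hM
  simp only [h1] at h2
  refine h2.trans (add_le_add ?_ ?_)
  · -- base level
    have h3 : ∀ x, wen ψ α E f m₁ x ≤ 256 ^ m₁ * ∑ e ∈ E, f e x ^ 2 := by
      intro x
      unfold wen
      calc ∑ e ∈ E, ∑ e' ∈ E, (if cell α m₁ e = cell α m₁ e' then
            (chi ψ α m₁ e x * f e x) * (chi ψ α m₁ e' x * f e' x) else 0)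
          ≤ ∑ e ∈ E, ∑ e' ∈ E, (if cell α m₁ e = cell α m₁ e' then
            (f e x ^ 2 + f e' x ^ 2) / 2 else 0) := by
            apply Finset.sum_le_sum
            intro e _
            apply Finset.sum_le_sum
            intro e' _
            split_ifs
            · have c1 := chi_nonneg hψ α m₁ e x
              have c2 := chi_le_one hψ α m₁ e x
              have c3 := chi_nonneg hψ α m₁ e' x
              have c4 := chi_le_one hψ α m₁ e' x
              have d1 : (chi ψ α m₁ e x * f e x) ^ 2 ≤ f e x ^ 2 := by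
                rw [mul_pow]
                have : chi ψ α m₁ e x ^ 2 ≤ 1 := pow_le_one₀ c1 c2
                nlinarith [sq_nonneg (f e x)]
              have d2 : (chi ψ α m₁ e' x * f e' x) ^ 2 ≤ f e' x ^ 2 := by
                rw [mul_pow]
                have : chi ψ α m₁ e' x ^ 2 ≤ 1 := pow_le_one₀ c3 c4
                nlinarith [sq_nonneg (f e' x)]
              nlinarith [sq_nonneg (chi ψ α m₁ e x * f e x - chi ψ α m₁ e' x * f e' x)]
            · exact le_rfl
        _ = ∑ e ∈ E, ∑ e' ∈ E, (if cell α m₁ e' = cell α m₁ e then f e x ^ 2 else 0) := by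
            have s1 : ∑ e ∈ E, ∑ e' ∈ E, (if cell α m₁ e = cell α m₁ e' then
              (f e x ^ 2 + f e' x ^ 2) / 2 else 0) = (∑ e ∈ E, ∑ e' ∈ E,
                (if cell α m₁ e' = cell α m₁ e then f e x ^ 2 else 0)) / 2 +
              (∑ e ∈ E, ∑ e' ∈ E,
                (if cell α m₁ e' = cell α m₁ e then f e' x ^ 2 else 0)) / 2 := by
              rw [← add_div, ← Finset.sum_add_distrib, Finset.sum_div]
              apply Finset.sum_congr rfl
              intro e _
              rw [← Finset.sum_add_distrib, Finset.sum_div]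
              apply Finset.sum_congr rfl
              intro e' _
              by_cases h : cell α m₁ e = cell α m₁ e'
              · rw [if_pos h, if_pos h.symm, if_pos h.symm]
              · rw [if_neg h, if_neg (fun h' => h h'.symm), if_neg (fun h' => h h'.symm)]; simp
            have s2 : ∑ e ∈ E, ∑ e' ∈ E,
                (if cell α m₁ e' = cell α m₁ e then f e' x ^ 2 else 0) =
                ∑ e ∈ E, ∑ e' ∈ E,
                (if cell α m₁ e' = cell α m₁ e then f e x ^ 2 else 0) := by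
              rw [Finset.sum_comm]
              apply Finset.sum_congr rfl
              intro e _
              apply Finset.sum_congr rfl
              intro e' _
              by_cases h : cell α m₁ e = cell α m₁ e'
              · rw [if_pos h, if_pos h.symm]
              · rw [if_neg h, if_neg (fun h' => h h'.symm)]
            rw [s1, s2]; ring
        _ ≤ ∑ e ∈ E, 256 ^ m₁ * f e x ^ 2 := by
            apply Finset.sum_le_sum
            intro e _
            rw [← Finset.sum_filter, Finset.sum_const, nsmul_eq_mul]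
            apply mul_le_mul_of_nonneg_right _ (sq_nonneg _)
            exact_mod_cast cell_card α m₁ E (cell α m₁ e)
        _ = _ := by rw [Finset.mul_sum]
    have hTs : ∀ e, TF (fun x => f e x ^ 2) := by
      intro e
      have := (hf e).mul_left (hf e).ct
      simpa [sq] using this
    have hTsum : TF (fun x => 256 ^ m₁ * ∑ e ∈ E, f e x ^ 2) :=
      (TF.sum E _ (fun e _ => hTs e)).mul_left continuous_const
    calc ∫ x, wen ψ α E f m₁ x ≤ ∫ x, 256 ^ m₁ * ∑ e ∈ E, f e x ^ 2 :=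
          integral_mono (wen_TF hψ α E f hf _).int hTsum.int h3
      _ = _ := by
          rw [integral_const_mul, integral_finsetSum _ (fun e _ => (hTs e).int)]
  · calc ∑ m ∈ Finset.Ico m₁ M, ∑ e ∈ E, ∑ e' ∈ E, (if Mg α m e e' then
        |∫ x, (chi ψ α (m + 1) e x * f e x) * (chi ψ α (m + 1) e' x * f e' x)| else 0)
        ≤ ∑ m ∈ Finset.Ico m₁ M, ∑ e ∈ E, ∑ e' ∈ E, (if Mg α m e e' then b e e' else 0) := by
          apply Finset.sum_le_sum
          intro m hm
          apply Finset.sum_le_sum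
          intro e he
          apply Finset.sum_le_sum
          intro e' he'
          split_ifs with h
          · exact hb m (Finset.mem_Ico.1 hm).1 e he e' he' h
          · exact le_rfl
      _ = ∑ e ∈ E, ∑ e' ∈ E, ∑ m ∈ Finset.Ico m₁ M, (if Mg α m e e' then b e e' else 0) := by
          rw [Finset.sum_comm]
          apply Finset.sum_congr rfl
          intro e _
          rw [Finset.sum_comm]
      _ ≤ _ := by
          apply Finset.sum_le_sum
          intro e _
          apply Finset.sum_le_sum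
          intro e' _
          exact merge_once α m₁ M e e' _ (hb0 e e')

end Run7.h58
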