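import Pool.Agent.Run7.h58.CrossPair

open MeasureTheory Finset
open scoped ENNReal RealInnerProductSpace

namespace Run7.h58

theorem int_mul_sum (S S' : Finset I4) (f f' : I4 → V3 → ℝ) (hf : ∀ e, TF (f e))
    (hf' : ∀ e, TF (f' e)) : |∫ x, (∑ e ∈ S, f e x) * (∑ e' ∈ S', f' e' x)| ≤
      ∑ e ∈ S, ∑ e' ∈ S', |∫ x, f e x * f' e' x| := by
  have hm : ∀ e e', TF (fun x => f e x * f' e' x) := fun e e' => (hf' e').mul_left (hf e).ct
  have e1 : ∀ x, (∑ e ∈ S, f e x) * (∑ e' ∈ S', f' e' x) = ∑ e ∈ S, ∑ e' ∈ S', f e x * f' e' x :=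
    fun x => Finset.sum_mul_sum _ _ _ _
  simp only [e1]
  rw [integral_finsetSum _ (fun e _ => (TF.sum S' _ (fun e' _ => hm e e')).int)]
  refine (Finset.abs_sum_le_sum_abs _ _).trans ?_
  apply Finset.sum_le_sum
  intro e _
  rw [integral_finsetSum _ (fun e' _ => (hm e e').int)]
  exact Finset.abs_sum_le_sum_abs _ _

theorem family_GH {Ψ : ℝ → ℝ} (hΨ : Profile Ψ) {y : I4 → V3} {r : I4 → ℝ} (hc : Cfg y r)
    (l : ℕ) (hl : l < 4) (k₀ : ℕ) (hk₀ : 40 ≤ k₀) (E : Finset I4) (n : I4 → ℕ)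
    (hn : ∀ e ∈ E, (2 : ℝ) ^ (n e) ≤ r e ∧ r e ≤ 2 ^ (n e + 1))
    (hnl : ∀ e ∈ E, 4 * k₀ ≤ n e ∧ n e % 4 = l) (a : I4 → ℝ) (ha : ∀ e, |a e| ≤ 1) :
    ∃ G H : V3 → ℝ, TF G ∧ TF H ∧ (∀ x, ∑ e ∈ E, a e * atom Ψ (y e) (r e) x = G x + H x) ∧
      ∫ x, |H x| ≤ 2 ^ 50 * KB * √(t0 ^ k₀) * ∑ e ∈ E, r e ^ 2 ∧
      ∫ x, G x ^ 2 ≤ 2 ^ 67 * KB * 256 ^ (4 * k₀ + 4) * ∑ e ∈ E, r e ^ 2 := by
  classical
  obtain ⟨R, hRdef⟩ : ∃ R : ℕ → ℝ, R = fun κ => 2 ^ (4 * κ + l) := ⟨_, rfl⟩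
  have hRκ1 : ∀ κ, (16 : ℝ) ^ κ ≤ R κ := by
    intro κ
    rw [hRdef]
    have : (16 : ℝ) ^ κ = 2 ^ (4 * κ) := by rw [pow_mul]; norm_num
    rw [this]
    exact pow_le_pow_right₀ (by norm_num) (by omega)
  have hRκ2 : ∀ κ, R κ ≤ 16 ^ (κ + 1) := by
    intro κ
    rw [hRdef]
    have : (16 : ℝ) ^ (κ + 1) = 2 ^ (4 * (κ + 1)) := by rw [pow_mul]; norm_num
    rw [this]
    exact pow_le_pow_right₀ (by norm_num) (by omega)
  have hRpos : ∀ κ, 0 < R κ := fun κ => lt_of_lt_of_le (by positivity) (hRκ1 κ)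
  have hR1 : ∀ κ, 1 ≤ R κ := fun κ => le_trans (one_le_pow₀ (by norm_num)) (hRκ1 κ)
  obtain ⟨Ecl, hEcl⟩ : ∃ Ecl : ℕ → Finset I4, Ecl = fun κ => E.filter (fun e => n e / 4 = κ) :=
    ⟨_, rfl⟩
  obtain ⟨Ep, hEp⟩ : ∃ Ep : ℕ → Finset I4, Ep = fun κ => E.filter (fun e => 8 * R κ ≤ r e) :=
    ⟨_, rfl⟩
  have hmcl : ∀ κ e, e ∈ Ecl κ ↔ e ∈ E ∧ n e / 4 = κ := by
    intro κ e; rw [hEcl, Finset.mem_filter]
  have hmp : ∀ κ e, e ∈ Ep κ ↔ e ∈ E ∧ 8 * R κ ≤ r e := by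
    intro κ e; rw [hEp, Finset.mem_filter]
  have hclR : ∀ κ, ∀ e ∈ Ecl κ, R κ ≤ r e ∧ r e ≤ 2 * R κ := by
    intro κ e he
    rw [hmcl] at he
    obtain ⟨h1, h2⟩ := hn e he.1
    have h3 := (hnl e he.1).2
    have h4 : n e = 4 * κ + l := by omega
    rw [hRdef]
    rw [h4] at h1 h2
    refine ⟨h1, ?_⟩
    rw [pow_succ] at h2
    linarith
  -- the outputs of the classes
  have hout : ∀ κ, ∃ (E₁ E' : Finset I4) (χ : I4 → V3 → ℝ), (k₀ ≤ κ → E₁ ⊆ Ecl κ ∧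
      ∫ x, |∑ e ∈ Ecl κ \ E₁, a e * atom Ψ (y e) (r e) x|
        ≤ 2 ^ 50 * KB * √(t0 ^ k₀) * (#(Ecl κ \ E₁) * R κ ^ 2) ∧
      ClassOut Ψ y r (R κ) (lam k₀) E₁ (Ep κ) k₀ κ a E' χ) ∧ (κ < k₀ → E' = ∅) := by
    intro κ
    by_cases hκ : k₀ ≤ κ
    · obtain ⟨E₁, h1, h2, h3⟩ := dens_decomp hΨ hc (R κ) (hR1 κ) k₀ hk₀ a ha (#(Ecl κ)) (Ecl κ)
        rfl (hclR κ)
      obtain ⟨E', χ, h4⟩ := classX hΨ hc (R κ) (lam k₀) κ k₀ (hRκ1 κ) (hRκ2 κ) hk₀ hκ (lam_ge k₀)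
        E₁ (fun e he => hclR κ e (h1 he)) h2 (Ep κ) (fun e he => ((hmp κ e).1 he).2) a ha
      exact ⟨E₁, E', χ, fun _ => ⟨h1, h3, h4⟩, fun h => absurd hκ (by omega)⟩
    · exact ⟨∅, ∅, fun _ _ => 0, fun h => absurd h hκ, fun _ => rfl⟩
  choose E₁ E' χ hO hO0 using hout
  have hCO : ∀ κ, k₀ ≤ κ → ClassOut Ψ y r (R κ) (lam k₀) (E₁ κ) (Ep κ) k₀ κ a (E' κ) (χ κ) :=
    fun κ hκ => (hO κ hκ).2.2
  obtain ⟨N, hNk, hNE⟩ : ∃ N, k₀ ≤ N ∧ ∀ e ∈ E, n e / 4 < N := by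
    refine ⟨max (E.sup (fun e => n e / 4) + 1) k₀, le_max_right _ _, ?_⟩
    intro e he
    have := Finset.le_sup (f := fun e => n e / 4) he
    have h2 : E.sup (fun e => n e / 4) + 1 ≤ max (E.sup (fun e => n e / 4) + 1) k₀ := le_max_left _ _
    omega
  -- the pieces
  obtain ⟨f, hf⟩ : ∃ f : ℕ → I4 → V3 → ℝ, f = fun κ e x =>
    if k₀ ≤ κ then χ κ e x * (a e * atom Ψ (y e) (r e) x) else 0 := ⟨_, rfl⟩
  have hfT : ∀ κ e, TF (f κ e) := by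
    intro κ e
    rw [hf]
    by_cases h : k₀ ≤ κ
    · simp only [if_pos h]
      exact (atom_TF hΨ (a e) (y e) (r e)).mul_left ((hCO κ h).cont e)
    · simp only [if_neg h]; exact TF.zero
  obtain ⟨g, hg⟩ : ∃ g : ℕ → V3 → ℝ, g = fun κ x => ∑ e ∈ E' κ, f κ e x := ⟨_, rfl⟩
  have hgT : ∀ κ, TF (g κ) := by
    intro κ; rw [hg]; exact TF.sum _ _ (fun e _ => hfT κ e)
  have hgx : ∀ κ, k₀ ≤ κ → ∀ x, g κ x = ∑ e ∈ E' κ, χ κ e x * (a e * atom Ψ (y e) (r e) x) := by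
    intro κ hκ x
    rw [hg, hf]
    simp only [if_pos hκ]
  obtain ⟨h, hh⟩ : ∃ h : ℕ → V3 → ℝ, h = fun κ x =>
    (∑ e ∈ Ecl κ \ E₁ κ, a e * atom Ψ (y e) (r e) x) +
      ((∑ e ∈ E₁ κ, a e * atom Ψ (y e) (r e) x) - g κ x) := ⟨_, rfl⟩
  have hhT2 : ∀ κ, TF (fun x => (∑ e ∈ E₁ κ, a e * atom Ψ (y e) (r e) x) - g κ x) := by
    intro κ
    have h1 := (part_TF hΨ y r (E₁ κ) a).add ((hgT κ).const_mul (-1))
    have : (fun x => (∑ e ∈ E₁ κ, a e * atom Ψ (y e) (r e) x) - g κ x) =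
        fun x => (∑ e ∈ E₁ κ, a e * atom Ψ (y e) (r e) x) + -1 * g κ x := by
      ext x; ring
    rw [this]; exact h1
  have hhT : ∀ κ, TF (h κ) := by
    intro κ
    rw [hh]
    exact (part_TF hΨ y r (Ecl κ \ E₁ κ) a).add (hhT2 κ)
  have hKB := KB_ge
  have ht0 : 0 < t0 ^ k₀ := dl_pos k₀
  have ht1 : t0 ^ k₀ ≤ 1 := dl_le k₀
  have hs0 : 0 < √(t0 ^ k₀) := Real.sqrt_pos.2 ht0
  have hst : t0 ^ k₀ ≤ √(t0 ^ k₀) := by
    apply Real.le_sqrt_of_sq_le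
    nlinarith
  have hfib : ∀ w : I4 → ℝ, ∑ e ∈ E, w e = ∑ κ ∈ Finset.Ico k₀ N, ∑ e ∈ Ecl κ, w e := by
    intro w
    rw [hEcl]
    rw [Finset.sum_fiberwise_of_maps_to]
    intro e he
    rw [Finset.mem_Ico]
    have h1 := (hnl e he).1
    have h2 := hNE e he
    constructor
    · omega
    · exact h2
  have hcardX : ∀ κ, (#(Ecl κ) : ℝ) * R κ ^ 2 ≤ ∑ e ∈ Ecl κ, r e ^ 2 := by
    intro κ
    rw [← nsmul_eq_mul, ← Finset.sum_const]
    apply Finset.sum_le_sum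
    intro e he
    exact pow_le_pow_left₀ (hRpos κ).le (hclR κ e he).1 2
  set X : ℝ := ∑ e ∈ E, r e ^ 2 with hX
  have hX0 : 0 ≤ X := Finset.sum_nonneg (fun _ _ => sq_nonneg _)
  have hXfib : X = ∑ κ ∈ Finset.Ico k₀ N, ∑ e ∈ Ecl κ, r e ^ 2 := hfib (fun e => r e ^ 2)
  refine ⟨fun x => ∑ κ ∈ Finset.Ico k₀ N, g κ x, fun x => ∑ κ ∈ Finset.Ico k₀ N, h κ x,
    TF.sum _ _ (fun κ _ => hgT κ), TF.sum _ _ (fun κ _ => hhT κ), ?_, ?_, ?_⟩
  · intro x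
    rw [hfib (fun e => a e * atom Ψ (y e) (r e) x), ← Finset.sum_add_distrib]
    apply Finset.sum_congr rfl
    intro κ hκ
    rw [Finset.mem_Ico] at hκ
    rw [hh]
    simp only
    rw [← Finset.sum_sdiff (hO κ hκ.1).1]
    ring
  · -- loss
    refine (int_abs_sum _ _ hhT).trans ?_
    rw [hXfib, Finset.mul_sum]
    apply Finset.sum_le_sum
    intro κ hκ
    rw [Finset.mem_Ico] at hκ
    obtain ⟨hs, hl1, hco⟩ := hO κ hκ.1
    have h1 : ∫ x, |h κ x| ≤ (∫ x, |∑ e ∈ Ecl κ \ E₁ κ, a e * atom Ψ (y e) (r e) x|) +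
        ∫ x, |(∑ e ∈ E₁ κ, a e * atom Ψ (y e) (r e) x) - g κ x| := by
      rw [hh]
      exact int_abs_add (part_TF hΨ y r (Ecl κ \ E₁ κ) a) (hhT2 κ)
    have h2 := hco.loss
    have h3 : ∫ x, |(∑ e ∈ E₁ κ, a e * atom Ψ (y e) (r e) x) - g κ x| ≤
        2 ^ 21 * KB * t0 ^ k₀ * (#(E₁ κ) * R κ ^ 2) := by
      have : ∀ x, g κ x = ∑ e ∈ E' κ, χ κ e x * (a e * atom Ψ (y e) (r e) x) := hgx κ hκ.1
      simp only [this]
      exact h2
    have hc1 : (#(Ecl κ \ E₁ κ) : ℝ) + #(E₁ κ) = #(Ecl κ) := by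
      exact_mod_cast Finset.card_sdiff_add_card_eq_card hs
    set P : ℝ := (#(Ecl κ \ E₁ κ) : ℝ) * R κ ^ 2 with hP
    set Q : ℝ := (#(E₁ κ) : ℝ) * R κ ^ 2 with hQ
    have hP0 : 0 ≤ P := by positivity
    have hQ0 : 0 ≤ Q := by positivity
    have hPQ : P + Q ≤ ∑ e ∈ Ecl κ, r e ^ 2 := by
      refine le_trans (le_of_eq ?_) (hcardX κ)
      rw [hP, hQ, ← add_mul, hc1]
    have h4 : KB * t0 ^ k₀ * Q ≤ KB * √(t0 ^ k₀) * Q := by
      apply mul_le_mul_of_nonneg_right _ hQ0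
      exact mul_le_mul_of_nonneg_left hst (by linarith)
    have h5 : 0 ≤ KB * √(t0 ^ k₀) * Q := by positivity
    have h6 : 2 ^ 50 * KB * √(t0 ^ k₀) * (P + Q) ≤
        2 ^ 50 * KB * √(t0 ^ k₀) * ∑ e ∈ Ecl κ, r e ^ 2 :=
      mul_le_mul_of_nonneg_left hPQ (by positivity)
    linarith
  · -- energy
    refine (sq_classes g hgT k₀ N hNk).trans ?_
    have hdiag : ∑ κ ∈ Finset.Ico k₀ N, ∫ x, g κ x ^ 2 ≤ 2 ^ 41 * 256 ^ (4 * k₀ + 4) * X := by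
      rw [hXfib, Finset.mul_sum]
      apply Finset.sum_le_sum
      intro κ hκ
      rw [Finset.mem_Ico] at hκ
      obtain ⟨hs, hl1, hco⟩ := hO κ hκ.1
      have h2 := hco.energy
      rw [lam_t0] at h2
      simp only [hgx κ hκ.1]
      refine h2.trans ?_
      have h5 : (#(E₁ κ) : ℝ) ≤ #(Ecl κ) := by exact_mod_cast Finset.card_le_card hs
      have h6 : (#(E₁ κ) : ℝ) * R κ ^ 2 ≤ ∑ e ∈ Ecl κ, r e ^ 2 :=
        (mul_le_mul_of_nonneg_right h5 (by positivity)).trans (hcardX κ)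
      have h7 : (0 : ℝ) < 256 ^ (4 * k₀ + 4) := by positivity
      calc 2 ^ 40 * (256 ^ (4 * k₀ + 4) + 256 ^ (4 * k₀ + 4)) * ((#(E₁ κ) : ℝ) * R κ ^ 2)
          = 2 ^ 41 * 256 ^ (4 * k₀ + 4) * ((#(E₁ κ) : ℝ) * R κ ^ 2) := by ring
        _ ≤ _ := mul_le_mul_of_nonneg_left h6 (by positivity)
    have hcross : ∀ κ ∈ Finset.Ico k₀ N, ∑ κ' ∈ Finset.Ico (κ + 1) N, |∫ x, g κ x * g κ' x| ≤
        (2 ^ 60 * KB * lam k₀ * X) * (19 / 20) ^ κ := by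
      intro κ hκ
      rw [Finset.mem_Ico] at hκ
      obtain ⟨hs, hl1, hco⟩ := hO κ hκ.1
      obtain ⟨b, hb⟩ : ∃ b : I4 → I4 → ℝ, b = fun e e' =>
        (if NTC y r κ (χ κ e) e e' then 2 ^ 8 * R κ else 0) +
        (if CT y r e e' then 2 ^ 29 * R κ * (19 / 20) ^ κ else 0) := ⟨_, rfl⟩
      have hRp := hRpos κ
      have hb0 : ∀ e e', 0 ≤ b e e' := by
        intro e e'
        rw [hb]
        exact add_nonneg (by split_ifs <;> positivity) (by split_ifs <;> positivity)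
      have hEpsub : ∀ κ' ∈ Finset.Ico (κ + 1) N, E' κ' ⊆ (Ep κ).filter (fun e => n e / 4 = κ') := by
        intro κ' hκ' e he
        rw [Finset.mem_Ico] at hκ'
        have hk' : k₀ ≤ κ' := by omega
        have h1 : e ∈ Ecl κ' := (hO κ' hk').1 ((hCO κ' hk').sub he)
        have h2 := hclR κ' e h1
        rw [Finset.mem_filter, hmp]
        refine ⟨⟨((hmcl κ' e).1 h1).1, ?_⟩, ((hmcl κ' e).1 h1).2⟩
        refine le_trans ?_ h2.1
        rw [hRdef]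
        simp only
        have : (8 : ℝ) * 2 ^ (4 * κ + l) = 2 ^ (4 * κ + l + 3) := by rw [pow_add _ (4 * κ + l) 3]; ring
        rw [this]
        exact pow_le_pow_right₀ (by norm_num) (by omega)
      have hpair : ∀ κ' ∈ Finset.Ico (κ + 1) N, |∫ x, g κ x * g κ' x| ≤
          ∑ e ∈ E' κ, ∑ e' ∈ E' κ', b e e' := by
        intro κ' hκ'
        have hsub' := hEpsub κ' hκ'
        rw [Finset.mem_Ico] at hκ'
        have hk' : k₀ ≤ κ' := by omega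
        rw [hg]
        refine (int_mul_sum (E' κ) (E' κ') (f κ) (f κ') (hfT κ) (hfT κ')).trans ?_
        apply Finset.sum_le_sum
        intro e he
        apply Finset.sum_le_sum
        intro e' he'
        have h1 := hclR κ e (hs (hco.sub he))
        have h2 := hsub' he'
        rw [Finset.mem_filter, hmp] at h2
        have h3 := cross_pair (y := y) hΨ (R κ) κ (hk₀.trans hκ.1) (hRκ1 κ) (hRκ2 κ) e e' h1.1 h1.2
          h2.1.2 (χ κ e) (χ κ' e') (hco.nn e) (hco.le1 e) ((hCO κ' hk').nn e')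
          ((hCO κ' hk').le1 e') (hco.lip e) (fun x z => ((hCO κ' hk').lip e' x z).trans
            (mul_le_mul_of_nonneg_right (Lc_anti (by omega)) (norm_nonneg _)))
          (a e) (a e') (ha e) (ha e')
        rw [hf, hb]
        simp only [if_pos hκ.1, if_pos hk']
        exact h3
      refine (Finset.sum_le_sum hpair).trans ?_
      rw [Finset.sum_comm]
      have h4 : ∀ e ∈ E' κ, ∑ κ' ∈ Finset.Ico (κ + 1) N, ∑ e' ∈ E' κ', b e e' ≤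
          ∑ e' ∈ Ep κ, b e e' := by
        intro e _
        have h5 : ∑ κ' ∈ Finset.Ico (κ + 1) N, ∑ e' ∈ E' κ', b e e' ≤
            ∑ κ' ∈ Finset.Ico (κ + 1) N, ∑ e' ∈ (Ep κ).filter (fun e => n e / 4 = κ'), b e e' := by
          apply Finset.sum_le_sum
          intro κ' hκ'
          exact Finset.sum_le_sum_of_subset_of_nonneg (hEpsub κ' hκ') (fun _ _ _ => hb0 _ _)
        refine h5.trans ?_
        apply Finset.sum_fiberwise_le_sum_of_sum_fiber_nonneg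
        intro κ' _
        exact Finset.sum_nonneg (fun _ _ => hb0 _ _)
      refine (Finset.sum_le_sum h4).trans ?_
      have h6 : ∑ e ∈ E' κ, ∑ e' ∈ Ep κ, b e e' =
          2 ^ 8 * ((∑ e ∈ E' κ, (#{e' ∈ Ep κ | NTC y r κ (χ κ e) e e'} : ℝ)) * R κ) +
          2 ^ 29 * (19 / 20) ^ κ * ((∑ e ∈ E' κ, (#{e' ∈ Ep κ | CT y r e e'} : ℝ)) * R κ) := by
        rw [hb]
        simp only [Finset.sum_add_distrib, ← Finset.sum_filter, Finset.sum_const, nsmul_eq_mul]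
        rw [Finset.sum_mul, Finset.sum_mul, Finset.mul_sum, Finset.mul_sum]
        congr 1
        · apply Finset.sum_congr rfl
          intro e _; ring
        · apply Finset.sum_congr rfl
          intro e _; ring
      rw [h6]
      have h7 := hco.ntc
      have h8 := hco.ct
      have hlam := lam_pos k₀
      have h9 : ∑ e' ∈ Ep κ, r e' ^ 2 ≤ X := by
        rw [hX, hEp]
        exact Finset.sum_le_sum_of_subset_of_nonneg (Finset.filter_subset _ _)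
          (fun _ _ _ => sq_nonneg _)
      set Xp : ℝ := ∑ e' ∈ Ep κ, r e' ^ 2 with hXp
      set gk : ℝ := (19 / 20) ^ κ with hgk
      have hgk0 : 0 < gk := by rw [hgk]; positivity
      set A1 : ℝ := (∑ e ∈ E' κ, (#{e' ∈ Ep κ | NTC y r κ (χ κ e) e e'} : ℝ)) * R κ with hA1
      set A2 : ℝ := (∑ e ∈ E' κ, (#{e' ∈ Ep κ | CT y r e e'} : ℝ)) * R κ with hA2
      have i1 : KB * lam k₀ * gk * Xp ≤ KB * lam k₀ * gk * X :=
        mul_le_mul_of_nonneg_left h9 (by positivity)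
      have i2 : lam k₀ * Xp ≤ lam k₀ * X := mul_le_mul_of_nonneg_left h9 hlam.le
      have i3 : 1 * (lam k₀ * gk * X) ≤ KB * (lam k₀ * gk * X) :=
        mul_le_mul_of_nonneg_right hKB (by positivity)
      have i4 : 0 ≤ KB * lam k₀ * gk * X := by positivity
      have i5 : gk * A2 ≤ gk * (2 ^ 30 * (lam k₀ * X)) := by
        apply mul_le_mul_of_nonneg_left _ hgk0.le
        linarith
      have i6 : A1 ≤ 2 ^ 42 * (KB * lam k₀ * gk * X) := by linarith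
      have i7 : 2 ^ 8 * A1 ≤ 2 ^ 50 * (KB * lam k₀ * gk * X) := by linarith
      have i8 : 2 ^ 29 * gk * A2 ≤ 2 ^ 59 * (KB * lam k₀ * gk * X) := by linarith
      linarith
    have hcr2 : ∑ κ ∈ Finset.Ico k₀ N, ∑ κ' ∈ Finset.Ico (κ + 1) N, |∫ x, g κ x * g κ' x| ≤
        2 ^ 65 * KB * 256 ^ (4 * k₀ + 4) * X := by
      refine (Finset.sum_le_sum hcross).trans ?_
      rw [← Finset.mul_sum]
      have h1 := geom_sum_Ico_le_of_lt_one (x := (19 / 20 : ℝ)) (m := k₀) (n := N) (by norm_num)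
        (by norm_num)
      have h2 : ((19 : ℝ) / 20) ^ k₀ / (1 - 19 / 20) = 20 * (19 / 20) ^ k₀ := by
        have : (1 : ℝ) - 19 / 20 = 1 / 20 := by norm_num
        rw [this]; ring
      rw [h2] at h1
      have hlam := lam_pos k₀
      have h3 : ((19 : ℝ) / 20) ^ k₀ ≤ t0 ^ k₀ := pow_le_pow_left₀ (by norm_num)
        (by unfold t0; norm_num) k₀
      have h4 : (2 ^ 60 * KB * lam k₀ * X) * ∑ κ ∈ Finset.Ico k₀ N, ((19 : ℝ) / 20) ^ κ ≤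
          (2 ^ 60 * KB * lam k₀ * X) * (20 * t0 ^ k₀) := by
        apply mul_le_mul_of_nonneg_left _ (by positivity)
        linarith
      refine h4.trans ?_
      have h5 : (2 ^ 60 * KB * lam k₀ * X) * (20 * t0 ^ k₀) =
          20 * 2 ^ 60 * (KB * (lam k₀ * t0 ^ k₀) * X) := by ring
      rw [h5, lam_t0]
      have h6 : 0 ≤ KB * 256 ^ (4 * k₀ + 4) * X := by positivity
      linarith
    have h256 : 0 ≤ (256 : ℝ) ^ (4 * k₀ + 4) * X := by positivity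
    have h10 : 1 * ((256 : ℝ) ^ (4 * k₀ + 4) * X) ≤ KB * (256 ^ (4 * k₀ + 4) * X) :=
      mul_le_mul_of_nonneg_right hKB h256
    have h11 : 0 ≤ KB * ((256 : ℝ) ^ (4 * k₀ + 4) * X) := by positivity
    linarith

end Run7.h58
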