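import Pool.Agent.Run7.h58.Reduce2

open MeasureTheory Set Filter Topology
open scoped ENNReal RealInnerProductSpace MeasureTheory NNReal FourierTransform SchwartzMap

namespace Run7.h58

theorem p_small (p : ℝ) (hp : 1 < p) (hp1 : p ≤ 1 + 1 / 200000) :
    (2 : ℝ) ^ p * tht < 2 ∧ (2 : ℝ) ^ p ≤ 5 / 2 := by
  have h1 : (2 : ℝ) ^ p ≤ 2 ^ (1 + 1 / 200000 : ℝ) :=
    Real.rpow_le_rpow_of_exponent_le (by norm_num) hp1
  have h2 : (2 : ℝ) ^ (1 + 1 / 200000 : ℝ) = 2 * 2 ^ (1 / 200000 : ℝ) := by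
    rw [Real.rpow_add (by norm_num), Real.rpow_one]
  have h3 : (2 : ℝ) < (200000 / 199999 : ℝ) ^ (200000 : ℝ) := by
    have := one_add_mul_self_le_rpow_one_add (s := 1 / 199999) (by norm_num) (p := 200000)
      (by norm_num)
    have e : (1 : ℝ) + 1 / 199999 = 200000 / 199999 := by norm_num
    rw [e] at this
    refine lt_of_lt_of_le ?_ this
    norm_num
  have h4 : (2 : ℝ) ^ (1 / 200000 : ℝ) < 200000 / 199999 := by
    have h5 := Real.rpow_lt_rpow (by norm_num : (0 : ℝ) ≤ 2) h3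
      (by norm_num : (0 : ℝ) < 1 / 200000)
    rw [← Real.rpow_mul (by norm_num)] at h5
    norm_num at h5 ⊢
    exact h5
  constructor
  · calc (2 : ℝ) ^ p * tht ≤ (2 * 2 ^ (1 / 200000 : ℝ)) * tht := by
          rw [← h2]
          apply mul_le_mul_of_nonneg_right h1
          unfold tht; norm_num
      _ < (2 * (200000 / 199999)) * tht := by
          apply mul_lt_mul_of_pos_right _ (by unfold tht; norm_num)
          linarith
      _ = 2 := by unfold tht; norm_num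
  · calc (2 : ℝ) ^ p ≤ 2 * 2 ^ (1 / 200000 : ℝ) := by rw [← h2]; exact h1
      _ ≤ 2 * (200000 / 199999) := by linarith
      _ ≤ 5 / 2 := by norm_num

/-- the vanishing hypothesis in terms of the Fourier transform -/
theorem ft_zero (η : 𝓢(V3, ℂ)) (ε : ℝ) (h : ∀ ξ : V3, ‖ξ‖ < ε →
      ∫ x : V3, Complex.exp (-(2 * (Real.pi : ℂ) * Complex.I * ((inner ℝ x ξ : ℝ) : ℂ))) * η x = 0) :
    ∀ ξ : V3, ‖ξ‖ < ε → 𝓕 η ξ = 0 := by
  intro ξ hξ
  rw [SchwartzMap.fourier_coe, Real.fourier_eq', ← h ξ hξ]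
  congr 1
  ext x
  rw [smul_eq_mul]
  congr 2
  push_cast
  ring

end Run7.h58
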