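import Pool.Agent.Run7.h58.AllGH
import Pool.Agent.Run7.h58.Pzero

open MeasureTheory Finset
open scoped ENNReal RealInnerProductSpace

namespace Run7.h58

/-- discrete inequality for all radii at least one -/
theorem disc_full (p : ℝ) (hp : 1 < p) (hpϑ : (2 : ℝ) ^ p * tht < 2)
    (hp2 : (2 : ℝ) ^ p ≤ 5 / 2) : ∃ C : ℝ, 0 ≤ C ∧ ∀ (Ψ : ℝ → ℝ), Profile Ψ →
      ∀ (a : V3) (b : ℝ) (E : Finset I4), (∀ e ∈ E, 1 ≤ rv b e) →
      ∀ c : I4 → ℂ, ∫⁻ x, ‖∑ e ∈ E, c e * (atom Ψ (yv a e) (rv b e) x : ℂ)‖ₑ ^ p ≤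
        ENNReal.ofReal (C * ∑ e ∈ E, ‖c e‖ ^ p * rv b e ^ 2) := by
  obtain ⟨Q0, hQ0⟩ : ∃ Q0 : ℝ, Q0 = 256 ^ 164 := ⟨_, rfl⟩
  have hQ01 : 1 ≤ Q0 := by rw [hQ0]; exact one_le_pow₀ (by norm_num)
  have hKB := KB_ge
  set A : ℝ := 2 ^ 70 * KB * Q0 with hA
  have hA0 : 0 ≤ A := by positivity
  have hA48 : 48 ≤ A := by
    have : 1 * 1 ≤ KB * Q0 := mul_le_mul hKB hQ01 (by norm_num) (by linarith)
    rw [hA]; nlinarith
  set C0 : ℝ := ∑' j, kap A ((2 : ℝ) ^ p) tht j with hC0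
  have ht : 0 < tht := by unfold tht; norm_num
  have hC0nn : 0 ≤ C0 := tsum_nonneg (kap_nonneg A _ tht hA0 (by positivity) ht.le)
  refine ⟨2 ^ p * 2 * C0, by positivity, ?_⟩
  intro Ψ hΨ a b E hE c
  have hcfg := cfg_lattice a b
  refine complexify (fun e => atom Ψ (yv a e) (rv b e))
    (fun e => ⟨atom_cont hΨ _ _, atom_hcs hΨ _ _⟩) (fun e => rv b e ^ 2) (fun e => sq_nonneg _)
    p hp.le C0 hC0nn E ?_ c
  refine interp (fun e => atom Ψ (yv a e) (rv b e))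
    (fun e => ⟨atom_cont hΨ _ _, atom_hcs hΨ _ _⟩) (fun e => rv b e ^ 2) (fun e => sq_nonneg _)
    {e | 1 ≤ rv b e} A tht hA0 ht ?_ ?_ p hp hpϑ hp2 E hE
  · intro e he
    have h1 := atom_l1 hΨ (yv a e) (rv b e) he (fun _ => 1) (fun _ => by simp)
    simp only [one_mul] at h1
    refine h1.trans ?_
    apply mul_le_mul_of_nonneg_right _ (sq_nonneg _)
    have := Real.pi_lt_four
    linarith
  · intro j E' hE' av hav
    obtain ⟨G, H, hG, hH, hsum, hHb, hGb⟩ := all_GH hΨ hcfg (40 + j / 100) (by omega) E' hE' av hav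
    obtain ⟨hr1, hr2⟩ := conv_rate j
    have hX0 : 0 ≤ ∑ e ∈ E', rv b e ^ 2 := Finset.sum_nonneg (fun _ _ => sq_nonneg _)
    refine ⟨G, H, hG, hH, hsum, ?_, ?_⟩
    · refine hHb.trans ?_
      have hj : 0 < tht ^ j := by positivity
      calc 2 ^ 50 * KB * √(t0 ^ (40 + j / 100)) * (∑ e ∈ E', rv b e ^ 2)
          ≤ 2 ^ 50 * KB * (2 * tht ^ j) * (∑ e ∈ E', rv b e ^ 2) := by
            apply mul_le_mul_of_nonneg_right _ hX0
            exact mul_le_mul_of_nonneg_left hr1 (by positivity)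
        _ ≤ A * tht ^ j * ∑ e ∈ E', rv b e ^ 2 := by
            apply mul_le_mul_of_nonneg_right _ hX0
            rw [hA]
            have h1 : 1 * (KB * tht ^ j) ≤ Q0 * (KB * tht ^ j) :=
              mul_le_mul_of_nonneg_right hQ01 (by positivity)
            have h2 : 0 ≤ Q0 * (KB * tht ^ j) := by positivity
            linarith
    · refine hGb.trans ?_
      have hj : (0 : ℝ) < (5 / 4) ^ j := by positivity
      rw [← hQ0] at hr2
      calc 2 ^ 70 * KB * 256 ^ (4 * (40 + j / 100) + 4) * (∑ e ∈ E', rv b e ^ 2)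
          ≤ 2 ^ 70 * KB * (Q0 * (5 / 4) ^ j) * (∑ e ∈ E', rv b e ^ 2) := by
            apply mul_le_mul_of_nonneg_right _ hX0
            exact mul_le_mul_of_nonneg_left hr2 (by positivity)
        _ = A * (5 / 4) ^ j * ∑ e ∈ E', rv b e ^ 2 := by rw [hA]; ring

end Run7.h58
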