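import Pool.Agent.Run7.h58.Param

open MeasureTheory Set
open scoped ENNReal RealInnerProductSpace MeasureTheory NNReal Pointwise

namespace Run7.h58

/-- spherical coordinates on the unit sphere -/
noncomputable def Phi (p : Fin 2 → ℝ) : V3 :=
  !₂[Real.sin (p 0) * Real.cos (p 1), Real.sin (p 0) * Real.sin (p 1), Real.cos (p 0)]

lemma Phi_lip : LipschitzWith 4 Phi := by
  apply LipschitzWith.of_dist_le_mul
  intro p q
  have h0 : |p 0 - q 0| ≤ dist p q := by
    have := dist_le_pi_dist p q 0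
    rwa [Real.dist_eq] at this
  have h1 : |p 1 - q 1| ≤ dist p q := by
    have := dist_le_pi_dist p q 1
    rwa [Real.dist_eq] at this
  set d := dist p q with hd
  have hd0 : 0 ≤ d := dist_nonneg
  have hs0 := Real.abs_sin_sub_sin_le (p 0) (q 0)
  have hs1 := Real.abs_sin_sub_sin_le (p 1) (q 1)
  have hc0 := Real.abs_cos_sub_cos_le (p 0) (q 0)
  have hc1 := Real.abs_cos_sub_cos_le (p 1) (q 1)
  have prod : ∀ a a' b b' : ℝ, |a| ≤ 1 → |b'| ≤ 1 → |a - a'| ≤ d → |b - b'| ≤ d →
      |a * b - a' * b'| ≤ 2 * d := by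
    intro a a' b b' ha hb' h1 h2
    have e : a * b - a' * b' = a * (b - b') + (a - a') * b' := by ring
    rw [e]
    refine (abs_add_le _ _).trans ?_
    rw [abs_mul, abs_mul]
    have i1 : |a| * |b - b'| ≤ 1 * d := mul_le_mul ha h2 (abs_nonneg _) zero_le_one
    have i2 : |a - a'| * |b'| ≤ d * 1 := mul_le_mul h1 hb' (abs_nonneg _) hd0
    linarith
  have k0 := prod (Real.sin (p 0)) (Real.sin (q 0)) (Real.cos (p 1)) (Real.cos (q 1))
    (Real.abs_sin_le_one _) (Real.abs_cos_le_one _) (hs0.trans h0) (hc1.trans h1)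
  have k1 := prod (Real.sin (p 0)) (Real.sin (q 0)) (Real.sin (p 1)) (Real.sin (q 1))
    (Real.abs_sin_le_one _) (Real.abs_sin_le_one _) (hs0.trans h0) (hs1.trans h1)
  have k2 : |Real.cos (p 0) - Real.cos (q 0)| ≤ d := hc0.trans h0
  rw [EuclideanSpace.dist_eq, Fin.sum_univ_three]
  simp only [Phi, Real.dist_eq, sq_abs]
  show Real.sqrt _ ≤ (4 : ℝ) * d
  apply Real.sqrt_le_iff.2 ⟨by positivity, ?_⟩
  have j0 := sq_le_sq' (neg_le_of_abs_le k0) (le_of_abs_le k0)
  have j1 := sq_le_sq' (neg_le_of_abs_le k1) (le_of_abs_le k1)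
  have j2 := sq_le_sq' (neg_le_of_abs_le k2) (le_of_abs_le k2)
  simp only [Matrix.cons_val_zero, Matrix.cons_val_one, Matrix.cons_val]
  nlinarith

lemma Sp_subset : Metric.sphere (0 : V3) 1 ⊆ Phi '' (Set.Icc (fun _ => -4) (fun _ => 4)) := by
  intro x hx
  have hx' : ‖x‖ = 1 := by simpa using hx
  have h1 : x 0 ^ 2 + x 1 ^ 2 + x 2 ^ 2 = 1 := by
    have h : ‖x‖ ^ 2 = 1 := by rw [hx']; norm_num
    rw [EuclideanSpace.norm_sq_eq, Fin.sum_univ_three] at h
    simpa using h
  set θ := Real.arccos (x 2) with hθ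
  have hc : Real.cos θ = x 2 := Real.cos_arccos
    (by nlinarith [sq_nonneg (x 0), sq_nonneg (x 1)]) (by nlinarith [sq_nonneg (x 0), sq_nonneg (x 1)])
  set ζ : ℂ := ⟨x 0, x 1⟩ with hζ
  have hs : Real.sin θ = ‖ζ‖ := by
    rw [hθ, Real.sin_arccos, Complex.norm_eq_sqrt_sq_add_sq]
    congr 1
    simp only [hζ]
    linarith
  refine ⟨fun i => if i = 0 then θ else ζ.arg, ?_, ?_⟩
  · constructor
    · intro i
      show (-4 : ℝ) ≤ if i = 0 then θ else ζ.arg
      split_ifs
      · linarith [Real.arccos_nonneg (x 2)]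
      · linarith [Complex.neg_pi_lt_arg ζ, Real.pi_lt_four]
    · intro i
      show (if i = 0 then θ else ζ.arg) ≤ (4 : ℝ)
      split_ifs
      · linarith [Real.arccos_le_pi (x 2), Real.pi_lt_four]
      · linarith [Complex.arg_le_pi ζ, Real.pi_lt_four]
  · ext i
    fin_cases i
    · simp only [Phi]
      simp
      rw [hs, Complex.norm_mul_cos_arg]
    · simp only [Phi]
      simp
      rw [hs, Complex.norm_mul_sin_arg]
    · simp only [Phi]
      simp
      exact hc

lemma muSp_lt_top : μH[2] (Metric.sphere (0 : V3) 1) < ⊤ := by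
  have h1 := Phi_lip.hausdorffMeasure_image_le (d := 2) (by norm_num)
    (Set.Icc (fun _ => -4) (fun _ => 4))
  have h2 : μH[2] (Set.Icc (fun _ : Fin 2 => (-4 : ℝ)) (fun _ => 4)) < ⊤ := by
    have : (μH[2] : Measure (Fin 2 → ℝ)) = volume := by
      have := hausdorffMeasure_pi_real (ι := Fin 2)
      simpa using this
    rw [this]
    exact isCompact_Icc.measure_lt_top
  refine lt_of_le_of_lt ((measure_mono Sp_subset).trans h1) ?_
  refine ENNReal.mul_lt_top ?_ h2
  exact ENNReal.rpow_lt_top_of_nonneg (by norm_num) (by simp)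

/-- surface measure on the sphere of radius `r` -/
noncomputable def sg (r : ℝ) : Measure V3 := (μH[2]).restrict (Metric.sphere (0 : V3) r)

/-- area of the unit sphere -/
noncomputable def m1 : ℝ := (μH[2] (Metric.sphere (0 : V3) 1)).toReal

theorem sphere_scale (r : ℝ) (hr : 0 < r) :
    μH[2] (Metric.sphere (0 : V3) r) = ENNReal.ofReal (r ^ 2 * m1) := by
  have h1 : Metric.sphere (0 : V3) r = r • Metric.sphere (0 : V3) 1 := by
    rw [smul_sphere' hr.ne', smul_zero, mul_one, Real.norm_of_nonneg hr.le]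
  rw [h1, Measure.hausdorffMeasure_smul₀ (by norm_num) hr.ne']
  have h2 : (‖r‖₊ ^ (2 : ℝ) : ℝ≥0) = Real.toNNReal (r ^ 2) := by
    apply NNReal.eq
    rw [NNReal.coe_rpow, coe_nnnorm, Real.norm_of_nonneg hr.le, Real.coe_toNNReal _ (by positivity)]
    norm_num
  rw [h2, m1, ENNReal.ofReal_mul (by positivity), ENNReal.ofReal_toReal muSp_lt_top.ne]
  rfl

theorem sg_finite (r : ℝ) (hr : 0 < r) : IsFiniteMeasure (sg r) := by
  constructor
  rw [sg, Measure.restrict_apply_univ, sphere_scale r hr]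
  exact ENNReal.ofReal_lt_top

theorem sg_mass (r : ℝ) (hr : 0 < r) : (sg r).real univ = r ^ 2 * m1 := by
  rw [Measure.real, sg, Measure.restrict_apply_univ, sphere_scale r hr,
    ENNReal.toReal_ofReal]
  have : 0 ≤ m1 := ENNReal.toReal_nonneg
  positivity

theorem sg_supp (r : ℝ) : ∀ᵐ y ∂(sg r), ‖y‖ = r := by
  have h := ae_restrict_mem (μ := (μH[2] : Measure V3)) (s := Metric.sphere (0 : V3) r)
    Metric.isClosed_sphere.measurableSet
  filter_upwards [h] with y hy
  simpa using hy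

theorem sg_inv (r : ℝ) (U : V3 ≃ₗᵢ[ℝ] V3) : MeasurePreserving U (sg r) (sg r) := by
  have h1 : MeasurePreserving U (μH[2] : Measure V3) μH[2] :=
    U.toIsometryEquiv.measurePreserving_hausdorffMeasure 2
  have h2 := h1.restrict_preimage (s := Metric.sphere (0 : V3) r)
    Metric.isClosed_sphere.measurableSet
  have h3 : U ⁻¹' Metric.sphere (0 : V3) r = Metric.sphere (0 : V3) r := by
    ext y
    simp
  rw [h3] at h2
  exact h2

/-- radial cosine integrals -/
theorem rad_cos (ξ : V3) (hξ : ξ ≠ 0) (ρ : ℝ → ℝ)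
    (hF : Integrable (fun w : V3 => ρ ‖w‖ * Real.cos (2 * Real.pi * ⟪w, ξ⟫))) :
    ∫ w : V3, ρ ‖w‖ * Real.cos (2 * Real.pi * ⟪w, ξ⟫)
      = ∫ R in Ioi (0 : ℝ), ρ R * (2 * R / ‖ξ‖ * Real.sin (2 * Real.pi * ‖ξ‖ * R)) := by
  have hl : 0 < ‖ξ‖ := norm_pos_iff.2 hξ
  set l := ‖ξ‖ with hld
  have hpi := Real.pi_pos
  obtain ⟨b, hb⟩ := exists_basis (l⁻¹ • ξ) (by
    rw [norm_smul, norm_inv, Real.norm_of_nonneg hl.le, ← hld, inv_mul_cancel₀ hl.ne'])
  have hξb : ξ = l • b 2 := by rw [hb, smul_smul, mul_inv_cancel₀ hl.ne', one_smul]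
  rw [int_sph b 0 _ hF]
  apply setIntegral_congr_fun measurableSet_Ioi
  intro R hR
  simp only [mem_Ioi] at hR
  simp only
  have h1 : ∀ φ t, t ∈ Ioo (-R) R → R * (ρ ‖sph b 0 R φ t‖ *
      Real.cos (2 * Real.pi * ⟪sph b 0 R φ t, ξ⟫)) =
      (R * ρ R) * Real.cos (2 * Real.pi * l * t) := by
    intro φ t ht
    have e2 : ‖sph b 0 R φ t - 0‖ = R := by
      apply sph_norm b 0 R φ t hR.le
      apply sq_le_sq' <;> linarith [ht.1, ht.2]
    rw [sub_zero] at e2
    have e3 := sph_inner b 0 R φ t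
    rw [sub_zero] at e3
    rw [e2, hξb, real_inner_smul_right, real_inner_comm, e3]
    ring_nf
  have h2 : ∀ φ, ∫ t in Ioo (-R) R, R * (ρ ‖sph b 0 R φ t‖ *
      Real.cos (2 * Real.pi * ⟪sph b 0 R φ t, ξ⟫)) =
      (R * ρ R) * (2 * Real.sin (2 * Real.pi * l * R) / (2 * Real.pi * l)) := by
    intro φ
    rw [setIntegral_congr_fun measurableSet_Ioo (h1 φ), integral_const_mul,
      ← integral_Ioc_eq_integral_Ioo, ← intervalIntegral.integral_of_le (by linarith)]
    congr 1
    have hne : 2 * Real.pi * l ≠ 0 := by positivity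
    rw [intervalIntegral.integral_comp_mul_left (fun t => Real.cos t) hne, integral_cos,
      mul_neg, Real.sin_neg, smul_eq_mul]
    field_simp
    ring
  simp only [h2]
  rw [setIntegral_const, Real.volume_real_Ioo_of_le (by linarith), smul_eq_mul]
  field_simp
  ring

/-- Fourier transform of an atom -/
theorem atom_ft {Ψ : ℝ → ℝ} (hΨ : Profile Ψ) (he : ∀ s, Ψ (-s) = Ψ s) (r : ℝ) (hr : 1 ≤ r)
    (ξ : V3) (hξ : ξ ≠ 0) : ∫ w : V3, atom Ψ 0 r w * Real.cos (2 * Real.pi * ⟪w, ξ⟫)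
      = 2 * r / ‖ξ‖ * Real.sin (2 * Real.pi * ‖ξ‖ * r) * cosT Ψ (2 * Real.pi * ‖ξ‖) := by
  have hl : 0 < ‖ξ‖ := norm_pos_iff.2 hξ
  set l := ‖ξ‖ with hld
  have hpi := Real.pi_pos
  set ρ : ℝ → ℝ := fun R => r * (Ψ (R - r) / max R (1 / 2)) with hρ
  have hat : ∀ w : V3, atom Ψ 0 r w = ρ ‖w‖ := by
    intro w; simp only [atom, hρ, sub_zero]
  have hF : Integrable (fun w : V3 => ρ ‖w‖ * Real.cos (2 * Real.pi * ⟪w, ξ⟫)) := by
    simp only [← hat]
    apply Continuous.integrable_of_hasCompactSupport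
    · apply (atom_cont hΨ 0 r).mul
      fun_prop
    · exact (atom_hcs hΨ 0 r).mul_right
  simp only [hat]
  rw [rad_cos ξ hξ ρ hF]
  have h1 : ∫ R in Ioi (0 : ℝ), ρ R * (2 * R / l * Real.sin (2 * Real.pi * l * R)) =
      ∫ R in Ioc (r - 1 / 2) (r + 1 / 2), (2 * r / l) * (Ψ (R - r) *
        Real.sin (2 * Real.pi * l * R)) := by
    have e1 : ∫ R in Ioi (0 : ℝ), ρ R * (2 * R / l * Real.sin (2 * Real.pi * l * R)) =
        ∫ R in Ioc (r - 1 / 2) (r + 1 / 2), ρ R * (2 * R / l * Real.sin (2 * Real.pi * l * R)) := by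
      apply setIntegral_eq_of_subset_of_forall_sdiff_eq_zero measurableSet_Ioi
      · intro R hR
        simp only [mem_Ioi]; linarith [hR.1]
      · intro R hR
        have : Ψ (R - r) = 0 := by
          apply hΨ.supp
          by_contra hc
          rw [not_le] at hc
          obtain ⟨c1, c2⟩ := abs_lt.1 hc
          exact hR.2 ⟨by linarith, by linarith⟩
        simp only [hρ]
        rw [this]; simp
    rw [e1]
    apply setIntegral_congr_fun measurableSet_Ioc
    intro R hR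
    have hR2 : 1 / 2 < R := by linarith [hR.1]
    simp only [hρ]
    rw [max_eq_left hR2.le]
    have : 0 < R := by linarith
    field_simp
  rw [h1, integral_const_mul, ← intervalIntegral.integral_of_le (by linarith)]
  have h2 : ∫ R in (r - 1 / 2)..(r + 1 / 2), Ψ (R - r) * Real.sin (2 * Real.pi * l * R)
      = ∫ s in (-(1 / 2) : ℝ)..(1 / 2), Ψ s * Real.sin (2 * Real.pi * l * (s + r)) := by
    have := intervalIntegral.integral_comp_sub_right (a := r - 1 / 2) (b := r + 1 / 2)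
      (fun s => Ψ s * Real.sin (2 * Real.pi * l * (s + r))) r
    simp only [sub_add_cancel] at this
    rw [this]
    congr 1 <;> ring
  rw [h2]
  have h3 : ∀ s, Ψ s * Real.sin (2 * Real.pi * l * (s + r)) =
      Real.sin (2 * Real.pi * l * r) * (Ψ s * Real.cos (2 * Real.pi * l * s)) +
      Real.cos (2 * Real.pi * l * r) * (Ψ s * Real.sin (2 * Real.pi * l * s)) := by
    intro s
    rw [mul_add, Real.sin_add]; ring
  simp only [h3]
  have hΨc := hΨ.cont
  rw [intervalIntegral.integral_add, intervalIntegral.integral_const_mul,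
    intervalIntegral.integral_const_mul]
  · have h4 : ∫ s in (-(1 / 2) : ℝ)..(1 / 2), Ψ s * Real.sin (2 * Real.pi * l * s) = 0 := by
      have h5 := intervalIntegral.integral_comp_neg (a := -(1 / 2)) (b := 1 / 2)
        (fun s => Ψ s * Real.sin (2 * Real.pi * l * s))
      rw [neg_neg] at h5
      have h6 : ∫ s in (-(1 / 2) : ℝ)..(1 / 2), Ψ (-s) * Real.sin (2 * Real.pi * l * -s)
          = -∫ s in (-(1 / 2) : ℝ)..(1 / 2), Ψ s * Real.sin (2 * Real.pi * l * s) := by
        rw [← intervalIntegral.integral_neg]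
        apply intervalIntegral.integral_congr
        intro s _
        simp only
        rw [he, mul_neg, Real.sin_neg]; ring
      linarith
    rw [h4]
    unfold cosT
    ring
  · apply Continuous.intervalIntegrable; fun_prop
  · apply Continuous.intervalIntegrable; fun_prop

end Run7.h58
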