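import Pool.Agent.Run7.h58.Class

open MeasureTheory Finset
open scoped ENNReal

namespace Run7.h58

/-- height kernel -/
noncomputable def kap (A B ϑ : ℝ) (j : ℤ) : ℝ :=
  if j < 0 then 4 * A * B * (B / 2) ^ j
  else 4 * A * B * (B * ϑ / 2) ^ j + 80 * A * B * (25 * B / 64) ^ j

theorem kap_nonneg (A B ϑ : ℝ) (hA : 0 ≤ A) (hB : 0 ≤ B) (hϑ : 0 ≤ ϑ) (j : ℤ) :
    0 ≤ kap A B ϑ j := by
  unfold kap; split_ifs <;> positivity

theorem kap_summable (A B ϑ : ℝ) (hB : 2 < B) (hB2 : B ≤ 5 / 2) (hϑ : 0 < ϑ)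
    (hϑB : B * ϑ < 2) : Summable (kap A B ϑ) := by
  apply Summable.of_nat_of_neg
  · have h1 : Summable (fun n : ℕ => 4 * A * B * (B * ϑ / 2) ^ n + 80 * A * B * (25 * B / 64) ^ n) := by
      apply Summable.add
      · apply Summable.mul_left
        apply summable_geometric_of_lt_one (by positivity)
        linarith
      · apply Summable.mul_left
        apply summable_geometric_of_lt_one (by positivity)
        linarith
    refine h1.congr ?_
    intro n
    unfold kap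
    rw [if_neg (by omega), zpow_natCast, zpow_natCast]
  · have h1 : Summable (fun n : ℕ => |4 * A * B| * (2 / B) ^ n +
        |4 * A * B * (B * ϑ / 2) ^ (0 : ℤ) + 80 * A * B * (25 * B / 64) ^ (0 : ℤ)| * (2 / B) ^ n) := by
      apply Summable.add
      · apply Summable.mul_left
        apply summable_geometric_of_lt_one (by positivity)
        rw [div_lt_one (by linarith)]; exact hB
      · apply Summable.mul_left
        apply summable_geometric_of_lt_one (by positivity)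
        rw [div_lt_one (by linarith)]; exact hB
    refine Summable.of_norm_bounded h1 ?_
    intro n
    have hp : (0 : ℝ) ≤ (2 / B) ^ n := by positivity
    rw [Real.norm_eq_abs]
    unfold kap
    rcases Nat.eq_zero_or_pos n with h | h
    · subst h
      simp
      positivity
    · rw [if_pos (by omega), abs_mul]
      have h2 : (B / 2) ^ (-(n : ℤ)) = (2 / B) ^ n := by
        rw [zpow_neg, zpow_natCast, ← inv_pow, inv_div]
      rw [h2, abs_of_nonneg hp]
      have := abs_nonneg (4 * A * B * (B * ϑ / 2) ^ (0 : ℤ) + 80 * A * B * (25 * B / 64) ^ (0 : ℤ))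
      nlinarith

theorem zp (p : ℝ) (n : ℤ) : ((2 : ℝ) ^ n) ^ p = ((2 : ℝ) ^ p) ^ n := by
  rw [← Real.rpow_intCast, ← Real.rpow_intCast, ← Real.rpow_mul (by norm_num),
    ← Real.rpow_mul (by norm_num), mul_comm]

theorem pw (p : ℝ) (hp : 0 < p) (F : ℝ) (Hf Gf : ℤ → ℝ) (h : ∀ s, F = Hf s + Gf s) :
    ‖F‖ₑ ^ p ≤ ∑' s : ℤ, ENNReal.ofReal (((2 : ℝ) ^ p) ^ (s + 1) *
      (2 ^ (1 - s) * |Hf s| + 4 ^ (1 - s) * Gf s ^ 2)) := by
  by_cases hF : F = 0
  · rw [hF, enorm_zero, ENNReal.zero_rpow_of_pos hp]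
    simp
  · have hF0 : 0 < |F| := abs_pos.2 hF
    set s := Int.log 2 |F| with hs
    have h1 : (2 : ℝ) ^ s ≤ |F| := by
      have := Int.zpow_log_le_self (b := 2) (by norm_num) hF0
      exact_mod_cast this
    have h2 : |F| < (2 : ℝ) ^ (s + 1) := by
      have := Int.lt_zpow_succ_log_self (b := 2) (by norm_num) |F|
      exact_mod_cast this
    refine le_trans ?_ (ENNReal.le_tsum s)
    rw [Real.enorm_eq_ofReal_abs, ENNReal.ofReal_rpow_of_nonneg (abs_nonneg _) hp.le]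
    apply ENNReal.ofReal_le_ofReal
    have h3 : |F| ^ p ≤ ((2 : ℝ) ^ p) ^ (s + 1) := by
      rw [← zp]
      exact Real.rpow_le_rpow (abs_nonneg _) h2.le hp.le
    have hpos : (0 : ℝ) < (2 : ℝ) ^ (1 - s) := by positivity
    have h4 : (2 : ℝ) ^ (1 - s) * 2 ^ s = 2 := by
      rw [← zpow_add₀ (by norm_num)]; simp
    have h5 : (4 : ℝ) ^ (1 - s) = (2 ^ (1 - s)) ^ 2 := by
      rw [sq, ← mul_zpow]; norm_num
    have h6 : 1 ≤ 2 ^ (1 - s) * |Hf s| + 4 ^ (1 - s) * Gf s ^ 2 := by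
      rw [h5]
      have h7 : (2 : ℝ) ≤ 2 ^ (1 - s) * |Hf s| + 2 ^ (1 - s) * |Gf s| := by
        have h71 : |F| ≤ |Hf s| + |Gf s| := by rw [h s]; exact abs_add_le _ _
        have h72 := mul_le_mul_of_nonneg_left (h1.trans h71) hpos.le
        rw [h4] at h72
        linarith
      have h8 : (2 ^ (1 - s)) ^ 2 * Gf s ^ 2 = (2 ^ (1 - s) * |Gf s|) ^ 2 := by
        rw [mul_pow, sq_abs]
      rw [h8]
      have h9 : 0 ≤ 2 ^ (1 - s) * |Gf s| := by positivity
      nlinarith [sq_nonneg (2 ^ (1 - s) * |Gf s| - 1)]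
    calc |F| ^ p ≤ ((2 : ℝ) ^ p) ^ (s + 1) * 1 := by rw [mul_one]; exact h3
      _ ≤ _ := mul_le_mul_of_nonneg_left h6 (by positivity)

theorem geom_Z (L : Finset ℤ) (s : ℤ) :
    ∑ l ∈ L, (if s < l then 0 else (4 / 5 : ℝ) ^ (s - l)) ≤ 5 := by
  classical
  have h1 : ∑ l ∈ L, (if s < l then 0 else (4 / 5 : ℝ) ^ (s - l))
      = ∑ l ∈ L.filter (fun l => ¬ s < l), (4 / 5 : ℝ) ^ ((s - l).toNat) := by
    rw [Finset.sum_filter]
    apply Finset.sum_congr rfl
    intro l _
    split_ifs with h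
    · rfl
    · rw [← zpow_natCast, Int.toNat_of_nonneg (by omega)]
  rw [h1]
  have hinj : Set.InjOn (fun l : ℤ => (s - l).toNat) (L.filter (fun l => ¬ s < l)) := by
    intro a ha b hb hab
    simp only [Finset.coe_filter, Set.mem_ofPred_eq] at ha hb
    simp only at hab
    omega
  rw [← Finset.sum_image (f := fun n : ℕ => (4 / 5 : ℝ) ^ n) hinj]
  refine (Summable.sum_le_tsum _ (fun n _ => by positivity)
    (summable_geometric_of_lt_one (by norm_num) (by norm_num))).trans ?_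
  rw [tsum_geometric_of_lt_one (by norm_num) (by norm_num)]
  norm_num

theorem cs_weight (L : Finset ℤ) (s : ℤ) (g : ℤ → ℝ) :
    (∑ l ∈ L, (if s < l then 0 else g l)) ^ 2
      ≤ 5 * ∑ l ∈ L, (if s < l then 0 else (5 / 4 : ℝ) ^ (s - l) * g l ^ 2) := by
  have h1 := Finset.sum_sq_le_sum_mul_sum_of_sq_le_mul L
    (r := fun l => if s < l then 0 else g l)
    (f := fun l => if s < l then 0 else (4 / 5 : ℝ) ^ (s - l))
    (g := fun l => if s < l then 0 else (5 / 4 : ℝ) ^ (s - l) * g l ^ 2)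
    (by intro l _; split_ifs <;> positivity)
    (by intro l _; split_ifs <;> positivity)
    (by
      intro l _
      split_ifs
      · simp
      · rw [← mul_assoc, ← mul_zpow]
        norm_num)
  refine h1.trans ?_
  apply mul_le_mul_of_nonneg_right (geom_Z L s)
  apply Finset.sum_nonneg
  intro l _
  split_ifs <;> positivity

theorem TF.sq {f : V3 → ℝ} (h : TF f) : TF (fun x => f x ^ 2) := by
  have := h.mul_left h.ct
  simpa [pow_two] using this

theorem TF.const_mul {f : V3 → ℝ} (h : TF f) (c : ℝ) : TF (fun x => c * f x) :=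
  h.mul_left continuous_const

theorem comb_alg (A B ϑ X : ℝ) (hB : 0 < B) (hϑ : 0 < ϑ) (s l : ℤ) :
    B ^ (s + 1) * (2 ^ (1 - s) * (if s < l then 2 ^ (l + 1) * (A * X)
      else 2 ^ (l + 1) * (A * ϑ ^ (s - l).toNat * X)) + 4 ^ (1 - s) *
      (5 * (if s < l then 0 else (5 / 4 : ℝ) ^ (s - l) * (4 ^ (l + 1) *
        (A * (5 / 4) ^ (s - l).toNat * X))))) = kap A B ϑ (s - l) * (B ^ l * X) := by
  have e1 : B ^ (s + 1) = B ^ s * B := by rw [zpow_add₀ hB.ne', zpow_one]
  have e2 : (2 : ℝ) ^ (1 - s) = 2 / 2 ^ s := by rw [zpow_sub₀ (by norm_num), zpow_one]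
  have e3 : (2 : ℝ) ^ (l + 1) = 2 ^ l * 2 := by rw [zpow_add₀ (by norm_num), zpow_one]
  have h4 : ∀ n : ℤ, (4 : ℝ) ^ n = 2 ^ n * 2 ^ n := by
    intro n; rw [← mul_zpow]; norm_num
  have e4 : (4 : ℝ) ^ (1 - s) = (2 / 2 ^ s) * (2 / 2 ^ s) := by rw [h4, e2]
  have e5 : (4 : ℝ) ^ (l + 1) = (2 ^ l * 2) * (2 ^ l * 2) := by rw [h4, e3]
  have hs : (0 : ℝ) < 2 ^ s := by positivity
  have hl : (0 : ℝ) < 2 ^ l := by positivity
  have hBs : 0 < B ^ s := by positivity
  have hBl : 0 < B ^ l := by positivity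
  unfold kap
  by_cases h : s < l
  · rw [if_pos h, if_pos h, if_pos (by omega), e1, e2, e3, div_zpow, zpow_sub₀ hB.ne',
      zpow_sub₀ (by norm_num : (2 : ℝ) ≠ 0)]
    field_simp
    ring
  · have hj : ((s - l).toNat : ℤ) = s - l := Int.toNat_of_nonneg (by omega)
    have e6 : ϑ ^ (s - l).toNat = ϑ ^ (s - l) := by rw [← zpow_natCast, hj]
    have e7 : (5 / 4 : ℝ) ^ (s - l).toNat = (5 / 4) ^ (s - l) := by rw [← zpow_natCast, hj]
    have e8 : (25 * B / 64) ^ (s - l) = ((5 / 4 : ℝ) ^ (s - l) * (5 / 4) ^ (s - l)) *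
        (B ^ s / B ^ l) / ((2 ^ s / 2 ^ l) * (2 ^ s / 2 ^ l)) := by
      rw [← zpow_sub₀ hB.ne', ← zpow_sub₀ (by norm_num : (2 : ℝ) ≠ 0), ← mul_zpow, ← mul_zpow,
        ← mul_zpow, ← div_zpow]
      congr 1
      ring
    have e9 : (B * ϑ / 2) ^ (s - l) = (B ^ s / B ^ l) * ϑ ^ (s - l) / (2 ^ s / 2 ^ l) := by
      rw [← zpow_sub₀ hB.ne', ← zpow_sub₀ (by norm_num : (2 : ℝ) ≠ 0), ← mul_zpow, ← div_zpow]
    rw [if_neg h, if_neg h, if_neg (by omega), e6, e7, e8, e9, e1, e2, e3, e4, e5]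
    have hq : (0 : ℝ) < (5 / 4) ^ (s - l) := by positivity
    generalize (5 / 4 : ℝ) ^ (s - l) = q at hq
    have hv : (0 : ℝ) < ϑ ^ (s - l) := by positivity
    generalize ϑ ^ (s - l) = v at hv
    field_simp
    ring

theorem int_abs_add {f g : V3 → ℝ} (hf : TF f) (hg : TF g) :
    ∫ x, |f x + g x| ≤ (∫ x, |f x|) + ∫ x, |g x| := by
  rw [← integral_add hf.abs.int hg.abs.int]
  apply integral_mono (hf.add hg).abs.int (hf.abs.add hg.abs).int
  intro x
  exact abs_add_le _ _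

/-- strong type inequality from the family of decompositions -/
theorem interp (φ : I4 → V3 → ℝ) (hφ : ∀ e, TF (φ e)) (w : I4 → ℝ) (hw : ∀ e, 0 ≤ w e)
    (S : Set I4) (A ϑ : ℝ) (hA : 0 ≤ A) (hϑ : 0 < ϑ) 
    (h1 : ∀ e ∈ S, ∫ x, |φ e x| ≤ A * w e)
    (hGH : ∀ j : ℕ, ∀ E : Finset I4, (∀ e ∈ E, e ∈ S) → ∀ a : I4 → ℝ, (∀ e, |a e| ≤ 1) →
      ∃ G H : V3 → ℝ, TF G ∧ TF H ∧ (∀ x, ∑ e ∈ E, a e * φ e x = G x + H x) ∧
      ∫ x, |H x| ≤ A * ϑ ^ j * ∑ e ∈ E, w e ∧ ∫ x, G x ^ 2 ≤ A * (5 / 4) ^ j * ∑ e ∈ E, w e)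
    (p : ℝ) (hp : 1 < p) (hpϑ : (2 : ℝ) ^ p * ϑ < 2) (hp2 : (2 : ℝ) ^ p ≤ 5 / 2)
    (E : Finset I4) (hE : ∀ e ∈ E, e ∈ S) (c : I4 → ℝ) :
    ∫⁻ x, ‖∑ e ∈ E, c e * φ e x‖ₑ ^ p ≤
      ENNReal.ofReal ((∑' j, kap A ((2 : ℝ) ^ p) ϑ j) * ∑ e ∈ E, |c e| ^ p * w e) := by
  classical
  set B : ℝ := (2 : ℝ) ^ p with hB
  have hB2 : 2 < B := by
    rw [hB]
    calc (2 : ℝ) = 2 ^ (1 : ℝ) := by rw [Real.rpow_one]
      _ < 2 ^ p := Real.rpow_lt_rpow_of_exponent_lt (by norm_num) hp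
  have hB0 : 0 < B := by linarith
  have hp0 : 0 < p := by linarith
  have hsum := kap_summable A B ϑ hB2 hp2 hϑ hpϑ
  have hknn := kap_nonneg A B ϑ hA hB0.le hϑ.le
  set E0 := E.filter (fun e => c e ≠ 0) with hE0
  set ℓ : I4 → ℤ := fun e => Int.log 2 |c e| with hℓ
  set L := E0.image ℓ with hL
  set Ef : ℤ → Finset I4 := fun l => E0.filter (fun e => ℓ e = l) with hEf
  have hEfS : ∀ l, ∀ e ∈ Ef l, e ∈ S := by
    intro l e he
    simp only [hEf, hE0, Finset.mem_filter] at he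
    exact hE e he.1.1
  have hc1 : ∀ l, ∀ e ∈ Ef l, (2 : ℝ) ^ l ≤ |c e| ∧ |c e| < 2 ^ (l + 1) := by
    intro l e he
    simp only [hEf, hE0, Finset.mem_filter] at he
    obtain ⟨⟨_, hne⟩, hl⟩ := he
    have hpos : 0 < |c e| := abs_pos.2 hne
    have a1 := Int.zpow_log_le_self (b := 2) (by norm_num) hpos
    have a2 := Int.lt_zpow_succ_log_self (b := 2) (by norm_num) |c e|
    rw [← hl]
    exact ⟨by exact_mod_cast a1, by exact_mod_cast a2⟩
  set av : ℤ → I4 → ℝ := fun l e => if e ∈ Ef l then c e / 2 ^ (l + 1) else 0 with hav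
  have hav1 : ∀ l e, |av l e| ≤ 1 := by
    intro l e
    simp only [hav]
    split_ifs with h
    · rw [abs_div, abs_of_pos (show (0 : ℝ) < 2 ^ (l + 1) by positivity), div_le_one (by positivity)]
      exact (hc1 l e h).2.le
    · simp
  choose G H hG hH hGHs hHb hGb using fun (l : ℤ) (j : ℕ) => hGH j (Ef l) (hEfS l) (av l) (hav1 l)
  set X : ℤ → ℝ := fun l => ∑ e ∈ Ef l, w e with hX
  have hX0 : ∀ l, 0 ≤ X l := fun l => Finset.sum_nonneg (fun e _ => hw e)
  set Fl : ℤ → V3 → ℝ := fun l x => ∑ e ∈ Ef l, c e * φ e x with hFl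
  have hFlT : ∀ l, TF (Fl l) := fun l => TF.sum _ _ (fun e _ => (hφ e).const_mul (c e))
  have hFl2 : ∀ l j x, Fl l x = 2 ^ (l + 1) * G l j x + 2 ^ (l + 1) * H l j x := by
    intro l j x
    rw [← mul_add, ← hGHs l j x]
    simp only [hFl]
    rw [Finset.mul_sum]
    apply Finset.sum_congr rfl
    intro e he
    simp only [hav]
    rw [if_pos he]
    field_simp
  set Hs : ℤ → V3 → ℝ := fun s x => ∑ l ∈ L, (if s < l then Fl l x else
    2 ^ (l + 1) * H l (s - l).toNat x) with hHs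
  set Gs : ℤ → V3 → ℝ := fun s x => ∑ l ∈ L, (if s < l then 0 else
    2 ^ (l + 1) * G l (s - l).toNat x) with hGs
  have hHsT : ∀ s, TF (Hs s) := by
    intro s
    apply TF.sum
    intro l _
    by_cases h : s < l
    · simp only [if_pos h]; exact hFlT l
    · simp only [if_neg h]; exact (hH l _).const_mul _
  have hGsT : ∀ s, TF (Gs s) := by
    intro s
    apply TF.sum
    intro l _
    by_cases h : s < l
    · simp only [if_pos h]; exact TF.zero
    · simp only [if_neg h]; exact (hG l _).const_mul _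
  have hF : ∀ x, ∑ e ∈ E, c e * φ e x = ∑ l ∈ L, Fl l x := by
    intro x
    have e1 : ∑ e ∈ E, c e * φ e x = ∑ e ∈ E0, c e * φ e x := by
      rw [hE0, Finset.sum_filter_of_ne]
      intro e _ hne h0
      rw [h0] at hne; simp at hne
    rw [e1]
    simp only [hFl]
    rw [Finset.sum_fiberwise_of_maps_to]
    intro e he
    exact Finset.mem_image_of_mem ℓ he
  have hdec : ∀ x s, ∑ e ∈ E, c e * φ e x = Hs s x + Gs s x := by
    intro x s
    rw [hF x]
    simp only [hHs, hGs]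
    rw [← Finset.sum_add_distrib]
    apply Finset.sum_congr rfl
    intro l _
    split_ifs
    · ring
    · rw [hFl2 l (s - l).toNat x]; ring
  -- integral bounds
  have hintH : ∀ s, ∫ x, |Hs s x| ≤ ∑ l ∈ L, (if s < l then 2 ^ (l + 1) * (A * X l)
      else 2 ^ (l + 1) * (A * ϑ ^ (s - l).toNat * X l)) := by
    intro s
    have h2 : ∫ x, |Hs s x| ≤ ∑ l ∈ L, ∫ x, |(if s < l then Fl l x else
        2 ^ (l + 1) * H l (s - l).toNat x)| := by
      simp only [hHs]
      apply int_abs_sum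
      intro l
      by_cases h : s < l
      · simp only [if_pos h]; exact hFlT l
      · simp only [if_neg h]; exact (hH l _).const_mul _
    refine h2.trans (Finset.sum_le_sum ?_)
    intro l _
    by_cases h : s < l
    · simp only [if_pos h]
      simp only [hFl]
      have h3 : ∫ x, |∑ e ∈ Ef l, c e * φ e x| ≤ ∑ e ∈ Ef l, ∫ x, |c e * φ e x| :=
        int_abs_sum _ _ (fun e => (hφ e).const_mul (c e))
      refine h3.trans ?_
      simp only [hX]
      rw [Finset.mul_sum, Finset.mul_sum]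
      apply Finset.sum_le_sum
      intro e he
      simp only [abs_mul]
      rw [integral_const_mul]
      exact mul_le_mul (hc1 l e he).2.le (h1 e (hEfS l e he))
        (integral_nonneg (fun x => abs_nonneg _)) (by positivity)
    · simp only [if_neg h]
      simp only [abs_mul]
      rw [integral_const_mul, abs_of_pos (show (0 : ℝ) < 2 ^ (l + 1) by positivity)]
      exact mul_le_mul_of_nonneg_left (hHb l _) (by positivity)
  have hintG : ∀ s, ∫ x, Gs s x ^ 2 ≤ 5 * ∑ l ∈ L, (if s < l then 0 else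
      (5 / 4 : ℝ) ^ (s - l) * (4 ^ (l + 1) * (A * (5 / 4) ^ (s - l).toNat * X l))) := by
    intro s
    have hT : ∀ l, TF (fun x => if s < l then 0 else (5 / 4 : ℝ) ^ (s - l) *
        (2 ^ (l + 1) * G l (s - l).toNat x) ^ 2) := by
      intro l
      by_cases h : s < l
      · simp only [if_pos h]; exact TF.zero
      · simp only [if_neg h]
        exact (((hG l _).const_mul _).sq).const_mul _
    have h2 : ∫ x, Gs s x ^ 2 ≤ ∫ x, 5 * ∑ l ∈ L, (if s < l then 0 else (5 / 4 : ℝ) ^ (s - l) *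
        (2 ^ (l + 1) * G l (s - l).toNat x) ^ 2) := by
      apply integral_mono (hGsT s).sq.int ((TF.sum L _ (fun l _ => hT l)).const_mul 5).int
      intro x
      exact cs_weight L s (fun l => 2 ^ (l + 1) * G l (s - l).toNat x)
    refine h2.trans ?_
    rw [integral_const_mul]
    apply mul_le_mul_of_nonneg_left _ (by norm_num)
    rw [integral_finsetSum _ (fun l _ => (hT l).int)]
    apply Finset.sum_le_sum
    intro l _
    by_cases h : s < l
    · simp only [if_pos h]; simp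
    · simp only [if_neg h]
      rw [integral_const_mul]
      apply mul_le_mul_of_nonneg_left _ (by positivity)
      simp only [mul_pow]
      rw [integral_const_mul]
      have h4 : ((2 : ℝ) ^ (l + 1)) ^ 2 = 4 ^ (l + 1) := by
        rw [sq, ← mul_zpow]; norm_num
      rw [h4]
      exact mul_le_mul_of_nonneg_left (hGb l _) (by positivity)
  have hcomb : ∀ s, B ^ (s + 1) * (2 ^ (1 - s) * (∫ x, |Hs s x|) + 4 ^ (1 - s) *
      ∫ x, Gs s x ^ 2) ≤ ∑ l ∈ L, kap A B ϑ (s - l) * (B ^ l * X l) := by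
    intro s
    have h2 : B ^ (s + 1) * (2 ^ (1 - s) * (∫ x, |Hs s x|) + 4 ^ (1 - s) * ∫ x, Gs s x ^ 2) ≤
      B ^ (s + 1) * (2 ^ (1 - s) * (∑ l ∈ L, (if s < l then 2 ^ (l + 1) * (A * X l)
      else 2 ^ (l + 1) * (A * ϑ ^ (s - l).toNat * X l))) + 4 ^ (1 - s) *
        (5 * ∑ l ∈ L, (if s < l then 0 else
      (5 / 4 : ℝ) ^ (s - l) * (4 ^ (l + 1) * (A * (5 / 4) ^ (s - l).toNat * X l))))) := by
      apply mul_le_mul_of_nonneg_left _ (by positivity)
      exact add_le_add (mul_le_mul_of_nonneg_left (hintH s) (by positivity))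
        (mul_le_mul_of_nonneg_left (hintG s) (by positivity))
    refine h2.trans (le_of_eq ?_)
    rw [Finset.mul_sum, Finset.mul_sum, Finset.mul_sum, ← Finset.sum_add_distrib, Finset.mul_sum]
    apply Finset.sum_congr rfl
    intro l _
    exact comb_alg A B ϑ (X l) hB0 hϑ s l
  -- main chain
  have hpoint : ∀ x, ‖∑ e ∈ E, c e * φ e x‖ₑ ^ p ≤ ∑' s : ℤ, ENNReal.ofReal (B ^ (s + 1) *
      (2 ^ (1 - s) * |Hs s x| + 4 ^ (1 - s) * Gs s x ^ 2)) := fun x =>
    pw p hp0 _ (fun s => Hs s x) (fun s => Gs s x) (hdec x)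
  have hterm : ∀ s : ℤ, ∫⁻ x, ENNReal.ofReal (B ^ (s + 1) *
      (2 ^ (1 - s) * |Hs s x| + 4 ^ (1 - s) * Gs s x ^ 2)) ≤
      ∑ l ∈ L, ENNReal.ofReal (kap A B ϑ (s - l)) * ENNReal.ofReal (B ^ l * X l) := by
    intro s
    have hTF : TF (fun x => B ^ (s + 1) * (2 ^ (1 - s) * |Hs s x| + 4 ^ (1 - s) * Gs s x ^ 2)) :=
      (((hHsT s).abs.const_mul _).add ((hGsT s).sq.const_mul _)).const_mul _
    rw [← ofReal_integral_eq_lintegral_ofReal hTF.int
      (Filter.Eventually.of_forall (fun x => by positivity))]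
    have e1 : ∫ x, B ^ (s + 1) * (2 ^ (1 - s) * |Hs s x| + 4 ^ (1 - s) * Gs s x ^ 2)
        = B ^ (s + 1) * (2 ^ (1 - s) * (∫ x, |Hs s x|) + 4 ^ (1 - s) * ∫ x, Gs s x ^ 2) := by
      rw [integral_const_mul, integral_add ((hHsT s).abs.const_mul _).int
        ((hGsT s).sq.const_mul _).int, integral_const_mul, integral_const_mul]
    rw [e1]
    refine (ENNReal.ofReal_le_ofReal (hcomb s)).trans ?_
    rw [ENNReal.ofReal_sum_of_nonneg]
    · apply Finset.sum_le_sum
      intro l _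
      rw [ENNReal.ofReal_mul (hknn _)]
    · intro l _
      have := hknn (s - l)
      have := hX0 l
      positivity
  have hmeas : ∀ s : ℤ, Measurable (fun x => ENNReal.ofReal (B ^ (s + 1) *
      (2 ^ (1 - s) * |Hs s x| + 4 ^ (1 - s) * Gs s x ^ 2))) := by
    intro s
    have c1 := (hHsT s).ct
    have c2 := (hGsT s).ct
    apply ENNReal.measurable_ofReal.comp
    apply Continuous.measurable
    fun_prop
  calc ∫⁻ x, ‖∑ e ∈ E, c e * φ e x‖ₑ ^ p
      ≤ ∫⁻ x, ∑' s : ℤ, ENNReal.ofReal (B ^ (s + 1) *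
      (2 ^ (1 - s) * |Hs s x| + 4 ^ (1 - s) * Gs s x ^ 2)) := lintegral_mono hpoint
    _ = ∑' s : ℤ, ∫⁻ x, ENNReal.ofReal (B ^ (s + 1) *
      (2 ^ (1 - s) * |Hs s x| + 4 ^ (1 - s) * Gs s x ^ 2)) :=
        lintegral_tsum (fun s => (hmeas s).aemeasurable)
    _ ≤ ∑' s : ℤ, ∑ l ∈ L, ENNReal.ofReal (kap A B ϑ (s - l)) * ENNReal.ofReal (B ^ l * X l) :=
        ENNReal.tsum_le_tsum hterm
    _ = ∑ l ∈ L, ∑' s : ℤ, ENNReal.ofReal (kap A B ϑ (s - l)) * ENNReal.ofReal (B ^ l * X l) :=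
        Summable.tsum_finsetSum (fun _ _ => ENNReal.summable)
    _ = ∑ l ∈ L, ENNReal.ofReal (∑' j, kap A B ϑ j) * ENNReal.ofReal (B ^ l * X l) := by
        apply Finset.sum_congr rfl
        intro l _
        rw [ENNReal.tsum_mul_right]
        congr 1
        rw [ENNReal.ofReal_tsum_of_nonneg hknn hsum]
        exact (Equiv.subRight l).tsum_eq (fun j => ENNReal.ofReal (kap A B ϑ j))
    _ = ENNReal.ofReal ((∑' j, kap A B ϑ j) * ∑ l ∈ L, B ^ l * X l) := by
        rw [← Finset.mul_sum, ← ENNReal.ofReal_sum_of_nonneg, ← ENNReal.ofReal_mul]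
        · exact tsum_nonneg hknn
        · intro l _
          have := hX0 l
          positivity
    _ ≤ ENNReal.ofReal ((∑' j, kap A B ϑ j) * ∑ e ∈ E, |c e| ^ p * w e) := by
        apply ENNReal.ofReal_le_ofReal
        apply mul_le_mul_of_nonneg_left _ (tsum_nonneg hknn)
        calc ∑ l ∈ L, B ^ l * X l = ∑ l ∈ L, ∑ e ∈ Ef l, B ^ l * w e := by
              apply Finset.sum_congr rfl
              intro l _
              simp only [hX]; rw [Finset.mul_sum]
          _ ≤ ∑ l ∈ L, ∑ e ∈ Ef l, |c e| ^ p * w e := by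
              apply Finset.sum_le_sum
              intro l _
              apply Finset.sum_le_sum
              intro e he
              apply mul_le_mul_of_nonneg_right _ (hw e)
              rw [hB, ← zp]
              exact Real.rpow_le_rpow (by positivity) (hc1 l e he).1 hp0.le
          _ = ∑ e ∈ E0, |c e| ^ p * w e := by
              simp only [hEf]
              rw [Finset.sum_fiberwise_of_maps_to]
              intro e he
              exact Finset.mem_image_of_mem ℓ he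
          _ ≤ ∑ e ∈ E, |c e| ^ p * w e := by
              apply Finset.sum_le_sum_of_subset_of_nonneg (Finset.filter_subset _ _)
              intro e _ _
              have := hw e
              positivity

end Run7.h58
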