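import Pool.Agent.Run7.h58.SphFT

open MeasureTheory Set Filter Topology
open scoped ENNReal RealInnerProductSpace MeasureTheory NNReal FourierTransform SchwartzMap ContDiff

namespace Run7.h58

/-- reciprocal of a temperate function bounded below -/
theorem temperate_inv (f : V3 → ℝ) (hf : f.HasTemperateGrowth) (c : ℝ) (hc : 0 < c)
    (hfc : ∀ x, c < f x) : (fun x => (f x) ^ (-1 : ℝ)).HasTemperateGrowth := by
  set t : Set ℝ := {y : ℝ | c < y} with ht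
  have hr : Set.range f ⊆ t := by
    rintro - ⟨y, rfl⟩; exact hfc y
  have hdiff : ContDiffOn ℝ ∞ (fun x : ℝ => x ^ (-1 : ℝ)) t :=
    contDiffOn_fun_id.rpow_const_of_ne fun x hx => (lt_trans hc hx).ne'
  have hunique : UniqueDiffOn ℝ t := (isOpen_lt' c).uniqueDiffOn
  apply Function.HasTemperateGrowth.comp' hr hunique hdiff _ hf
  intro N
  set C0 : ℝ := max 1 (c⁻¹) with hC0
  have hC1 : 1 ≤ C0 := le_max_left _ _
  refine ⟨0, (∑ k ∈ Finset.range (N + 1), ‖Polynomial.eval (-1 : ℝ) (descPochhammer ℝ k)‖) *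
    C0 ^ (N + 1), by positivity, ?_⟩
  intro n hn x hx
  have hx0 : 0 < x := lt_trans hc hx
  have h1 : ContDiffAt ℝ n (fun x : ℝ => x ^ (-1 : ℝ)) x :=
    Real.contDiffAt_rpow_const <| Or.inl hx0.ne'
  rw [norm_iteratedFDerivWithin_eq_norm_iteratedDerivWithin,
    iteratedDerivWithin_eq_iteratedDeriv hunique h1 hx, iteratedDeriv_eq_iterate,
    Real.iter_deriv_rpow_const, norm_mul, pow_zero, mul_one]
  apply mul_le_mul
  · have : n ∈ Finset.range (N + 1) := by grind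
    exact Finset.single_le_sum (f := fun k => ‖Polynomial.eval (-1 : ℝ) (descPochhammer ℝ k)‖)
      (fun _ _ => by positivity) this
  · have e1 : (-1 : ℝ) - n = -((n + 1 : ℕ) : ℝ) := by push_cast; ring
    rw [e1, Real.rpow_neg hx0.le, Real.rpow_natCast, Real.norm_eq_abs, abs_of_pos (by positivity),
      ← inv_pow]
    have h2 : x⁻¹ ≤ C0 := by
      refine le_trans ?_ (le_max_right _ _)
      exact inv_anti₀ hc hx.le
    calc x⁻¹ ^ (n + 1) ≤ C0 ^ (n + 1) := by gcongr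
      _ ≤ C0 ^ (N + 1) := pow_le_pow_right₀ hC1 (by omega)
  · positivity
  · positivity

/-- a smooth multiplier equal to `‖ξ‖⁻²` away from the origin -/
theorem exists_mult (ε : ℝ) (hε : 0 < ε) : ∃ m : V3 → ℝ, m.HasTemperateGrowth ∧
    ∀ ξ, ε ≤ ‖ξ‖ → m ξ = (‖ξ‖ ^ 2)⁻¹ := by
  set b : ContDiffBump (0 : V3) := ⟨ε / 4, ε / 2, by positivity, by linarith⟩ with hb
  set f : V3 → ℝ := fun ξ => ‖ξ‖ ^ 2 + b ξ with hf
  have hft : f.HasTemperateGrowth := by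
    apply Function.HasTemperateGrowth.add
    · exact Function.hasTemperateGrowth_norm_sq V3
    · exact b.hasCompactSupport.hasTemperateGrowth b.contDiff
  set c : ℝ := (min 1 (ε ^ 2 / 16)) / 2 with hc
  have hc0 : 0 < c := by positivity
  have hfc : ∀ ξ, c < f ξ := by
    intro ξ
    have hmin : 0 < min 1 (ε ^ 2 / 16) := by positivity
    by_cases h : ‖ξ‖ ≤ ε / 4
    · have : b ξ = 1 := b.one_of_mem_closedBall (by rw [mem_closedBall_zero_iff]; exact h)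
      simp only [hf, this, hc]
      have := min_le_left 1 (ε ^ 2 / 16)
      nlinarith [sq_nonneg ‖ξ‖]
    · push Not at h
      have h2 : 0 ≤ b ξ := b.nonneg
      simp only [hf, hc]
      have := min_le_right 1 (ε ^ 2 / 16)
      nlinarith
  refine ⟨_, temperate_inv f hft c hc0 hfc, ?_⟩
  intro ξ hξ
  have : b ξ = 0 := by
    apply b.zero_of_le_dist
    rw [dist_zero_right]
    simp only [hb]; linarith
  simp only [hf, this, add_zero]
  rw [Real.rpow_neg_one]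

/-- the two auxiliary Schwartz functions -/
theorem exists_ab (η : 𝓢(V3, ℂ)) (ε : ℝ) (hε : 0 < ε)
    (h0 : ∀ ξ : V3, ‖ξ‖ < ε → 𝓕 η ξ = 0) :
    ∃ va vb : 𝓢(V3, ℂ), ∀ ξ : V3, 𝓕 va ξ = ((((2 * Real.pi * ‖ξ‖) ^ 2 : ℝ)) : ℂ) * 𝓕 η ξ ∧
      (((2 * Real.pi * ‖ξ‖) ^ 2 : ℝ) : ℂ) * 𝓕 vb ξ = 𝓕 η ξ := by
  obtain ⟨m, hm, hm1⟩ := exists_mult ε hε
  set ga : V3 → ℝ := fun ξ => (2 * Real.pi) ^ 2 * ‖ξ‖ ^ 2 with hga
  set gb : V3 → ℝ := fun ξ => ((2 * Real.pi) ^ 2)⁻¹ * m ξ with hgb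
  have hgat : ga.HasTemperateGrowth := by
    simp only [hga]; fun_prop
  have hgbt : gb.HasTemperateGrowth := by
    simp only [hgb]; fun_prop
  refine ⟨𝓕⁻ (SchwartzMap.smulLeftCLM ℂ ga (𝓕 η)), 𝓕⁻ (SchwartzMap.smulLeftCLM ℂ gb (𝓕 η)), ?_⟩
  intro ξ
  constructor
  · rw [FourierTransform.fourier_fourierInv_eq]
    rw [SchwartzMap.smulLeftCLM_apply_apply hgat, Complex.real_smul]
    simp only [hga]
    congr 2
    ring
  · rw [FourierTransform.fourier_fourierInv_eq]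
    rw [SchwartzMap.smulLeftCLM_apply_apply hgbt, Complex.real_smul]
    by_cases h : ‖ξ‖ < ε
    · rw [h0 ξ h]; simp
    · push Not at h
      simp only [hgb]
      rw [hm1 ξ h, ← mul_assoc, ← Complex.ofReal_mul]
      have h1 : (2 * Real.pi * ‖ξ‖) ^ 2 * (((2 * Real.pi) ^ 2)⁻¹ * (‖ξ‖ ^ 2)⁻¹) = 1 := by
        have : 0 < ‖ξ‖ := lt_of_lt_of_le hε h
        have := Real.pi_pos
        field_simp
      rw [h1]; simp

/-- Fourier inversion swap -/
theorem conv_swap (v : 𝓢(V3, ℂ)) (ν : Measure V3) [SFinite ν] (a : V3 → ℝ) (ha : Integrable a ν)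
    (hinv : MeasurePreserving (LinearIsometryEquiv.neg ℝ : V3 ≃ₗᵢ[ℝ] V3) ν ν)
    (hev : ∀ y, a (-y) = a y) (x : V3) :
    ∫ y, v (x - y) * (a y : ℂ) ∂ν =
      ∫ ξ, 𝓕 v ξ * Complex.exp (((2 * Real.pi * ⟪ξ, x⟫ : ℝ) : ℂ) * Complex.I) *
        ((∫ y, Real.cos (2 * Real.pi * ⟪y, ξ⟫) * a y ∂ν : ℝ) : ℂ) := by
  have hv : ∀ z : V3, v z =
      ∫ ξ, Complex.exp (((2 * Real.pi * ⟪ξ, z⟫ : ℝ) : ℂ) * Complex.I) * 𝓕 v ξ := by
    intro z
    have h1 : v z = 𝓕⁻ (𝓕 v) z := by rw [FourierTransform.fourierInv_fourier_eq]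
    rw [h1, SchwartzMap.fourierInv_coe, Real.fourierInv_eq']
    simp only [smul_eq_mul]
  have hvi : Integrable (fun ξ => 𝓕 v ξ) := (𝓕 v).integrable
  have hprod : Integrable (Function.uncurry fun (y : V3) (ξ : V3) =>
      Complex.exp (((2 * Real.pi * ⟪ξ, x - y⟫ : ℝ) : ℂ) * Complex.I) * 𝓕 v ξ * (a y : ℂ))
      (ν.prod volume) := by
    have h1 : Integrable (fun w : V3 × V3 => (a w.1 : ℂ) * 𝓕 v w.2) (ν.prod volume) :=
      ha.ofReal.mul_prod hvi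
    have h2 : AEStronglyMeasurable (fun w : V3 × V3 =>
        Complex.exp (((2 * Real.pi * ⟪w.2, x - w.1⟫ : ℝ) : ℂ) * Complex.I)) (ν.prod volume) := by
      apply Continuous.aestronglyMeasurable; fun_prop
    have h3 := h1.bdd_mul (c := 1) h2 (Eventually.of_forall (fun w => by
      rw [Complex.norm_exp_ofReal_mul_I]))
    refine h3.congr (Eventually.of_forall fun w => ?_)
    simp only [Function.uncurry]
    ring
  have hs1 : ∫ y, v (x - y) * (a y : ℂ) ∂ν =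
      ∫ y, ∫ ξ, Complex.exp (((2 * Real.pi * ⟪ξ, x - y⟫ : ℝ) : ℂ) * Complex.I) * 𝓕 v ξ * (a y : ℂ)
        ∂volume ∂ν := by
    congr 1
    ext y
    rw [hv (x - y), integral_mul_const]
  rw [hs1, integral_integral_swap hprod]
  congr 1
  ext ξ
  have h4 : ∀ y : V3, Complex.exp (((2 * Real.pi * ⟪ξ, x - y⟫ : ℝ) : ℂ) * Complex.I) * 𝓕 v ξ *
      (a y : ℂ) = (𝓕 v ξ * Complex.exp (((2 * Real.pi * ⟪ξ, x⟫ : ℝ) : ℂ) * Complex.I)) *
        (Complex.exp (((-(2 * Real.pi * ⟪y, ξ⟫) : ℝ) : ℂ) * Complex.I) * (a y : ℂ)) := by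
    intro y
    have : Complex.exp (((2 * Real.pi * ⟪ξ, x - y⟫ : ℝ) : ℂ) * Complex.I) =
        Complex.exp (((2 * Real.pi * ⟪ξ, x⟫ : ℝ) : ℂ) * Complex.I) *
          Complex.exp (((-(2 * Real.pi * ⟪y, ξ⟫) : ℝ) : ℂ) * Complex.I) := by
      rw [← Complex.exp_add, ← add_mul, ← Complex.ofReal_add, inner_sub_right,
        real_inner_comm y ξ]
      congr 3
      ring
    rw [this]; ring
  simp only [h4]
  rw [integral_const_mul]
  congr 1
  -- symmetrize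
  have hi1 : Integrable (fun y => Complex.exp (((-(2 * Real.pi * ⟪y, ξ⟫) : ℝ) : ℂ) * Complex.I) *
      (a y : ℂ)) ν := by
    apply ha.ofReal.bdd_mul (c := 1)
    · apply Continuous.aestronglyMeasurable; fun_prop
    · exact Eventually.of_forall (fun w => by rw [Complex.norm_exp_ofReal_mul_I])
  have hi2 : Integrable (fun y => Complex.exp ((((2 * Real.pi * ⟪y, ξ⟫) : ℝ) : ℂ) * Complex.I) *
      (a y : ℂ)) ν := by
    apply ha.ofReal.bdd_mul (c := 1)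
    · apply Continuous.aestronglyMeasurable; fun_prop
    · exact Eventually.of_forall (fun w => by rw [Complex.norm_exp_ofReal_mul_I])
  have h5 : ∫ y, Complex.exp (((-(2 * Real.pi * ⟪y, ξ⟫) : ℝ) : ℂ) * Complex.I) * (a y : ℂ) ∂ν =
      ∫ y, Complex.exp ((((2 * Real.pi * ⟪y, ξ⟫) : ℝ) : ℂ) * Complex.I) * (a y : ℂ) ∂ν := by
    rw [← hinv.integral_comp
      (LinearIsometryEquiv.neg ℝ : V3 ≃ₗᵢ[ℝ] V3).toHomeomorph.measurableEmbedding]
    congr 1
    ext y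
    simp only [LinearIsometryEquiv.coe_neg, inner_neg_left]
    rw [hev y]
    simp
  have h6 : ∫ y, Complex.exp (((-(2 * Real.pi * ⟪y, ξ⟫) : ℝ) : ℂ) * Complex.I) * (a y : ℂ) ∂ν =
      (1 / 2) * ((∫ y, Complex.exp (((-(2 * Real.pi * ⟪y, ξ⟫) : ℝ) : ℂ) * Complex.I) * (a y : ℂ) ∂ν)
        + ∫ y, Complex.exp ((((2 * Real.pi * ⟪y, ξ⟫) : ℝ) : ℂ) * Complex.I) * (a y : ℂ) ∂ν) := by
    rw [← h5]; ring
  rw [h6, ← integral_add hi1 hi2, ← integral_const_mul, ← integral_complex_ofReal]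
  congr 1
  ext y
  generalize 2 * Real.pi * ⟪y, ξ⟫ = θ
  rw [← add_mul, ← mul_assoc]
  push_cast
  congr 1
  rw [Complex.cos]
  ring

end Run7.h58
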