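import Pool.Agent.Run7.h58.Class

open MeasureTheory Finset
open scoped ENNReal RealInnerProductSpace

namespace Run7.h58

/-- passage to a coarser cell -/
def upc (d : ℕ) (c : I4) : I4 := fun i => c i / 4 ^ d

theorem cell_up (α : ℤ) (m d : ℕ) (e : I4) : cell α (m + d) e = upc d (cell α m e) := by
  ext i
  simp only [cell, upc]
  rw [pow_add, Int.ediv_ediv_of_nonneg (by positivity)]

/-- representatives of distinct cells -/
theorem rep_card (α : ℤ) (m : ℕ) (S : Finset I4)
    (hinj : ∀ e ∈ S, ∀ e' ∈ S, cell α m e = cell α m e' → e = e')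
    (hd : ∀ e ∈ S, ∀ e' ∈ S, dist e e' ≤ 2 * 4 ^ m) : #S ≤ 625 := by
  rcases S.eq_empty_or_nonempty with h0 | ⟨z, hz⟩
  · rw [h0]; simp
  · have h1 : #S ≤ #(Fintype.piFinset (fun i : Fin 4 =>
        Finset.Icc (cell α m z i - 2) (cell α m z i + 2))) := by
      apply Finset.card_le_card_of_injOn (cell α m)
      · intro e he
        rw [Finset.mem_coe] at he
        rw [Finset.mem_coe, Fintype.mem_piFinset]
        intro i
        have h2 := (dist_le_pi_dist e z i).trans (hd e he z hz)
        rw [Int.dist_eq] at h2
        have h3 : |e i - z i| ≤ 2 * 4 ^ m := by exact_mod_cast h2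
        obtain ⟨a1, a2⟩ := abs_le.1 h3
        have h4 : (0 : ℤ) < 4 ^ m := by positivity
        simp only [cell]
        rw [Finset.mem_Icc]
        constructor
        · have : (z i + α) / 4 ^ m - 2 = (z i + α + 4 ^ m * (-2)) / 4 ^ m := by
            rw [Int.add_mul_ediv_left _ _ h4.ne']; ring
          rw [this]
          exact Int.ediv_le_ediv h4 (by linarith)
        · have : (z i + α) / 4 ^ m + 2 = (z i + α + 4 ^ m * 2) / 4 ^ m := by
            rw [Int.add_mul_ediv_left _ _ h4.ne']
          rw [this]
          exact Int.ediv_le_ediv h4 (by linarith)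
      · intro e he e' he' h
        exact hinj e he e' he' h
    refine h1.trans ?_
    rw [Fintype.card_piFinset]
    have : ∀ i : Fin 4, #(Finset.Icc (cell α m z i - 2) (cell α m z i + 2)) = 5 := by
      intro i
      rw [Int.card_Icc]
      have : cell α m z i + 2 + 1 - (cell α m z i - 2) = 5 := by ring
      rw [this]; rfl
    rw [Finset.prod_congr rfl (fun i _ => this i)]
    simp

open Classical in
/-- packing in an annulus -/
theorem pack (y : I4 → V3) (S : Finset I4) (n : ℕ) (R : ℝ) (hR : 0 < R)
    (hn : ∀ x : V3, #{e ∈ S | ‖x - y e‖ ≤ R} ≤ n) (z : V3) (q w : ℝ) (hq : 0 ≤ q) (hw : 0 ≤ w)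
    (hS : ∀ e ∈ S, |‖y e - z‖ - q| ≤ w) :
    (#S : ℝ) * R ^ 3 ≤ n * (8 * Real.pi * (w + R) * (q + (w + R)) ^ 2) := by
  have hpi := Real.pi_gt_three
  set A : Set V3 := {x : V3 | |‖x - z‖ - q| ≤ w + R} with hA
  have hAm : MeasurableSet A := (isClosed_le (by fun_prop) (by fun_prop)).measurableSet
  have hAv := vol_annulus z q (w + R) hq (by linarith)
  have hball : ∀ e, volume (Metric.closedBall (y e) R) ≥ ENNReal.ofReal (R ^ 3) := by
    intro e
    rw [EuclideanSpace.volume_closedBall_fin_three, ge_iff_le]
    rw [← ENNReal.ofReal_pow hR.le, ← ENNReal.ofReal_mul (by positivity)]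
    apply ENNReal.ofReal_le_ofReal
    have : 0 < R ^ 3 := by positivity
    nlinarith
  have h1 : ∑ e ∈ S, volume (Metric.closedBall (y e) R) ≤ n * volume A := by
    have e1 : ∀ e ∈ S, volume (Metric.closedBall (y e) R) =
        ∫⁻ x, (Metric.closedBall (y e) R).indicator (fun _ => (1 : ℝ≥0∞)) x := by
      intro e _
      rw [lintegral_indicator Metric.isClosed_closedBall.measurableSet]
      simp
    rw [Finset.sum_congr rfl e1, ← lintegral_finsetSum]
    · calc ∫⁻ x, ∑ e ∈ S, (Metric.closedBall (y e) R).indicator (fun _ => (1 : ℝ≥0∞)) x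
          ≤ ∫⁻ x, n * A.indicator (fun _ => (1 : ℝ≥0∞)) x := by
            apply lintegral_mono
            intro x
            simp only
            by_cases hx : x ∈ A
            · rw [Set.indicator_of_mem hx, mul_one]
              have e2 : ∑ e ∈ S, (Metric.closedBall (y e) R).indicator (fun _ => (1 : ℝ≥0∞)) x
                  = (#{e ∈ S | ‖x - y e‖ ≤ R} : ℝ≥0∞) := by
                rw [Finset.card_filter]
                push_cast
                apply Finset.sum_congr rfl
                intro e _
                rw [Set.indicator_apply]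
                simp only [Metric.mem_closedBall, dist_eq_norm]
              rw [e2]
              exact_mod_cast hn x
            · have e2 : ∑ e ∈ S, (Metric.closedBall (y e) R).indicator (fun _ => (1 : ℝ≥0∞)) x
                  = 0 := by
                apply Finset.sum_eq_zero
                intro e he
                apply Set.indicator_of_notMem
                intro hxe
                apply hx
                rw [Metric.mem_closedBall, dist_eq_norm] at hxe
                have h3 := hS e he
                show |‖x - z‖ - q| ≤ w + R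
                have h4 : |‖x - z‖ - ‖y e - z‖| ≤ R := by
                  refine (abs_norm_sub_norm_le _ _).trans ?_
                  have : x - z - (y e - z) = x - y e := by abel
                  rw [this]; exact hxe
                obtain ⟨a1, a2⟩ := abs_le.1 h3
                obtain ⟨b1, b2⟩ := abs_le.1 h4
                rw [abs_le]
                constructor <;> linarith
              rw [e2]; exact zero_le
        _ = n * volume A := by
            rw [lintegral_const_mul _ (measurable_const.indicator hAm), lintegral_indicator hAm]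
            simp
    · intro e _
      exact measurable_const.indicator Metric.isClosed_closedBall.measurableSet
  have h2 : (#S : ℝ≥0∞) * ENNReal.ofReal (R ^ 3) ≤ ∑ e ∈ S, volume (Metric.closedBall (y e) R) := by
    rw [← nsmul_eq_mul, ← Finset.sum_const]
    exact Finset.sum_le_sum (fun e _ => hball e)
  have h3 : (#S : ℝ≥0∞) * ENNReal.ofReal (R ^ 3) ≤
      n * ENNReal.ofReal (8 * Real.pi * (w + R) * (q + (w + R)) ^ 2) :=
    (h2.trans h1).trans (mul_le_mul_right hAv _)
  have e3 : (#S : ℝ≥0∞) = ENNReal.ofReal (#S : ℝ) := by rw [ENNReal.ofReal_natCast]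
  have e4 : (n : ℝ≥0∞) = ENNReal.ofReal (n : ℝ) := by rw [ENNReal.ofReal_natCast]
  rw [e3, e4, ← ENNReal.ofReal_mul (by positivity), ← ENNReal.ofReal_mul (by positivity)] at h3
  have h5 : 0 ≤ (n : ℝ) * (8 * Real.pi * (w + R) * (q + (w + R)) ^ 2) := by positivity
  exact (ENNReal.ofReal_le_ofReal_iff h5).1 h3

end Run7.h58
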