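import Pool.Agent.Run7.h58.Atom

open MeasureTheory Set
open scoped ENNReal

namespace Run7.h58

/-- polynomial parts of the parametrix -/
noncomputable def uA (s : ℝ) : ℝ := -63 / 2048 + s / 2 - 945 / 512 * s ^ 2 + 525 / 64 * s ^ 4
  - 441 / 16 * s ^ 6 + 405 / 8 * s ^ 8 - 77 / 2 * s ^ 10
noncomputable def uA1 (s : ℝ) : ℝ := 1 / 2 - 945 / 256 * s + 525 / 16 * s ^ 3
  - 1323 / 8 * s ^ 5 + 405 * s ^ 7 - 385 * s ^ 9
noncomputable def qB (s : ℝ) : ℝ := 945 / 256 - 1575 / 16 * s ^ 2 + 6615 / 8 * s ^ 4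
  - 2835 * s ^ 6 + 3465 * s ^ 8
noncomputable def qB1 (s : ℝ) : ℝ := -(1575 / 8) * s + 6615 / 2 * s ^ 3 - 17010 * s ^ 5
  + 27720 * s ^ 7
noncomputable def qB2 (s : ℝ) : ℝ := -(1575 / 8) + 19845 / 2 * s ^ 2 - 85050 * s ^ 4
  + 194040 * s ^ 6

theorem d_uA (s : ℝ) : HasDerivAt uA (uA1 s) s := by
  unfold uA uA1
  have h : ∀ n : ℕ, HasDerivAt (fun s : ℝ => s ^ n) (n * s ^ (n - 1)) s := fun n => hasDerivAt_pow n s
  have h1 := (((((((hasDerivAt_const s (-63 / 2048 : ℝ)).add ((hasDerivAt_id s).div_const 2)).sub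
    ((h 2).const_mul (945 / 512))).add ((h 4).const_mul (525 / 64))).sub
    ((h 6).const_mul (441 / 16))).add ((h 8).const_mul (405 / 8))).sub
    ((h 10).const_mul (77 / 2)))
  refine h1.congr_deriv ?_
  norm_num
  ring

theorem d_uA1 (s : ℝ) : HasDerivAt uA1 (-qB s) s := by
  unfold uA1 qB
  have h : ∀ n : ℕ, HasDerivAt (fun s : ℝ => s ^ n) (n * s ^ (n - 1)) s := fun n => hasDerivAt_pow n s
  have h1 := ((((((hasDerivAt_const s (1 / 2 : ℝ)).sub ((hasDerivAt_id s).const_mul (945 / 256))).add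
    ((h 3).const_mul (525 / 16))).sub ((h 5).const_mul (1323 / 8))).add
    ((h 7).const_mul (405))).sub ((h 9).const_mul (385)))
  refine h1.congr_deriv ?_
  norm_num
  ring

theorem d_qB (s : ℝ) : HasDerivAt qB (qB1 s) s := by
  unfold qB qB1
  have h : ∀ n : ℕ, HasDerivAt (fun s : ℝ => s ^ n) (n * s ^ (n - 1)) s := fun n => hasDerivAt_pow n s
  have h1 := (((((hasDerivAt_const s (945 / 256 : ℝ)).sub ((h 2).const_mul (1575 / 16))).add
    ((h 4).const_mul (6615 / 8))).sub ((h 6).const_mul (2835))).add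
    ((h 8).const_mul (3465)))
  refine h1.congr_deriv ?_
  norm_num
  ring

theorem d_qB1 (s : ℝ) : HasDerivAt qB1 (qB2 s) s := by
  unfold qB1 qB2
  have h : ∀ n : ℕ, HasDerivAt (fun s : ℝ => s ^ n) (n * s ^ (n - 1)) s := fun n => hasDerivAt_pow n s
  have h1 := (((((hasDerivAt_id s).const_mul (-(1575 / 8) : ℝ)).add
    ((h 3).const_mul (6615 / 2))).sub ((h 5).const_mul (17010))).add
    ((h 7).const_mul (27720)))
  refine h1.congr_deriv ?_
  norm_num
  ring

/-- clamped even extension -/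
noncomputable def ext (P : ℝ → ℝ) (s : ℝ) : ℝ := P (min |s| (1 / 2)) / 20000

theorem ext_even (P : ℝ → ℝ) (s : ℝ) : ext P (-s) = ext P s := by
  unfold ext; rw [abs_neg]

theorem ext_cont (P : ℝ → ℝ) (hP : Continuous P) : Continuous (ext P) := by
  unfold ext
  exact (hP.comp (by fun_prop)).div_const _

theorem ext_pos (P : ℝ → ℝ) (s : ℝ) (h0 : 0 ≤ s) (h1 : s ≤ 1 / 2) : ext P s = P s / 20000 := by
  unfold ext
  rw [abs_of_nonneg h0, min_eq_left h1]

theorem even_int (f : ℝ → ℝ) (hf : Continuous f) (he : ∀ s, f (-s) = f s) (a : ℝ) :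
    ∫ s in (-a)..a, f s = 2 * ∫ s in (0 : ℝ)..a, f s := by
  rw [← intervalIntegral.integral_add_adjacent_intervals (b := 0) (hf.intervalIntegrable _ _)
    (hf.intervalIntegrable _ _)]
  have : ∫ s in (-a)..0, f s = ∫ s in (0 : ℝ)..a, f s := by
    have h := intervalIntegral.integral_comp_neg (a := 0) (b := a) (fun s => f s)
    rw [neg_zero] at h
    rw [← h]
    apply intervalIntegral.integral_congr
    intro s _
    exact he s
  rw [this]; ring

theorem uA_cont : Continuous uA := by unfold uA; fun_prop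
theorem qB2_cont : Continuous qB2 := by unfold qB2; fun_prop
theorem uA1_cont : Continuous uA1 := by unfold uA1; fun_prop
theorem qB_cont : Continuous qB := by unfold qB; fun_prop
theorem qB1_cont : Continuous qB1 := by unfold qB1; fun_prop

theorem pow_half_bound (s : ℝ) (h0 : 0 ≤ s) (h1 : s ≤ 1 / 2) (n : ℕ) : 0 ≤ s ^ n ∧ s ^ n ≤ 1 :=
  ⟨by positivity, pow_le_one₀ h0 (by linarith)⟩

theorem uA_bound (s : ℝ) (h0 : 0 ≤ s) (h1 : s ≤ 1 / 2) : |uA s| ≤ 20000 := by
  unfold uA
  have a2 := pow_half_bound s h0 h1 2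
  have a4 := pow_half_bound s h0 h1 4
  have a6 := pow_half_bound s h0 h1 6
  have a8 := pow_half_bound s h0 h1 8
  have a10 := pow_half_bound s h0 h1 10
  rw [abs_le]; constructor <;> linarith [a2.1, a2.2, a4.1, a4.2, a6.1, a6.2, a8.1, a8.2, a10.1, a10.2]

theorem qB2_bound (s : ℝ) (h0 : 0 ≤ s) (h1 : s ≤ 1 / 2) : |qB2 s| ≤ 20000 := by
  unfold qB2
  have a2 : 0 ≤ s ^ 2 ∧ s ^ 2 ≤ 1 / 4 := ⟨by positivity, by nlinarith⟩
  have a4 : 0 ≤ s ^ 4 ∧ s ^ 4 ≤ 1 / 16 := by
    refine ⟨by positivity, ?_⟩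
    have : s ^ 4 = s ^ 2 * s ^ 2 := by ring
    nlinarith [a2.1, a2.2]
  have a6 : 0 ≤ s ^ 6 ∧ s ^ 6 ≤ 1 / 64 := by
    refine ⟨by positivity, ?_⟩
    have : s ^ 6 = s ^ 2 * s ^ 4 := by ring
    nlinarith [a2.1, a2.2, a4.1, a4.2]
  rw [abs_le]; constructor <;> linarith [a2.1, a2.2, a4.1, a4.2, a6.1, a6.2]

theorem ext_profile (P : ℝ → ℝ) (hP : Continuous P) (hb : ∀ s, 0 ≤ s → s ≤ 1 / 2 → |P s| ≤ 20000)
    (h0 : P (1 / 2) = 0) (hm : ∫ s in (0 : ℝ)..(1 / 2), P s = 0) : Profile (ext P) := by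
  refine ⟨ext_cont P hP, ?_, ?_, ?_⟩
  · intro s
    unfold ext
    rw [abs_div, abs_of_pos (show (0 : ℝ) < 20000 by norm_num), div_le_one (by norm_num)]
    apply hb
    · exact le_min (abs_nonneg _) (by norm_num)
    · exact min_le_right _ _
  · intro s hs
    unfold ext
    rw [min_eq_right hs, h0, zero_div]
  · rw [even_int (ext P) (ext_cont P hP) (ext_even P)]
    have : ∫ s in (0 : ℝ)..(1 / 2), ext P s = ∫ s in (0 : ℝ)..(1 / 2), P s / 20000 := by
      apply intervalIntegral.integral_congr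
      intro s hs
      rw [uIcc_of_le (by norm_num)] at hs
      exact ext_pos P s hs.1 hs.2
    rw [this, intervalIntegral.integral_div, hm]
    simp

noncomputable def PsA : ℝ → ℝ := ext uA
noncomputable def PsB : ℝ → ℝ := ext qB2

theorem PsA_profile : Profile PsA := by
  apply ext_profile uA uA_cont uA_bound
  · unfold uA; norm_num
  · have h : ∀ s ∈ uIcc (0 : ℝ) (1 / 2), HasDerivAt (fun s : ℝ => -63 / 2048 * s + s ^ 2 / 4
        - 945 / 1536 * s ^ 3 + 525 / 320 * s ^ 5 - 441 / 112 * s ^ 7 + 405 / 72 * s ^ 9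
        - 77 / 22 * s ^ 11) (uA s) s := by
      intro s _
      unfold uA
      have h : ∀ n : ℕ, HasDerivAt (fun s : ℝ => s ^ n) (n * s ^ (n - 1)) s :=
        fun n => hasDerivAt_pow n s
      have h1 := ((((((((hasDerivAt_id s).const_mul (-63 / 2048 : ℝ)).add ((h 2).div_const 4)).sub
        ((h 3).const_mul (945 / 1536))).add ((h 5).const_mul (525 / 320))).sub
        ((h 7).const_mul (441 / 112))).add ((h 9).const_mul (405 / 72))).sub
        ((h 11).const_mul (77 / 22)))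
      refine h1.congr_deriv ?_
      norm_num
      ring
    rw [intervalIntegral.integral_eq_sub_of_hasDerivAt h (uA_cont.intervalIntegrable _ _)]
    norm_num

theorem PsB_profile : Profile PsB := by
  apply ext_profile qB2 qB2_cont qB2_bound
  · unfold qB2; norm_num
  · rw [intervalIntegral.integral_eq_sub_of_hasDerivAt (fun s _ => d_qB1 s)
      (qB2_cont.intervalIntegrable _ _)]
    unfold qB1; norm_num

/-- cosine transform -/
noncomputable def cosT (Ψ : ℝ → ℝ) (ω : ℝ) : ℝ := ∫ s in (-(1 / 2) : ℝ)..(1 / 2), Ψ s * Real.cos (ω * s)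

theorem cosT_ext (P : ℝ → ℝ) (hP : Continuous P) (ω : ℝ) :
    cosT (ext P) ω = (∫ s in (0 : ℝ)..(1 / 2), P s * Real.cos (ω * s)) / 10000 := by
  unfold cosT
  rw [even_int (fun s => ext P s * Real.cos (ω * s)) ((ext_cont P hP).mul (by fun_prop))
    (fun s => by rw [ext_even, mul_neg, Real.cos_neg])]
  have : ∫ s in (0 : ℝ)..(1 / 2), ext P s * Real.cos (ω * s)
      = ∫ s in (0 : ℝ)..(1 / 2), (P s * Real.cos (ω * s)) / 20000 := by
    apply intervalIntegral.integral_congr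
    intro s hs
    rw [uIcc_of_le (by norm_num)] at hs
    simp only
    rw [ext_pos P s hs.1 hs.2]; ring
  rw [this, intervalIntegral.integral_div]
  ring

theorem param_id (ω : ℝ) : ω ^ 4 * cosT PsA ω + cosT PsB ω = -(ω ^ 2 / 20000) := by
  unfold PsA PsB
  rw [cosT_ext uA uA_cont, cosT_ext qB2 qB2_cont]
  have key : (∫ s in (0 : ℝ)..(1 / 2), (ω ^ 4 * (uA s * Real.cos (ω * s)) +
      qB2 s * Real.cos (ω * s))) = -(ω ^ 2 / 2) := by
    have hder : ∀ s ∈ uIcc (0 : ℝ) (1 / 2), HasDerivAt (fun s : ℝ =>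
        ω ^ 3 * (uA s * Real.sin (ω * s)) + ω ^ 2 * (uA1 s * Real.cos (ω * s)) +
        qB1 s * Real.cos (ω * s) + ω * (qB s * Real.sin (ω * s)))
        (ω ^ 4 * (uA s * Real.cos (ω * s)) + qB2 s * Real.cos (ω * s)) s := by
      intro s _
      have hl : HasDerivAt (fun s : ℝ => ω * s) ω s := by
        simpa using (hasDerivAt_id s).const_mul ω
      have hs := hl.sin
      have hc := hl.cos
      have h1 := (((((d_uA s).mul hs).const_mul (ω ^ 3)).add (((d_uA1 s).mul hc).const_mul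
        (ω ^ 2))).add ((d_qB1 s).mul hc)).add (((d_qB s).mul hs).const_mul ω)
      refine h1.congr_deriv ?_
      ring
    rw [intervalIntegral.integral_eq_sub_of_hasDerivAt hder]
    · unfold uA uA1 qB qB1
      norm_num
      ring
    · apply Continuous.intervalIntegrable
      have := uA_cont
      have := qB2_cont
      fun_prop
  rw [intervalIntegral.integral_add, intervalIntegral.integral_const_mul] at key
  · linear_combination key / 10000
  · apply Continuous.intervalIntegrable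
    have := uA_cont
    fun_prop
  · apply Continuous.intervalIntegrable
    have := qB2_cont
    fun_prop

end Run7.h58
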