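import Pool.Agent.Run7.h58.Disc

open MeasureTheory
open scoped ENNReal

namespace Run7.h58

/-- lattice translation -/
noncomputable def tau (e : I4) : V3 × ℝ :=
  (WithLp.toLp 2 (fun i : Fin 3 => (e i.castSucc : ℝ)), (e (Fin.last 3) : ℝ))

/-- unit cells of space-radius space -/
def QE (e : I4) : Set (V3 × ℝ) :=
  {q | (∀ i : Fin 3, ⌊q.1 i⌋ = e i.castSucc) ∧ ⌊q.2⌋ = e (Fin.last 3)}

theorem QE_meas (e : I4) : MeasurableSet (QE e) := by
  have h1 : ∀ i : Fin 3, MeasurableSet {q : V3 × ℝ | ⌊q.1 i⌋ = e i.castSucc} := by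
    intro i
    have hm : Measurable fun q : V3 × ℝ => ⌊q.1 i⌋ := by
      apply Int.measurable_floor.comp
      have : Continuous fun q : V3 × ℝ => q.1 i := by fun_prop
      exact this.measurable
    exact hm (measurableSet_singleton _)
  have h2 : MeasurableSet {q : V3 × ℝ | ⌊q.2⌋ = e (Fin.last 3)} := by
    have hm : Measurable fun q : V3 × ℝ => ⌊q.2⌋ := Int.measurable_floor.comp measurable_snd
    exact hm (measurableSet_singleton _)
  have h3 : QE e = (⋂ i : Fin 3, {q : V3 × ℝ | ⌊q.1 i⌋ = e i.castSucc}) ∩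
      {q : V3 × ℝ | ⌊q.2⌋ = e (Fin.last 3)} := by
    ext q; simp [QE]
  rw [h3]
  exact (MeasurableSet.iInter h1).inter h2

theorem QE_inj {q : V3 × ℝ} {e e' : I4} (h : q ∈ QE e) (h' : q ∈ QE e') : e = e' := by
  ext i
  refine Fin.lastCases ?_ ?_ i
  · rw [← h.2, ← h'.2]
  · intro j
    rw [← h.1 j, ← h'.1 j]

theorem QE_disj : Pairwise (Function.onFun Disjoint QE) := by
  intro e e' hne
  rw [Function.onFun, Set.disjoint_left]
  intro q h h'
  exact hne (QE_inj h h')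

theorem QE_union : ⋃ e, QE e = Set.univ := by
  rw [Set.eq_univ_iff_forall]
  intro q
  rw [Set.mem_iUnion]
  refine ⟨Fin.snoc (α := fun _ => ℤ) (fun i : Fin 3 => ⌊q.1 i⌋) ⌊q.2⌋, ?_, ?_⟩
  · intro i
    rw [Fin.snoc_castSucc]
  · rw [Fin.snoc_last]

theorem QE_trans (e : I4) : (fun q : V3 × ℝ => q + tau e) ⁻¹' QE e = QE 0 := by
  ext q
  simp only [Set.mem_preimage, QE, tau, Set.mem_ofPred_eq, Prod.fst_add, Prod.snd_add,
    PiLp.add_apply, Int.floor_add_intCast, Pi.zero_apply]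
  constructor
  · rintro ⟨h1, h2⟩
    exact ⟨fun i => by have := h1 i; omega, by omega⟩
  · rintro ⟨h1, h2⟩
    exact ⟨fun i => by have := h1 i; omega, by omega⟩

theorem QE_vol : volume (QE 0) ≤ 1 := by
  have h1 : QE 0 = {z : V3 | ∀ i, z i ∈ Set.Ico (0 : ℝ) 1} ×ˢ Set.Ico (0 : ℝ) 1 := by
    ext q
    simp only [QE, Set.mem_ofPred_eq, Pi.zero_apply, Set.mem_prod, Int.floor_eq_zero_iff]
  rw [h1, Measure.volume_eq_prod, Measure.prod_prod, Real.volume_Ico]
  have h2 : volume {z : V3 | ∀ i, z i ∈ Set.Ico (0 : ℝ) 1} = 1 := by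
    have hms : MeasurableSet {z : V3 | ∀ i, z i ∈ Set.Ico (0 : ℝ) 1} := by
      have : {z : V3 | ∀ i, z i ∈ Set.Ico (0 : ℝ) 1} = ⋂ i, {z : V3 | z i ∈ Set.Ico (0 : ℝ) 1} := by
        ext z; simp
      rw [this]
      apply MeasurableSet.iInter
      intro i
      have : Continuous fun z : V3 => z i := by fun_prop
      exact this.measurable measurableSet_Ico
    rw [← (PiLp.volume_preserving_toLp (Fin 3)).measure_preimage hms.nullMeasurableSet]
    have : (WithLp.toLp 2 : (Fin 3 → ℝ) → V3) ⁻¹' {z : V3 | ∀ i, z i ∈ Set.Ico (0 : ℝ) 1}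
        = Set.pi Set.univ (fun _ => Set.Ico (0 : ℝ) 1) := by
      ext z; simp
    rw [this, Real.volume_pi_Ico]
    simp
  rw [h2]
  simp

instance vol_inv : (volume : Measure (V3 × ℝ)).IsAddRightInvariant := by
  rw [Measure.volume_eq_prod]
  have : ((volume : Measure V3).prod (volume : Measure ℝ)).IsAddLeftInvariant := inferInstance
  exact inferInstance

theorem lint_unfold (Φ : V3 × ℝ → ℝ≥0∞) (hΦ : Measurable Φ) :
    ∫⁻ q, Φ q = ∑' e : I4, ∫⁻ q in QE 0, Φ (q + tau e) := by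
  have h1 : ∫⁻ q, Φ q = ∫⁻ q in ⋃ e, QE e, Φ q := by
    rw [QE_union, Measure.restrict_univ]
  rw [h1, lintegral_iUnion QE_meas QE_disj]
  congr 1
  ext e
  rw [← QE_trans e]
  exact ((measurePreserving_add_right volume (tau e)).setLIntegral_comp_preimage
    (QE_meas e) hΦ).symm

theorem int_unfold (Φ : V3 × ℝ → ℂ) (hΦ : Integrable Φ) (S : Finset I4)
    (hS : ∀ q, (∀ e ∈ S, q ∉ QE e) → Φ q = 0) :
    ∫ q, Φ q = ∫ q in QE 0, ∑ e ∈ S, Φ (q + tau e) := by
  have h1 : ∫ q, Φ q = ∫ q in ⋃ e ∈ S, QE e, Φ q := by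
    rw [setIntegral_eq_integral_of_forall_compl_eq_zero]
    intro q hq
    apply hS
    intro e he hqe
    apply hq
    rw [Set.mem_iUnion₂]
    exact ⟨e, he, hqe⟩
  rw [h1, integral_biUnion_finset S (fun e _ => QE_meas e)
    (fun e _ e' _ hne => QE_disj hne) (fun e _ => hΦ.integrableOn)]
  rw [integral_finsetSum]
  · apply Finset.sum_congr rfl
    intro e _
    rw [← QE_trans e]
    exact ((measurePreserving_add_right volume (tau e)).setIntegral_preimage_emb
      (measurableEmbedding_addRight (tau e)) Φ (QE e)).symm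
  · intro e _
    exact (hΦ.comp_add_right (tau e)).integrableOn

theorem tau_fst (q : V3 × ℝ) (e : I4) : (q + tau e).1 = yv q.1 e := by
  ext i; rfl

theorem tau_snd (q : V3 × ℝ) (e : I4) : (q + tau e).2 = rv q.2 e := rfl

/-- Jensen for measures of mass at most one -/
theorem jensen {X : Type*} [MeasurableSpace X] (μ : Measure X) (hμ : μ Set.univ ≤ 1)
    (f : X → ℝ≥0∞) (hf : AEMeasurable f μ) (p : ℝ) (hp : 1 < p) :
    (∫⁻ x, f x ∂μ) ^ p ≤ ∫⁻ x, f x ^ p ∂μ := by
  have hpq := Real.HolderConjugate.conjExponent hp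
  have hp0 : 0 < p := by linarith
  have h1 := ENNReal.lintegral_mul_le_Lp_mul_Lq μ hpq hf
    (aemeasurable_const (b := (1 : ℝ≥0∞)))
  simp only [Pi.mul_apply, mul_one, ENNReal.one_rpow, lintegral_const, one_mul] at h1
  have h2 : μ Set.univ ^ (1 / Real.conjExponent p) ≤ 1 := by
    apply ENNReal.rpow_le_one hμ
    have := hpq.symm.pos
    positivity
  have h3 : ∫⁻ x, f x ∂μ ≤ (∫⁻ x, f x ^ p ∂μ) ^ (1 / p) := by
    refine h1.trans ?_
    calc (∫⁻ x, f x ^ p ∂μ) ^ (1 / p) * μ Set.univ ^ (1 / Real.conjExponent p)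
        ≤ (∫⁻ x, f x ^ p ∂μ) ^ (1 / p) * 1 := by gcongr
      _ = _ := mul_one _
  calc (∫⁻ x, f x ∂μ) ^ p ≤ ((∫⁻ x, f x ^ p ∂μ) ^ (1 / p)) ^ p :=
        ENNReal.rpow_le_rpow h3 hp0.le
    _ = _ := by
        rw [← ENNReal.rpow_mul, one_div, inv_mul_cancel₀ hp0.ne', ENNReal.rpow_one]

theorem atom_joint {Ψ : ℝ → ℝ} (hΨ : Profile Ψ) :
    Continuous fun w : (V3 × ℝ) × V3 => atom Ψ w.1.1 w.1.2 w.2 := by
  unfold atom
  apply Continuous.mul (by fun_prop)
  apply Continuous.div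
  · exact hΨ.cont.comp (by fun_prop)
  · fun_prop
  · intro w
    have : (1 / 2 : ℝ) ≤ max ‖w.2 - w.1.1‖ (1 / 2) := le_max_right _ _
    have h : (0 : ℝ) < max ‖w.2 - w.1.1‖ (1 / 2) := by linarith
    exact h.ne'

/-- bounded measurable functions with compact support -/
structure BMC (g : V3 × ℝ → ℂ) : Prop where
  meas : Measurable g
  bdd : ∃ B : ℝ, ∀ q, ‖g q‖ ≤ B
  cs : HasCompactSupport g

theorem BMC.integrable {g : V3 × ℝ → ℂ} (hg : BMC g) : Integrable g := by
  obtain ⟨B, hB⟩ := hg.bdd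
  have h1 : IntegrableOn g (tsupport g) :=
    Measure.integrableOn_of_bounded hg.cs.isCompact.measure_lt_top.ne
      hg.meas.aestronglyMeasurable (Filter.Eventually.of_forall hB)
  exact (integrableOn_iff_integrable_of_support_subset (subset_tsupport g)).1 h1

theorem BMC.integrable_mul {g : V3 × ℝ → ℂ} (hg : BMC g) (f : V3 × ℝ → ℂ) (hf : Continuous f) :
    Integrable (fun q => g q * f q) := by
  obtain ⟨M, hM⟩ := hg.cs.isCompact.exists_bound_of_continuousOn hf.continuousOn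
  apply Integrable.mono' (hg.integrable.norm.const_mul M)
  · exact (hg.meas.mul hf.measurable).aestronglyMeasurable
  · filter_upwards with q
    rw [norm_mul, mul_comm]
    by_cases hq : q ∈ tsupport g
    · exact mul_le_mul_of_nonneg_right (hM q hq) (norm_nonneg _)
    · rw [image_eq_zero_of_notMem_tsupport hq]; simp

/-- the continuous inequality from the discrete one -/
theorem cont_ineq {Ψ : ℝ → ℝ} (hΨ : Profile Ψ) (J : Set ℝ) (hJ : MeasurableSet J)
    (p : ℝ) (hp : 1 < p) (C : ℝ) (hC : 0 ≤ C)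
    (hdisc : ∀ (a : V3) (b : ℝ) (E : Finset I4), (∀ e ∈ E, rv b e ∈ J) → ∀ c : I4 → ℂ,
      ∫⁻ x, ‖∑ e ∈ E, c e * (atom Ψ (yv a e) (rv b e) x : ℂ)‖ₑ ^ p ≤
        ENNReal.ofReal (C * ∑ e ∈ E, ‖c e‖ ^ p * rv b e ^ 2))
    (g : V3 × ℝ → ℂ) (hg : BMC g) :
    ∫⁻ x, ‖∫ q in {q : V3 × ℝ | q.2 ∈ J}, g q * (atom Ψ q.1 q.2 x : ℂ)‖ₑ ^ p ≤
      ENNReal.ofReal C * ∫⁻ q in {q : V3 × ℝ | q.2 ∈ J}, ‖g q‖ₑ ^ p * ENNReal.ofReal (q.2 ^ 2) := by
  classical
  have hp0 : 0 < p := by linarith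
  set S : Set (V3 × ℝ) := {q : V3 × ℝ | q.2 ∈ J} with hS
  have hSm : MeasurableSet S := measurable_snd hJ
  -- finite index set
  obtain ⟨ρ, hρ⟩ := hg.cs.isCompact.isBounded.subset_closedBall 0
  obtain ⟨N, hN⟩ := exists_nat_gt (ρ + 1)
  set E : Finset I4 := Fintype.piFinset (fun _ : Fin 4 => Finset.Icc (-(N : ℤ)) N) with hE
  have hEsupp : ∀ q, (∀ e ∈ E, q ∉ QE e) → g q = 0 := by
    intro q hq
    by_contra hne
    have h1 : q ∈ Metric.closedBall (0 : V3 × ℝ) ρ := hρ (subset_tsupport g hne)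
    rw [mem_closedBall_zero_iff] at h1
    have h2 : q ∈ ⋃ e, QE e := by rw [QE_union]; trivial
    obtain ⟨e, he⟩ := Set.mem_iUnion.1 h2
    apply hq e _ he
    rw [hE, Fintype.mem_piFinset]
    have hb : ∀ t : ℝ, |t| ≤ ρ → ⌊t⌋ ∈ Finset.Icc (-(N : ℤ)) N := by
      intro t ht
      obtain ⟨t1, t2⟩ := abs_le.1 ht
      rw [Finset.mem_Icc]
      constructor
      · rw [Int.le_floor]; push_cast; linarith
      · have : (⌊t⌋ : ℝ) ≤ t := Int.floor_le t
        have h3 : (⌊t⌋ : ℝ) ≤ (N : ℝ) := by linarith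
        exact_mod_cast h3
    intro i
    refine Fin.lastCases ?_ ?_ i
    · rw [← he.2]
      apply hb
      refine le_trans ?_ h1
      have := norm_snd_le q
      rwa [Real.norm_eq_abs] at this
    · intro j
      rw [← he.1 j]
      apply hb
      exact (abs_coord_le q.1 j).trans ((norm_fst_le q).trans h1)
  set Φ : V3 → V3 × ℝ → ℂ := fun x q => S.indicator (fun q => g q * (atom Ψ q.1 q.2 x : ℂ)) q
    with hΦ
  have hintΦ : ∀ x, Integrable (Φ x) := by
    intro x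
    apply Integrable.indicator _ hSm
    apply hg.integrable_mul
    apply Complex.continuous_ofReal.comp
    exact (atom_joint hΨ).comp (by fun_prop : Continuous fun q : V3 × ℝ => (q, x))
  have hjm : Measurable fun w : (V3 × ℝ) × V3 => Φ w.2 w.1 := by
    have h1 : Measurable fun w : (V3 × ℝ) × V3 => g w.1 * (atom Ψ w.1.1 w.1.2 w.2 : ℂ) := by
      apply (hg.meas.comp measurable_fst).mul
      exact (Complex.continuous_ofReal.comp (atom_joint hΨ)).measurable
    have h2 : (fun w : (V3 × ℝ) × V3 => Φ w.2 w.1) = ({w : (V3 × ℝ) × V3 | w.1 ∈ S}).indicator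
        (fun w => g w.1 * (atom Ψ w.1.1 w.1.2 w.2 : ℂ)) := by
      ext w
      simp only [hΦ, Set.indicator_apply]
      rfl
    rw [h2]
    exact h1.indicator (measurable_fst hSm)
  have hjm2 : Measurable fun w : (V3 × ℝ) × V3 => ∑ e ∈ E, Φ w.2 (w.1 + tau e) := by
    apply Finset.measurable_sum
    intro e _
    exact hjm.comp (by fun_prop : Measurable fun w : (V3 × ℝ) × V3 => (w.1 + tau e, w.2))
  -- step 1
  have step1 : ∀ x, ‖∫ q in S, g q * (atom Ψ q.1 q.2 x : ℂ)‖ₑ ^ p ≤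
      ∫⁻ q in QE 0, ‖∑ e ∈ E, Φ x (q + tau e)‖ₑ ^ p := by
    intro x
    have h1 : ∫ q in S, g q * (atom Ψ q.1 q.2 x : ℂ) = ∫ q, Φ x q := by
      rw [← integral_indicator hSm]
    rw [h1, int_unfold (Φ x) (hintΦ x) E (by
      intro q hq
      simp only [hΦ, Set.indicator_apply]
      rw [hEsupp q hq]; simp)]
    refine le_trans (ENNReal.rpow_le_rpow (enorm_integral_le_lintegral_enorm _) hp0.le) ?_
    apply jensen _ (by rw [Measure.restrict_apply_univ]; exact QE_vol) _ _ p hp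
    apply Measurable.aemeasurable
    exact (hjm2.comp (by fun_prop : Measurable fun q : V3 × ℝ => (q, x))).enorm
  set Θ : V3 × ℝ → ℝ≥0∞ := fun q => S.indicator (fun q => ‖g q‖ₑ ^ p * ENNReal.ofReal (q.2 ^ 2)) q
    with hΘ
  have hΘm : Measurable Θ := by
    apply Measurable.indicator _ hSm
    apply Measurable.mul
    · exact hg.meas.enorm.pow_const p
    · fun_prop
  -- step 2 : the discrete inequality
  have step2 : ∀ q, ∫⁻ x, ‖∑ e ∈ E, Φ x (q + tau e)‖ₑ ^ p ≤
      ENNReal.ofReal C * ∑ e ∈ E, Θ (q + tau e) := by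
    intro q
    have h1 : ∀ x, ∑ e ∈ E, Φ x (q + tau e) = ∑ e ∈ E.filter (fun e => rv q.2 e ∈ J),
        g (q + tau e) * (atom Ψ (yv q.1 e) (rv q.2 e) x : ℂ) := by
      intro x
      rw [Finset.sum_filter]
      apply Finset.sum_congr rfl
      intro e _
      simp only [hΦ, Set.indicator_apply]
      rfl
    simp only [h1]
    refine (hdisc q.1 q.2 (E.filter (fun e => rv q.2 e ∈ J))
      (fun e he => (Finset.mem_filter.1 he).2) (fun e => g (q + tau e))).trans ?_
    rw [ENNReal.ofReal_mul hC]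
    apply mul_le_mul_right
    rw [ENNReal.ofReal_sum_of_nonneg (fun e _ => by positivity), Finset.sum_filter]
    apply Finset.sum_le_sum
    intro e _
    by_cases h : rv q.2 e ∈ J
    · rw [if_pos h]
      have h2 : q + tau e ∈ S := h
      simp only [hΘ]
      rw [Set.indicator_of_mem h2, ENNReal.ofReal_mul (by positivity),
        ← ENNReal.ofReal_rpow_of_nonneg (norm_nonneg _) hp0.le, ofReal_norm]
      rfl
    · rw [if_neg h]; exact zero_le
  calc ∫⁻ x, ‖∫ q in S, g q * (atom Ψ q.1 q.2 x : ℂ)‖ₑ ^ p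
      ≤ ∫⁻ x, ∫⁻ q in QE 0, ‖∑ e ∈ E, Φ x (q + tau e)‖ₑ ^ p := lintegral_mono step1
    _ = ∫⁻ q in QE 0, ∫⁻ x, ‖∑ e ∈ E, Φ x (q + tau e)‖ₑ ^ p := by
        apply lintegral_lintegral_swap
        apply Measurable.aemeasurable
        have := (hjm2.comp (measurable_swap : Measurable (Prod.swap : V3 × (V3 × ℝ) → _))).enorm.pow_const p
        exact this
    _ ≤ ∫⁻ q in QE 0, ENNReal.ofReal C * ∑ e ∈ E, Θ (q + tau e) := lintegral_mono step2
    _ = ENNReal.ofReal C * ∑ e ∈ E, ∫⁻ q in QE 0, Θ (q + tau e) := by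
        rw [lintegral_const_mul, lintegral_finsetSum]
        · intro e _
          exact hΘm.comp (measurable_add_const _)
        · apply Finset.measurable_sum
          intro e _
          exact hΘm.comp (measurable_add_const _)
    _ ≤ ENNReal.ofReal C * ∑' e : I4, ∫⁻ q in QE 0, Θ (q + tau e) := by
        apply mul_le_mul_right
        exact ENNReal.sum_le_tsum E
    _ = ENNReal.ofReal C * ∫⁻ q, Θ q := by rw [← lint_unfold Θ hΘm]
    _ = _ := by
        congr 1
        exact lintegral_indicator hSm _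

end Run7.h58
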