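import Pool.Agent.Run7.h58.Mult
import Pool.Agent.Run7.h58.Unfold

open MeasureTheory Set Filter Topology
open scoped ENNReal RealInnerProductSpace MeasureTheory NNReal FourierTransform SchwartzMap

namespace Run7.h58

/-- the constant of the kernel identity -/
noncomputable def kpp : ℝ := -(5000 * m1 / Real.pi)

theorem atom_even {Ψ : ℝ → ℝ} (r : ℝ) (w : V3) : atom Ψ 0 r (-w) = atom Ψ 0 r w := by
  simp [atom, norm_neg]

theorem atom_integrable {Ψ : ℝ → ℝ} (hΨ : Profile Ψ) (y : V3) (r : ℝ) :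
    Integrable (atom Ψ y r) :=
  (atom_cont hΨ y r).integrable_of_hasCompactSupport (atom_hcs hΨ y r)

/-- kernel identity -/
theorem kernel_id (η va vb : 𝓢(V3, ℂ))
    (hab : ∀ ξ : V3, 𝓕 va ξ = ((((2 * Real.pi * ‖ξ‖) ^ 2 : ℝ)) : ℂ) * 𝓕 η ξ ∧
      (((2 * Real.pi * ‖ξ‖) ^ 2 : ℝ) : ℂ) * 𝓕 vb ξ = 𝓕 η ξ)
    (r : ℝ) (hr : 1 ≤ r) (x : V3) :
    ∫ y in Metric.sphere (0 : V3) r, η (x - y) ∂μH[2] =
      (kpp : ℂ) * ((∫ w, va (x - w) * (atom PsA 0 r w : ℂ)) +
        ∫ w, vb (x - w) * (atom PsB 0 r w : ℂ)) := by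
  have hpi := Real.pi_pos
  have hr0 : 0 < r := by linarith
  have hfin := sg_finite r hr0
  have hevA : ∀ s, PsA (-s) = PsA s := ext_even _
  have hevB : ∀ s, PsB (-s) = PsB s := ext_even _
  have h1 := conv_swap η (sg r) (fun _ => (1 : ℝ)) (integrable_const _)
    (sg_inv r (LinearIsometryEquiv.neg ℝ)) (fun _ => rfl) x
  have h2 := conv_swap va volume (atom PsA 0 r) (atom_integrable PsA_profile 0 r)
    (LinearIsometryEquiv.neg ℝ : V3 ≃ₗᵢ[ℝ] V3).measurePreserving (fun y => atom_even r y) x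
  have h3 := conv_swap vb volume (atom PsB 0 r) (atom_integrable PsB_profile 0 r)
    (LinearIsometryEquiv.neg ℝ : V3 ≃ₗᵢ[ℝ] V3).measurePreserving (fun y => atom_even r y) x
  have h4 : ∫ y in Metric.sphere (0 : V3) r, η (x - y) ∂μH[2] =
      ∫ y, η (x - y) * (((fun _ => (1 : ℝ)) y : ℝ) : ℂ) ∂(sg r) := by
    simp [sg]
  rw [h4, h1, h2, h3]
  have hb : ∀ (v : 𝓢(V3, ℂ)) {Ψ : ℝ → ℝ} (hΨ : Profile Ψ), Integrable (fun ξ : V3 =>
      𝓕 v ξ * Complex.exp (((2 * Real.pi * ⟪ξ, x⟫ : ℝ) : ℂ) * Complex.I) *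
        ((∫ y, Real.cos (2 * Real.pi * ⟪y, ξ⟫) * atom Ψ 0 r y : ℝ) : ℂ)) := by
    intro v Ψ hΨ
    have hi := atom_integrable hΨ 0 r
    have e1 : Integrable (fun ξ : V3 =>
        𝓕 v ξ * Complex.exp (((2 * Real.pi * ⟪ξ, x⟫ : ℝ) : ℂ) * Complex.I)) := by
      have e0 : Integrable (fun ξ : V3 => 𝓕 v ξ) := (𝓕 v).integrable
      apply e0.mul_bdd (c := 1)
      · apply Continuous.aestronglyMeasurable; fun_prop
      · exact Eventually.of_forall (fun w => by rw [Complex.norm_exp_ofReal_mul_I])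
    apply e1.mul_bdd (c := ∫ y, |atom Ψ 0 r y|)
    · apply Continuous.aestronglyMeasurable
      apply Complex.continuous_ofReal.comp
      apply continuous_of_dominated (bound := fun y => |atom Ψ 0 r y|)
      · intro ξ
        apply Continuous.aestronglyMeasurable
        exact Continuous.mul (by fun_prop) (atom_cont hΨ 0 r)
      · intro ξ
        filter_upwards with y
        rw [Real.norm_eq_abs, abs_mul]
        exact mul_le_of_le_one_left (abs_nonneg _) (Real.abs_cos_le_one _)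
      · exact hi.abs
      · filter_upwards with y
        fun_prop
    · filter_upwards with ξ
      rw [Complex.norm_real]
      refine (norm_integral_le_integral_norm _).trans ?_
      apply integral_mono_of_nonneg
      · filter_upwards with y; positivity
      · exact hi.abs
      · filter_upwards with y
        rw [Real.norm_eq_abs, abs_mul]
        exact mul_le_of_le_one_left (abs_nonneg _) (Real.abs_cos_le_one _)
  rw [← integral_add (hb va PsA_profile) (hb vb PsB_profile), ← integral_const_mul]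
  apply integral_congr_ae
  have hne : ∀ᵐ ξ : V3, ξ ≠ 0 := by
    have : volume ({0} : Set V3) = 0 := measure_singleton _
    exact compl_mem_ae_iff.2 this
  filter_upwards [hne] with ξ hξ
  have hl : 0 < ‖ξ‖ := norm_pos_iff.2 hξ
  have e1 := sg_ft r hr0 ξ hξ
  have e2 := atom_ft PsA_profile hevA r hr ξ hξ
  have e3 := atom_ft PsB_profile hevB r hr ξ hξ
  have c1 : ∫ y, Real.cos (2 * Real.pi * ⟪y, ξ⟫) * ((fun _ => (1 : ℝ)) y) ∂(sg r) = sS r ξ := by
    simp [sS]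
  have c2 : ∫ y, Real.cos (2 * Real.pi * ⟪y, ξ⟫) * atom PsA 0 r y =
      2 * r / ‖ξ‖ * Real.sin (2 * Real.pi * ‖ξ‖ * r) * cosT PsA (2 * Real.pi * ‖ξ‖) := by
    rw [← e2]; congr 1; ext y; ring
  have c3 : ∫ y, Real.cos (2 * Real.pi * ⟪y, ξ⟫) * atom PsB 0 r y =
      2 * r / ‖ξ‖ * Real.sin (2 * Real.pi * ‖ξ‖ * r) * cosT PsB (2 * Real.pi * ‖ξ‖) := by
    rw [← e3]; congr 1; ext y; ring
  rw [c1, c2, c3, e1]
  have hpid := param_id (2 * Real.pi * ‖ξ‖)
  obtain ⟨ha, hb'⟩ := hab ξ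
  set om : ℝ := 2 * Real.pi * ‖ξ‖ with hom
  have hom0 : 0 < om := by positivity
  have homc : (om : ℂ) ≠ 0 := by exact_mod_cast hom0.ne'
  set A : ℝ := cosT PsA om
  set B : ℝ := cosT PsB om
  set S : ℝ := Real.sin (2 * Real.pi * r * ‖ξ‖) with hS
  have hS2 : Real.sin (om * r) = S := by rw [hom, hS]; congr 1; ring
  rw [hS2]
  set X : ℂ := Complex.exp (((2 * Real.pi * ⟪ξ, x⟫ : ℝ) : ℂ) * Complex.I)
  rw [← hb'] at ha ⊢
  rw [ha]
  set V : ℂ := 𝓕 vb ξ
  have hl2 : ‖ξ‖ = om / (2 * Real.pi) := by rw [hom]; field_simp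
  rw [hl2]
  have key : ((om ^ 2 : ℝ) : ℂ) * ((om ^ 2 : ℝ) : ℂ) * (A : ℂ) + (B : ℂ) =
      -(((om ^ 2 : ℝ) : ℂ) / 20000) := by
    have : ((om ^ 4 * A + B : ℝ) : ℂ) = ((-(om ^ 2 / 20000) : ℝ) : ℂ) := by rw [hpid]
    push_cast at this ⊢
    rw [← this]; ring
  have hpc : (Real.pi : ℂ) ≠ 0 := by exact_mod_cast hpi.ne'
  have lhs : ((om ^ 2 : ℝ) : ℂ) * V * X * ((r * m1 * S / om : ℝ) : ℂ) =
      (om : ℂ) * V * X * (r * m1 * S) := by
    push_cast
    field_simp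
  have rhs : (kpp : ℂ) * (((om ^ 2 : ℝ) : ℂ) * (((om ^ 2 : ℝ) : ℂ) * V) * X *
      ((2 * r / (om / (2 * Real.pi)) * S * A : ℝ) : ℂ) + V * X *
      ((2 * r / (om / (2 * Real.pi)) * S * B : ℝ) : ℂ)) =
      (kpp : ℂ) * V * X * ((2 * r / (om / (2 * Real.pi)) * S : ℝ) : ℂ) *
        (((om ^ 2 : ℝ) : ℂ) * ((om ^ 2 : ℝ) : ℂ) * (A : ℂ) + (B : ℂ)) := by
    push_cast
    ring
  rw [lhs, rhs, key]
  simp only [kpp]
  push_cast
  field_simp
  ring

end Run7.h58
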