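import Pool.Agent.Run7.h58.Reduce

open MeasureTheory Set Filter Topology
open scoped ENNReal RealInnerProductSpace MeasureTheory NNReal FourierTransform SchwartzMap

namespace Run7.h58

/-- Young's inequality -/
theorem young (v F : V3 → ℂ) (hv : Measurable v) (hF : Measurable F)
    (p : ℝ) (hp : 1 < p) :
    ∫⁻ x, ‖∫ w, v (x - w) * F w‖ₑ ^ p ≤ (∫⁻ w, ‖v w‖ₑ) ^ p * ∫⁻ w, ‖F w‖ₑ ^ p := by
  have hpq := Real.HolderConjugate.conjExponent hp
  set q := Real.conjExponent p with hq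
  have hp0 : 0 < p := by linarith
  have hq0 : 0 < q := hpq.symm.pos
  have hsum : p⁻¹ + q⁻¹ = 1 := hpq.inv_add_inv_eq_one
  set M := ∫⁻ w, ‖v w‖ₑ with hM
  have hMx : ∀ x : V3, ∫⁻ w, ‖v (x - w)‖ₑ = M := by
    intro x
    have := lintegral_sub_left_eq_self (μ := (volume : Measure V3)) (fun w => ‖v w‖ₑ) x
    exact this
  have hMw : ∀ w : V3, ∫⁻ x, ‖v (x - w)‖ₑ = M := by
    intro w
    have := lintegral_sub_right_eq_self (μ := (volume : Measure V3)) (fun x => ‖v x‖ₑ) w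
    exact this
  have step : ∀ x, ‖∫ w, v (x - w) * F w‖ₑ ^ p ≤
      M ^ (p / q) * ∫⁻ w, ‖v (x - w)‖ₑ * ‖F w‖ₑ ^ p := by
    intro x
    have hvx : Measurable fun w => ‖v (x - w)‖ₑ := (hv.comp (by fun_prop)).enorm
    have h1 : ‖∫ w, v (x - w) * F w‖ₑ ≤ ∫⁻ w, ‖v (x - w)‖ₑ * ‖F w‖ₑ := by
      refine (enorm_integral_le_lintegral_enorm _).trans ?_
      apply lintegral_mono
      intro w
      simp only
      rw [enorm_mul]
    have h2 := ENNReal.lintegral_mul_le_Lp_mul_Lq volume hpq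
      (f := fun w => ‖v (x - w)‖ₑ ^ p⁻¹ * ‖F w‖ₑ) (g := fun w => ‖v (x - w)‖ₑ ^ q⁻¹)
      ((hvx.pow_const _).mul hF.enorm).aemeasurable (hvx.pow_const _).aemeasurable
    have h3 : ∀ w, ((fun w => ‖v (x - w)‖ₑ ^ p⁻¹ * ‖F w‖ₑ) * fun w => ‖v (x - w)‖ₑ ^ q⁻¹) w =
        ‖v (x - w)‖ₑ * ‖F w‖ₑ := by
      intro w
      simp only [Pi.mul_apply]
      rw [mul_right_comm, ← ENNReal.rpow_add_of_nonneg _ _ (by positivity) (by positivity), hsum,
        ENNReal.rpow_one]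
    simp only [h3] at h2
    have h4 : ∀ w, (‖v (x - w)‖ₑ ^ p⁻¹ * ‖F w‖ₑ) ^ p = ‖v (x - w)‖ₑ * ‖F w‖ₑ ^ p := by
      intro w
      rw [ENNReal.mul_rpow_of_nonneg _ _ hp0.le, ← ENNReal.rpow_mul, inv_mul_cancel₀ hp0.ne',
        ENNReal.rpow_one]
    have h5 : ∀ w, (‖v (x - w)‖ₑ ^ q⁻¹) ^ q = ‖v (x - w)‖ₑ := by
      intro w
      rw [← ENNReal.rpow_mul, inv_mul_cancel₀ hq0.ne', ENNReal.rpow_one]
    simp only [h4, h5, hMx x] at h2
    calc ‖∫ w, v (x - w) * F w‖ₑ ^ p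
        ≤ ((∫⁻ w, ‖v (x - w)‖ₑ * ‖F w‖ₑ ^ p) ^ (1 / p) * M ^ (1 / q)) ^ p :=
          ENNReal.rpow_le_rpow (h1.trans h2) hp0.le
      _ = _ := by
          rw [ENNReal.mul_rpow_of_nonneg _ _ hp0.le, ← ENNReal.rpow_mul, ← ENNReal.rpow_mul,
            one_div, inv_mul_cancel₀ hp0.ne', ENNReal.rpow_one, mul_comm]
          congr 2
          field_simp
  calc ∫⁻ x, ‖∫ w, v (x - w) * F w‖ₑ ^ p
      ≤ ∫⁻ x, M ^ (p / q) * ∫⁻ w, ‖v (x - w)‖ₑ * ‖F w‖ₑ ^ p := lintegral_mono step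
    _ = M ^ (p / q) * ∫⁻ x, ∫⁻ w, ‖v (x - w)‖ₑ * ‖F w‖ₑ ^ p := by
        rw [lintegral_const_mul]
        apply Measurable.lintegral_prod_right'
          (f := fun z : V3 × V3 => ‖v (z.1 - z.2)‖ₑ * ‖F z.2‖ₑ ^ p)
        exact (hv.comp (by fun_prop)).enorm.mul ((hF.comp measurable_snd).enorm.pow_const p)
    _ = M ^ (p / q) * ∫⁻ w, ∫⁻ x, ‖v (x - w)‖ₑ * ‖F w‖ₑ ^ p := by
        congr 1
        apply lintegral_lintegral_swap
        apply Measurable.aemeasurable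
        exact (hv.comp (by fun_prop)).enorm.mul ((hF.comp measurable_snd).enorm.pow_const p)
    _ = M ^ (p / q) * ∫⁻ w, M * ‖F w‖ₑ ^ p := by
        congr 1
        apply lintegral_congr
        intro w
        have hvw : Measurable fun x => ‖v (x - w)‖ₑ := (hv.comp (by fun_prop)).enorm
        rw [lintegral_mul_const _ hvw, hMw]
    _ = M ^ (p / q) * (M * ∫⁻ w, ‖F w‖ₑ ^ p) := by
        rw [lintegral_const_mul _ (hF.enorm.pow_const p)]
    _ = M ^ p * ∫⁻ w, ‖F w‖ₑ ^ p := by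
        rw [← mul_assoc]
        congr 1
        have : M ^ (p / q) * M = M ^ (p / q) * M ^ (1 : ℝ) := by rw [ENNReal.rpow_one]
        rw [this, ← ENNReal.rpow_add_of_nonneg _ _ (by positivity) zero_le_one]
        congr 1
        have : p / q = p * q⁻¹ := div_eq_mul_inv _ _
        rw [this]
        have h6 : p * p⁻¹ = 1 := mul_inv_cancel₀ hp0.ne'
        have h7 : p * (p⁻¹ + q⁻¹) = p := by rw [hsum, mul_one]
        rw [mul_add, h6] at h7
        linarith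

/-- the superposition of atoms -/
noncomputable def sup (Ψ : ℝ → ℝ) (J : Set ℝ) (g : V3 × ℝ → ℂ) (x : V3) : ℂ :=
  ∫ q in {q : V3 × ℝ | q.2 ∈ J}, g q * (atom Ψ q.1 q.2 x : ℂ)

theorem sup_meas {Ψ : ℝ → ℝ} (hΨ : Profile Ψ) (J : Set ℝ) (g : V3 × ℝ → ℂ) (hg : BMC g) :
    StronglyMeasurable (sup Ψ J g) := by
  unfold sup
  apply StronglyMeasurable.integral_prod_right'
    (f := fun z : V3 × (V3 × ℝ) => g z.2 * (atom Ψ z.2.1 z.2.2 z.1 : ℂ))
  apply Measurable.stronglyMeasurable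
  apply (hg.meas.comp measurable_snd).mul
  apply Continuous.measurable
  apply Complex.continuous_ofReal.comp
  exact (atom_joint hΨ).comp (by fun_prop : Continuous fun z : V3 × (V3 × ℝ) => (z.2, z.1))

theorem restr_J (J : Set ℝ) : (volume : Measure (V3 × ℝ)).restrict {q : V3 × ℝ | q.2 ∈ J} =
    (volume : Measure V3).prod ((volume : Measure ℝ).restrict J) := by
  have h : {q : V3 × ℝ | q.2 ∈ J} = (univ : Set V3) ×ˢ J := by
    ext q; simp
  rw [h, Measure.volume_eq_prod, ← Measure.prod_restrict, Measure.restrict_univ]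

/-- Fubini for the smoothing -/
theorem fubini_sup (v : 𝓢(V3, ℂ)) {Ψ : ℝ → ℝ} (hΨ : Profile Ψ) (J : Set ℝ) (hJ : MeasurableSet J)
    (hJ1 : ∀ r ∈ J, 1 ≤ r) (g : V3 × ℝ → ℂ) (hg : BMC g) (x : V3) :
    Integrable (fun q : V3 × ℝ => (∫ w, v (x - w) * (atom Ψ q.1 q.2 w : ℂ)) * g q)
      ((volume : Measure V3).prod ((volume : Measure ℝ).restrict J)) ∧
    ∫ r in J, ∫ z, (∫ w, v (x - w) * (atom Ψ z r w : ℂ)) * g (z, r) =
      ∫ w, v (x - w) * sup Ψ J g w := by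
  set μ := ((volume : Measure V3).prod ((volume : Measure ℝ).restrict J)) with hμ
  have hgi : Integrable g μ := by
    rw [hμ, ← restr_J]
    exact hg.integrable.restrict
  have hvx : Integrable (fun w : V3 => v (x - w)) := v.integrable.comp_sub_left x
  have hbd : ∀ᵐ q ∂μ, ∀ w, ‖(atom Ψ q.1 q.2 w : ℂ)‖ ≤ 2 := by
    have h1 : ∀ᵐ q ∂μ, q.2 ∈ J := by
      rw [hμ, ← restr_J]
      exact ae_restrict_mem (measurable_snd hJ)
    filter_upwards [h1] with q hq w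
    rw [Complex.norm_real]
    exact atom_abs_le hΨ _ _ (hJ1 _ hq) _
  have hjoint : Integrable (Function.uncurry fun (q : V3 × ℝ) (w : V3) =>
      v (x - w) * (atom Ψ q.1 q.2 w : ℂ) * g q) (μ.prod volume) := by
    have h1 : Integrable (fun z : (V3 × ℝ) × V3 => g z.1 * v (x - z.2)) (μ.prod volume) :=
      hgi.mul_prod hvx
    have h2 : Integrable (fun z : (V3 × ℝ) × V3 => (atom Ψ z.1.1 z.1.2 z.2 : ℂ) *
        (g z.1 * v (x - z.2))) (μ.prod volume) := by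
      apply h1.bdd_mul (c := 2)
      · apply Continuous.aestronglyMeasurable
        exact Complex.continuous_ofReal.comp (atom_joint hΨ)
      · have h3 : ∀ᵐ z ∂(μ.prod (volume : Measure V3)), z.1.2 ∈ J := by
          have h1 : ∀ᵐ q ∂μ, q.2 ∈ J := by
            rw [hμ, ← restr_J]
            exact ae_restrict_mem (measurable_snd hJ)
          exact Measure.quasiMeasurePreserving_fst.ae h1
        filter_upwards [h3] with z hz
        rw [Complex.norm_real]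
        exact atom_abs_le hΨ _ _ (hJ1 _ hz) _
    refine h2.congr (Eventually.of_forall fun z => ?_)
    simp only [Function.uncurry]
    ring
  have hI : Integrable (fun q : V3 × ℝ => (∫ w, v (x - w) * (atom Ψ q.1 q.2 w : ℂ)) * g q) μ := by
    have := hjoint.integral_prod_left
    refine this.congr (Eventually.of_forall fun q => ?_)
    simp only [Function.uncurry]
    rw [integral_mul_const]
  refine ⟨hI, ?_⟩
  have h1 : ∫ r in J, ∫ z, (∫ w, v (x - w) * (atom Ψ z r w : ℂ)) * g (z, r) =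
      ∫ q, (∫ w, v (x - w) * (atom Ψ q.1 q.2 w : ℂ)) * g q ∂μ := by
    rw [hμ, integral_prod_symm _ hI]
  rw [h1]
  have h2 : ∫ q, (∫ w, v (x - w) * (atom Ψ q.1 q.2 w : ℂ)) * g q ∂μ =
      ∫ q, ∫ w, v (x - w) * (atom Ψ q.1 q.2 w : ℂ) * g q ∂volume ∂μ := by
    congr 1
    ext q
    rw [integral_mul_const]
  rw [h2, integral_integral_swap hjoint]
  congr 1
  ext w
  rw [sup, restr_J, ← integral_const_mul]
  congr 1
  ext q
  ring

/-- the reduction of the analytic inequality to the discrete one -/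
theorem reduce (p : ℝ) (hp : 1 < p) (C : ℝ) (hC : 0 ≤ C) (η : 𝓢(V3, ℂ)) (ε : ℝ) (hε : 0 < ε)
    (h0 : ∀ ξ : V3, ‖ξ‖ < ε → 𝓕 η ξ = 0) :
    ∃ C' : ℝ, ∀ J : Set ℝ, MeasurableSet J → (∀ r ∈ J, 1 ≤ r) →
      (∀ Ψ : ℝ → ℝ, Profile Ψ → ∀ (a : V3) (b : ℝ) (E : Finset I4), (∀ e ∈ E, rv b e ∈ J) →
        ∀ c : I4 → ℂ, ∫⁻ x, ‖∑ e ∈ E, c e * (atom Ψ (yv a e) (rv b e) x : ℂ)‖ₑ ^ p ≤
        ENNReal.ofReal (C * ∑ e ∈ E, ‖c e‖ ^ p * rv b e ^ 2)) →
      ∀ g : V3 × ℝ → ℂ, BMC g →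
        eLpNorm (fun x : V3 => ∫ r in J, ∫ z : V3,
            (∫ y in Metric.sphere (0 : V3) r, η (x - y - z) ∂μH[2]) * g (z, r))
          (ENNReal.ofReal p) volume
        ≤ ENNReal.ofReal C' *
          (∫⁻ r in J, ∫⁻ x : V3, ‖g (x, r)‖ₑ ^ p * ENNReal.ofReal (r ^ 2)) ^ (1 / p) := by
  obtain ⟨va, vb, hab⟩ := exists_ab η ε hε h0
  have hp0 : 0 < p := by linarith
  set Ma := ∫⁻ w, ‖va w‖ₑ with hMa
  set Mb := ∫⁻ w, ‖vb w‖ₑ with hMb
  have hMat : Ma < ∞ := va.integrable.2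
  have hMbt : Mb < ∞ := vb.integrable.2
  refine ⟨(‖(kpp : ℂ)‖ₑ * ((Ma + Mb) * ENNReal.ofReal C ^ (1 / p))).toReal, ?_⟩
  intro J hJ hJ1 hdisc g hg
  have hfin : ‖(kpp : ℂ)‖ₑ * ((Ma + Mb) * ENNReal.ofReal C ^ (1 / p)) ≠ ∞ := by
    apply ENNReal.mul_ne_top enorm_ne_top
    apply ENNReal.mul_ne_top (ENNReal.add_ne_top.2 ⟨hMat.ne, hMbt.ne⟩)
    exact ENNReal.rpow_ne_top_of_nonneg (by positivity) ENNReal.ofReal_ne_top
  rw [ENNReal.ofReal_toReal hfin]
  have hrw : (fun x : V3 => ∫ r in J, ∫ z : V3,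
      (∫ y in Metric.sphere (0 : V3) r, η (x - y - z) ∂μH[2]) * g (z, r)) =
      fun x => (kpp : ℂ) * ((∫ w, va (x - w) * sup PsA J g w) +
        ∫ w, vb (x - w) * sup PsB J g w) := by
    ext x
    obtain ⟨ia, ea⟩ := fubini_sup va PsA_profile J hJ hJ1 g hg x
    obtain ⟨ib, eb⟩ := fubini_sup vb PsB_profile J hJ hJ1 g hg x
    have e1 : ∀ r ∈ J, ∫ z : V3,
        (∫ y in Metric.sphere (0 : V3) r, η (x - y - z) ∂μH[2]) * g (z, r) =
        ∫ z : V3, (kpp : ℂ) * ((∫ w, va (x - w) * (atom PsA z r w : ℂ)) * g (z, r) +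
          (∫ w, vb (x - w) * (atom PsB z r w : ℂ)) * g (z, r)) := by
      intro r hr
      congr 1
      ext z
      have t : ∀ (v : 𝓢(V3, ℂ)) (Ψ : ℝ → ℝ), ∫ w, v (x - z - w) * (atom Ψ 0 r w : ℂ) =
          ∫ w, v (x - w) * (atom Ψ z r w : ℂ) := by
        intro v Ψ
        rw [← integral_sub_right_eq_self (fun w => v (x - z - w) * (atom Ψ 0 r w : ℂ)) z]
        congr 1
        ext w
        congr 2
        · abel
        · simp [atom]
      have k := kernel_id η va vb hab r (hJ1 r hr) (x - z)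
      rw [t va PsA, t vb PsB] at k
      have e2 : ∀ y, η (x - y - z) = η (x - z - y) := by
        intro y; congr 1; abel
      simp only [e2]
      rw [k]
      ring
    rw [setIntegral_congr_fun hJ e1]
    have ia' : Integrable (fun q : V3 × ℝ => (kpp : ℂ) *
        ((∫ w, va (x - w) * (atom PsA q.1 q.2 w : ℂ)) * g q +
          (∫ w, vb (x - w) * (atom PsB q.1 q.2 w : ℂ)) * g q))
        ((volume : Measure V3).prod ((volume : Measure ℝ).restrict J)) :=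
      (ia.add ib).const_mul _
    have e3 := integral_prod_symm _ ia'
    simp only at e3
    rw [← e3, integral_const_mul, integral_add ia ib]
    congr 2
    · rw [integral_prod_symm _ ia]; exact ea
    · rw [integral_prod_symm _ ib]; exact eb
  rw [hrw]
  set X := ∫⁻ r in J, ∫⁻ x : V3, ‖g (x, r)‖ₑ ^ p * ENNReal.ofReal (r ^ 2) with hX
  have hXe : ∫⁻ q in {q : V3 × ℝ | q.2 ∈ J}, ‖g q‖ₑ ^ p * ENNReal.ofReal (q.2 ^ 2) = X := by
    rw [restr_J, lintegral_prod_symm', hX]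
    have : Measurable g := hg.meas
    exact ((this.enorm.pow_const p).mul (by fun_prop))
  have hcv : ∀ (v : 𝓢(V3, ℂ)) {Ψ : ℝ → ℝ} (hΨ : Profile Ψ),
      StronglyMeasurable (fun x => ∫ w, v (x - w) * sup Ψ J g w) := by
    intro v Ψ hΨ
    apply StronglyMeasurable.integral_prod_right'
      (f := fun z : V3 × V3 => v (z.1 - z.2) * sup Ψ J g z.2)
    apply StronglyMeasurable.mul
    · exact (v.continuous.comp (by fun_prop : Continuous fun z : V3 × V3 => z.1 - z.2)).stronglyMeasurable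
    · exact (sup_meas hΨ J g hg).comp_measurable measurable_snd
  have hone : (1 : ℝ≥0∞) ≤ ENNReal.ofReal p := by
    rw [← ENNReal.ofReal_one]; exact ENNReal.ofReal_le_ofReal hp.le
  have hpne0 : ENNReal.ofReal p ≠ 0 := by
    rw [Ne, ENNReal.ofReal_eq_zero, not_le]; exact hp0
  have hest : ∀ (v : 𝓢(V3, ℂ)) {Ψ : ℝ → ℝ} (hΨ : Profile Ψ),
      eLpNorm (fun x => ∫ w, v (x - w) * sup Ψ J g w) (ENNReal.ofReal p) volume ≤
        (∫⁻ w, ‖v w‖ₑ) * (ENNReal.ofReal C ^ (1 / p) * X ^ (1 / p)) := by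
    intro v Ψ hΨ
    rw [eLpNorm_eq_lintegral_rpow_enorm_toReal hpne0 ENNReal.ofReal_ne_top,
      ENNReal.toReal_ofReal hp0.le]
    have y1 := young (fun w => v w) (sup Ψ J g) v.continuous.measurable
      (sup_meas hΨ J g hg).measurable p hp
    have y2 : ∫⁻ w, ‖sup Ψ J g w‖ₑ ^ p ≤ ENNReal.ofReal C * X := by
      rw [← hXe]
      exact cont_ineq hΨ J hJ p hp C hC (hdisc Ψ hΨ) g hg
    have y3 : ∫⁻ x, ‖∫ w, v (x - w) * sup Ψ J g w‖ₑ ^ p ≤
        (∫⁻ w, ‖v w‖ₑ) ^ p * (ENNReal.ofReal C * X) := y1.trans (by gcongr)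
    calc (∫⁻ x, ‖∫ w, v (x - w) * sup Ψ J g w‖ₑ ^ p) ^ (1 / p)
        ≤ ((∫⁻ w, ‖v w‖ₑ) ^ p * (ENNReal.ofReal C * X)) ^ (1 / p) :=
          ENNReal.rpow_le_rpow y3 (by positivity)
      _ = _ := by
          rw [ENNReal.mul_rpow_of_nonneg _ _ (by positivity),
            ENNReal.mul_rpow_of_nonneg _ _ (by positivity), ← ENNReal.rpow_mul, one_div,
            mul_inv_cancel₀ hp0.ne', ENNReal.rpow_one]
  have hsum : eLpNorm (fun x => (∫ w, va (x - w) * sup PsA J g w) +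
      ∫ w, vb (x - w) * sup PsB J g w) (ENNReal.ofReal p) volume ≤
      Ma * (ENNReal.ofReal C ^ (1 / p) * X ^ (1 / p)) +
      Mb * (ENNReal.ofReal C ^ (1 / p) * X ^ (1 / p)) := by
    refine (eLpNorm_add_le (hcv va PsA_profile).aestronglyMeasurable
      (hcv vb PsB_profile).aestronglyMeasurable hone).trans ?_
    exact add_le_add (hest va PsA_profile) (hest vb PsB_profile)
  have hmul : eLpNorm (fun x => (kpp : ℂ) * ((∫ w, va (x - w) * sup PsA J g w) +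
      ∫ w, vb (x - w) * sup PsB J g w)) (ENNReal.ofReal p) volume ≤
      ‖(kpp : ℂ)‖ₑ * eLpNorm (fun x => (∫ w, va (x - w) * sup PsA J g w) +
      ∫ w, vb (x - w) * sup PsB J g w) (ENNReal.ofReal p) volume := by
    have := eLpNorm_const_smul_le (c := (kpp : ℂ)) (p := ENNReal.ofReal p)
      (f := fun x => (∫ w, va (x - w) * sup PsA J g w) + ∫ w, vb (x - w) * sup PsB J g w)
      (μ := (volume : Measure V3))
    exact this
  refine hmul.trans ?_
  calc ‖(kpp : ℂ)‖ₑ * eLpNorm (fun x => (∫ w, va (x - w) * sup PsA J g w) +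
      ∫ w, vb (x - w) * sup PsB J g w) (ENNReal.ofReal p) volume
      ≤ ‖(kpp : ℂ)‖ₑ * (Ma * (ENNReal.ofReal C ^ (1 / p) * X ^ (1 / p)) +
        Mb * (ENNReal.ofReal C ^ (1 / p) * X ^ (1 / p))) := by gcongr
    _ = _ := by ring

end Run7.h58
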