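import Pool.Agent.Run7.h58.BCut

open MeasureTheory Finset
open scoped ENNReal RealInnerProductSpace

namespace Run7.h58

theorem bt_eq (k : ℕ) : bt k = dl k ^ 3 / 8192 := rfl

theorem num3 (k : ℕ) (u N : ℝ) (hu : 0 < u) (hN : 0 ≤ N) :
    (N * (u * 2 ^ (4 * k + 6)) ^ 3) * (((2 ^ 13 / bt k) ^ 3) ^ 4 * 256 *
      (2 * u * (2 ^ 13 * 8 ^ k / dl k ^ 3))) ≤ (2 ^ 508 * (67 / 100) ^ k * N) * thrs u k ^ 4 := by
  have hb := bt_pos k
  have hd := dl_pos k
  have key : (16 : ℝ) ^ k ^ 1 = 16 ^ k := by rw [pow_one]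
  -- set δ
  obtain ⟨δ, hδ⟩ : ∃ δ, δ = dl k := ⟨_, rfl⟩
  have hδk : δ = t0 ^ k := hδ
  have e2 : (2 : ℝ) ^ (4 * k + 6) = 64 * 16 ^ k := by
    rw [pow_add, pow_mul]; norm_num; ring
  rw [e2, thrs, bt_eq, ← hδ]
  rw [← hδ] at hd
  have hmain : (1 : ℝ) ≤ (67 / 100) ^ k * ((19 / 20) ^ k) ^ 4 * δ ^ 75 * 2 ^ k := by
    rw [hδk, ← pow_mul, ← pow_mul, mul_comm k 4, mul_comm k 75, pow_mul, pow_mul, ← mul_pow,
      ← mul_pow, ← mul_pow]
    apply one_le_pow₀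
    unfold t0; norm_num
  have h16 : (16 : ℝ) ^ k = 2 ^ k * 8 ^ k := by rw [← mul_pow]; norm_num
  have lhs : N * (u * (64 * 16 ^ k)) ^ 3 * (((2 ^ 13 / (δ ^ 3 / 8192)) ^ 3) ^ 4 * 256 *
      (2 * u * (2 ^ 13 * 8 ^ k / δ ^ 3))) = (2 ^ 352 * N * u ^ 4 * (16 ^ k) ^ 3 * 8 ^ k / δ ^ 39) * 1 := by
    field_simp
    ring
  have rhs : 2 ^ 508 * (67 / 100) ^ k * N * ((19 / 20) ^ k * (δ ^ 3 / 8192) ^ 3 * u * 16 ^ k) ^ 4
      = (2 ^ 352 * N * u ^ 4 * (16 ^ k) ^ 3 * 8 ^ k / δ ^ 39) *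
        ((67 / 100) ^ k * ((19 / 20) ^ k) ^ 4 * δ ^ 75 * 2 ^ k) := by
    have : ((16 : ℝ) ^ k) ^ 4 = (16 ^ k) ^ 3 * (2 ^ k * 8 ^ k) := by
      rw [← h16]; ring
    rw [mul_pow, this]
    field_simp
    ring
  rw [lhs, rhs]
  have hZ : (0 : ℝ) ≤ 2 ^ 352 * N * u ^ 4 * (16 ^ k) ^ 3 * 8 ^ k / δ ^ 39 := by
    have hQ : (0 : ℝ) ≤ 2 ^ 352 := pow_nonneg (by norm_num) _
    generalize (2 ^ 352 : ℝ) = Q at hQ
    positivity
  generalize (2 ^ 352 * N * u ^ 4 * (16 ^ k) ^ 3 * 8 ^ k / δ ^ 39 : ℝ) = Z at hZ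
  exact mul_le_mul_of_nonneg_left hmain hZ

open Classical in
theorem bad_same {y : I4 → V3} {r : I4 → ℝ} (hc : Cfg y r) (R u : ℝ) (hR : 1 ≤ R) (hu : 1 ≤ u)
    (E : Finset I4) (hE : ∀ e ∈ E, R ≤ r e ∧ r e ≤ 2 * R) (hD : Dens R E u) (α : ℤ)
    (k : ℕ) (hk : 40 ≤ k) (hS : (16 : ℝ) ^ k ≤ 32 * R) :
    (#{e ∈ E | isBad y r (bt k * R) k α E E (Prng k) (thrs u k) (4 * R) (dl k * R)
      (cell α k e)} : ℝ) ≤ 2 ^ 508 * (67 / 100) ^ k * #E := by
  have hb := bt_pos k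
  have hd := dl_pos k
  have hb1 := bt_le k
  have hR0 : 0 < R := by linarith
  have hu0 : 0 < u := by linarith
  have hh : 0 < bt k * R := by positivity
  have hthr : 0 < thrs u k := by unfold thrs; positivity
  set Eb : Finset I4 := {e ∈ E | isBad y r (bt k * R) k α E E (Prng k) (thrs u k) (4 * R)
    (dl k * R) (cell α k e)} with hEb
  set Quad : Finset (Fin 4 → I4) := {q ∈ Fintype.piFinset (fun _ : Fin 4 => E) |
    ∀ i, dist (q i) (q 0) ≤ 2 ^ (4 * k + 6)} with hQuad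
  have e2 : (2 : ℝ) ^ (4 * k + 6) = 64 * 16 ^ k := by
    rw [pow_add, pow_mul]; norm_num; ring
  have e16 : (16 : ℝ) ^ (k + 1) = 16 * 16 ^ k := by rw [pow_succ]; ring
  have h4 : (4 : ℝ) ^ k ≤ 16 ^ k := pow_le_pow_left₀ (by norm_num) (by norm_num) k
  have h16 : (0 : ℝ) < 16 ^ k := by positivity
  have hQc := quad_card E R u hD (4 * k + 6) (by rw [e2]; linarith)
  have hkR : 2 * (2 ^ 13 * 8 ^ k / dl k ^ 3) ≤ 2 ^ 14 * R := by
    have h := num2 k hk
    have : 8 ^ k / dl k ^ 3 ≤ R := by linarith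
    calc 2 * (2 ^ 13 * 8 ^ k / dl k ^ 3) = 2 ^ 14 * (8 ^ k / dl k ^ 3) := by ring
      _ ≤ _ := by linarith
  -- facts about partners
  have hTS : ∀ e ∈ E, ∀ n q', q' ∈ TS y r (bt k * R) k α E E (Prng k) (cell α k e) n →
      q' ∈ E ∧ dist q' e ≤ 16 ^ (k + 1) + 4 ^ k := by
    intro e he n q' hq
    obtain ⟨h1, e1, he1, hcell, hP, -⟩ := mem_TS.1 hq
    refine ⟨h1, ?_⟩
    have h2 := cell_close α k e1 e hcell
    have h3 := dist_triangle q' e1 e
    rw [dist_comm q' e1] at h3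
    linarith [hP.2]
  have hbc := bad_count hc k (dl k) (bt k) R u hd (dl_le k) rfl (num1 k hk) hR hS hu0.le E E hE
    (fun e he => (hE e he).1) hD hkR α (Prng k)
    (fun e he e' he' hP s σ hs hσ ht => near_sep hc k (by omega) e e'
      (by linarith [(hE e he).1]) (by linarith [(hE e' he').1]) hP.1 s σ hs hσ ht)
    (thrs u k) hthr.le Eb (Finset.filter_subset _ _)
    (by
      intro e he
      rw [hEb, Finset.mem_filter] at he
      obtain ⟨ν, hν, htr⟩ := he.2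
      exact ⟨ν, htr, fun i => (mem_bset.1 (hν i)).2⟩)
    Quad (fun q => nbox (bt k * R) (2 ^ 11 * R) (y (q 0))) ((2 ^ 13 / bt k) ^ 3)
    (by
      intro e he q hq
      rw [hQuad, Finset.mem_filter, Fintype.mem_piFinset]
      constructor
      · intro i
        obtain ⟨n, hn⟩ := hq i
        exact (hTS e he n _ hn).1
      · intro i
        obtain ⟨n, hn⟩ := hq i
        obtain ⟨n0, hn0⟩ := hq 0
        have h1 := (hTS e he n _ hn).2
        have h2 := (hTS e he n0 _ hn0).2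
        have h3 := dist_triangle (q i) e (q 0)
        rw [dist_comm e (q 0)] at h3
        rw [e2]
        linarith)
    (by
      intro q _ e he n i hq hq0
      obtain ⟨n0, hn0⟩ := hq0 0
      obtain ⟨h1, e1, he1, hcell, hP, s, σ, hs, hσ, -, x, hx1, hx2, hx3⟩ := mem_TS.1 hq
      have h2 := (hTS e he n0 _ hn0).2
      apply mem_nbox _ _ hh
      have h3 := cell_close α k e1 e hcell
      have h4' := abs_le.1 (show |‖x - y e1‖ - r e1| ≤ 1 / 2 from hx1)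
      have h5 : ctr (bt k * R) n - y (q 0) = -(x - ctr (bt k * R) n) + (x - y e1)
        + (y e1 - y (q 0)) := by abel
      rw [h5]
      refine (norm_add₃_le).trans ?_
      rw [norm_neg]
      have h6 := hc.d1 e1 (q 0)
      have h7 := dist_triangle e1 e (q 0)
      rw [dist_comm e (q 0)] at h7
      have h8 := (hE e1 he1).2
      have h9 : bt k * R ≤ 1 * R := mul_le_mul_of_nonneg_right (by linarith) hR0.le
      linarith [h4'.2])
    (by
      intro q _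
      refine (card_nbox _ _ hh (by positivity) _).trans ?_
      apply pow_le_pow_left₀ (by positivity)
      have h1 : 2 * (2 ^ 11 * R) / (bt k * R) = 2 ^ 12 / bt k := by field_simp
      rw [h1]
      have h2 : 1 ≤ 1 / bt k := by rw [one_le_div hb]; linarith
      have h3 : (2 : ℝ) ^ 13 / bt k = 2 ^ 12 / bt k + 4096 * (1 / bt k) := by ring
      rw [h3]; linarith)
  have hthr4 : 0 < thrs u k ^ 4 := by positivity
  have h1 : (#Eb : ℝ) * thrs u k ^ 4 ≤ (2 ^ 508 * (67 / 100) ^ k * #E) * thrs u k ^ 4 := by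
    refine hbc.trans (le_trans ?_ (num3 k u (#E) hu0 (by positivity)))
    apply mul_le_mul_of_nonneg_right hQc
    have := hb.le
    positivity
  exact le_of_mul_le_mul_right h1 hthr4

end Run7.h58
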