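import Pool.Agent.Run7.h58.Same1

open MeasureTheory Finset
open scoped ENNReal RealInnerProductSpace

namespace Run7.h58

/-- a huge constant -/
@[irreducible] noncomputable def KB : ℝ := 2 ^ 508

theorem KB_eq : KB = 2 ^ 508 := by unfold KB; rfl

theorem KB_ge : 1 ≤ KB := by rw [KB_eq]; exact one_le_pow₀ (by norm_num)

/-- activity of a level -/
def act (k₀ : ℕ) (R : ℝ) (k : ℕ) : Prop := k₀ < k ∧ (16 : ℝ) ^ k ≤ 32 * R

open Classical in
/-- the same scale cutoff family -/
noncomputable def sps (y : I4 → V3) (r : I4 → ℝ) (R u : ℝ) (E : Finset I4) (α : ℤ) (k₀ : ℕ)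
    (k : ℕ) (c : I4) (x : V3) : ℝ :=
  if act k₀ R k then bcut y r (bt k * R) k α E E (Prng k) (thrs u k) (4 * R) (dl k * R) c x else 1

section
variable {y : I4 → V3} {r : I4 → ℝ} {R u : ℝ} {E : Finset I4} {α : ℤ} {k₀ : ℕ}

theorem sps_nonneg (k : ℕ) (c : I4) (x : V3) : 0 ≤ sps y r R u E α k₀ k c x := by
  unfold sps; split_ifs
  · exact bcut_nonneg x
  · norm_num

theorem sps_le_one (k : ℕ) (c : I4) (x : V3) : sps y r R u E α k₀ k c x ≤ 1 := by
  unfold sps; split_ifs
  · exact bcut_le_one x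
  · norm_num

theorem sps_lip (hR : 0 < R) (k : ℕ) (c : I4) (x z : V3) :
    |sps y r R u E α k₀ k c x - sps y r R u E α k₀ k c z| ≤ (bt k * R)⁻¹ * ‖x - z‖ := by
  have hb := bt_pos k
  unfold sps; split_ifs
  · exact bcut_lip (by positivity) x z
  · simp only [sub_self, abs_zero]; positivity

theorem sps_cont (hR : 0 < R) (k : ℕ) (c : I4) : Continuous (sps y r R u E α k₀ k c) :=
  cont_of_lip _ _ (sps_lip hR k c)

variable {Ψ : ℝ → ℝ}

open Classical in
theorem loss_k (hΨ : Profile Ψ) (hc : Cfg y r) (hR : 1 ≤ R) (hu : 1 ≤ u)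
    (hE : ∀ e ∈ E, R ≤ r e ∧ r e ≤ 2 * R) (hD : Dens R E u)
    (hk₀ : 40 ≤ k₀) (k : ℕ) :
    ∑ e ∈ E, ∫ x, |(1 - sps y r R u E α k₀ k (cell α k e) x) * atom Ψ (y e) (r e) x|
      ≤ if k₀ < k then 2 ^ 10 * KB * t0 ^ k * (#E * R ^ 2) else 0 := by
  by_cases ha : act k₀ R k
  · rw [if_pos ha.1]
    have hR0 : 0 < R := by linarith
    have hb := bt_pos k
    have hd := dl_pos k
    have hh : 0 < bt k * R := by positivity
    have hpi := Real.pi_lt_four
    have hpi0 := Real.pi_pos
    set Eb : Finset I4 := {e ∈ E | isBad y r (bt k * R) k α E E (Prng k) (thrs u k) (4 * R)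
      (dl k * R) (cell α k e)} with hEb
    have hEbc := bad_same hc R u hR hu E hE hD α k (le_of_lt (lt_of_le_of_lt hk₀ ha.1)) ha.2
    rw [← hEb, ← KB_eq] at hEbc
    have hsps : ∀ c x, sps y r R u E α k₀ k c x
        = bcut y r (bt k * R) k α E E (Prng k) (thrs u k) (4 * R) (dl k * R) c x := by
      intro c x; unfold sps; rw [if_pos ha]
    simp only [hsps]
    have h1 : ∀ e ∈ E, ∫ x, |(1 - bcut y r (bt k * R) k α E E (Prng k) (thrs u k) (4 * R)
        (dl k * R) (cell α k e) x) * atom Ψ (y e) (r e) x|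
        ≤ 128 * dl k * R ^ 2 + (if isBad y r (bt k * R) k α E E (Prng k) (thrs u k) (4 * R)
      (dl k * R) (cell α k e) then 192 * R ^ 2 else 0) := by
      intro e he
      obtain ⟨he1, he2⟩ := hE e he
      split_ifs with hbad
      · have h2 := atom_l1 hΨ (y e) (r e) (by linarith) (fun x => 1 - bcut y r (bt k * R) k α E E
          (Prng k) (thrs u k) (4 * R) (dl k * R) (cell α k e) x) (by
            intro x
            have c1 := bcut_nonneg (y := y) (r := r) (h := bt k * R) (k := k) (α := α) (E := E)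
              (E' := E) (P := Prng k) (thr := thrs u k) (C := 4 * R) (T := dl k * R)
              (c := cell α k e) x
            have c2 := bcut_le_one (y := y) (r := r) (h := bt k * R) (k := k) (α := α) (E := E)
              (E' := E) (P := Prng k) (thr := thrs u k) (C := 4 * R) (T := dl k * R)
              (c := cell α k e) x
            rw [abs_le]; constructor <;> linarith)
        refine h2.trans ?_
        have h3 : r e ^ 2 ≤ (2 * R) ^ 2 := pow_le_pow_left₀ (by linarith) he2 2
        have h4 : 12 * Real.pi * r e ^ 2 ≤ 12 * 4 * (2 * R) ^ 2 := by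
          apply mul_le_mul (by linarith) h3 (by positivity) (by norm_num)
        have h5 : 0 ≤ dl k * R ^ 2 := by positivity
        linarith
      · have h2 := bcut_loss (c := cell α k e) hΨ hh (by positivity) hbad (y e) (r e)
          (by linarith)
        refine h2.trans ?_
        have h3 : dl k * R + 2 * (bt k * R) ≤ 2 * (dl k * R) := by
          have := bt_le_dl k
          have : bt k * R ≤ (dl k / 8192) * R := mul_le_mul_of_nonneg_right this hR0.le
          have : 0 ≤ dl k * R := by positivity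
          linarith
        have h4 : 8 * Real.pi * r e * (dl k * R + 2 * (bt k * R)) ≤
            8 * 4 * (2 * R) * (2 * (dl k * R)) := by
          apply mul_le_mul _ h3 (by positivity) (by positivity)
          apply mul_le_mul (by linarith) he2 (by linarith) (by norm_num)
        linarith
    refine (Finset.sum_le_sum h1).trans ?_
    rw [Finset.sum_add_distrib, Finset.sum_const, nsmul_eq_mul, ← Finset.sum_filter, ← hEb,
      Finset.sum_const, nsmul_eq_mul]
    have hθ : ((67 : ℝ) / 100) ^ k ≤ t0 ^ k := pow_le_pow_left₀ (by norm_num)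
      (by unfold t0; norm_num) k
    have hKB := KB_ge
    have hEbc' : (#Eb : ℝ) ≤ KB * t0 ^ k * #E := by
      refine hEbc.trans ?_
      have h7 : KB * (67 / 100) ^ k * (#E : ℝ) ≤ KB * t0 ^ k * #E := by
        apply mul_le_mul_of_nonneg_right _ (by positivity)
        exact mul_le_mul_of_nonneg_left hθ (by linarith)
      exact h7
    have h6 : dl k = t0 ^ k := rfl
    have ht0 : 0 < t0 ^ k := by rw [← h6]; exact hd
    have hN : (0 : ℝ) ≤ #E := by positivity
    have h8 : (#Eb : ℝ) * (192 * R ^ 2) ≤ KB * t0 ^ k * #E * (192 * R ^ 2) :=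
      mul_le_mul_of_nonneg_right hEbc' (by positivity)
    have h9 : (#E : ℝ) * (128 * dl k * R ^ 2) ≤ KB * t0 ^ k * #E * (128 * R ^ 2) := by
      rw [h6]
      have : 1 * (t0 ^ k * #E * (128 * R ^ 2)) ≤ KB * (t0 ^ k * #E * (128 * R ^ 2)) :=
        mul_le_mul_of_nonneg_right hKB (by positivity)
      linarith
    have h10 : 0 ≤ KB * t0 ^ k * #E * R ^ 2 := by positivity
    linarith
  · have hs : ∀ c x, sps y r R u E α k₀ k c x = 1 := by
      intro c x; unfold sps; rw [if_neg ha]
    simp only [hs, sub_self, zero_mul, abs_zero, integral_zero, Finset.sum_const_zero]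
    have hKB := KB_ge
    have ht0 : 0 < t0 ^ k := dl_pos k
    split_ifs
    · positivity
    · exact le_rfl

theorem geom_tail (a : ℝ) (ha0 : 0 ≤ a) (ha1 : a < 1) (k₀ M : ℕ) :
    ∑ k ∈ Finset.range M, (if k₀ < k then a ^ k else 0) ≤ a ^ k₀ / (1 - a) := by
  have h1 : 0 < 1 - a := by linarith
  have h2 : ∀ M, ∑ k ∈ Finset.range M, (if k₀ < k then a ^ k else 0)
      ≤ (a ^ (k₀ + 1) - a ^ (max M (k₀ + 1))) / (1 - a) := by
    intro M
    induction M with
    | zero => simp
    | succ M ih =>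
      rw [Finset.sum_range_succ]
      split_ifs with h
      · have e1 : max M (k₀ + 1) = M := by omega
        have e2 : max (M + 1) (k₀ + 1) = M + 1 := by omega
        rw [e1] at ih
        rw [e2]
        have : (a ^ (k₀ + 1) - a ^ (M + 1)) / (1 - a) = (a ^ (k₀ + 1) - a ^ M) / (1 - a) + a ^ M := by
          field_simp; ring
        rw [this]; linarith
      · have e1 : max M (k₀ + 1) = k₀ + 1 := by omega
        have e2 : max (M + 1) (k₀ + 1) = k₀ + 1 := by omega
        rw [e1] at ih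
        rw [e2]; linarith
  refine (h2 M).trans ?_
  apply div_le_div_of_nonneg_right _ h1.le
  have h3 : 0 ≤ a ^ max M (k₀ + 1) := by positivity
  have h4 : a ^ (k₀ + 1) ≤ a ^ k₀ := pow_le_pow_of_le_one ha0 ha1.le (by omega)
  linarith

/-- total loss of the same scale cutoffs -/
theorem loss_total (hΨ : Profile Ψ) (hc : Cfg y r) (hR : 1 ≤ R) (hu : 1 ≤ u)
    (hE : ∀ e ∈ E, R ≤ r e ∧ r e ≤ 2 * R) (hD : Dens R E u)
    (hk₀ : 40 ≤ k₀) (M : ℕ) :
    ∑ k ∈ Finset.range M, ∑ e ∈ E, ∫ x, |(1 - sps y r R u E α k₀ k (cell α k e) x) *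
      atom Ψ (y e) (r e) x| ≤ 2 ^ 20 * KB * t0 ^ k₀ * (#E * R ^ 2) := by
  refine (Finset.sum_le_sum (fun k _ => loss_k hΨ hc hR hu hE hD hk₀ k)).trans ?_
  have h1 : ∀ k, (if k₀ < k then 2 ^ 10 * KB * t0 ^ k * (#E * R ^ 2) else 0)
      = (2 ^ 10 * KB * (#E * R ^ 2)) * (if k₀ < k then t0 ^ k else 0) := by
    intro k; split_ifs <;> ring
  simp only [h1]
  rw [← Finset.mul_sum]
  have h2 := geom_tail t0 (by unfold t0; norm_num) (by unfold t0; norm_num) k₀ M
  have hKB := KB_ge
  have h3 : t0 ^ k₀ / (1 - t0) = 1000 * t0 ^ k₀ := by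
    have : (1 : ℝ) - t0 = 1 / 1000 := by unfold t0; norm_num
    rw [this]; ring
  rw [h3] at h2
  have hX : 0 ≤ 2 ^ 10 * KB * (#E * R ^ 2) := by positivity
  have h4 := mul_le_mul_of_nonneg_left h2 hX
  refine h4.trans ?_
  have ht0 : 0 < t0 ^ k₀ := dl_pos k₀
  have : 0 ≤ KB * (#E * R ^ 2) * t0 ^ k₀ := by positivity
  linarith

end

end Run7.h58
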