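import Pool.Agent.Run7.h58.Same2

open MeasureTheory Finset
open scoped ENNReal RealInnerProductSpace

namespace Run7.h58

theorem bt_inv (k j : ℕ) (hj : j ≤ 4 * k + 4) : (bt j)⁻¹ ≤ 2 ^ 14 * ((t0 ^ 12)⁻¹) ^ k := by
  have hb := bt_pos j
  have ht : 0 < t0 := by unfold t0; norm_num
  have ht1 : t0 ≤ 1 := by unfold t0; norm_num
  rw [inv_pow, ← div_eq_mul_inv, inv_eq_one_div, div_le_div_iff₀ hb (by positivity), one_mul]
  have h1 : t0 ^ (3 * (4 * k + 4)) ≤ t0 ^ (3 * j) :=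
    pow_le_pow_of_le_one ht.le ht1 (by omega)
  have h2 : t0 ^ (3 * (4 * k + 4)) = (t0 ^ 12) ^ k * t0 ^ 12 := by
    rw [← pow_mul, ← pow_add]; congr 1; ring
  have h3 : (1 / 2 : ℝ) ≤ t0 ^ 12 := by unfold t0; norm_num
  have h4 : bt j = t0 ^ (3 * j) / 8192 := by
    unfold bt dl; rw [← pow_mul, mul_comm j 3]
  rw [h4]
  have h5 : (0 : ℝ) < (t0 ^ 12) ^ k := by positivity
  nlinarith

theorem four_k (k : ℕ) (hk : 40 ≤ k) : ((4 * k + 5 : ℕ) : ℝ) ≤ 2 ^ k := by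
  have : 4 * k + 5 ≤ 2 ^ k := by
    induction k, hk using Nat.le_induction with
    | base => norm_num
    | succ k hk ih => rw [pow_succ]; omega
  exact_mod_cast this

variable {ψ : ℕ → I4 → V3 → ℝ}

theorem chi_lip (hψ : CutFam ψ) (R : ℝ) (hR : 0 < R)
    (hL : ∀ k c x z, |ψ k c x - ψ k c z| ≤ 2 * (bt k * R)⁻¹ * ‖x - z‖) (α : ℤ) (k m : ℕ)
    (hk : 40 ≤ k) (hm : m ≤ 4 * k + 4) (e : I4) (x z : V3) :
    |chi ψ α m e x - chi ψ α m e z| ≤ 2 ^ 15 * (2 * (t0 ^ 12)⁻¹) ^ k / R * ‖x - z‖ := by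
  unfold chi
  refine (prod_lip _ _ _ (fun j _ => ⟨hψ.nn _ _ _, hψ.le1 _ _ _⟩)
    (fun j _ => ⟨hψ.nn _ _ _, hψ.le1 _ _ _⟩)).trans ?_
  have ht : 0 < t0 := by unfold t0; norm_num
  have h1 : ∀ j ∈ Finset.range (m + 1), |ψ j (cell α j e) x - ψ j (cell α j e) z| ≤
      2 ^ 15 * ((t0 ^ 12)⁻¹) ^ k / R * ‖x - z‖ := by
    intro j hj
    rw [Finset.mem_range] at hj
    refine (hL _ _ _ _).trans ?_
    apply mul_le_mul_of_nonneg_right _ (norm_nonneg _)
    have h2 := bt_inv k j (by omega)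
    rw [mul_inv]
    calc 2 * ((bt j)⁻¹ * R⁻¹) ≤ 2 * ((2 ^ 14 * ((t0 ^ 12)⁻¹) ^ k) * R⁻¹) := by
          apply mul_le_mul_of_nonneg_left _ (by norm_num)
          exact mul_le_mul_of_nonneg_right h2 (by positivity)
      _ = _ := by ring
  refine (Finset.sum_le_sum h1).trans ?_
  rw [Finset.sum_const, nsmul_eq_mul, Finset.card_range]
  have h3 := four_k k hk
  have h4 : ((m + 1 : ℕ) : ℝ) ≤ 2 ^ k := le_trans (by exact_mod_cast (by omega : m + 1 ≤ 4 * k + 5)) h3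
  calc ((m + 1 : ℕ) : ℝ) * (2 ^ 15 * ((t0 ^ 12)⁻¹) ^ k / R * ‖x - z‖)
      ≤ 2 ^ k * (2 ^ 15 * ((t0 ^ 12)⁻¹) ^ k / R * ‖x - z‖) :=
        mul_le_mul_of_nonneg_right h4 (by positivity)
    _ = _ := by rw [mul_pow]; ring

open Classical in
/-- good near tangent pairs -/
def GoodP (y : I4 → V3) (r : I4 → ℝ) (R u : ℝ) (E : Finset I4) (α : ℤ) (k : ℕ) (e e' : I4) :
    Prop :=
  ∃ n ∈ nbox (bt k * R) (4 * R) (y e), e' ∈ TS y r (bt k * R) k α E E (Prng k) (cell α k e) n ∧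
    (#(TS y r (bt k * R) k α E E (Prng k) (cell α k e) n) : ℝ) < thrs u k

noncomputable def Ak (R : ℝ) (k : ℕ) : ℝ := 2 ^ 9 * R ^ 2 / 16 ^ k
noncomputable def Bk (R : ℝ) (k : ℕ) : ℝ := 2 ^ 27 * R ^ 2 / (16 ^ k * 2 ^ k)

theorem Ak_nonneg (R : ℝ) (k : ℕ) : 0 ≤ Ak R k := by unfold Ak; positivity
theorem Bk_nonneg (R : ℝ) (k : ℕ) : 0 ≤ Bk R k := by unfold Bk; positivity

open Classical in
noncomputable def bk (y : I4 → V3) (r : I4 → ℝ) (R u : ℝ) (E : Finset I4) (α : ℤ) (k₀ : ℕ)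
    (e e' : I4) (k : ℕ) : ℝ :=
  if act k₀ R k ∧ Prng k e e' then (if GoodP y r R u E α k e e' then Ak R k else 0) + Bk R k else 0

theorem bk_nonneg (y : I4 → V3) (r : I4 → ℝ) (R u : ℝ) (E : Finset I4) (α : ℤ) (k₀ : ℕ)
    (e e' : I4) (k : ℕ) : 0 ≤ bk y r R u E α k₀ e e' k := by
  have h1 := Ak_nonneg R k
  have h2 := Bk_nonneg R k
  unfold bk; split_ifs <;> positivity

variable {Ψ : ℝ → ℝ}

/-- transversality from failure of near tangency. -/
theorem trans_of_not_near (ρ r r' F : ℝ) (hF : 1 ≤ F) (h1 : ρ ≤ r + r' + 1)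
    (h2 : |r - r'| ≤ ρ + 1)
    (hn : ¬ ∃ s σ : ℝ, (s = 1 ∨ s = -1) ∧ (σ = 1 ∨ σ = -1) ∧ |s * ρ + r - σ * r'| ≤ F) :
    |r - r'| + F ≤ ρ ∧ ρ ≤ r + r' - F := by
  push Not at hn
  have a1 := hn 1 1 (Or.inl rfl) (Or.inl rfl)
  have a2 := hn (-1) 1 (Or.inr rfl) (Or.inl rfl)
  have a3 := hn (-1) (-1) (Or.inr rfl) (Or.inr rfl)
  rcases abs_cases (r - r') with ⟨b1, b1'⟩ | ⟨b1, b1'⟩ <;>
  rcases lt_abs.1 a1 with c1 | c1 <;> rcases lt_abs.1 a2 with c2 | c2 <;>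
  rcases lt_abs.1 a3 with c3 | c3 <;> constructor <;> linarith

theorem pair_num (R r r' ρ L : ℝ) (k : ℕ) (hR : 0 < R) (hr0 : 0 ≤ r) (hr0' : 0 ≤ r')
    (hr : r ≤ 2 * R) (hr' : r' ≤ 2 * R) (hρ : 16 ^ k ≤ ρ)
    (hL : L = 2 ^ 16 * (2 * (t0 ^ 12)⁻¹) ^ k / R) :
    48 * Real.pi * L * (r * r' / ρ) * √(r * r' / (ρ * 8 ^ k)) ≤ Bk R k := by
  have h16 : (0 : ℝ) < 16 ^ k := by positivity
  have h8 : (0 : ℝ) < 8 ^ k := by positivity
  have hρ0 : 0 < ρ := by linarith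
  have ht : 0 < t0 := by unfold t0; norm_num
  have hL0 : 0 ≤ L := by rw [hL]; positivity
  have h1 : r * r' ≤ 4 * R ^ 2 := by
    calc r * r' ≤ (2 * R) * (2 * R) := mul_le_mul hr hr' hr0' (by linarith)
      _ = _ := by ring
  have h2 : r * r' / ρ ≤ 4 * R ^ 2 / 16 ^ k := div_le_div₀ (by positivity) h1 h16 hρ
  have h3 : √(r * r' / (ρ * 8 ^ k)) ≤ 2 * R / 8 ^ k := by
    rw [Real.sqrt_le_left (by positivity), div_pow]
    have h4 : r * r' / (ρ * 8 ^ k) ≤ 4 * R ^ 2 / (16 ^ k * 8 ^ k) :=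
      div_le_div₀ (by positivity) h1 (by positivity) (mul_le_mul_of_nonneg_right hρ h8.le)
    refine h4.trans ?_
    rw [mul_pow]
    have h5 : ((8 : ℝ) ^ k) ^ 2 ≤ 16 ^ k * 8 ^ k := by
      rw [sq]
      exact mul_le_mul_of_nonneg_right (pow_le_pow_left₀ (by norm_num) (by norm_num) k) h8.le
    have h6 : (2 : ℝ) ^ 2 * R ^ 2 = 4 * R ^ 2 := by ring
    rw [h6]
    exact div_le_div_of_nonneg_left (by positivity) (by positivity) h5
  have hpi := Real.pi_lt_four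
  have hpi0 := Real.pi_pos
  have h7 : 48 * Real.pi * L * (r * r' / ρ) * √(r * r' / (ρ * 8 ^ k)) ≤
      48 * 4 * L * (4 * R ^ 2 / 16 ^ k) * (2 * R / 8 ^ k) := by
    apply mul_le_mul _ h3 (Real.sqrt_nonneg _) (by positivity)
    apply mul_le_mul _ h2 (by positivity) (by positivity)
    apply mul_le_mul_of_nonneg_right _ hL0
    linarith
  refine h7.trans ?_
  have h9 : ((t0 ^ 12)⁻¹) ^ k * 2 ^ k * 2 ^ k ≤ 8 ^ k := by
    rw [← mul_pow, ← mul_pow]
    apply pow_le_pow_left₀ (by positivity)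
    unfold t0; norm_num
  rw [hL, Bk]
  have e1 : 48 * 4 * (2 ^ 16 * (2 * (t0 ^ 12)⁻¹) ^ k / R) * (4 * R ^ 2 / 16 ^ k) * (2 * R / 8 ^ k)
      = (1536 * 2 ^ 16 * R ^ 2 / 16 ^ k) * ((((t0 ^ 12)⁻¹) ^ k * 2 ^ k * 2 ^ k) / 8 ^ k / 2 ^ k) := by
    rw [mul_pow]
    field_simp
    ring
  rw [e1]
  have h10 : (((t0 ^ 12)⁻¹) ^ k * 2 ^ k * 2 ^ k) / 8 ^ k / 2 ^ k ≤ 1 / 2 ^ k := by
    apply div_le_div_of_nonneg_right _ (by positivity)
    rw [div_le_one h8]; exact h9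
  calc (1536 * 2 ^ 16 * R ^ 2 / 16 ^ k) * ((((t0 ^ 12)⁻¹) ^ k * 2 ^ k * 2 ^ k) / 8 ^ k / 2 ^ k)
      ≤ (2 ^ 27 * R ^ 2 / 16 ^ k) * (1 / 2 ^ k) := by
        apply mul_le_mul _ h10 (by positivity) (by positivity)
        apply div_le_div_of_nonneg_right _ h16.le
        have : 0 ≤ R ^ 2 := by positivity
        nlinarith
    _ = _ := by field_simp

theorem pair_bound (hΨ : Profile Ψ) {y : I4 → V3} {r : I4 → ℝ} (hc : Cfg y r) (R u : ℝ)
    (hR : 1 ≤ R) (E : Finset I4) (hE : ∀ e ∈ E, R ≤ r e ∧ r e ≤ 2 * R)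
    (α : ℤ) (k₀ : ℕ) (hk₀ : 40 ≤ k₀) (hψ : CutFam ψ)
    (hL : ∀ k c x z, |ψ k c x - ψ k c z| ≤ 2 * (bt k * R)⁻¹ * ‖x - z‖)
    (hdom : ∀ k c x, ψ k c x ≠ 0 → sps y r R u E α k₀ k c x ≠ 0)
    (a : I4 → ℝ) (ha : ∀ e, |a e| ≤ 1) (m : ℕ) (hm : 4 * k₀ + 4 ≤ m) (e e' : I4) (he : e ∈ E)
    (he' : e' ∈ E) (hint : inte α m e) (hMg : Mg α m e e') (K : ℕ) (hK : 32 * R < 16 ^ K) :
    |∫ x, (chi ψ α (m + 1) e x * (a e * atom Ψ (y e) (r e) x)) *
      (chi ψ α (m + 1) e' x * (a e' * atom Ψ (y e') (r e') x))|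
      ≤ ∑ k ∈ Finset.range K, bk y r R u E α k₀ e e' k := by
  obtain ⟨he1, he2⟩ := hE e he
  obtain ⟨he1', he2'⟩ := hE e' he'
  have hR0 : 0 < R := by linarith
  have hsum0 : 0 ≤ ∑ k ∈ Finset.range K, bk y r R u E α k₀ e e' k :=
    Finset.sum_nonneg (fun k _ => bk_nonneg _ _ _ _ _ _ _ _ _ _)
  by_cases hx : ∃ x, chi ψ α (m + 1) e x ≠ 0 ∧ x ∈ shell (y e) (r e) ∧ x ∈ shell (y e') (r e')
  swap
  · push Not at hx
    have h0 : ∀ x, (chi ψ α (m + 1) e x * (a e * atom Ψ (y e) (r e) x)) *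
      (chi ψ α (m + 1) e' x * (a e' * atom Ψ (y e') (r e') x)) = 0 := by
      intro x
      by_cases h1 : chi ψ α (m + 1) e x = 0
      · rw [h1]; ring
      · by_cases h2 : x ∈ shell (y e) (r e)
        · rw [atom_zero hΨ (y e') (r e') x (hx x h1 h2)]; ring
        · rw [atom_zero hΨ (y e) (r e) x h2]; ring
    simp only [h0, integral_zero, abs_zero]
    exact hsum0
  obtain ⟨x, hx0, hx1, hx2⟩ := hx
  have s1 := abs_le.1 (show |‖x - y e‖ - r e| ≤ 1 / 2 from hx1)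
  have s2 := abs_le.1 (show |‖x - y e'‖ - r e'| ≤ 1 / 2 from hx2)
  set ρ := ‖y e - y e'‖ with hρ
  have tri1 : ρ ≤ r e + r e' + 1 := by
    have : y e - y e' = -(x - y e) + (x - y e') := by abel
    rw [hρ, this]
    refine (norm_add_le _ _).trans ?_
    rw [norm_neg]; linarith [s1.2, s2.2]
  have tri2 : |r e - r e'| ≤ ρ + 1 := by
    have h1 : ‖x - y e‖ ≤ ‖x - y e'‖ + ρ := by
      have : x - y e = (x - y e') - (y e - y e') := by abel
      rw [this]; exact norm_sub_le _ _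
    have h2 : ‖x - y e'‖ ≤ ‖x - y e‖ + ρ := by
      have : x - y e' = (x - y e) + (y e - y e') := by abel
      rw [this]; exact norm_add_le _ _
    rw [abs_le]; constructor <;> linarith [s1.1, s1.2, s2.1, s2.2]
  have hd3 := hc.d3 e e'
  have hdle : dist e e' ≤ 6 * R := by
    refine hd3.trans (max_le (by rw [← hρ]; linarith) ?_)
    refine tri2.trans ?_
    linarith
  -- scale
  have hfar := cell_far α m e e' hint hMg.1
  have hclose := cell_close α (m + 1) e e' hMg.2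
  have hd1 : 1 ≤ dist e e' := le_trans (one_le_pow₀ (by norm_num)) hfar
  obtain ⟨k, hk1, hk2⟩ := exists_nat_pow_near hd1 (by norm_num : (1 : ℝ) < 16)
  have hkk₀ : k₀ < k := by
    have h1 : (2 : ℝ) ^ (4 * k₀ + 4) ≤ 2 ^ m := pow_le_pow_right₀ (by norm_num) hm
    have h2 : (2 : ℝ) ^ (4 * k₀ + 4) = 16 ^ (k₀ + 1) := by
      rw [show 4 * k₀ + 4 = 4 * (k₀ + 1) by ring, pow_mul]; norm_num
    have h3 : (16 : ℝ) ^ (k₀ + 1) < 16 ^ (k + 1) := by linarith
    have h4 := (pow_lt_pow_iff_right₀ (by norm_num : (1 : ℝ) < 16)).1 h3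
    omega
  have hm4 : m + 1 ≤ 4 * k + 4 := by
    have h2 : (2 : ℝ) ^ (4 * k + 4) = 16 ^ (k + 1) := by
      rw [show 4 * k + 4 = 4 * (k + 1) by ring, pow_mul]; norm_num
    have h3 : (2 : ℝ) ^ m < 2 ^ (4 * k + 4) := by linarith
    have h4 := (pow_lt_pow_iff_right₀ (by norm_num : (1 : ℝ) < 2)).1 h3
    omega
  have hkm : k ≤ m + 1 := by
    have h2 : (16 : ℝ) ^ k = 4 ^ (2 * k) := by rw [pow_mul]; norm_num
    have h3 : (4 : ℝ) ^ (2 * k) ≤ 4 ^ (m + 1) := by linarith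
    have h4 := (pow_le_pow_iff_right₀ (by norm_num : (1 : ℝ) < 4)).1 h3
    omega
  have hk40 : 40 ≤ k := by omega
  have hact : act k₀ R k := ⟨hkk₀, by linarith⟩
  have hkK : k ∈ Finset.range K := by
    rw [Finset.mem_range]
    have h3 : (16 : ℝ) ^ k < 16 ^ K := lt_of_le_of_lt hact.2 hK
    exact (pow_lt_pow_iff_right₀ (by norm_num : (1 : ℝ) < 16)).1 h3
  refine le_trans ?_ (Finset.single_le_sum (f := fun k => bk y r R u E α k₀ e e' k)
    (fun k _ => bk_nonneg _ _ _ _ _ _ _ _ _ _) hkK)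
  have hAk := Ak_nonneg R k
  have hBk := Bk_nonneg R k
  have hbk : bk y r R u E α k₀ e e' k = (open Classical in
      if GoodP y r R u E α k e e' then Ak R k else 0) + Bk R k := by
    unfold bk; rw [if_pos ⟨hact, hk1, hk2⟩]
  rw [hbk]
  -- rewrite the integral
  set X : V3 → ℝ := fun x => (a e * a e') * (chi ψ α (m + 1) e x * chi ψ α (m + 1) e' x) with hX
  have hint' : (∫ x, (chi ψ α (m + 1) e x * (a e * atom Ψ (y e) (r e) x)) *
      (chi ψ α (m + 1) e' x * (a e' * atom Ψ (y e') (r e') x)))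
      = ∫ x, atom Ψ (y e) (r e) x * atom Ψ (y e') (r e') x * X x := by
    congr 1; ext x; simp only [hX]; ring
  rw [hint']
  have haa : |a e * a e'| ≤ 1 := by
    rw [abs_mul]
    calc |a e| * |a e'| ≤ 1 * 1 := mul_le_mul (ha e) (ha e') (abs_nonneg _) (by norm_num)
      _ = 1 := by norm_num
  have hXb : ∀ x, |X x| ≤ 1 := by
    intro x
    simp only [hX]
    have c1 := chi_nonneg hψ α (m + 1) e x
    have c2 := chi_le_one hψ α (m + 1) e x
    have c3 := chi_nonneg hψ α (m + 1) e' x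
    have c4 := chi_le_one hψ α (m + 1) e' x
    rw [abs_mul, abs_of_nonneg (mul_nonneg c1 c3)]
    calc |a e * a e'| * (chi ψ α (m + 1) e x * chi ψ α (m + 1) e' x) ≤ 1 * (1 * 1) :=
          mul_le_mul haa (mul_le_mul c2 c4 c3 (by norm_num)) (by positivity) (by norm_num)
      _ = 1 := by norm_num
  have hr1 : 1 ≤ r e := by linarith
  have hr1' : 1 ≤ r e' := by linarith
  by_cases hnear : ∃ s σ : ℝ, (s = 1 ∨ s = -1) ∧ (σ = 1 ∨ σ = -1) ∧
      |s * ρ + r e - σ * r e'| ≤ 8 ^ k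
  · -- near tangent
    obtain ⟨s, σ, hs, hσ, hst⟩ := hnear
    have hsep := near_sep hc k (by omega) e e' (by linarith) (by linarith) hk1 s σ hs hσ hst
    have hgood : GoodP y r R u E α k e e' := by
      have hb := bt_pos k
      have hh : 0 < bt k * R := by positivity
      obtain ⟨n, hn⟩ := ctr_cover (bt k * R) hh x
      have hb1 := bt_le k
      have h9 : bt k * R ≤ 1 * R := mul_le_mul_of_nonneg_right (by linarith) hR0.le
      refine ⟨n, ?_, ?_, ?_⟩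
      · apply mem_nbox _ _ hh
        have h2 : ctr (bt k * R) n - y e = -(x - ctr (bt k * R) n) + (x - y e) := by abel
        rw [h2]
        refine (norm_add_le _ _).trans ?_
        rw [norm_neg]
        linarith [s1.2]
      · rw [mem_TS]
        exact ⟨he', e, he, rfl, ⟨hk1, hk2⟩, s, σ, hs, hσ, hst, x, hx1, hx2, hn⟩
      · have h3 := chi_ne_zero hx0 k hkm
        have h4 := hdom _ _ _ h3
        unfold sps at h4
        rw [if_pos hact] at h4
        exact bcut_good hh e he (by linarith) x hx1 h4 n hn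
    rw [if_pos hgood]
    have h16 : (0 : ℝ) < 16 ^ k := by positivity
    have hne : y e ≠ y e' := by
      intro h
      rw [← hρ, hρ, h, sub_self, norm_zero] at hsep
      linarith
    have h5 := corr_near hΨ (y e) (y e') (r e) (r e') hr1 hr1' hne X hXb
    rw [norm_sub_rev (y e') (y e), ← hρ] at h5
    have hpi := Real.pi_lt_four
    have hpi0 := Real.pi_pos
    have h6 : r e * r e' ≤ 4 * R ^ 2 := by
      calc r e * r e' ≤ (2 * R) * (2 * R) := mul_le_mul he2 he2' (by linarith) (by linarith)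
        _ = _ := by ring
    have h7 : r e * r e' / ρ ≤ 4 * R ^ 2 / (16 ^ k / 2) :=
      div_le_div₀ (by positivity) h6 (by positivity) hsep
    have h8 : 16 * Real.pi * (r e * r e' / ρ) ≤ 16 * 4 * (4 * R ^ 2 / (16 ^ k / 2)) := by
      apply mul_le_mul (by linarith) h7 (by positivity) (by norm_num)
    have h9 : 16 * 4 * (4 * R ^ 2 / (16 ^ k / 2)) = Ak R k := by
      unfold Ak; field_simp; ring
    linarith
  · have h8k : (1 : ℝ) ≤ 8 ^ k := one_le_pow₀ (by norm_num)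
    have h8k2 : (2 : ℝ) ≤ 8 ^ k := by
      calc (2 : ℝ) ≤ 8 ^ 1 := by norm_num
        _ ≤ 8 ^ k := pow_le_pow_right₀ (by norm_num) (by omega)
    obtain ⟨t1, t2⟩ := trans_of_not_near ρ (r e) (r e') (8 ^ k) h8k tri1 tri2 hnear
    have hρd : (16 : ℝ) ^ k ≤ ρ := by
      rw [← hρ, max_eq_left (by linarith)] at hd3
      linarith
    set L : ℝ := 2 ^ 16 * (2 * (t0 ^ 12)⁻¹) ^ k / R with hLd
    have ht : 0 < t0 := by unfold t0; norm_num
    have hL0 : 0 ≤ L := by rw [hLd]; positivity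
    have hXc : Continuous X :=
      continuous_const.mul ((chi_cont hψ α (m + 1) e).mul (chi_cont hψ α (m + 1) e'))
    have hXL : ∀ x z, |X x - X z| ≤ L * ‖x - z‖ := by
      intro x z
      simp only [hX]
      rw [← mul_sub, abs_mul]
      have c1 := chi_nonneg hψ α (m + 1) e x
      have c2 := chi_le_one hψ α (m + 1) e x
      have c3 := chi_nonneg hψ α (m + 1) e' z
      have c4 := chi_le_one hψ α (m + 1) e' z
      have d1 := chi_lip hψ R hR0 hL α k (m + 1) hk40 hm4 e x z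
      have d2 := chi_lip hψ R hR0 hL α k (m + 1) hk40 hm4 e' x z
      have e1 : chi ψ α (m + 1) e x * chi ψ α (m + 1) e' x - chi ψ α (m + 1) e z *
        chi ψ α (m + 1) e' z = chi ψ α (m + 1) e x * (chi ψ α (m + 1) e' x - chi ψ α (m + 1) e' z)
          + (chi ψ α (m + 1) e x - chi ψ α (m + 1) e z) * chi ψ α (m + 1) e' z := by ring
      rw [e1]
      have d3 : |chi ψ α (m + 1) e x * (chi ψ α (m + 1) e' x - chi ψ α (m + 1) e' z)
          + (chi ψ α (m + 1) e x - chi ψ α (m + 1) e z) * chi ψ α (m + 1) e' z|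
          ≤ 1 * |chi ψ α (m + 1) e' x - chi ψ α (m + 1) e' z| +
            |chi ψ α (m + 1) e x - chi ψ α (m + 1) e z| * 1 := by
        refine (abs_add_le _ _).trans ?_
        rw [abs_mul, abs_mul, abs_of_nonneg c1, abs_of_nonneg c3]
        exact add_le_add (mul_le_mul_of_nonneg_right c2 (abs_nonneg _))
          (mul_le_mul_of_nonneg_left c4 (abs_nonneg _))
      have d4 : 0 ≤ |chi ψ α (m + 1) e x * (chi ψ α (m + 1) e' x - chi ψ α (m + 1) e' z)
          + (chi ψ α (m + 1) e x - chi ψ α (m + 1) e z) * chi ψ α (m + 1) e' z| := abs_nonneg _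
      have d5 : L * ‖x - z‖ = 2 * (2 ^ 15 * (2 * (t0 ^ 12)⁻¹) ^ k / R * ‖x - z‖) := by
        rw [hLd]; ring
      rw [d5]
      have d6 := mul_le_mul_of_nonneg_right haa d4
      linarith
    have h5 := corr_trans hΨ (y e) (y e') (r e) (r e') (8 ^ k) L hr1 hr1' h8k2
      (by rw [norm_sub_rev (y e') (y e), ← hρ]; exact t1)
      (by rw [norm_sub_rev (y e') (y e), ← hρ]; exact t2) X hXc hL0 hXL
    rw [norm_sub_rev (y e') (y e), ← hρ] at h5
    have h6 := pair_num R (r e) (r e') ρ L k hR0 (by linarith) (by linarith) he2 he2' hρd hLd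
    refine h5.trans (h6.trans ?_)
    have : 0 ≤ (open Classical in if GoodP y r R u E α k e e' then Ak R k else 0) := by
      split_ifs
      · exact hAk
      · exact le_rfl
    linarith

end Run7.h58
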