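import Pool.Agent.Run7.h58.Same3

open MeasureTheory Finset
open scoped ENNReal RealInnerProductSpace

namespace Run7.h58

section
variable {y : I4 → V3} {r : I4 → ℝ} {R u : ℝ} {E : Finset I4} {α : ℤ} {k₀ : ℕ} {Ψ : ℝ → ℝ}
  {ψ : ℕ → I4 → V3 → ℝ}

open Classical in
theorem count_rng (hD : Dens R E u) (k : ℕ) (hS : (16 : ℝ) ^ k ≤ 32 * R) (e : I4) (he : e ∈ E) :
    (#{e' ∈ E | Prng k e e'} : ℝ) ≤ 16 * u * 16 ^ k := by
  have e2 : (2 : ℝ) ^ (4 * k + 4) = 16 * 16 ^ k := by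
    rw [pow_add, pow_mul]; norm_num; ring
  have h16 : (0 : ℝ) < 16 ^ k := by positivity
  have h := hD e he (4 * k + 4) (by rw [e2]; linarith)
  have hsub : {e' ∈ E | Prng k e e'} ⊆ {e' ∈ E | dist e' e ≤ 2 ^ (4 * k + 4)} := by
    intro e' he'
    rw [Finset.mem_filter] at he' ⊢
    refine ⟨he'.1, ?_⟩
    rw [e2, dist_comm]
    have := he'.2.2
    rw [pow_succ] at this
    linarith
  have h2 : (#{e' ∈ E | Prng k e e'} : ℝ) ≤ (#{e' ∈ E | dist e' e ≤ 2 ^ (4 * k + 4)} : ℝ) := by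
    exact_mod_cast Finset.card_le_card hsub
  rw [e2] at h
  rw [e2] at h2
  linarith

open Classical in
theorem count_good (hR : 1 ≤ R) (hu : 0 < u) (k : ℕ) (e : I4) :
    (#{e' ∈ E | GoodP y r R u E α k e e'} : ℝ) ≤ 2 ^ 12 * (19 / 20) ^ k * u * 16 ^ k := by
  have hR0 : 0 < R := by linarith
  have hb := bt_pos k
  have hb1 := bt_le k
  have hh : 0 < bt k * R := by positivity
  have hthr : 0 < thrs u k := by unfold thrs; positivity
  set A : I3 → Finset I4 := fun n =>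
    if (#(TS y r (bt k * R) k α E E (Prng k) (cell α k e) n) : ℝ) < thrs u k then
    TS y r (bt k * R) k α E E (Prng k) (cell α k e) n else ∅ with hA
  have hsub : {e' ∈ E | GoodP y r R u E α k e e'} ⊆
      (nbox (bt k * R) (4 * R) (y e)).biUnion A := by
    intro e' he'
    rw [Finset.mem_filter] at he'
    obtain ⟨-, n, hn, hTS, hlt⟩ := he'
    rw [Finset.mem_biUnion]
    refine ⟨n, hn, ?_⟩
    simp only [hA]
    rw [if_pos hlt]
    exact hTS
  have hAc : ∀ n ∈ nbox (bt k * R) (4 * R) (y e), (#(A n) : ℝ) ≤ thrs u k := by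
    intro n _
    simp only [hA]
    split_ifs with h
    · exact h.le
    · simpa using hthr.le
  calc (#{e' ∈ E | GoodP y r R u E α k e e'} : ℝ)
      ≤ (#((nbox (bt k * R) (4 * R) (y e)).biUnion A) : ℝ) := by
        exact_mod_cast Finset.card_le_card hsub
    _ ≤ ∑ n ∈ nbox (bt k * R) (4 * R) (y e), (#(A n) : ℝ) := by
        exact_mod_cast Finset.card_biUnion_le
    _ ≤ ∑ n ∈ nbox (bt k * R) (4 * R) (y e), thrs u k := Finset.sum_le_sum hAc
    _ = (#(nbox (bt k * R) (4 * R) (y e)) : ℝ) * thrs u k := by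
        rw [Finset.sum_const, nsmul_eq_mul]
    _ ≤ (16 / bt k) ^ 3 * thrs u k := by
        apply mul_le_mul_of_nonneg_right _ hthr.le
        refine (card_nbox _ _ hh (by positivity) _).trans ?_
        apply pow_le_pow_left₀ (by positivity)
        have h1 : 2 * (4 * R) / (bt k * R) = 8 * (1 / bt k) := by field_simp; ring
        rw [h1]
        have h2 : 1 ≤ 1 / bt k := by rw [one_le_div hb]; linarith
        have h3 : (16 : ℝ) / bt k = 16 * (1 / bt k) := by ring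
        rw [h3]; linarith
    _ = _ := by
        unfold thrs
        field_simp
        norm_num

theorem sum_bk (hD : Dens R E u) (hR : 1 ≤ R) (hu : 0 < u) (e : I4) (he : e ∈ E) (K : ℕ) :
    ∑ e' ∈ E, ∑ k ∈ Finset.range K, bk y r R u E α k₀ e e' k
      ≤ 2 ^ 37 * u * (19 / 20) ^ k₀ * R ^ 2 := by
  classical
  rw [Finset.sum_comm]
  have h1 : ∀ k ∈ Finset.range K, ∑ e' ∈ E, bk y r R u E α k₀ e e' k
      ≤ (2 ^ 32 * u * R ^ 2) * (if k₀ < k then (19 / 20) ^ k else 0) := by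
    intro k _
    by_cases ha : act k₀ R k
    · rw [if_pos ha.1]
      have hA := Ak_nonneg R k
      have hB := Bk_nonneg R k
      have h2 : ∀ e' ∈ E, bk y r R u E α k₀ e e' k ≤
          (if GoodP y r R u E α k e e' then Ak R k else 0) +
          (if Prng k e e' then Bk R k else 0) := by
        intro e' _
        unfold bk
        by_cases c1 : act k₀ R k ∧ Prng k e e'
        · rw [if_pos c1, if_pos c1.2]
        · rw [if_neg c1]
          have d1 : 0 ≤ (if GoodP y r R u E α k e e' then Ak R k else 0) := by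
            split_ifs
            · exact hA
            · exact le_rfl
          have d2 : 0 ≤ (if Prng k e e' then Bk R k else 0) := by
            split_ifs
            · exact hB
            · exact le_rfl
          linarith
      refine (Finset.sum_le_sum h2).trans ?_
      rw [Finset.sum_add_distrib, ← Finset.sum_filter, ← Finset.sum_filter, Finset.sum_const,
        Finset.sum_const, nsmul_eq_mul, nsmul_eq_mul]
      have h3 := count_good (y := y) (r := r) (E := E) (α := α) hR hu k e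
      have h4 := count_rng hD k ha.2 e he
      have h5 := mul_le_mul_of_nonneg_right h3 hA
      have h6 := mul_le_mul_of_nonneg_right h4 hB
      refine (add_le_add h5 h6).trans ?_
      have e1 : 2 ^ 12 * (19 / 20) ^ k * u * 16 ^ k * Ak R k
          = 2 ^ 21 * u * R ^ 2 * (19 / 20) ^ k := by
        unfold Ak; field_simp
      have e2 : 16 * u * 16 ^ k * Bk R k = 2 ^ 31 * u * R ^ 2 * (1 / 2) ^ k := by
        unfold Bk; rw [one_div, inv_pow]; field_simp; ring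
      rw [e1, e2]
      have h7 : ((1 : ℝ) / 2) ^ k ≤ (19 / 20) ^ k :=
        pow_le_pow_left₀ (by norm_num) (by norm_num) k
      have h8 : 0 ≤ u * R ^ 2 := by positivity
      have h9 : u * R ^ 2 * (1 / 2) ^ k ≤ u * R ^ 2 * (19 / 20) ^ k :=
        mul_le_mul_of_nonneg_left h7 h8
      have h10 : 0 ≤ u * R ^ 2 * (19 / 20) ^ k := by positivity
      linarith
    · have h2 : ∀ e' ∈ E, bk y r R u E α k₀ e e' k = 0 := by
        intro e' _
        unfold bk
        rw [if_neg (fun h => ha h.1)]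
      rw [Finset.sum_congr rfl h2, Finset.sum_const_zero]
      split_ifs <;> positivity
  refine (Finset.sum_le_sum h1).trans ?_
  rw [← Finset.mul_sum]
  have h2 := geom_tail (19 / 20 : ℝ) (by norm_num) (by norm_num) k₀ K
  have h3 := mul_le_mul_of_nonneg_left h2 (show 0 ≤ 2 ^ 32 * u * R ^ 2 by positivity)
  refine h3.trans ?_
  have h4 : (0 : ℝ) ≤ u * R ^ 2 * (19 / 20) ^ k₀ := by positivity
  have h5 : 2 ^ 32 * u * R ^ 2 * ((19 / 20) ^ k₀ / (1 - 19 / 20))
      = 2 ^ 32 * 20 * (u * R ^ 2 * (19 / 20) ^ k₀) := by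
    have : (1 : ℝ) - 19 / 20 = 1 / 20 := by norm_num
    rw [this]; ring
  rw [h5]
  linarith

theorem atom_TF (hΨ : Profile Ψ) (a : ℝ) (z : V3) (q : ℝ) : TF (fun x => a * atom Ψ z q x) :=
  ⟨continuous_const.mul (atom_cont hΨ z q), (atom_hcs hΨ z q).mul_left⟩

theorem atom_sq (hΨ : Profile Ψ) (a : ℝ) (ha : |a| ≤ 1) (z : V3) (q : ℝ) (hq : 1 ≤ q) :
    ∫ x, (a * atom Ψ z q x) ^ 2 ≤ 96 * q ^ 2 := by
  have h1 : ∀ x, (a * atom Ψ z q x) ^ 2 = |(a ^ 2 * (atom Ψ z q x / 2)) * atom Ψ z q x| * 2 := by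
    intro x
    have : (a ^ 2 * (atom Ψ z q x / 2)) * atom Ψ z q x = (a * atom Ψ z q x) ^ 2 / 2 := by ring
    rw [this, abs_of_nonneg (by positivity)]
    ring
  simp only [h1]
  rw [integral_mul_const]
  have h2 := atom_l1 hΨ z q hq (fun x => a ^ 2 * (atom Ψ z q x / 2)) (by
    intro x
    have h3 := atom_abs_le hΨ z q hq x
    rw [abs_mul, abs_div, abs_of_pos (show (0 : ℝ) < 2 by norm_num), abs_of_nonneg (sq_nonneg a)]
    have h4 : a ^ 2 ≤ 1 := by
      rw [← sq_abs]; exact pow_le_one₀ (abs_nonneg _) ha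
    calc a ^ 2 * (|atom Ψ z q x| / 2) ≤ 1 * 1 := by
          apply mul_le_mul h4 (by linarith) (by positivity) (by norm_num)
      _ = 1 := by norm_num)
  have hpi := Real.pi_lt_four
  have h5 : 12 * Real.pi * q ^ 2 ≤ 12 * 4 * q ^ 2 := by
    apply mul_le_mul_of_nonneg_right _ (sq_nonneg q); linarith
  linarith

theorem energy_same (hΨ : Profile Ψ) (hc : Cfg y r) (hR : 1 ≤ R) (hu : 1 ≤ u)
    (hE : ∀ e ∈ E, R ≤ r e ∧ r e ≤ 2 * R) (hD : Dens R E u)
    (hk₀ : 40 ≤ k₀) (M : ℕ) (hM : 4 * k₀ + 4 ≤ M)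
    (hint : ∀ e ∈ E, ∀ m, 4 * k₀ + 4 ≤ m → m ≤ M → inte α m e)
    (hsame : ∀ e ∈ E, ∀ e' ∈ E, cell α M e = cell α M e') (hψ : CutFam ψ)
    (hL : ∀ k c x z, |ψ k c x - ψ k c z| ≤ 2 * (bt k * R)⁻¹ * ‖x - z‖)
    (hdom : ∀ k c x, ψ k c x ≠ 0 → sps y r R u E α k₀ k c x ≠ 0)
    (a : I4 → ℝ) (ha : ∀ e, |a e| ≤ 1) :
    ∫ x, (∑ e ∈ E, chi ψ α M e x * (a e * atom Ψ (y e) (r e) x)) ^ 2
      ≤ 2 ^ 40 * (256 ^ (4 * k₀ + 4) + u * t0 ^ k₀) * (#E * R ^ 2) := by
  obtain ⟨K, hK⟩ := pow_unbounded_of_one_lt (32 * R) (by norm_num : (1 : ℝ) < 16)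
  have hu0 : 0 < u := by linarith
  -- modified interior: only levels up to M matter
  have h1 := energy hψ α E (fun e x => a e * atom Ψ (y e) (r e) x) (fun e => atom_TF hΨ _ _ _)
    (4 * k₀ + 4) M hM hsame
    (fun e e' => ∑ k ∈ Finset.range K, bk y r R u E α k₀ e e' k)
    (fun e e' => Finset.sum_nonneg (fun k _ => bk_nonneg _ _ _ _ _ _ _ _ _ _))
    (by
      intro m hm e he e' he' hMg
      by_cases hmM : m ≤ M
      · exact pair_bound hΨ hc R u hR E hE α k₀ hk₀ hψ hL hdom a ha m hm e e' he he'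
          (hint e he m hm hmM) hMg K hK
      · exfalso
        apply hMg.1
        exact cell_nest_le α (by omega) e e' (hsame e he e' he'))
  refine h1.trans ?_
  have h2 : ∑ e ∈ E, ∫ x, (a e * atom Ψ (y e) (r e) x) ^ 2 ≤ #E * (384 * R ^ 2) := by
    rw [← nsmul_eq_mul, ← Finset.sum_const]
    apply Finset.sum_le_sum
    intro e he
    obtain ⟨he1, he2⟩ := hE e he
    refine (atom_sq hΨ (a e) (ha e) (y e) (r e) (by linarith)).trans ?_
    have : r e ^ 2 ≤ (2 * R) ^ 2 := pow_le_pow_left₀ (by linarith) he2 2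
    linarith
  have h3 : ∑ e ∈ E, ∑ e' ∈ E, ∑ k ∈ Finset.range K, bk y r R u E α k₀ e e' k
      ≤ #E * (2 ^ 37 * u * (19 / 20) ^ k₀ * R ^ 2) := by
    rw [← nsmul_eq_mul, ← Finset.sum_const]
    apply Finset.sum_le_sum
    intro e he
    exact sum_bk hD hR hu0 e he K
  have h4 : ((19 : ℝ) / 20) ^ k₀ ≤ t0 ^ k₀ := pow_le_pow_left₀ (by norm_num)
    (by unfold t0; norm_num) k₀
  have h5 : (256 : ℝ) ^ (4 * k₀ + 4) * ∑ e ∈ E, ∫ x, (a e * atom Ψ (y e) (r e) x) ^ 2
      ≤ 256 ^ (4 * k₀ + 4) * (#E * (384 * R ^ 2)) :=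
    mul_le_mul_of_nonneg_left h2 (by positivity)
  refine (add_le_add h5 h3).trans ?_
  have h6 : (0 : ℝ) ≤ 256 ^ (4 * k₀ + 4) * (#E * R ^ 2) := by positivity
  have h7 : (0 : ℝ) ≤ u * (#E * R ^ 2) := by positivity
  have h8 : u * (#E * R ^ 2) * (19 / 20) ^ k₀ ≤ u * (#E * R ^ 2) * t0 ^ k₀ :=
    mul_le_mul_of_nonneg_left h4 h7
  have ht0 : 0 < t0 ^ k₀ := dl_pos k₀
  have h9 : 0 ≤ u * (#E * R ^ 2) * t0 ^ k₀ := by positivity
  nlinarith

theorem sum_TF (hΨ : Profile Ψ) (S : Finset I4) (a : I4 → ℝ) (g : I4 → V3 → ℝ)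
    (hg : ∀ e, Continuous (g e)) :
    TF (fun x => ∑ e ∈ S, g e x * (a e * atom Ψ (y e) (r e) x)) :=
  TF.sum S _ (fun e _ => (atom_TF hΨ (a e) (y e) (r e)).mul_left (hg e))

theorem int_abs_sum {ι : Type*} (S : Finset ι) (f : ι → V3 → ℝ) (hf : ∀ i, TF (f i)) :
    ∫ x, |∑ i ∈ S, f i x| ≤ ∑ i ∈ S, ∫ x, |f i x| := by
  rw [← integral_finsetSum _ (fun i _ => (hf i).abs.int)]
  apply integral_mono (TF.sum S f (fun i _ => hf i)).abs.int
  · exact (TF.sum S _ (fun i _ => (hf i).abs)).int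
  · intro x
    exact Finset.abs_sum_le_sum_abs _ _

/-- loss of a chi cutoff -/
theorem chi_loss (hΨ : Profile Ψ) (hψ : CutFam ψ) (α : ℤ) (M : ℕ) (e : I4) (a : ℝ) (ha : |a| ≤ 1)
    (z : V3) (q : ℝ) :
    ∫ x, |(1 - chi ψ α M e x) * (a * atom Ψ z q x)|
      ≤ ∑ k ∈ Finset.range (M + 1), ∫ x, |(1 - ψ k (cell α k e) x) * atom Ψ z q x| := by
  have hT : ∀ k, TF (fun x => (1 - ψ k (cell α k e) x) * atom Ψ z q x) := by
    intro k
    have := (atom_TF hΨ 1 z q).mul_left (g := fun x => 1 - ψ k (cell α k e) x)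
      (continuous_const.sub (hψ.ct _ _))
    simpa using this
  have hT2 : TF (fun x => (1 - chi ψ α M e x) * (a * atom Ψ z q x)) :=
    (atom_TF hΨ a z q).mul_left (continuous_const.sub (chi_cont hψ α M e))
  rw [← integral_finsetSum _ (fun k _ => (hT k).abs.int)]
  apply integral_mono hT2.abs.int (TF.sum _ _ (fun k _ => (hT k).abs)).int
  intro x
  simp only
  rw [abs_mul, abs_mul]
  have h1 : |1 - chi ψ α M e x| ≤ ∑ k ∈ Finset.range (M + 1), |1 - ψ k (cell α k e) x| :=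
    one_sub_prod _ _ (fun j _ => ⟨hψ.nn _ _ _, hψ.le1 _ _ _⟩)
  calc |1 - chi ψ α M e x| * (|a| * |atom Ψ z q x|)
      ≤ (∑ k ∈ Finset.range (M + 1), |1 - ψ k (cell α k e) x|) * (1 * |atom Ψ z q x|) := by
        apply mul_le_mul h1 _ (by positivity) (Finset.sum_nonneg (fun _ _ => abs_nonneg _))
        exact mul_le_mul_of_nonneg_right ha (abs_nonneg _)
    _ = _ := by
        rw [one_mul, Finset.sum_mul]
        apply Finset.sum_congr rfl
        intro k _
        rw [abs_mul]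

end

/-- selection of a good shift -/
theorem select (E : Finset I4) (k₀ : ℕ) : ∃ (α : ℤ) (M : ℕ) (E' : Finset I4),
    4 * k₀ + 4 ≤ M ∧ E' ⊆ E ∧ (∀ e ∈ E', ∀ m, 4 * k₀ + 4 ≤ m → m ≤ M → inte α m e) ∧
    (∀ e ∈ E', ∀ e' ∈ E', cell α M e = cell α M e') ∧ (#(E \ E') : ℝ) ≤ t0 ^ k₀ * #E := by
  -- diameter
  obtain ⟨D, hD⟩ : ∃ D : ℝ, ∀ e ∈ E, ∀ e' ∈ E, dist e e' ≤ D := by
    refine ⟨∑ e ∈ E, ∑ e' ∈ E, dist e e', ?_⟩
    intro e he e' he'
    refine le_trans ?_ (Finset.single_le_sum (f := fun e => ∑ e' ∈ E, dist e e')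
      (fun i _ => Finset.sum_nonneg (fun _ _ => dist_nonneg)) he)
    exact Finset.single_le_sum (f := fun e' => dist e e') (fun _ _ => dist_nonneg) he'
  obtain ⟨N, hN⟩ := pow_unbounded_of_one_lt D (by norm_num : (1 : ℝ) < 2)
  set M := max N (4 * k₀ + 4) with hM
  obtain ⟨α, hα⟩ := exists_shift E (4 * k₀ + 4) M
  classical
  obtain ⟨P, hP⟩ : ∃ P : I4 → Prop, P = fun e => ∃ m ∈ Finset.Icc (4 * k₀ + 4) M, ¬ inte α m e :=
    ⟨_, rfl⟩
  have hα' : (#(E.filter P) : ℝ) ≤ 16 / 2 ^ (4 * k₀ + 4) * #E := by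
    subst hP
    convert hα
  refine ⟨α, M, E.filter (fun e => ¬ P e), le_max_right _ _, Finset.filter_subset _ _, ?_, ?_, ?_⟩
  · intro e he m h1 h2
    rw [Finset.mem_filter] at he
    by_contra hc
    apply he.2
    rw [hP]
    exact ⟨m, Finset.mem_Icc.2 ⟨h1, h2⟩, hc⟩
  · intro e he e' he'
    by_contra hne
    rw [Finset.mem_filter] at he he'
    have hi : inte α M e := by
      by_contra hc
      apply he.2
      rw [hP]
      exact ⟨M, Finset.mem_Icc.2 ⟨le_max_right _ _, le_rfl⟩, hc⟩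
    have h1 := cell_far α M e e' hi hne
    have h2 := hD e he.1 e' he'.1
    have h3 : (2 : ℝ) ^ N ≤ 2 ^ M := pow_le_pow_right₀ (by norm_num) (le_max_left _ _)
    linarith
  · have h1 : E \ E.filter (fun e => ¬ P e) = E.filter P := by
      ext e
      simp only [Finset.mem_sdiff, Finset.mem_filter]
      tauto
    rw [h1]
    refine hα'.trans ?_
    apply mul_le_mul_of_nonneg_right _ (by positivity)
    have h2 : (2 : ℝ) ^ (4 * k₀ + 4) = 16 ^ k₀ * 16 := by
      rw [pow_add, pow_mul]; norm_num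
    rw [h2]
    have h3 : (16 : ℝ) / (16 ^ k₀ * 16) = (1 / 16) ^ k₀ := by
      rw [one_div, inv_pow]; field_simp
    rw [h3]
    exact pow_le_pow_left₀ (by norm_num) (by unfold t0; norm_num) k₀

/-- The basic decomposition for one dyadic class of radii. -/
theorem propA {Ψ : ℝ → ℝ} (hΨ : Profile Ψ) {y : I4 → V3} {r : I4 → ℝ} (hc : Cfg y r) (R u : ℝ)
    (hR : 1 ≤ R) (hu : 1 ≤ u) (E : Finset I4)
    (hE : ∀ e ∈ E, R ≤ r e ∧ r e ≤ 2 * R) (hD : Dens R E u) (k₀ : ℕ) (hk₀ : 40 ≤ k₀)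
    (a : I4 → ℝ) (ha : ∀ e, |a e| ≤ 1) :
    ∃ G H : V3 → ℝ, TF G ∧ TF H ∧ (∀ x, ∑ e ∈ E, a e * atom Ψ (y e) (r e) x = G x + H x) ∧
      ∫ x, |H x| ≤ 2 ^ 21 * KB * t0 ^ k₀ * (#E * R ^ 2) ∧
      ∫ x, G x ^ 2 ≤ 2 ^ 40 * (256 ^ (4 * k₀ + 4) + u * t0 ^ k₀) * (#E * R ^ 2) ∧
      (∀ x, G x ≠ 0 → ∃ e ∈ E, x ∈ shell (y e) (r e)) := by
  classical
  obtain ⟨α, M, E', hM, hsub, hint, hsame, hcard⟩ := select E k₀
  have hR0 : 0 < R := by linarith
  have hE' : ∀ e ∈ E', R ≤ r e ∧ r e ≤ 2 * R := fun e he => hE e (hsub he)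
  have hD' := hD.mono hsub
  set ψ : ℕ → I4 → V3 → ℝ := sps y r R u E' α k₀ with hψd
  have hψ : CutFam ψ := ⟨fun m c x => sps_nonneg m c x, fun m c x => sps_le_one m c x,
    fun m c => sps_cont hR0 m c⟩
  have hL : ∀ k c x z, |ψ k c x - ψ k c z| ≤ 2 * (bt k * R)⁻¹ * ‖x - z‖ := by
    intro k c x z
    refine (sps_lip hR0 k c x z).trans ?_
    have hb := bt_pos k
    have : 0 ≤ (bt k * R)⁻¹ * ‖x - z‖ := by positivity
    linarith
  set G : V3 → ℝ := fun x => ∑ e ∈ E', chi ψ α M e x * (a e * atom Ψ (y e) (r e) x) with hG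
  set H1 : V3 → ℝ := fun x => ∑ e ∈ E', (1 - chi ψ α M e x) * (a e * atom Ψ (y e) (r e) x)
    with hH1
  set H2 : V3 → ℝ := fun x => ∑ e ∈ E \ E', 1 * (a e * atom Ψ (y e) (r e) x) with hH2
  have hTG : TF G := sum_TF hΨ E' a (fun e => chi ψ α M e) (fun e => chi_cont hψ α M e)
  have hTH1 : TF H1 := sum_TF hΨ E' a (fun e x => 1 - chi ψ α M e x)
    (fun e => continuous_const.sub (chi_cont hψ α M e))
  have hTH2 : TF H2 := sum_TF hΨ (E \ E') a (fun e x => 1) (fun e => continuous_const)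
  refine ⟨G, fun x => H1 x + H2 x, hTG, hTH1.add hTH2, ?_, ?_, ?_, ?_⟩
  · intro x
    simp only [hG, hH1, hH2]
    rw [← add_assoc, ← Finset.sum_add_distrib, ← Finset.sum_sdiff hsub, add_comm]
    congr 1
    · apply Finset.sum_congr rfl
      intro e _; ring
    · apply Finset.sum_congr rfl
      intro e _; ring
  · -- loss
    have h1 : ∫ x, |H1 x + H2 x| ≤ (∫ x, |H1 x|) + ∫ x, |H2 x| := by
      rw [← integral_add hTH1.abs.int hTH2.abs.int]
      apply integral_mono (hTH1.add hTH2).abs.int (hTH1.abs.add hTH2.abs).int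
      intro x
      exact abs_add_le _ _
    have h2 : ∫ x, |H1 x| ≤ 2 ^ 20 * KB * t0 ^ k₀ * (#E' * R ^ 2) := by
      simp only [hH1]
      refine (int_abs_sum E' (fun e x => (1 - chi ψ α M e x) * (a e * atom Ψ (y e) (r e) x))
        (fun e => (atom_TF hΨ (a e) (y e) (r e)).mul_left
        (continuous_const.sub (chi_cont hψ α M e)))).trans ?_
      refine (Finset.sum_le_sum (fun e _ => chi_loss hΨ hψ α M e (a e) (ha e) (y e) (r e))).trans ?_
      rw [Finset.sum_comm]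
      exact loss_total hΨ hc hR hu hE' hD' hk₀ (M + 1)
    have h3 : ∫ x, |H2 x| ≤ t0 ^ k₀ * #E * (192 * R ^ 2) := by
      simp only [hH2]
      refine (int_abs_sum (E \ E') (fun e x => 1 * (a e * atom Ψ (y e) (r e) x))
        (fun e => (atom_TF hΨ (a e) (y e) (r e)).mul_left continuous_const)).trans ?_
      have h4 : ∀ e ∈ E \ E', ∫ x, |1 * (a e * atom Ψ (y e) (r e) x)| ≤ 192 * R ^ 2 := by
        intro e he
        rw [Finset.mem_sdiff] at he
        obtain ⟨he1, he2⟩ := hE e he.1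
        have h5 := atom_l1 hΨ (y e) (r e) (by linarith) (fun _ => a e) (fun _ => ha e)
        simp only [one_mul]
        refine h5.trans ?_
        have h6 : r e ^ 2 ≤ (2 * R) ^ 2 := pow_le_pow_left₀ (by linarith) he2 2
        have hpi := Real.pi_lt_four
        have : 12 * Real.pi * r e ^ 2 ≤ 12 * 4 * (2 * R) ^ 2 :=
          mul_le_mul (by linarith) h6 (by positivity) (by norm_num)
        linarith
      refine (Finset.sum_le_sum h4).trans ?_
      rw [Finset.sum_const, nsmul_eq_mul]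
      exact mul_le_mul_of_nonneg_right hcard (by positivity)
    have h5 : (#E' : ℝ) ≤ #E := by exact_mod_cast Finset.card_le_card hsub
    have hKB := KB_ge
    have ht0 : 0 < t0 ^ k₀ := dl_pos k₀
    have h6 : 2 ^ 20 * KB * t0 ^ k₀ * (#E' * R ^ 2) ≤ 2 ^ 20 * KB * t0 ^ k₀ * (#E * R ^ 2) := by
      apply mul_le_mul_of_nonneg_left _ (by positivity)
      exact mul_le_mul_of_nonneg_right h5 (by positivity)
    have h7 : 1 * (t0 ^ k₀ * (#E * R ^ 2)) ≤ KB * (t0 ^ k₀ * (#E * R ^ 2)) :=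
      mul_le_mul_of_nonneg_right hKB (by positivity)
    have h8 : 0 ≤ KB * (t0 ^ k₀ * (#E * R ^ 2)) := by positivity
    linarith
  · have h1 := energy_same hΨ hc hR hu hE' hD' hk₀ M hM hint hsame hψ hL
      (fun k c x h => h) a ha
    refine h1.trans ?_
    have h5 : (#E' : ℝ) ≤ #E := by exact_mod_cast Finset.card_le_card hsub
    have ht0 : 0 < t0 ^ k₀ := dl_pos k₀
    apply mul_le_mul_of_nonneg_left _ (by positivity)
    exact mul_le_mul_of_nonneg_right h5 (by positivity)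
  · intro x hx
    simp only [hG] at hx
    obtain ⟨e, he, hne⟩ := Finset.exists_ne_zero_of_sum_ne_zero hx
    refine ⟨e, hsub he, ?_⟩
    by_contra h'
    apply hne
    rw [atom_zero hΨ (y e) (r e) x h']; ring

end Run7.h58
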