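import Pool.Agent.Run7.h58.Haus

open MeasureTheory Set Filter Topology
open scoped ENNReal RealInnerProductSpace MeasureTheory NNReal

namespace Run7.h58

/-- cosine transform of the surface measure -/
noncomputable def sS (r : ℝ) (ξ : V3) : ℝ := ∫ y, Real.cos (2 * Real.pi * ⟪y, ξ⟫) ∂(sg r)

theorem sS_cont (r : ℝ) (hr : 0 < r) : Continuous (sS r) := by
  have := sg_finite r hr
  unfold sS
  apply continuous_of_dominated (bound := fun _ => (1 : ℝ))
  · intro ξ
    apply Continuous.aestronglyMeasurable; fun_prop
  · intro ξ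
    filter_upwards with y
    exact Real.abs_cos_le_one _
  · exact integrable_const _
  · filter_upwards with y
    fun_prop

theorem sS_iso (r : ℝ) (U : V3 ≃ₗᵢ[ℝ] V3) (ξ : V3) : sS r (U ξ) = sS r ξ := by
  unfold sS
  rw [← (sg_inv r U).integral_comp U.toHomeomorph.measurableEmbedding]
  congr 1
  ext y
  rw [U.inner_map_map]

theorem sS_radial (r : ℝ) (ξ ξ' : V3) (h : ‖ξ‖ = ‖ξ'‖) : sS r ξ = sS r ξ' := by
  have h1 := Submodule.reflection_sub h
  rw [← h1]
  exact (sS_iso r _ ξ).symm

theorem sg_ft (r : ℝ) (hr : 0 < r) (ξ : V3) (hξ : ξ ≠ 0) :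
    sS r ξ = r * m1 * Real.sin (2 * Real.pi * r * ‖ξ‖) / (2 * Real.pi * ‖ξ‖) := by
  have hfin := sg_finite r hr
  have hpi := Real.pi_pos
  obtain ⟨b⟩ : Nonempty (OrthonormalBasis (Fin 3) ℝ V3) := ⟨EuclideanSpace.basisFun (Fin 3) ℝ⟩
  set v0 := b 2 with hv0
  have hv1 : ‖v0‖ = 1 := b.norm_eq_one 2
  set s : ℝ → ℝ := fun R => sS r (R • v0) with hs
  have hsc : Continuous s := (sS_cont r hr).comp (by fun_prop)
  have hrad : ∀ η : V3, sS r η = s ‖η‖ := by
    intro η
    simp only [hs]
    apply sS_radial
    rw [norm_smul, norm_norm, hv1, mul_one]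
  have hsb : ∀ η, |sS r η| ≤ (sg r).real univ := by
    intro η
    unfold sS
    have := norm_integral_le_of_norm_le_const (μ := sg r) (C := 1)
      (f := fun y => Real.cos (2 * Real.pi * ⟪y, η⟫))
      (Eventually.of_forall (fun y => Real.abs_cos_le_one _))
    rw [one_mul, Real.norm_eq_abs] at this
    exact this
  -- identity for indicator weights
  have key : ∀ a c : ℝ, 0 < a → a ≤ c → ∫ R in a..c, (4 * Real.pi * R ^ 2 * s R -
      r ^ 2 * m1 * (2 * R / r * Real.sin (2 * Real.pi * r * R))) = 0 := by
    intro a c ha hac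
    set ρ : ℝ → ℝ := (Ioc a c).indicator (fun _ => (1 : ℝ)) with hρ
    have hρm : Measurable ρ := measurable_const.indicator measurableSet_Ioc
    have hρ1 : ∀ R, |ρ R| ≤ 1 := by
      intro R; simp only [hρ, indicator_apply]; split_ifs <;> simp
    have hρi : Integrable (fun η : V3 => ρ ‖η‖) := by
      apply Integrable.mono' (g := (Metric.closedBall (0 : V3) c).indicator (fun _ => (1 : ℝ)))
      · rw [integrable_indicator_iff Metric.isClosed_closedBall.measurableSet]
        exact integrableOn_const (measure_closedBall_lt_top).ne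
      · exact (hρm.comp measurable_norm).aestronglyMeasurable
      · filter_upwards with η
        simp only [hρ, Real.norm_eq_abs]
        by_cases h : ‖η‖ ∈ Ioc a c
        · have h3 : η ∈ Metric.closedBall (0 : V3) c := by
            rw [mem_closedBall_zero_iff]; exact h.2
          rw [indicator_of_mem h, indicator_of_mem h3]; simp
        · rw [indicator_of_notMem h, abs_zero]
          exact indicator_nonneg (fun _ _ => zero_le_one) _
    have hF1 : Integrable (fun η : V3 => ρ ‖η‖ * sS r η) := by
      have hm := (sS_cont r hr).aestronglyMeasurable (μ := (volume : Measure V3))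
      exact hρi.mul_bdd (c := (sg r).real univ) hm (Eventually.of_forall hsb)
    -- left side by spherical coordinates
    have hL : ∫ η : V3, ρ ‖η‖ * sS r η = ∫ R in Ioi (0 : ℝ), ρ R * (4 * Real.pi * R ^ 2 * s R) := by
      rw [int_sph b 0 _ hF1]
      apply setIntegral_congr_fun measurableSet_Ioi
      intro R hR
      simp only [mem_Ioi] at hR
      simp only
      have h1 : ∀ φ t, t ∈ Ioo (-R) R → R * (ρ ‖sph b 0 R φ t‖ * sS r (sph b 0 R φ t)) =
          R * (ρ R * s R) := by
        intro φ t ht
        have e2 : ‖sph b 0 R φ t - 0‖ = R := by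
          apply sph_norm b 0 R φ t hR.le
          apply sq_le_sq' <;> linarith [ht.1, ht.2]
        rw [sub_zero] at e2
        rw [hrad, e2]
      have h2 : ∀ φ, ∫ t in Ioo (-R) R, R * (ρ ‖sph b 0 R φ t‖ * sS r (sph b 0 R φ t)) =
          (2 * R) * (R * (ρ R * s R)) := by
        intro φ
        rw [setIntegral_congr_fun measurableSet_Ioo (h1 φ), setIntegral_const,
          Real.volume_real_Ioo_of_le (by linarith), smul_eq_mul]
        ring
      simp only [h2]
      rw [setIntegral_const, Real.volume_real_Ioo_of_le (by linarith), smul_eq_mul]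
      ring
    -- right side by Fubini
    have hprod : Integrable (Function.uncurry fun (η : V3) (y : V3) =>
        ρ ‖η‖ * Real.cos (2 * Real.pi * ⟪y, η⟫)) ((volume : Measure V3).prod (sg r)) := by
      apply Integrable.mono' (g := fun w : V3 × V3 => ρ ‖w.1‖ * 1)
      · exact hρi.mul_prod (integrable_const (1 : ℝ))
      · apply Measurable.aestronglyMeasurable
        apply Measurable.mul
        · exact (hρm.comp measurable_norm).comp measurable_fst
        · have : Continuous fun w : V3 × V3 => Real.cos (2 * Real.pi * ⟪w.2, w.1⟫) := by fun_prop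
          exact this.measurable
      · filter_upwards with w
        simp only [Function.uncurry, Real.norm_eq_abs, abs_mul, mul_one]
        have h0 : 0 ≤ ρ ‖w.1‖ := by
          simp only [hρ, indicator_apply]; split_ifs <;> norm_num
        rw [abs_of_nonneg h0]
        exact mul_le_of_le_one_right h0 (Real.abs_cos_le_one _)
    have hR1 : ∫ η : V3, ρ ‖η‖ * sS r η =
        ∫ y, ∫ η : V3, ρ ‖η‖ * Real.cos (2 * Real.pi * ⟪y, η⟫) ∂volume ∂(sg r) := by
      rw [← integral_integral_swap hprod]
      congr 1
      ext η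
      unfold sS
      rw [integral_const_mul]
    have hR2 : ∀ᵐ y ∂(sg r), ∫ η : V3, ρ ‖η‖ * Real.cos (2 * Real.pi * ⟪y, η⟫) =
        ∫ R in Ioi (0 : ℝ), ρ R * (2 * R / r * Real.sin (2 * Real.pi * r * R)) := by
      filter_upwards [sg_supp r] with y hy
      have hy0 : y ≠ 0 := by
        intro h; rw [h, norm_zero] at hy; linarith
      have h1 := rad_cos y hy0 ρ (by
        apply hρi.mul_bdd (c := 1)
        · apply Continuous.aestronglyMeasurable; fun_prop
        · exact Eventually.of_forall (fun _ => Real.abs_cos_le_one _))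
      rw [hy] at h1
      rw [← h1]
      congr 1
      ext η
      rw [real_inner_comm]
    rw [integral_congr_ae hR2, integral_const, smul_eq_mul, sg_mass r hr] at hR1
    rw [hL] at hR1
    -- restrict to Ioc
    have hres : ∀ f : ℝ → ℝ, ∫ R in Ioi (0 : ℝ), ρ R * f R = ∫ R in a..c, f R := by
      intro f
      rw [intervalIntegral.integral_of_le hac]
      have h1 : ∫ R in Ioi (0 : ℝ), ρ R * f R = ∫ R in Ioc a c, ρ R * f R := by
        apply setIntegral_eq_of_subset_of_forall_sdiff_eq_zero measurableSet_Ioi
        · intro R hR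
          simp only [mem_Ioi]; linarith [hR.1]
        · intro R hR
          simp only [hρ]
          rw [indicator_of_notMem hR.2, zero_mul]
      rw [h1]
      apply setIntegral_congr_fun measurableSet_Ioc
      intro R hR
      simp only [hρ]
      rw [indicator_of_mem hR, one_mul]
    rw [hres, hres] at hR1
    rw [intervalIntegral.integral_sub, intervalIntegral.integral_const_mul, hR1]
    · ring
    · apply Continuous.intervalIntegrable; fun_prop
    · apply Continuous.intervalIntegrable; fun_prop
  set h : ℝ → ℝ := fun R => 4 * Real.pi * R ^ 2 * s R -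
      r ^ 2 * m1 * (2 * R / r * Real.sin (2 * Real.pi * r * R)) with hh
  have hhc : Continuous h := by simp only [hh]; fun_prop
  have hl : 0 < ‖ξ‖ := norm_pos_iff.2 hξ
  set l := ‖ξ‖ with hld
  have hz : h l = 0 := by
    have h1 : HasDerivAt (fun x => ∫ R in (l / 2)..x, h R) (h l) l :=
      intervalIntegral.integral_hasDerivAt_right (hhc.intervalIntegrable _ _)
        (hhc.stronglyMeasurableAtFilter _ _) hhc.continuousAt
    have h2 : (fun x => ∫ R in (l / 2)..x, h R) =ᶠ[𝓝 l] fun _ => (0 : ℝ) := by
      filter_upwards [Ioi_mem_nhds (show l / 2 < l by linarith)] with x hx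
      simp only [mem_Ioi] at hx
      exact key (l / 2) x (by positivity) hx.le
    have h3 : HasDerivAt (fun x => ∫ R in (l / 2)..x, h R) 0 l :=
      (hasDerivAt_const l (0 : ℝ)).congr_of_eventuallyEq h2
    exact h1.unique h3
  rw [hrad ξ, ← hld]
  simp only [hh] at hz
  rw [eq_div_iff (by positivity)]
  have h5 : 4 * Real.pi * l ^ 2 * s l = r ^ 2 * m1 * (2 * l / r * Real.sin (2 * Real.pi * r * l)) := by
    linarith
  have h6 : r ^ 2 * m1 * (2 * l / r * Real.sin (2 * Real.pi * r * l)) =
      2 * l * (r * m1 * Real.sin (2 * Real.pi * r * l)) := by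
    field_simp
  rw [h6] at h5
  have h7 : 2 * l * (s l * (2 * Real.pi * l)) = 2 * l * (r * m1 * Real.sin (2 * Real.pi * r * l)) := by
    rw [← h5]; ring
  exact mul_left_cancel₀ (by positivity) h7

end Run7.h58
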