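import Pool.Agent.Run7.h58.Coord

open MeasureTheory Set
open scoped ENNReal RealInnerProductSpace

namespace Run7.h58

theorem sph_inner (b : OrthonormalBasis (Fin 3) ℝ V3) (y : V3) (R φ t : ℝ) :
    ⟪b 2, sph b y R φ t - y⟫ = t := by
  have h0 : ⟪b 2, b 0⟫ = 0 := b.inner_eq_zero (by decide)
  have h1 : ⟪b 2, b 1⟫ = 0 := b.inner_eq_zero (by decide)
  have h2 : ⟪b 2, b 2⟫ = 1 := by rw [real_inner_self_eq_norm_sq, b.norm_eq_one]; norm_num
  unfold sph
  have : y + (√(R ^ 2 - t ^ 2) * Real.cos φ) • b 0 + (√(R ^ 2 - t ^ 2) * Real.sin φ) • b 1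
      + t • b 2 - y = (√(R ^ 2 - t ^ 2) * Real.cos φ) • b 0
      + (√(R ^ 2 - t ^ 2) * Real.sin φ) • b 1 + t • b 2 := by abel
  rw [this, inner_add_right, inner_add_right, real_inner_smul_right, real_inner_smul_right,
    real_inner_smul_right, h0, h1, h2]
  ring

theorem norm_comb (b : OrthonormalBasis (Fin 3) ℝ V3) (u v t : ℝ) :
    ‖u • b 0 + v • b 1 + t • b 2‖ ^ 2 = u ^ 2 + v ^ 2 + t ^ 2 := by
  have h := b.sum_sq_norm_inner_right (u • b 0 + v • b 1 + t • b 2)
  rw [← h, Fin.sum_univ_three]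
  have o : ∀ i j, ⟪b i, b j⟫ = if i = j then (1 : ℝ) else 0 := fun i j =>
    (orthonormal_iff_ite.1 b.orthonormal) i j
  simp only [inner_add_right, real_inner_smul_right, o]
  simp

theorem sph_norm (b : OrthonormalBasis (Fin 3) ℝ V3) (y : V3) (R φ t : ℝ) (hR : 0 ≤ R)
    (ht : t ^ 2 ≤ R ^ 2) : ‖sph b y R φ t - y‖ = R := by
  have h1 : ‖sph b y R φ t - y‖ ^ 2 = R ^ 2 := by
    unfold sph
    have : y + (√(R ^ 2 - t ^ 2) * Real.cos φ) • b 0 + (√(R ^ 2 - t ^ 2) * Real.sin φ) • b 1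
      + t • b 2 - y = (√(R ^ 2 - t ^ 2) * Real.cos φ) • b 0
      + (√(R ^ 2 - t ^ 2) * Real.sin φ) • b 1 + t • b 2 := by abel
    rw [this, norm_comb, mul_pow, mul_pow, Real.sq_sqrt (by linarith)]
    have := Real.cos_sq_add_sin_sq φ
    linear_combination (R ^ 2 - t ^ 2) * this
  exact (sq_eq_sq₀ (norm_nonneg _) hR).1 h1

theorem vol_shell_slab (b : OrthonormalBasis (Fin 3) ℝ V3) (y : V3) (r1 r2 a c : ℝ)
    (h0 : 0 ≤ r1) (h12 : r1 ≤ r2) (hac : a ≤ c) :
    volume {x : V3 | r1 ≤ ‖x - y‖ ∧ ‖x - y‖ ≤ r2 ∧ a ≤ ⟪b 2, x - y⟫ ∧ ⟪b 2, x - y⟫ ≤ c}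
      ≤ ENNReal.ofReal (Real.pi * (r2 ^ 2 - r1 ^ 2) * (c - a)) := by
  set S := {x : V3 | r1 ≤ ‖x - y‖ ∧ ‖x - y‖ ≤ r2 ∧ a ≤ ⟪b 2, x - y⟫ ∧ ⟪b 2, x - y⟫ ≤ c} with hS
  have hSm : MeasurableSet S := by
    apply IsClosed.measurableSet
    have c1 : Continuous fun x : V3 => ‖x - y‖ := by fun_prop
    have c2 : Continuous fun x : V3 => ⟪b 2, x - y⟫ := by fun_prop
    have k1 : IsClosed {x : V3 | r1 ≤ ‖x - y‖} := isClosed_le continuous_const c1
    have k2 : IsClosed {x : V3 | ‖x - y‖ ≤ r2} := isClosed_le c1 continuous_const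
    have k3 : IsClosed {x : V3 | a ≤ ⟪b 2, x - y⟫} := isClosed_le continuous_const c2
    have k4 : IsClosed {x : V3 | ⟪b 2, x - y⟫ ≤ c} := isClosed_le c2 continuous_const
    exact k1.inter (k2.inter (k3.inter k4))
  rw [← lintegral_indicator_one hSm,
    lint_sph b y _ (measurable_one.indicator hSm)]
  have hpi := Real.pi_pos
  calc ∫⁻ R in Ioi (0 : ℝ), ∫⁻ φ in Ioo (-Real.pi) Real.pi, ∫⁻ t in Ioo (-R) R,
      ENNReal.ofReal R * S.indicator 1 (sph b y R φ t)
      ≤ ∫⁻ R in Ioi (0 : ℝ), (Icc r1 r2).indicator (fun R => ENNReal.ofReal (2 * Real.pi * (c - a) * R)) R := by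
        apply setLIntegral_mono' measurableSet_Ioi
        intro R hR
        simp only [mem_Ioi] at hR
        by_cases hRI : R ∈ Icc r1 r2
        · rw [indicator_of_mem hRI]
          calc ∫⁻ φ in Ioo (-Real.pi) Real.pi, ∫⁻ t in Ioo (-R) R,
                ENNReal.ofReal R * S.indicator 1 (sph b y R φ t)
              ≤ ∫⁻ φ in Ioo (-Real.pi) Real.pi, ∫⁻ t, (Icc a c).indicator (fun _ => ENNReal.ofReal R) t := by
                apply lintegral_mono
                intro φ
                apply (setLIntegral_mono' measurableSet_Ioo _).trans (setLIntegral_le_lintegral _ _)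
                intro t ht
                by_cases hx : sph b y R φ t ∈ S
                · have h3 := hx.2.2
                  rw [sph_inner] at h3
                  rw [indicator_of_mem hx, indicator_of_mem (show t ∈ Icc a c from h3)]
                  simp
                · rw [indicator_of_notMem hx]
                  simp
            _ = ENNReal.ofReal (2 * Real.pi * (c - a) * R) := by
                rw [lintegral_indicator measurableSet_Icc]
                simp only [lintegral_const, Measure.restrict_apply, MeasurableSet.univ, univ_inter,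
                  Real.volume_Icc, Real.volume_Ioo]
                rw [← ENNReal.ofReal_mul hR.le, ← ENNReal.ofReal_mul (by
                  apply mul_nonneg hR.le; linarith)]
                congr 1; ring
        · rw [indicator_of_notMem hRI]
          apply le_of_eq
          apply lintegral_eq_zero_of_ae_eq_zero
          filter_upwards with φ
          simp only [Pi.zero_apply]
          have : ∀ t ∈ Ioo (-R) R, ENNReal.ofReal R * S.indicator 1 (sph b y R φ t) = 0 := by
            intro t ht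
            have hn : ‖sph b y R φ t - y‖ = R := by
              apply sph_norm b y R φ t hR.le
              apply sq_le_sq'
              · linarith [ht.1]
              · linarith [ht.2]
            have : sph b y R φ t ∉ S := by
              intro hx
              apply hRI
              constructor
              · rw [← hn]; exact hx.1
              · rw [← hn]; exact hx.2.1
            rw [indicator_of_notMem this, mul_zero]
          rw [setLIntegral_congr_fun measurableSet_Ioo this]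
          simp
    _ ≤ ∫⁻ R, (Icc r1 r2).indicator (fun R => ENNReal.ofReal (2 * Real.pi * (c - a) * R)) R :=
        setLIntegral_le_lintegral _ _
    _ = ENNReal.ofReal (Real.pi * (r2 ^ 2 - r1 ^ 2) * (c - a)) := by
        rw [lintegral_indicator measurableSet_Icc]
        rw [← ofReal_integral_eq_lintegral_ofReal]
        · congr 1
          rw [integral_const_mul, integral_Icc_eq_integral_Ioc,
            ← intervalIntegral.integral_of_le h12, integral_id]
          ring
        · apply Continuous.integrableOn_Icc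
          fun_prop
        · rw [Filter.EventuallyLE, ae_restrict_iff' measurableSet_Icc]
          filter_upwards with R hR
          simp only [Pi.zero_apply]
          have : 0 ≤ R := h0.trans hR.1
          have : 0 ≤ c - a := by linarith
          positivity


theorem exists_basis (n : V3) (hn : ‖n‖ = 1) :
    ∃ b : OrthonormalBasis (Fin 3) ℝ V3, b 2 = n := by
  have h1 : Orthonormal ℝ (({2} : Set (Fin 3)).domRestrict (fun _ : Fin 3 => n)) := by
    constructor
    · intro i; exact hn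
    · rintro ⟨i, hi⟩ ⟨j, hj⟩ hij
      simp only [mem_singleton_iff] at hi hj
      subst hi; subst hj
      exact absurd rfl hij
  obtain ⟨b, hb⟩ := h1.exists_orthonormalBasis_extension_of_card_eq (by simp)
  exact ⟨b, hb 2 (by simp)⟩

/-- the unit shell around a sphere -/
def shell (y : V3) (r : ℝ) : Set V3 := {x | |‖x - y‖ - r| ≤ 1 / 2}

theorem shell_closed (y : V3) (r : ℝ) : IsClosed (shell y r) :=
  isClosed_le (by fun_prop) (by fun_prop)

theorem vol_slab (y n : V3) (hn : ‖n‖ = 1) (r a c : ℝ) (hr : 1 / 2 ≤ r) (hac : a ≤ c) :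
    volume (shell y r ∩ {x : V3 | a ≤ ⟪n, x - y⟫ ∧ ⟪n, x - y⟫ ≤ c})
      ≤ ENNReal.ofReal (2 * Real.pi * r * (c - a)) := by
  obtain ⟨b, hb⟩ := exists_basis n hn
  have h := vol_shell_slab b y (r - 1 / 2) (r + 1 / 2) a c (by linarith) (by linarith) hac
  rw [hb] at h
  have e : Real.pi * ((r + 1 / 2) ^ 2 - (r - 1 / 2) ^ 2) * (c - a) = 2 * Real.pi * r * (c - a) := by
    ring
  rw [e] at h
  refine le_trans (measure_mono ?_) h
  rintro x ⟨hx, h1, h2⟩
  have := abs_le.1 (show |‖x - y‖ - r| ≤ 1 / 2 from hx)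
  exact ⟨by linarith [this.1], by linarith [this.2], h1, h2⟩

theorem vol_shell (y : V3) (r : ℝ) (hr : 1 ≤ r) :
    volume (shell y r) ≤ ENNReal.ofReal (6 * Real.pi * r ^ 2) := by
  obtain ⟨b⟩ : Nonempty (OrthonormalBasis (Fin 3) ℝ V3) := ⟨EuclideanSpace.basisFun (Fin 3) ℝ⟩
  have h := vol_slab y (b 2) (b.norm_eq_one 2) r (-(r + 1 / 2)) (r + 1 / 2) (by linarith)
    (by linarith)
  have hsub : shell y r ⊆ shell y r ∩ {x : V3 | -(r + 1 / 2) ≤ ⟪b 2, x - y⟫ ∧
      ⟪b 2, x - y⟫ ≤ r + 1 / 2} := by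
    intro x hx
    have h1 := abs_le.1 (show |‖x - y‖ - r| ≤ 1 / 2 from hx)
    have h2 := abs_real_inner_le_norm (b 2) (x - y)
    rw [b.norm_eq_one, one_mul] at h2
    have h3 := abs_le.1 h2
    exact ⟨hx, by linarith [h1.2, h3.1], by linarith [h1.2, h3.2]⟩
  refine (measure_mono hsub).trans (h.trans ?_)
  apply ENNReal.ofReal_le_ofReal
  have hpi := Real.pi_pos
  have : r + 1 / 2 - -(r + 1 / 2) ≤ 3 * r := by linarith
  calc 2 * Real.pi * r * (r + 1 / 2 - -(r + 1 / 2)) ≤ 2 * Real.pi * r * (3 * r) := by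
        apply mul_le_mul_of_nonneg_left this; positivity
    _ = _ := by ring

theorem norm_sub_sq_inner (x y y' : V3) :
    ‖x - y'‖ ^ 2 = ‖x - y‖ ^ 2 + ‖y' - y‖ ^ 2 - 2 * ⟪y' - y, x - y⟫ := by
  have : x - y' = (x - y) - (y' - y) := by abel
  rw [this, norm_sub_sq_real, real_inner_comm]
  ring

theorem vol_inter_aux (y y' : V3) (r r' : ℝ) (hr : 1 / 2 ≤ r) (hr' : 1 / 2 ≤ r')
    (hρ : y ≠ y') :
    volume (shell y r ∩ shell y' r') ≤
      ENNReal.ofReal (2 * Real.pi * r * ((r + r') / ‖y' - y‖)) := by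
  set ρ := ‖y' - y‖ with hρd
  have hρ0 : 0 < ρ := norm_pos_iff.2 (sub_ne_zero.2 hρ.symm)
  set n : V3 := ρ⁻¹ • (y' - y) with hn
  have hn1 : ‖n‖ = 1 := by
    rw [hn, norm_smul, norm_inv, Real.norm_of_nonneg hρ0.le, ← hρd, inv_mul_cancel₀ hρ0.ne']
  set a := ((r - 1 / 2) ^ 2 + ρ ^ 2 - (r' + 1 / 2) ^ 2) / (2 * ρ) with ha
  set c := ((r + 1 / 2) ^ 2 + ρ ^ 2 - (r' - 1 / 2) ^ 2) / (2 * ρ) with hc
  have hca : c - a = (r + r') / ρ := by
    rw [ha, hc, ← sub_div, div_eq_div_iff (by positivity) (by positivity)]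
    ring
  have hac : a ≤ c := by
    have : 0 ≤ (r + r') / ρ := by positivity
    linarith
  have h := vol_slab y n hn1 r a c hr hac
  rw [hca] at h
  refine le_trans (measure_mono ?_) h
  rintro x ⟨hx, hx'⟩
  refine ⟨hx, ?_⟩
  have h1 := abs_le.1 (show |‖x - y‖ - r| ≤ 1 / 2 from hx)
  have h2 := abs_le.1 (show |‖x - y'‖ - r'| ≤ 1 / 2 from hx')
  have h3 := norm_sub_sq_inner x y y'
  have h4 : ⟪n, x - y⟫ = (‖x - y‖ ^ 2 + ρ ^ 2 - ‖x - y'‖ ^ 2) / (2 * ρ) := by
    rw [hn, real_inner_smul_left, h3]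
    field_simp
    ring
  have h5 : (r - 1 / 2) ^ 2 ≤ ‖x - y‖ ^ 2 := by
    apply pow_le_pow_left₀ (by linarith); linarith [h1.1]
  have h6 : ‖x - y‖ ^ 2 ≤ (r + 1 / 2) ^ 2 := by
    apply pow_le_pow_left₀ (norm_nonneg _); linarith [h1.2]
  have h7 : (r' - 1 / 2) ^ 2 ≤ ‖x - y'‖ ^ 2 := by
    apply pow_le_pow_left₀ (by linarith); linarith [h2.1]
  have h8 : ‖x - y'‖ ^ 2 ≤ (r' + 1 / 2) ^ 2 := by
    apply pow_le_pow_left₀ (norm_nonneg _); linarith [h2.2]
  show a ≤ ⟪n, x - y⟫ ∧ ⟪n, x - y⟫ ≤ c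
  rw [h4, ha, hc]
  constructor
  · apply div_le_div_of_nonneg_right _ (by positivity)
    linarith
  · apply div_le_div_of_nonneg_right _ (by positivity)
    linarith

theorem vol_inter (y y' : V3) (r r' : ℝ) (hr : 1 / 2 ≤ r) (hr' : 1 / 2 ≤ r')
    (hρ : y ≠ y') :
    volume (shell y r ∩ shell y' r') ≤
      ENNReal.ofReal (4 * Real.pi * (r * r' / ‖y' - y‖)) := by
  have hρ0 : 0 < ‖y' - y‖ := norm_pos_iff.2 (sub_ne_zero.2 hρ.symm)
  have hpi := Real.pi_pos
  rcases le_total r r' with h | h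
  · refine (vol_inter_aux y y' r r' hr hr' hρ).trans (ENNReal.ofReal_le_ofReal ?_)
    have : (r + r') / ‖y' - y‖ ≤ 2 * r' / ‖y' - y‖ := by
      apply div_le_div_of_nonneg_right _ hρ0.le; linarith
    calc 2 * Real.pi * r * ((r + r') / ‖y' - y‖) ≤ 2 * Real.pi * r * (2 * r' / ‖y' - y‖) := by
          apply mul_le_mul_of_nonneg_left this
          have : 0 ≤ r := by linarith
          positivity
      _ = _ := by ring
  · rw [inter_comm]
    refine (vol_inter_aux y' y r' r hr' hr hρ.symm).trans (ENNReal.ofReal_le_ofReal ?_)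
    rw [norm_sub_rev y y']
    have : (r' + r) / ‖y' - y‖ ≤ 2 * r / ‖y' - y‖ := by
      apply div_le_div_of_nonneg_right _ hρ0.le; linarith
    calc 2 * Real.pi * r' * ((r' + r) / ‖y' - y‖) ≤ 2 * Real.pi * r' * (2 * r / ‖y' - y‖) := by
          apply mul_le_mul_of_nonneg_left this
          have : 0 ≤ r' := by linarith
          positivity
      _ = _ := by ring

theorem vol_annulus (y : V3) (r w : ℝ) (hr : 0 ≤ r) (hw : 0 ≤ w) :
    volume {x : V3 | |‖x - y‖ - r| ≤ w} ≤ ENNReal.ofReal (8 * Real.pi * w * (r + w) ^ 2) := by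
  obtain ⟨b⟩ : Nonempty (OrthonormalBasis (Fin 3) ℝ V3) := ⟨EuclideanSpace.basisFun (Fin 3) ℝ⟩
  have hpi := Real.pi_pos
  have h := vol_shell_slab b y (max (r - w) 0) (r + w) (-(r + w)) (r + w) (le_max_right _ _)
    (max_le (by linarith) (by linarith)) (by linarith)
  refine le_trans (measure_mono ?_) (h.trans (ENNReal.ofReal_le_ofReal ?_))
  · intro x hx
    have h1 := abs_le.1 (show |‖x - y‖ - r| ≤ w from hx)
    have h2 := abs_real_inner_le_norm (b 2) (x - y)
    rw [b.norm_eq_one, one_mul] at h2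
    have h3 := abs_le.1 h2
    exact ⟨max_le (by linarith [h1.1]) (norm_nonneg _), by linarith [h1.2],
      by linarith [h1.2, h3.1], by linarith [h1.2, h3.2]⟩
  · have h1 : (r + w) ^ 2 - (max (r - w) 0) ^ 2 ≤ 4 * w * (r + w) := by
      rcases le_total (r - w) 0 with h | h
      · rw [max_eq_right h]; nlinarith
      · rw [max_eq_left h]; nlinarith
    calc Real.pi * ((r + w) ^ 2 - (max (r - w) 0) ^ 2) * (r + w - -(r + w))
        ≤ Real.pi * (4 * w * (r + w)) * (r + w - -(r + w)) := by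
          apply mul_le_mul_of_nonneg_right _ (by linarith)
          apply mul_le_mul_of_nonneg_left h1 hpi.le
      _ = _ := by ring

end Run7.h58
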